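import Mathlib

section

/-!
An `n`-dimensional prime of `ℂ[x, y]` lying over a curve in the `y`-space is, generically over the
curve, a hypersurface.
-/

namespace Pool.Agent.Lib.MP_209724_lc

open MvPolynomial

variable {n : ℕ}

namespace Elim

open Cardinal

/-- a surjection of domains which kills a nonzero element lowers the transcendence degree -/
lemma trdeg_lt_of_surjective {K D D' : Type} [Field K] [CommRing D] [IsDomain D] [CommRing D']
    [IsDomain D'] [Algebra K D] [Algebra K D'] (f : D →ₐ[K] D') (hf : Function.Surjective f)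
    {a : D} (ha : a ≠ 0) (hfa : f a = 0) (fin : Algebra.trdeg K D < ℵ₀) :
    Algebra.trdeg K D' < Algebra.trdeg K D := by
  by_contra hle
  rw [not_lt] at hle
  obtain ⟨ι, z, hz⟩ := exists_isTranscendenceBasis' K D'
  choose y hy using fun i => hf (z i)
  have hfy : f ∘ y = z := funext hy
  have hyi : AlgebraicIndependent K y := AlgebraicIndependent.of_comp f (by rw [hfy]; exact hz.1)
  have hcard : Algebra.trdeg K D ≤ #ι := by
    rw [hz.cardinalMk_eq_trdeg]; exact hle
  have hyb := hyi.isTranscendenceBasis_of_trdeg_le fin hcard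
  have halg := hyb.isAlgebraic
  obtain ⟨r, hr, hdvd⟩ := (halg.1 a).exists_nonzero_dvd (mem_nonZeroDivisors_of_ne_zero ha)
  have hfr : f (r : D) = 0 := by
    obtain ⟨s, hs⟩ := hdvd
    have : (algebraMap (Algebra.adjoin K (Set.range y)) D) r = (r : D) := rfl
    rw [← this, hs, map_mul, hfa, zero_mul]
  have hmem : (r : D) ∈ (aeval y : MvPolynomial ι K →ₐ[K] D).range := by
    rw [← Algebra.adjoin_range_eq_range_aeval]; exact r.2
  obtain ⟨p, hp⟩ := hmem
  have hp' : (aeval y : MvPolynomial ι K →ₐ[K] D) p = (r : D) := hp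
  have h0 : (aeval z : MvPolynomial ι K →ₐ[K] D') p = 0 := by
    have : (aeval z : MvPolynomial ι K →ₐ[K] D') p = f (aeval y p) := by
      rw [← hfy]; exact (MvPolynomial.comp_aeval_apply y f p).symm
    rw [this, hp', hfr]
  have hp0 : p = 0 := hz.1.eq_zero_of_aeval_eq_zero p h0
  apply hr
  apply Subtype.ext
  rw [← hp', hp0, map_zero]
  rfl

/-- a prime of `K[x_1, …, x_n]` of coheight `n - 1` is principal -/
lemma principal_of_trdeg {K : Type} [Field K] (Q : Ideal (MvPolynomial (Fin n) K)) [Q.IsPrime]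
    (h : Algebra.trdeg K (MvPolynomial (Fin n) K ⧸ Q) + 1 = n) :
    ∃ p, Irreducible p ∧ Q = Ideal.span {p} := by
  have hn : Algebra.trdeg K (MvPolynomial (Fin n) K) = n := by
    rw [MvPolynomial.trdeg_of_isDomain]; simp
  have hQ : Q ≠ ⊥ := by
    rintro rfl
    have e := (AlgEquiv.quotientBot K (MvPolynomial (Fin n) K)).trdeg_eq
    rw [e, hn] at h
    have : ((n + 1 : ℕ) : Cardinal) = n := by push_cast; exact h
    have := Nat.cast_injective this
    omega
  obtain ⟨p, hpQ, hp⟩ := Ideal.IsPrime.exists_mem_prime_of_ne_bot ‹Q.IsPrime› hQ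
  refine ⟨p, hp.irreducible, ?_⟩
  by_contra hne
  have hle : Ideal.span {p} ≤ Q := by rwa [Ideal.span_singleton_le_iff_mem]
  have hlt : Ideal.span {p} < Q := lt_of_le_of_ne hle (Ne.symm hne)
  obtain ⟨q, hqQ, hqp⟩ := Set.exists_of_ssubset hlt
  have : (Ideal.span {p}).IsPrime := (Ideal.span_singleton_prime hp.ne_zero).2 hp
  have h1 : Algebra.trdeg K (MvPolynomial (Fin n) K ⧸ Ideal.span {p}) < n := by
    rw [← hn]
    apply trdeg_lt_of_surjective (Ideal.Quotient.mkₐ K (Ideal.span {p}))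
      (Ideal.Quotient.mkₐ_surjective K _) hp.ne_zero
    · exact Ideal.Quotient.eq_zero_iff_mem.2 (Ideal.mem_span_singleton_self p)
    · rw [hn]; exact natCast_lt_aleph0
  have h2 : Algebra.trdeg K (MvPolynomial (Fin n) K ⧸ Q) <
      Algebra.trdeg K (MvPolynomial (Fin n) K ⧸ Ideal.span {p}) := by
    apply trdeg_lt_of_surjective (Ideal.Quotient.factorₐ K hle)
      (Ideal.Quotient.factor_surjective hle) (a := Ideal.Quotient.mk _ q)
    · rwa [Ne, Ideal.Quotient.eq_zero_iff_mem]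
    · show Ideal.Quotient.factor hle (Ideal.Quotient.mk _ q) = 0
      rw [Ideal.Quotient.factor_mk, Ideal.Quotient.eq_zero_iff_mem]
      exact hqQ
    · exact h1.trans natCast_lt_aleph0
  obtain ⟨b, hb⟩ := lt_aleph0.1 (h1.trans natCast_lt_aleph0)
  obtain ⟨a, ha⟩ := lt_aleph0.1 (h2.trans (h1.trans natCast_lt_aleph0))
  rw [hb] at h1 h2
  rw [ha] at h h2
  have h3 : a + 1 = n := by exact_mod_cast h
  have h4 : a < b := by exact_mod_cast h2
  have h5 : b < n := by exact_mod_cast h1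
  omega

lemma trdeg_fractionRing {A K : Type} [CommRing A] [IsDomain A] [Field K] [Algebra ℂ A]
    [Algebra ℂ K] [Algebra A K] [IsScalarTower ℂ A K] [IsFractionRing A K] :
    Algebra.trdeg ℂ K = Algebra.trdeg ℂ A := by
  have h := trdeg_add_eq ℂ A (A := K)
  have : Algebra.IsAlgebraic A K := IsLocalization.isAlgebraic K (nonZeroDivisors A)
  rw [trdeg_eq_zero (R := A) (A := K), add_zero] at h
  exact h.symm

/-- the kernel is principal -/
lemma ker_principal {A B K L : Type} [CommRing A] [IsDomain A] [CommRing B] [IsDomain B]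
    [Field K] [Field L] [Algebra ℂ A] [Algebra ℂ B] [Algebra ℂ K] [Algebra ℂ L] [Algebra A B]
    [Algebra A K] [Algebra A L] [Algebra B L] [Algebra K L]
    [IsScalarTower ℂ A K] [IsScalarTower ℂ B L] [IsScalarTower ℂ K L] [IsScalarTower A B L]
    [IsScalarTower A K L] [IsFractionRing A K] [IsFractionRing B L]
    (x : Fin n → B) (hx : Function.Surjective (aeval x : MvPolynomial (Fin n) A →ₐ[A] B))
    (hA : Algebra.trdeg ℂ A = 1) (hB : Algebra.trdeg ℂ B = n) :
    ∃ p : MvPolynomial (Fin n) K, Irreducible p ∧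
      RingHom.ker (aeval (fun i => algebraMap B L (x i)) : MvPolynomial (Fin n) K →ₐ[K] L) =
        Ideal.span {p} := by
  set ev : MvPolynomial (Fin n) K →ₐ[K] L := aeval (fun i => algebraMap B L (x i)) with hev
  have hprime : (RingHom.ker ev).IsPrime := RingHom.ker_isPrime ev
  apply principal_of_trdeg
  have hrange : ∀ b : B, algebraMap B L b ∈ ev.range := by
    intro b
    obtain ⟨f, rfl⟩ := hx b
    refine ⟨MvPolynomial.map (algebraMap A K) f, ?_⟩
    show ev (MvPolynomial.map (algebraMap A K) f) = _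
    rw [hev, aeval_map_algebraMap, ← MvPolynomial.aeval_algebraMap_apply]
    rfl
  have halg : Algebra.IsAlgebraic ev.range L := by
    constructor
    intro z
    obtain ⟨b, c, hc, rfl⟩ := IsFractionRing.div_surjective (A := B) z
    have h1 : IsAlgebraic ev.range (algebraMap B L b) :=
      isAlgebraic_algebraMap (⟨_, hrange b⟩ : ev.range)
    have h2 : IsAlgebraic ev.range (algebraMap B L c) :=
      isAlgebraic_algebraMap (⟨_, hrange c⟩ : ev.range)
    rw [div_eq_mul_inv]
    exact h1.mul h2.inv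
  have h1 : Algebra.trdeg K (MvPolynomial (Fin n) K ⧸ RingHom.ker ev) =
      Algebra.trdeg K ev.range := (Ideal.quotientKerEquivRange ev).trdeg_eq
  have h2 : Algebra.trdeg K ev.range = Algebra.trdeg K L := by
    have h := trdeg_add_eq K ev.range (A := L)
    rw [trdeg_eq_zero (R := ev.range) (A := L), add_zero] at h
    exact h
  have h3 := trdeg_add_eq ℂ K (A := L)
  rw [trdeg_fractionRing (A := A) (K := K), trdeg_fractionRing (A := B) (K := L), hA, hB] at h3
  rw [h1, h2, add_comm, h3]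

section lift

variable {R K : Type} [CommRing R] [Field K] (ψ : R →+* K)

/-- clearing denominators -/
lemma exists_lift (hψ : ∀ k : K, ∃ a d : R, ψ d ≠ 0 ∧ ψ a = ψ d * k)
    (p : MvPolynomial (Fin n) K) :
    ∃ (P : MvPolynomial (Fin n) R) (d : R), ψ d ≠ 0 ∧ MvPolynomial.map ψ P = C (ψ d) * p := by
  induction p using MvPolynomial.induction_on with
  | C k =>
    obtain ⟨a, d, hd, h⟩ := hψ k
    exact ⟨C a, d, hd, by rw [map_C, h, map_mul]⟩
  | add p q hp hq =>
    obtain ⟨P, d, hd, h⟩ := hp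
    obtain ⟨P', d', hd', h'⟩ := hq
    refine ⟨C d' * P + C d * P', d * d', by rw [map_mul]; exact mul_ne_zero hd hd', ?_⟩
    rw [map_add, map_mul, map_mul, h, h', map_C, map_C, map_mul, map_mul]
    ring
  | mul_X p i hp =>
    obtain ⟨P, d, hd, h⟩ := hp
    exact ⟨P * X i, d, hd, by rw [map_mul, h, map_X]; ring⟩

/-- clearing denominators, without superfluous coefficients -/
lemma exists_lift' (hψ : ∀ k : K, ∃ a d : R, ψ d ≠ 0 ∧ ψ a = ψ d * k)
    (p : MvPolynomial (Fin n) K) :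
    ∃ (P : MvPolynomial (Fin n) R) (d : R), ψ d ≠ 0 ∧ MvPolynomial.map ψ P = C (ψ d) * p ∧
      ∀ m, P.coeff m ≠ 0 → ψ (P.coeff m) ≠ 0 := by
  classical
  obtain ⟨P, d, hd, h⟩ := exists_lift ψ hψ p
  set P' : MvPolynomial (Fin n) R :=
    ∑ m ∈ P.support.filter (fun m => ψ (P.coeff m) ≠ 0), monomial m (P.coeff m) with hP'
  have hc : ∀ m, P'.coeff m = if ψ (P.coeff m) ≠ 0 then P.coeff m else 0 := by
    intro m
    rw [hP', coeff_sum]
    simp only [coeff_monomial]
    rw [Finset.sum_ite_eq']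
    by_cases hm : ψ (P.coeff m) ≠ 0
    · have : m ∈ P.support := by
        rw [mem_support_iff]; intro h0; rw [h0, map_zero] at hm; exact hm rfl
      simp [hm, this]
    · simp [hm]
  refine ⟨P', d, hd, ?_, ?_⟩
  · rw [← h]
    ext m
    rw [coeff_map, coeff_map, hc]
    by_cases hm : ψ (P.coeff m) ≠ 0
    · rw [if_pos hm]
    · rw [if_neg hm, map_zero]; push Not at hm; exact hm.symm
  · intro m hm
    rw [hc] at hm ⊢
    by_cases hm' : ψ (P.coeff m) ≠ 0
    · rw [if_pos hm']; exact hm'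
    · rw [if_neg hm'] at hm; exact absurd rfl hm

end lift

lemma eval_sumAlgEquiv (q : MvPolynomial (Fin n ⊕ Fin n) ℂ) (x y : Fin n → ℂ) :
    eval x (MvPolynomial.map (eval y) (sumAlgEquiv ℂ (Fin n) (Fin n) q)) =
      eval (Sum.elim x y) q := by
  have : ((eval x).comp ((MvPolynomial.map (eval y)).comp
      ((sumAlgEquiv ℂ (Fin n) (Fin n)).toAlgHom : _ →+* _))) =
      (eval (Sum.elim x y) : MvPolynomial (Fin n ⊕ Fin n) ℂ →+* ℂ) := by
    apply MvPolynomial.ringHom_ext
    · intro r; simp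
    · rintro (i | i) <;> simp
  exact DFunLike.congr_fun this q

/-- the final step -/
lemma final {K L : Type} [Field K] [Field L] (Q : Ideal (MvPolynomial (Fin n ⊕ Fin n) ℂ))
    (J : Ideal (MvPolynomial (Fin n) ℂ)) (hJp : J.IsPrime)
    (ψ : MvPolynomial (Fin n) ℂ →+* K)
    (hψ : ∀ k : K, ∃ a d : MvPolynomial (Fin n) ℂ, ψ d ≠ 0 ∧ ψ a = ψ d * k)
    (hψJ : ∀ f, ψ f = 0 ↔ f ∈ J)
    (θ : MvPolynomial (Fin n ⊕ Fin n) ℂ →+* L) (hθ : ∀ q, θ q = 0 ↔ q ∈ Q)
    (ev : MvPolynomial (Fin n) K →+* L)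
    (hcomp : ∀ F, ev (MvPolynomial.map ψ F) = θ ((sumAlgEquiv ℂ (Fin n) (Fin n)).symm F))
    (p : MvPolynomial (Fin n) K) (hp : Irreducible p) (hker : RingHom.ker ev = Ideal.span {p}) :
    ∃ (P : MvPolynomial (Fin n) (MvPolynomial (Fin n) ℂ)) (D : MvPolynomial (Fin n) ℂ),
      D ∉ J ∧ P ≠ 0 ∧ (∀ m, P.coeff m ≠ 0 → P.coeff m ∉ J) ∧
      (sumAlgEquiv ℂ (Fin n) (Fin n)).symm P ∈ Q ∧
      (∀ q ∈ Q, ∀ x y : Fin n → ℂ, (∀ f ∈ J, eval y f = 0) → eval y D ≠ 0 →
        eval x (MvPolynomial.map (eval y) P) = 0 → eval (Sum.elim x y) q = 0) ∧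
      (∀ (P₀ : MvPolynomial (Fin n) ℂ) (c : MvPolynomial (Fin n) ℂ), c ∉ J →
        (∀ m, P.coeff m - C (P₀.coeff m) * c ∈ J) → Irreducible P₀) := by
  classical
  obtain ⟨P, d, hd, hP, hPc⟩ := exists_lift' ψ hψ p
  have hu : IsUnit (C (ψ d) : MvPolynomial (Fin n) K) := (isUnit_iff_ne_zero.2 hd).map C
  have hass : Associated p (MvPolynomial.map ψ P) := by
    rw [hP, mul_comm]
    exact (associated_mul_unit_right p _ hu)
  have hspan : RingHom.ker ev = Ideal.span {MvPolynomial.map ψ P} := by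
    rw [hker]; exact Ideal.span_singleton_eq_span_singleton.2 hass
  have hirr : Irreducible (MvPolynomial.map ψ P) := hass.irreducible hp
  -- the denominators
  have hden : ∀ q ∈ Q, ∃ e : MvPolynomial (Fin n) ℂ, e ∉ J ∧ ∀ x y : Fin n → ℂ,
      (∀ f ∈ J, eval y f = 0) → eval y e ≠ 0 →
        eval x (MvPolynomial.map (eval y) P) = 0 → eval (Sum.elim x y) q = 0 := by
    intro q hq
    have h1 : ev (MvPolynomial.map ψ (sumAlgEquiv ℂ (Fin n) (Fin n) q)) = 0 := by
      rw [hcomp, AlgEquiv.symm_apply_apply, hθ]; exact hq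
    have h2 : MvPolynomial.map ψ (sumAlgEquiv ℂ (Fin n) (Fin n) q) ∈
        Ideal.span {MvPolynomial.map ψ P} := by
      rw [← hspan]; exact h1
    obtain ⟨h, hh⟩ := Ideal.mem_span_singleton.1 h2
    obtain ⟨H, e, he, hH⟩ := exists_lift ψ hψ h
    refine ⟨e, fun hmem => he ((hψJ e).2 hmem), ?_⟩
    intro x y hy hye hP0
    have h3 : MvPolynomial.map ψ (C e * sumAlgEquiv ℂ (Fin n) (Fin n) q - P * H) = 0 := by
      rw [map_sub, map_mul, map_mul, hh, hH, map_C]; ring
    have h4 : MvPolynomial.map (eval y) (C e * sumAlgEquiv ℂ (Fin n) (Fin n) q - P * H) = 0 := by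
      ext m
      rw [coeff_map, coeff_zero]
      apply hy
      rw [← hψJ, ← coeff_map, h3, coeff_zero]
    have h5 := congrArg (eval x) h4
    rw [map_sub, map_mul, map_mul, map_C, map_sub, map_mul, map_mul, eval_C, hP0, zero_mul,
      sub_zero, map_zero, eval_sumAlgEquiv] at h5
    exact (mul_eq_zero.1 h5).resolve_left hye
  choose! e heJ he using hden
  obtain ⟨S, hS⟩ := (isNoetherianRing_iff_ideal_fg _).1
    (inferInstance : IsNoetherianRing (MvPolynomial (Fin n ⊕ Fin n) ℂ)) Q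
  have hSQ : ∀ q ∈ S, q ∈ Q := fun q hq => by rw [← hS]; exact Ideal.subset_span hq
  refine ⟨P, ∏ q ∈ S, e q, ?_, ?_, ?_, ?_, ?_, ?_⟩
  · rw [hJp.prod_mem_iff]
    rintro ⟨q, hq, hqe⟩
    exact heJ q (hSQ q hq) hqe
  · rintro rfl
    rw [map_zero] at hirr
    exact hirr.ne_zero rfl
  · intro m hm hmem
    exact hPc m hm ((hψJ _).2 hmem)
  · rw [← hθ, ← hcomp]
    have : MvPolynomial.map ψ P ∈ RingHom.ker ev := by
      rw [hspan]; exact Ideal.mem_span_singleton_self _
    exact this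
  · intro q hq x y hy hD hP0
    have hle : Q ≤ RingHom.ker (eval (Sum.elim x y) : MvPolynomial (Fin n ⊕ Fin n) ℂ →+* ℂ) := by
      rw [← hS, Ideal.span_le]
      intro q' hq'
      rw [map_prod, Finset.prod_ne_zero_iff] at hD
      exact he q' (hSQ q' hq') x y hy (hD q' hq') hP0
    exact hle hq
  · intro P₀ c hc hcoef
    have hψc : ψ c ≠ 0 := fun h => hc ((hψJ c).1 h)
    have hmap : MvPolynomial.map ψ P = C (ψ c) * MvPolynomial.map (ψ.comp C) P₀ := by
      ext m
      rw [coeff_map, coeff_C_mul, coeff_map, RingHom.comp_apply]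
      have := (hψJ _).2 (hcoef m)
      rw [map_sub, map_mul, sub_eq_zero] at this
      rw [this, mul_comm]
    have huc : IsUnit (C (ψ c) : MvPolynomial (Fin n) K) := (isUnit_iff_ne_zero.2 hψc).map C
    have hirr2 : Irreducible (MvPolynomial.map (ψ.comp C) P₀) := by
      have hass2 : Associated (MvPolynomial.map ψ P) (MvPolynomial.map (ψ.comp C) P₀) := by
        rw [hmap, mul_comm]
        exact (associated_mul_unit_right _ _ huc).symm
      exact hass2.irreducible hirr
    have hinj : Function.Injective (ψ.comp C : ℂ →+* K) := RingHom.injective _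
    have hunit : ∀ F : MvPolynomial (Fin n) ℂ, IsUnit (MvPolynomial.map (ψ.comp C) F) →
        IsUnit F := by
      intro F hF
      rw [MvPolynomial.isUnit_iff_eq_C_of_isReduced] at hF ⊢
      obtain ⟨r, hr, hFr⟩ := hF
      refine ⟨F.coeff 0, ?_, ?_⟩
      · rw [isUnit_iff_ne_zero]
        intro h0
        have h1 : (MvPolynomial.map (ψ.comp C) F).coeff 0 = 0 := by
          rw [coeff_map, h0, map_zero]
        rw [hFr, coeff_C] at h1
        simp only [if_true] at h1
        rw [h1] at hr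
        exact not_isUnit_zero hr
      · ext m
        apply hinj
        rw [← coeff_map, ← coeff_map, hFr, map_C, coeff_C, coeff_C]
        have h1 : (MvPolynomial.map (ψ.comp C) F).coeff 0 = r := by
          rw [hFr, coeff_C]; simp
        rw [coeff_map] at h1
        rw [h1]
    constructor
    · intro hu0
      exact hirr2.not_isUnit (hu0.map (MvPolynomial.map (ψ.comp C)))
    · intro F G hFG
      rw [hFG, map_mul] at hirr2
      rcases hirr2.isUnit_or_isUnit rfl with h | h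
      · exact Or.inl (hunit F h)
      · exact Or.inr (hunit G h)

end Elim

open Elim in
/-- M4 -/
theorem exists_hypersurface (Q : Ideal (MvPolynomial (Fin n ⊕ Fin n) ℂ)) (hQ : Q.IsPrime)
    (hdim : Algebra.trdeg ℂ (MvPolynomial (Fin n ⊕ Fin n) ℂ ⧸ Q) = n)
    (J : Ideal (MvPolynomial (Fin n) ℂ))
    (hJ : J = Q.comap (rename Sum.inr : MvPolynomial (Fin n) ℂ →ₐ[ℂ] _))
    (hJdim : Algebra.trdeg ℂ (MvPolynomial (Fin n) ℂ ⧸ J) = 1) :
    ∃ (P : MvPolynomial (Fin n) (MvPolynomial (Fin n) ℂ)) (D : MvPolynomial (Fin n) ℂ),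
      D ∉ J ∧ P ≠ 0 ∧ (∀ m, P.coeff m ≠ 0 → P.coeff m ∉ J) ∧
      (sumAlgEquiv ℂ (Fin n) (Fin n)).symm P ∈ Q ∧
      (∀ q ∈ Q, ∀ x y : Fin n → ℂ, (∀ f ∈ J, eval y f = 0) → eval y D ≠ 0 →
        eval x (MvPolynomial.map (eval y) P) = 0 → eval (Sum.elim x y) q = 0) ∧
      (∀ (P₀ : MvPolynomial (Fin n) ℂ) (c : MvPolynomial (Fin n) ℂ), c ∉ J →
        (∀ m, P.coeff m - C (P₀.coeff m) * c ∈ J) → Irreducible P₀) := by
  classical
  have hJp : J.IsPrime := by rw [hJ]; exact Ideal.IsPrime.comap _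
  -- the rings
  let A := MvPolynomial (Fin n) ℂ ⧸ J
  let B := MvPolynomial (Fin n ⊕ Fin n) ℂ ⧸ Q
  let K := FractionRing A
  let L := FractionRing B
  let ι : MvPolynomial (Fin n) ℂ →ₐ[ℂ] MvPolynomial (Fin n ⊕ Fin n) ℂ := rename Sum.inr
  let φ : A →ₐ[ℂ] B := Ideal.quotientMapₐ Q ι (le_of_eq hJ)
  have hφ : Function.Injective φ :=
    Ideal.quotientMap_injective' (f := ι.toRingHom) (H := le_of_eq hJ) (le_of_eq hJ.symm)
  let _ : Algebra A B := φ.toRingHom.toAlgebra
  have hABL : IsScalarTower A B L := inferInstance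
  have : FaithfulSMul A L := by
    refine (faithfulSMul_iff_algebraMap_injective A L).2 ?_
    rw [IsScalarTower.algebraMap_eq A B L]
    exact (IsFractionRing.injective B L).comp hφ
  let _ : Algebra K L := FractionRing.liftAlgebra A L
  have : IsScalarTower A K L := FractionRing.isScalarTower_liftAlgebra A L
  have : IsScalarTower ℂ K L := by
    apply IsScalarTower.of_algebraMap_eq
    intro r
    rw [IsScalarTower.algebraMap_apply ℂ A K, ← IsScalarTower.algebraMap_apply A K L,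
      IsScalarTower.algebraMap_apply A B L, IsScalarTower.algebraMap_apply ℂ B L]
    congr 1
    exact (φ.commutes r).symm
  let x : Fin n → B := fun i => Ideal.Quotient.mk Q (X (Sum.inl i))
  have hevA : ∀ F : MvPolynomial (Fin n) (MvPolynomial (Fin n) ℂ),
      (aeval x : MvPolynomial (Fin n) A →ₐ[A] B) (MvPolynomial.map (Ideal.Quotient.mk J) F) =
        Ideal.Quotient.mk Q ((sumAlgEquiv ℂ (Fin n) (Fin n)).symm F) := by
    intro F
    have : ((aeval x : MvPolynomial (Fin n) A →ₐ[A] B).toRingHom.comp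
        (MvPolynomial.map (Ideal.Quotient.mk J))) =
        ((Ideal.Quotient.mk Q).comp
          ((sumAlgEquiv ℂ (Fin n) (Fin n)).symm.toAlgHom.toRingHom)) := by
      apply MvPolynomial.ringHom_ext'
      · apply MvPolynomial.ringHom_ext
        · intro r
          show (aeval x : MvPolynomial (Fin n) A →ₐ[A] B) (MvPolynomial.map _ (C (C r))) =
            Ideal.Quotient.mk Q ((sumAlgEquiv ℂ (Fin n) (Fin n)).symm (C (C r)))
          rw [map_C, aeval_C, sumAlgEquiv_symm_C_C]
          exact φ.commutes r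
        · intro i
          show (aeval x : MvPolynomial (Fin n) A →ₐ[A] B) (MvPolynomial.map _ (C (X i))) =
            Ideal.Quotient.mk Q ((sumAlgEquiv ℂ (Fin n) (Fin n)).symm (C (X i)))
          rw [map_C, aeval_C, sumAlgEquiv_symm_C_X]
          show Ideal.Quotient.mk Q (rename Sum.inr (X i)) = _
          rw [rename_X]
      · intro i
        show (aeval x : MvPolynomial (Fin n) A →ₐ[A] B) (MvPolynomial.map _ (X i)) =
            Ideal.Quotient.mk Q ((sumAlgEquiv ℂ (Fin n) (Fin n)).symm (X i))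
        rw [map_X, aeval_X, sumAlgEquiv_symm_X]
    exact DFunLike.congr_fun this F
  have hx : Function.Surjective (aeval x : MvPolynomial (Fin n) A →ₐ[A] B) := by
    intro b
    obtain ⟨q, rfl⟩ := Ideal.Quotient.mk_surjective b
    refine ⟨MvPolynomial.map (Ideal.Quotient.mk J) (sumAlgEquiv ℂ (Fin n) (Fin n) q), ?_⟩
    rw [hevA, AlgEquiv.symm_apply_apply]
  obtain ⟨p, hp, hker⟩ := ker_principal (A := A) (B := B) (K := K) (L := L) x hx hJdim hdim
  refine final Q J hJp ((algebraMap A K).comp (Ideal.Quotient.mk J)) ?_ ?_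
    ((algebraMap B L).comp (Ideal.Quotient.mk Q)) ?_
    (aeval (fun i => algebraMap B L (x i)) : MvPolynomial (Fin n) K →ₐ[K] L).toRingHom ?_ p hp hker
  · intro k
    obtain ⟨a, d, hd, rfl⟩ := IsFractionRing.div_surjective (A := A) k
    obtain ⟨a, rfl⟩ := Ideal.Quotient.mk_surjective a
    obtain ⟨d, rfl⟩ := Ideal.Quotient.mk_surjective d
    have hd' : algebraMap A K (Ideal.Quotient.mk J d) ≠ 0 := by
      intro h0
      exact nonZeroDivisors.ne_zero hd ((IsFractionRing.injective A K) (by rw [h0, map_zero]))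
    refine ⟨a, d, hd', ?_⟩
    show algebraMap A K (Ideal.Quotient.mk J a) = algebraMap A K (Ideal.Quotient.mk J d) * _
    rw [mul_div_assoc', mul_div_cancel_left₀ _ hd']
  · intro f
    rw [RingHom.comp_apply, map_eq_zero_iff _ (IsFractionRing.injective A K),
      Ideal.Quotient.eq_zero_iff_mem]
  · intro q
    rw [RingHom.comp_apply, map_eq_zero_iff _ (IsFractionRing.injective B L),
      Ideal.Quotient.eq_zero_iff_mem]
  · intro F
    rw [RingHom.comp_apply, ← hevA, ← MvPolynomial.map_map]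
    show (aeval (fun i => algebraMap B L (x i)) : MvPolynomial (Fin n) K →ₐ[K] L) _ = _
    rw [aeval_map_algebraMap, ← MvPolynomial.aeval_algebraMap_apply]
    rfl

end Pool.Agent.Lib.MP_209724_lc
end

section

/-!
A version of Hurwitz's theorem: if `G N → B` uniformly on a disc around a zero `c` of `B` and `B`
does not vanish identically near `c`, then `G N` has a zero close to `c` for all large `N`.
-/

namespace Pool.Agent.Lib.MP_209724_lc

open Filter Topology Metric

/-- If `f` is holomorphic on a disc, and smaller at the centre than anywhere on the boundary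
circle, then `f` has a zero in the disc. -/
theorem exists_zero_of_small_center {f : ℂ → ℂ} {c : ℂ} {r μ : ℝ} (hr : 0 < r)
    (hf : DiffContOnCl ℂ f (ball c r)) (hs : ∀ z ∈ sphere c r, μ ≤ ‖f z‖) (hc : ‖f c‖ < μ) :
    ∃ z ∈ ball c r, f z = 0 := by
  by_contra hcon
  push Not at hcon
  have hμ : 0 < μ := lt_of_le_of_lt (norm_nonneg _) hc
  have hne : ∀ z ∈ closure (ball c r), f z ≠ 0 := by
    intro z hz
    rw [closure_ball c hr.ne'] at hz
    rcases (lt_or_eq_of_le (mem_closedBall.mp hz)) with h | h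
    · exact hcon z (mem_ball.mpr h)
    · have h1 := hs z (mem_sphere.mpr h)
      intro h2
      rw [h2, norm_zero] at h1
      linarith
  have hinv := hf.inv hne
  have h1 := Complex.norm_le_of_forall_mem_frontier_norm_le (C := μ⁻¹) isBounded_ball hinv (by
    intro z hz
    rw [frontier_ball c hr.ne'] at hz
    have h2 := hs z hz
    simp only [Pi.inv_apply, norm_inv]
    exact inv_anti₀ hμ h2) (subset_closure (mem_ball_self hr))
  simp only [Pi.inv_apply, norm_inv] at h1
  have h3 : 0 < ‖f c‖ := norm_pos_iff.mpr (hcon c (mem_ball_self hr))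
  have h4 := (inv_le_inv₀ h3 hμ).mp h1
  linarith

/-- **Hurwitz's theorem**, existence part. -/
theorem hurwitz {B : ℂ → ℂ} {G : ℕ → ℂ → ℂ} {c : ℂ} {r : ℝ} (hr : 0 < r)
    (hB : AnalyticAt ℂ B c) (hB0 : B c = 0) (hBne : ∃ᶠ z in 𝓝 c, B z ≠ 0)
    (hG : ∀ᶠ N in atTop, DifferentiableOn ℂ (G N) (ball c r))
    (hlim : TendstoUniformlyOn G B atTop (ball c r)) :
    ∀ᶠ N in atTop, ∃ z ∈ ball c r, G N z = 0 := by
  have h1 : ∀ᶠ z in 𝓝[≠] c, B z ≠ 0 := by
    rcases hB.eventually_eq_zero_or_eventually_ne_zero with h | h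
    · exact absurd (h.mono fun z hz hne => hne hz) hBne
    · exact h
  rw [eventually_nhdsWithin_iff] at h1
  have h2 : ∀ᶠ z in 𝓝 c, AnalyticAt ℂ B z := hB.eventually_analyticAt
  obtain ⟨ρ₀, hρ₀, hball⟩ := Metric.eventually_nhds_iff.mp (h1.and h2)
  set ρ := min (ρ₀ / 2) (r / 2) with hρ
  have hρpos : 0 < ρ := by positivity
  have hρρ₀ : ρ < ρ₀ := lt_of_le_of_lt (min_le_left _ _) (by linarith)
  have hρr : ρ < r := lt_of_le_of_lt (min_le_right _ _) (by linarith)
  have hcont : ContinuousOn B (sphere c ρ) := by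
    intro z hz
    refine (hball ?_).2.continuousAt.continuousWithinAt
    rw [mem_sphere.mp hz]; exact hρρ₀
  have hne : ∀ z ∈ sphere c ρ, B z ≠ 0 := by
    intro z hz
    refine (hball (y := z) ?_).1 ?_
    · rw [mem_sphere.mp hz]; exact hρρ₀
    · intro h
      rw [Set.mem_singleton_iff] at h
      rw [h, mem_sphere, dist_self] at hz
      linarith
  obtain ⟨μ, hμ, hμB⟩ : ∃ μ > 0, ∀ z ∈ sphere c ρ, μ ≤ ‖B z‖ := by
    obtain ⟨z₀, hz₀, hmin⟩ := (isCompact_sphere c ρ).exists_isMinOn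
      (NormedSpace.sphere_nonempty.mpr hρpos.le) hcont.norm
    exact ⟨‖B z₀‖, norm_pos_iff.mpr (hne z₀ hz₀), fun z hz => hmin hz⟩
  have h3 := Metric.tendstoUniformlyOn_iff.mp hlim (μ / 2) (by positivity)
  filter_upwards [hG, h3] with N hGN hN
  have hsub : closedBall c ρ ⊆ ball c r := closedBall_subset_ball hρr
  have hd : DiffContOnCl ℂ (G N) (ball c ρ) := by
    refine DifferentiableOn.diffContOnCl ?_
    rw [closure_ball c hρpos.ne']
    exact hGN.mono hsub
  obtain ⟨z, hz, hz0⟩ := exists_zero_of_small_center (μ := μ / 2) hρpos hd (by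
    intro z hz
    have h4 := hN z (hsub (sphere_subset_closedBall hz))
    have h5 := hμB z hz
    rw [dist_eq_norm] at h4
    have h6 := norm_sub_norm_le (B z) (G N z)
    linarith) (by
    have h4 := hN c (mem_ball_self hr)
    rw [dist_eq_norm, hB0, zero_sub, norm_neg] at h4
    exact h4)
  exact ⟨z, ball_subset_ball hρr.le hz, hz0⟩

end Pool.Agent.Lib.MP_209724_lc
end

section

/-!
Uniform convergence on a set towards a bounded limit, and its compatibility with continuous
functions.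
-/

namespace Pool.Agent.Lib.MP_209724_lc

open Filter Topology Metric

/-- `G N → B` uniformly on `s`, and `B` is bounded on `s`. -/
def UConv {E : Type*} [NormedAddCommGroup E] (s : Set ℂ) (G : ℕ → ℂ → E) (B : ℂ → E) : Prop :=
  (∃ C : ℝ, ∀ u ∈ s, ‖B u‖ ≤ C) ∧ ∀ ε > 0, ∀ᶠ N in atTop, ∀ u ∈ s, ‖G N u - B u‖ < ε

theorem UConv.tendstoUniformlyOn {s : Set ℂ} {G : ℕ → ℂ → ℂ} {B : ℂ → ℂ} (h : UConv s G B) :
    TendstoUniformlyOn G B atTop s := by
  rw [Metric.tendstoUniformlyOn_iff]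
  intro ε hε
  filter_upwards [h.2 ε hε] with N hN u hu
  rw [dist_comm, dist_eq_norm]
  exact hN u hu

theorem UConv.congr {E : Type*} [NormedAddCommGroup E] {s : Set ℂ} {G G' : ℕ → ℂ → E}
    {B : ℂ → E} (h : UConv s G B) (h' : ∀ᶠ N in atTop, ∀ u ∈ s, G' N u = G N u) :
    UConv s G' B := by
  refine ⟨h.1, fun ε hε => ?_⟩
  filter_upwards [h.2 ε hε, h'] with N h1 h2 u hu
  rw [h2 u hu]
  exact h1 u hu

theorem UConv.comp {E E' : Type*} [NormedAddCommGroup E] [NormedAddCommGroup E'] [ProperSpace E]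
    {s : Set ℂ} {G : ℕ → ℂ → E} {B : ℂ → E} (h : UConv s G B) {F : E → E'} (hF : Continuous F) :
    UConv s (fun N u => F (G N u)) (fun u => F (B u)) := by
  obtain ⟨C, hC⟩ := h.1
  have hcomp : IsCompact (closedBall (0 : E) (C + 1)) := isCompact_closedBall _ _
  have huc : UniformContinuousOn F (closedBall (0 : E) (C + 1)) :=
    hcomp.uniformContinuousOn_of_continuous hF.continuousOn
  constructor
  · obtain ⟨D, hD⟩ := (hcomp.image hF).isBounded.exists_norm_le
    refine ⟨D, fun u hu => hD _ ⟨B u, ?_, rfl⟩⟩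
    rw [mem_closedBall_zero_iff]
    linarith [hC u hu]
  · intro ε hε
    rw [Metric.uniformContinuousOn_iff] at huc
    obtain ⟨δ, hδ, hδF⟩ := huc ε hε
    filter_upwards [h.2 (min δ 1) (by positivity)] with N hN u hu
    have h1 := hN u hu
    have h2 := hC u hu
    have h3 : ‖G N u‖ ≤ C + 1 := by
      have h4 : ‖G N u‖ ≤ ‖G N u - B u‖ + ‖B u‖ := by
        have := norm_add_le (G N u - B u) (B u)
        rwa [sub_add_cancel] at this
      have h5 := min_le_right δ 1
      linarith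
    have h6 := hδF (G N u) (mem_closedBall_zero_iff.mpr h3) (B u)
      (mem_closedBall_zero_iff.mpr (by linarith)) (by
        rw [dist_eq_norm]; exact lt_of_lt_of_le h1 (min_le_left _ _))
    rwa [dist_eq_norm] at h6

theorem UConv.prodMk {E E' : Type*} [NormedAddCommGroup E] [NormedAddCommGroup E']
    {s : Set ℂ} {G : ℕ → ℂ → E} {B : ℂ → E} {G' : ℕ → ℂ → E'} {B' : ℂ → E'}
    (h : UConv s G B) (h' : UConv s G' B') :
    UConv s (fun N u => (G N u, G' N u)) (fun u => (B u, B' u)) := by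
  obtain ⟨C, hC⟩ := h.1
  obtain ⟨C', hC'⟩ := h'.1
  refine ⟨⟨max C C', fun u hu => ?_⟩, fun ε hε => ?_⟩
  · rw [Prod.norm_mk]
    exact max_le_max (hC u hu) (hC' u hu)
  · filter_upwards [h.2 ε hε, h'.2 ε hε] with N h1 h2 u hu
    rw [Prod.mk_sub_mk, Prod.norm_mk]
    exact max_lt (h1 u hu) (h2 u hu)

theorem UConv.pi {ι : Type*} [Fintype ι] {s : Set ℂ} {G : ℕ → ℂ → ι → ℂ} {B : ℂ → ι → ℂ}
    (h : ∀ i, UConv s (fun N u => G N u i) (fun u => B u i)) : UConv s G B := by
  choose C hC using fun i => (h i).1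
  constructor
  · refine ⟨∑ i, |C i|, fun u hu => ?_⟩
    rw [pi_norm_le_iff_of_nonneg (Finset.sum_nonneg fun i _ => abs_nonneg _)]
    intro i
    refine le_trans (hC i u hu) (le_trans (le_abs_self _) ?_)
    exact Finset.single_le_sum (f := fun i => |C i|) (fun i _ => abs_nonneg _)
      (Finset.mem_univ i)
  · intro ε hε
    have h1 : ∀ᶠ N in atTop, ∀ i, ∀ u ∈ s, ‖G N u i - B u i‖ < ε :=
      eventually_all.mpr fun i => (h i).2 ε hε
    filter_upwards [h1] with N hN u hu
    rw [pi_norm_lt_iff hε]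
    intro i
    exact hN i u hu

theorem UConv.const {E : Type*} [NormedAddCommGroup E] {s : Set ℂ} {c : ℕ → E} {c₀ : E}
    (h : Tendsto c atTop (𝓝 c₀)) : UConv s (fun N _ => c N) (fun _ => c₀) := by
  refine ⟨⟨‖c₀‖, fun _ _ => le_refl _⟩, fun ε hε => ?_⟩
  have h1 := (Metric.tendsto_nhds.mp h) ε hε
  filter_upwards [h1] with N hN u _
  rwa [dist_eq_norm] at hN

theorem UConv.of_bounded {E : Type*} [NormedAddCommGroup E] {s : Set ℂ} {B : ℂ → E} {C : ℝ}
    (h : ∀ u ∈ s, ‖B u‖ ≤ C) : UConv s (fun _ u => B u) B := by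
  refine ⟨⟨C, h⟩, fun ε hε => Eventually.of_forall fun N u _ => ?_⟩
  rw [sub_self, norm_zero]
  exact hε

/-- A null sequence times a bounded sequence tends to zero. -/
theorem UConv.zero_of_mul_bounded {s : Set ℂ} {r : ℕ → ℂ} (hr : Tendsto r atTop (𝓝 0))
    {W : ℕ → ℂ → ℂ} {C : ℝ} (hW : ∀ᶠ N in atTop, ∀ u ∈ s, ‖W N u‖ ≤ C) :
    UConv s (fun N u => r N * W N u) (fun _ => 0) := by
  refine ⟨⟨0, fun u _ => by simp⟩, fun ε hε => ?_⟩
  have hC1 : 0 < |C| + 1 := by positivity
  have h1 := (Metric.tendsto_nhds.mp hr) (ε / (|C| + 1)) (by positivity)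
  filter_upwards [h1, hW] with N h2 h3 u hu
  rw [dist_zero_right] at h2
  rw [sub_zero, norm_mul]
  have h4 := h3 u hu
  have h5 : ‖W N u‖ < |C| + 1 := by
    have := le_abs_self C
    linarith
  calc ‖r N‖ * ‖W N u‖ ≤ ‖r N‖ * (|C| + 1) := by gcongr
    _ < ε / (|C| + 1) * (|C| + 1) := by gcongr
    _ = ε := by field_simp

theorem UConv.add {s : Set ℂ} {G G' : ℕ → ℂ → ℂ} {B B' : ℂ → ℂ} (h : UConv s G B)
    (h' : UConv s G' B') : UConv s (fun N u => G N u + G' N u) (fun u => B u + B' u) :=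
  (h.prodMk h').comp (F := fun p : ℂ × ℂ => p.1 + p.2) (by fun_prop)

theorem UConv.mul {s : Set ℂ} {G G' : ℕ → ℂ → ℂ} {B B' : ℂ → ℂ} (h : UConv s G B)
    (h' : UConv s G' B') : UConv s (fun N u => G N u * G' N u) (fun u => B u * B' u) :=
  (h.prodMk h').comp (F := fun p : ℂ × ℂ => p.1 * p.2) (by fun_prop)

theorem UConv.sum {ι : Type*} (I : Finset ι) {s : Set ℂ} {G : ι → ℕ → ℂ → ℂ} {B : ι → ℂ → ℂ}
    (h : ∀ i ∈ I, UConv s (G i) (B i)) :
    UConv s (fun N u => ∑ i ∈ I, G i N u) (fun u => ∑ i ∈ I, B i u) := by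
  classical
  induction I using Finset.induction_on with
  | empty =>
    simp only [Finset.sum_empty]
    exact ⟨⟨0, fun u _ => by simp⟩, fun ε hε => Eventually.of_forall fun N u _ => by simpa⟩
  | insert i I hi ih =>
    simp only [Finset.sum_insert hi]
    exact (h i (Finset.mem_insert_self _ _)).add
      (ih fun j hj => h j (Finset.mem_insert_of_mem hj))

theorem UConv.pow {s : Set ℂ} {G : ℕ → ℂ → ℂ} {B : ℂ → ℂ} (h : UConv s G B) (m : ℕ) :
    UConv s (fun N u => G N u ^ m) (fun u => B u ^ m) :=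
  h.comp (F := fun z => z ^ m) (by fun_prop)

/-- Hurwitz's theorem for `UConv`. -/
theorem UConv.exists_zero {B : ℂ → ℂ} {G : ℕ → ℂ → ℂ} {c : ℂ} {r : ℝ} (hr : 0 < r)
    (hB : AnalyticAt ℂ B c) (hB0 : B c = 0) (hBne : ∃ᶠ z in 𝓝 c, B z ≠ 0)
    (hG : ∀ᶠ N in atTop, DifferentiableOn ℂ (G N) (ball c r))
    (hlim : UConv (ball c r) G B) :
    ∀ᶠ N in atTop, ∃ z ∈ ball c r, G N z = 0 :=
  hurwitz hr hB hB0 hBne hG hlim.tendstoUniformlyOn

end Pool.Agent.Lib.MP_209724_lc
end

section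

/-!
Solutions of `P(x) = 0`, `exp x ∈ W` near a puncture of a curve `W ⊆ (ℂ*)ⁿ`: linear scaling.
-/

namespace Pool.Agent.Lib.MP_209724_lc

open Filter Topology Metric Complex

variable {n : ℕ}

/-- The logarithmic coordinates of the points of the germ `t ↦ (t ^ a i * exp (ℓ i t))_i`,
with `t = exp s` and the branch of the logarithm given by `k`. -/
noncomputable def curve (a : Fin n → ℤ) (ℓ : Fin n → ℂ → ℂ) (k : Fin n → ℤ) (s : ℂ) :
    Fin n → ℂ :=
  fun i => a i * s + ℓ i (exp s) + 2 * Real.pi * I * k i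

theorem differentiableOn_eval {v : ℂ → Fin n → ℂ} {s : Set ℂ}
    (hv : ∀ i, DifferentiableOn ℂ (fun u => v u i) s) (P : MvPolynomial (Fin n) ℂ) :
    DifferentiableOn ℂ (fun u => MvPolynomial.eval (v u) P) s := by
  induction P using MvPolynomial.induction_on with
  | C c => simp only [MvPolynomial.eval_C]; exact differentiableOn_const c
  | add p q hp hq => simp only [map_add]; exact hp.add hq
  | mul_X p i hp => simp only [map_mul, MvPolynomial.eval_X]; exact hp.mul (hv i)

theorem eval_mul_of_isHomogeneous {q : MvPolynomial (Fin n) ℂ} {d : ℕ} (hq : q.IsHomogeneous d)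
    (c : ℂ) (v : Fin n → ℂ) :
    MvPolynomial.eval (fun i => c * v i) q = c ^ d * MvPolynomial.eval v q := by
  rw [MvPolynomial.eval_eq, MvPolynomial.eval_eq, Finset.mul_sum]
  refine Finset.sum_congr rfl fun m hm => ?_
  have h1 : ∑ i ∈ m.support, m i = d := (hq.degree_eq_sum_deg_support hm).symm
  simp_rw [mul_pow]
  rw [Finset.prod_mul_distrib, Finset.prod_pow_eq_pow_sum, h1]
  ring

/-- The rescaled polynomial `F(h, v) = h ^ d P(v / h)`, for `d` the degree of `P`. -/
noncomputable def rescaled (P : MvPolynomial (Fin n) ℂ) (d : ℕ) (h : ℂ) (v : Fin n → ℂ) : ℂ :=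
  ∑ j ∈ Finset.range (d + 1), h ^ (d - j) *
    MvPolynomial.eval v (MvPolynomial.homogeneousComponent j P)

theorem continuous_rescaled (P : MvPolynomial (Fin n) ℂ) (d : ℕ) :
    Continuous (fun p : ℂ × (Fin n → ℂ) => rescaled P d p.1 p.2) := by
  unfold rescaled
  refine continuous_finsetSum _ fun j _ => ?_
  exact (continuous_fst.pow _).mul ((MvPolynomial.continuous_eval _).comp continuous_snd)

theorem rescaled_zero (P : MvPolynomial (Fin n) ℂ) (d : ℕ) (v : Fin n → ℂ) :
    rescaled P d 0 v = MvPolynomial.eval v (MvPolynomial.homogeneousComponent d P) := by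
  unfold rescaled
  rw [Finset.sum_range_succ, Finset.sum_eq_zero]
  · simp
  · intro j hj
    rw [zero_pow (by have := Finset.mem_range.mp hj; omega), zero_mul]

theorem eval_eq_rescaled (P : MvPolynomial (Fin n) ℂ) {d : ℕ} (hd : P.totalDegree = d) {N : ℂ}
    (hN : N ≠ 0) (v : Fin n → ℂ) :
    MvPolynomial.eval (fun i => N * v i) P = N ^ d * rescaled P d N⁻¹ v := by
  have h1 : P = ∑ j ∈ Finset.range (d + 1), MvPolynomial.homogeneousComponent j P := by
    rw [← hd]; exact (MvPolynomial.sum_homogeneousComponent P).symm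
  conv_lhs => rw [h1]
  rw [map_sum]
  unfold rescaled
  rw [Finset.mul_sum]
  refine Finset.sum_congr rfl fun j hj => ?_
  rw [eval_mul_of_isHomogeneous (MvPolynomial.homogeneousComponent_isHomogeneous j P)]
  have h2 : j ≤ d := by have := Finset.mem_range.mp hj; omega
  have h3 : N ^ d = N ^ j * N ^ (d - j) := by rw [← pow_add]; congr 1; omega
  rw [h3, inv_pow]
  have h4 : N ^ (d - j) ≠ 0 := pow_ne_zero _ hN
  field_simp

/-- A bound for finitely many analytic functions near `0`. -/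
theorem exists_bound (ℓ : Fin n → ℂ → ℂ) (hℓ : ∀ i, AnalyticAt ℂ (ℓ i) 0) :
    ∃ δ > 0, ∃ C : ℝ, ∀ i, ∀ t ∈ ball (0 : ℂ) δ, AnalyticAt ℂ (ℓ i) t ∧ ‖ℓ i t‖ ≤ C := by
  have h1 : ∀ᶠ t in 𝓝 (0 : ℂ), ∀ i, AnalyticAt ℂ (ℓ i) t ∧ ‖ℓ i t‖ ≤ ∑ j, ‖ℓ j 0‖ + 1 := by
    refine eventually_all.mpr fun i => ?_
    have h2 : ∀ᶠ t in 𝓝 (0 : ℂ), ‖ℓ i t‖ < ∑ j, ‖ℓ j 0‖ + 1 := by
      refine (hℓ i).continuousAt.norm.eventually_lt continuousAt_const ?_
      have : ‖ℓ i 0‖ ≤ ∑ j, ‖ℓ j 0‖ :=
        Finset.single_le_sum (f := fun j => ‖ℓ j 0‖) (fun j _ => norm_nonneg _)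
          (Finset.mem_univ i)
      linarith
    filter_upwards [h2, (hℓ i).eventually_analyticAt] with t h3 h4
    exact ⟨h4, h3.le⟩
  obtain ⟨δ, hδ, h2⟩ := Metric.eventually_nhds_iff.mp h1
  exact ⟨δ, hδ, _, fun i t ht => h2 (mem_ball.mp ht) i⟩

/-- **Linear scaling.** -/
theorem linear_scaling (P : MvPolynomial (Fin n) ℂ) (a : Fin n → ℤ) (ℓ : Fin n → ℂ → ℂ)
    (hℓ : ∀ i, AnalyticAt ℂ (ℓ i) 0) (κ : Fin n → ℝ) (σ : ℂ) (hσ : σ.re < 0)
    (h0 : MvPolynomial.eval (fun i => σ * a i + I * κ i)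
      (MvPolynomial.homogeneousComponent P.totalDegree P) = 0)
    (hne : ∃ s₀ : ℂ, MvPolynomial.eval (fun i => s₀ * a i + I * κ i)
      (MvPolynomial.homogeneousComponent P.totalDegree P) ≠ 0) (A : ℝ) :
    ∃ (s : ℂ) (k : Fin n → ℤ), s.re < A ∧ MvPolynomial.eval (curve a ℓ k s) P = 0 := by
  set d := P.totalDegree with hd
  set p := MvPolynomial.homogeneousComponent d P with hp
  obtain ⟨δ, hδ, C, hδC⟩ := exists_bound ℓ hℓ
  set r : ℝ := -σ.re / 2 with hr
  have hrpos : 0 < r := by rw [hr]; linarith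
  have hre : ∀ u ∈ ball (0 : ℂ) r, (σ + u).re < -r := by
    intro u hu
    have h1 : u.re ≤ ‖u‖ := Complex.re_le_norm u
    have h2 : ‖u‖ < r := mem_ball_zero_iff.mp hu
    rw [Complex.add_re]
    have h3 : σ.re = -2 * r := by rw [hr]; ring
    linarith
  -- the integer vectors
  let k : ℕ → Fin n → ℤ := fun N i => round ((N : ℝ) * κ i / (2 * Real.pi))
  have hk : ∀ N i, |2 * Real.pi * (k N i : ℝ) - N * κ i| ≤ Real.pi := by
    intro N i
    have h1 := abs_sub_round ((N : ℝ) * κ i / (2 * Real.pi))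
    have h2 : 2 * Real.pi * (k N i : ℝ) - N * κ i =
        -(2 * Real.pi) * ((N : ℝ) * κ i / (2 * Real.pi) - k N i) := by
      have := Real.pi_pos
      field_simp
      ring
    rw [h2, abs_mul, abs_neg, abs_of_pos Real.two_pi_pos]
    have := Real.pi_pos
    calc 2 * Real.pi * |(N : ℝ) * κ i / (2 * Real.pi) - k N i| ≤ 2 * Real.pi * (1 / 2) := by
          gcongr
      _ = Real.pi := by ring
  -- smallness of `exp (N (σ + u))`
  have hexp : ∀ᶠ N : ℕ in atTop, ∀ u ∈ ball (0 : ℂ) r,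
      exp ((N : ℂ) * (σ + u)) ∈ ball (0 : ℂ) δ ∧ ((N : ℂ) * (σ + u)).re < A := by
    have h1 : Tendsto (fun N : ℕ => Real.exp (-(N : ℝ) * r)) atTop (𝓝 0) := by
      refine Real.tendsto_exp_atBot.comp ?_
      have h2 : Tendsto (fun N : ℕ => (N : ℝ) * r) atTop atTop :=
        tendsto_natCast_atTop_atTop.atTop_mul_const hrpos
      simpa only [neg_mul] using! tendsto_neg_atTop_atBot.comp h2
    have h3 : ∀ᶠ N : ℕ in atTop, Real.exp (-(N : ℝ) * r) < δ := h1.eventually_lt_const hδ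
    have h4 : ∀ᶠ N : ℕ in atTop, -A < (N : ℝ) * r :=
      (tendsto_natCast_atTop_atTop.atTop_mul_const hrpos).eventually_gt_atTop _
    filter_upwards [h3, h4, eventually_gt_atTop 0] with N h5 h6 h7 u hu
    have h8 : ((N : ℂ) * (σ + u)).re = N * (σ + u).re := by
      rw [Complex.mul_re, Complex.natCast_re, Complex.natCast_im, zero_mul, sub_zero]
    have h9 := hre u hu
    have h10 : (0 : ℝ) < N := by exact_mod_cast h7
    have h11 : (N : ℝ) * (σ + u).re < N * -r := by gcongr
    constructor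
    · rw [mem_ball_zero_iff, Complex.norm_exp, h8]
      refine lt_of_le_of_lt (Real.exp_le_exp.mpr ?_) h5
      linarith
    · rw [h8]; linarith
  -- the rescaled coordinates
  let W : ℕ → ℂ → Fin n → ℂ := fun N u i =>
    ℓ i (exp ((N : ℂ) * (σ + u))) + I * ((2 * Real.pi * (k N i : ℝ) - N * κ i : ℝ) : ℂ)
  let v : ℕ → ℂ → Fin n → ℂ := fun N u i => (σ + u) * a i + I * κ i + (N : ℂ)⁻¹ * W N u i
  have hW : ∀ᶠ N : ℕ in atTop, ∀ u ∈ ball (0 : ℂ) r, ∀ i, ‖W N u i‖ ≤ C + Real.pi := by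
    filter_upwards [hexp] with N hN u hu i
    refine le_trans (norm_add_le _ _) (add_le_add ((hδC i _ (hN u hu).1).2) ?_)
    rw [norm_mul, Complex.norm_I, one_mul, Complex.norm_real, Real.norm_eq_abs]
    exact hk N i
  have hinv : Tendsto (fun N : ℕ => (N : ℂ)⁻¹) atTop (𝓝 0) :=
    tendsto_inv_atTop_nhds_zero_nat
  have hv : UConv (ball (0 : ℂ) r) v (fun u i => (σ + u) * a i + I * κ i) := by
    refine UConv.pi fun i => ?_
    have h1 : UConv (ball (0 : ℂ) r) (fun _ u => (σ + u) * a i + I * κ i)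
        (fun u => (σ + u) * a i + I * κ i) := by
      refine UConv.of_bounded (C := (‖σ‖ + r) * ‖(a i : ℂ)‖ + ‖I * κ i‖) fun u hu => ?_
      refine le_trans (norm_add_le _ _) ?_
      gcongr
      rw [norm_mul]
      gcongr
      refine le_trans (norm_add_le _ _) ?_
      gcongr
      exact (mem_ball_zero_iff.mp hu).le
    have h2 : UConv (ball (0 : ℂ) r) (fun N u => (N : ℂ)⁻¹ * W N u i) (fun _ => 0) := by
      refine UConv.zero_of_mul_bounded hinv (C := C + Real.pi) ?_
      filter_upwards [hW] with N hN u hu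
      exact hN u hu i
    have h3 := h1.add h2
    simp only [add_zero] at h3
    exact h3
  let G : ℕ → ℂ → ℂ := fun N u => rescaled P d (N : ℂ)⁻¹ (v N u)
  let B : ℂ → ℂ := fun u => MvPolynomial.eval (fun i => (σ + u) * a i + I * κ i) p
  have hGB : UConv (ball (0 : ℂ) r) G B := by
    have h1 := ((UConv.const (s := ball (0 : ℂ) r) hinv).prodMk hv).comp
      (continuous_rescaled P d)
    simp only [rescaled_zero] at h1
    exact h1
  have hBd : Differentiable ℂ B := by
    rw [← differentiableOn_univ]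
    refine differentiableOn_eval (fun i => ?_) p
    exact (by fun_prop : Differentiable ℂ (fun u : ℂ => (σ + u) * a i + I * κ i)).differentiableOn
  have hBan : AnalyticAt ℂ B 0 := hBd.analyticAt 0
  have hBne : ∃ᶠ z in 𝓝 (0 : ℂ), B z ≠ 0 := by
    intro hcon
    have h1 : ∀ᶠ z in 𝓝 (0 : ℂ), B z = 0 := hcon.mono fun z hz => not_not.mp hz
    have h2 : B = fun _ => 0 := by
      have h3 : AnalyticOnNhd ℂ B Set.univ := fun z _ => hBd.analyticAt z
      have h4 : AnalyticOnNhd ℂ (fun _ : ℂ => (0 : ℂ)) Set.univ := fun z _ => analyticAt_const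
      exact h3.eq_of_eventuallyEq h4 h1
    obtain ⟨s₀, hs₀⟩ := hne
    apply hs₀
    have h5 := congrFun h2 (s₀ - σ)
    simpa only [B, add_sub_cancel] using h5
  have hGd : ∀ᶠ N in atTop, DifferentiableOn ℂ (G N) (ball 0 r) := by
    filter_upwards [hexp] with N hN
    simp only [G, rescaled]
    refine DifferentiableOn.fun_sum fun j _ => ?_
    refine (differentiableOn_const _).mul (differentiableOn_eval (fun i => ?_) _)
    simp only [v, W]
    have h1 : DifferentiableOn ℂ (fun u => ℓ i (exp ((N : ℂ) * (σ + u)))) (ball 0 r) := by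
      intro u hu
      have h2 : DifferentiableAt ℂ (ℓ i) (exp ((N : ℂ) * (σ + u))) :=
        ((hδC i _ (hN u hu).1).1).differentiableAt
      have h3 : DifferentiableAt ℂ (fun u => exp ((N : ℂ) * (σ + u))) u := by fun_prop
      exact (h2.comp u h3).differentiableWithinAt
    have h4 : DifferentiableOn ℂ (fun u : ℂ => (σ + u) * (a i : ℂ) + I * (κ i : ℂ))
        (ball 0 r) :=
      (by fun_prop : Differentiable ℂ
        (fun u : ℂ => (σ + u) * (a i : ℂ) + I * (κ i : ℂ))).differentiableOn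
    exact h4.add ((differentiableOn_const _).mul (h1.add (differentiableOn_const _)))
  have hB0 : B 0 = 0 := by
    simp only [B, add_zero]
    exact h0
  have key := UConv.exists_zero hrpos hBan hB0 hBne hGd hGB
  obtain ⟨N, ⟨u, hu, hu0⟩, hN, hNpos⟩ := (key.and (hexp.and (eventually_gt_atTop 0))).exists
  have hN0 : (N : ℂ) ≠ 0 := by exact_mod_cast hNpos.ne'
  refine ⟨(N : ℂ) * (σ + u), k N, (hN u hu).2, ?_⟩
  have h1 : curve a ℓ (k N) ((N : ℂ) * (σ + u)) = fun i => (N : ℂ) * v N u i := by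
    funext i
    have h2 : ∀ x w : ℂ, (N : ℂ) * (x + (N : ℂ)⁻¹ * w) = N * x + w := by
      intro x w
      field_simp
    simp only [curve, v, W]
    rw [h2]
    push_cast
    ring
  rw [h1, eval_eq_rescaled P hd.symm hN0]
  change (N : ℂ) ^ d * G N u = 0
  rw [hu0, mul_zero]

end Pool.Agent.Lib.MP_209724_lc
end

section

/-!
Sufficient conditions for a form to be non-hyperbolic in a given direction.
-/

namespace Pool.Agent.Lib.MP_209724_lc

open Filter Topology Metric Complex

variable {n : ℕ}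

/-- The form `p` is not hyperbolic in the direction `a`: for some real vector `κ` the polynomial
`σ ↦ p(κ + σ a)` is not identically zero and has a nonreal zero. -/
def NonHyperbolic (p : MvPolynomial (Fin n) ℂ) (a : Fin n → ℤ) : Prop :=
  ∃ κ : Fin n → ℝ, (∃ σ : ℂ, σ.im ≠ 0 ∧ MvPolynomial.eval (fun i => κ i + σ * a i) p = 0) ∧
    ∃ s₀ : ℂ, MvPolynomial.eval (fun i => κ i + s₀ * a i) p ≠ 0

/-- The univariate polynomial `σ ↦ p(κ + σ a)`. -/
noncomputable def line (p : MvPolynomial (Fin n) ℂ) (κ a : Fin n → ℂ) : Polynomial ℂ :=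
  MvPolynomial.aeval (fun i => Polynomial.C (κ i) + Polynomial.X * Polynomial.C (a i)) p

theorem eval_line (p : MvPolynomial (Fin n) ℂ) (κ a : Fin n → ℂ) (s : ℂ) :
    (line p κ a).eval s = MvPolynomial.eval (fun i => κ i + s * a i) p := by
  unfold line
  induction p using MvPolynomial.induction_on with
  | C c => simp
  | add p q hp hq => simp only [map_add, Polynomial.eval_add, hp, hq]
  | mul_X p i hp =>
    simp only [map_mul, Polynomial.eval_mul, hp, MvPolynomial.aeval_X, MvPolynomial.eval_X,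
      Polynomial.eval_add, Polynomial.eval_C, Polynomial.eval_X]

theorem tendsto_div (p : MvPolynomial (Fin n) ℂ) {d : ℕ} (hp : p.IsHomogeneous d)
    (κ : Fin n → ℝ) (a : Fin n → ℤ) :
    Tendsto (fun N : ℕ => (line p (fun i => κ i) (fun i => a i)).eval (N : ℂ) / (N : ℂ) ^ d)
      atTop (𝓝 (MvPolynomial.eval (fun i => (a i : ℂ)) p)) := by
  have hinv : Tendsto (fun N : ℕ => (N : ℂ)⁻¹) atTop (𝓝 0) :=
    tendsto_inv_atTop_nhds_zero_nat
  have h1 : Tendsto (fun N : ℕ => MvPolynomial.eval (fun i => (N : ℂ)⁻¹ * κ i + a i) p) atTop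
      (𝓝 (MvPolynomial.eval (fun i => 0 * (κ i : ℂ) + a i) p)) := by
    refine ((MvPolynomial.continuous_eval p).tendsto _).comp ?_
    rw [tendsto_pi_nhds]
    intro i
    exact (hinv.mul_const _).add_const _
  simp only [zero_mul, zero_add] at h1
  refine h1.congr' ?_
  filter_upwards [eventually_gt_atTop 0] with N hN
  have hN0 : (N : ℂ) ≠ 0 := by exact_mod_cast hN.ne'
  rw [eval_line, eq_div_iff (pow_ne_zero _ hN0), mul_comm, ← eval_mul_of_isHomogeneous hp]
  congr 2
  funext i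
  field_simp

theorem nonHyperbolic_of_no_real_roots (p : MvPolynomial (Fin n) ℂ) {d : ℕ}
    (hp : p.IsHomogeneous d) (hd : 0 < d) (κ : Fin n → ℝ) (a : Fin n → ℤ)
    (ha : MvPolynomial.eval (fun i => (a i : ℂ)) p ≠ 0)
    (h : ∀ s : ℝ, MvPolynomial.eval (fun i => ((κ i + s * a i : ℝ) : ℂ)) p ≠ 0) :
    NonHyperbolic p a := by
  set q := line p (fun i => (κ i : ℂ)) (fun i => (a i : ℂ)) with hq
  have hlim := tendsto_div p hp κ a
  have hdeg : q.degree ≠ 0 := by
    intro hdeg
    rw [Polynomial.eq_C_of_degree_eq_zero hdeg] at hq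
    have h1 : Tendsto (fun N : ℕ => q.coeff 0 / (N : ℂ) ^ d) atTop (𝓝 0) := by
      have h2 : Tendsto (fun N : ℕ => ((N : ℂ)⁻¹) ^ d) atTop (𝓝 0) := by
        have h3 : Tendsto (fun N : ℕ => (N : ℂ)⁻¹) atTop (𝓝 0) := tendsto_inv_atTop_nhds_zero_nat
        have h4 := h3.pow d
        rwa [zero_pow hd.ne'] at h4
      have h3 := h2.const_mul (q.coeff 0)
      rw [mul_zero] at h3
      refine h3.congr fun N => ?_
      rw [inv_pow, div_eq_mul_inv]
    have h2 : Tendsto (fun N : ℕ => q.coeff 0 / (N : ℂ) ^ d) atTop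
        (𝓝 (MvPolynomial.eval (fun i => (a i : ℂ)) p)) := by
      refine hlim.congr fun N => ?_
      rw [← hq, Polynomial.eval_C]
    exact ha (tendsto_nhds_unique h2 h1)
  obtain ⟨σ, hσ⟩ := IsAlgClosed.exists_root q hdeg
  rw [Polynomial.IsRoot.def, hq, eval_line] at hσ
  refine ⟨κ, ⟨σ, ?_, hσ⟩, 0, ?_⟩
  · intro him
    apply h σ.re
    rw [← hσ]
    congr 2
    funext i
    have h1 : σ = (σ.re : ℂ) := by
      apply Complex.ext
      · simp
      · simp [him]
    rw [h1]
    push_cast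
    simp
  · have := h 0
    simpa using this

theorem nonHyperbolic_of_nonreal (p : MvPolynomial (Fin n) ℂ) {d : ℕ}
    (hp : p.IsHomogeneous d) (κ : Fin n → ℝ) (a : Fin n → ℤ)
    (ha : MvPolynomial.eval (fun i => (a i : ℂ)) p ≠ 0)
    (h : (MvPolynomial.eval (fun i => (κ i : ℂ)) p /
      MvPolynomial.eval (fun i => (a i : ℂ)) p).im ≠ 0) :
    NonHyperbolic p a := by
  set q := line p (fun i => (κ i : ℂ)) (fun i => (a i : ℂ)) with hq
  have hlim := tendsto_div p hp κ a
  have hne : ∀ᶠ N : ℕ in atTop, q.eval (N : ℂ) / (N : ℂ) ^ d ≠ 0 :=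
    hlim.eventually_ne ha
  by_contra hcon
  have hroots : ∀ σ ∈ q.roots, σ.im = 0 := by
    intro σ hσ
    by_contra him
    apply hcon
    refine ⟨κ, ⟨σ, him, ?_⟩, ?_⟩
    · have := (Polynomial.mem_roots'.mp hσ).2
      rwa [Polynomial.IsRoot.def, hq, eval_line] at this
    · obtain ⟨N, hN⟩ := hne.exists
      refine ⟨N, ?_⟩
      intro h0
      apply hN
      rw [hq, eval_line, h0, zero_div]
  apply h
  have hfac : ∀ s : ℂ, q.eval s = q.leadingCoeff * (q.roots.map fun r => s - r).prod := by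
    intro s
    have h1 := (IsAlgClosed.splits q).eq_prod_roots
    conv_lhs => rw [h1]
    rw [Polynomial.eval_mul, Polynomial.eval_C, Polynomial.eval_multiset_prod, Multiset.map_map]
    congr 2
    refine Multiset.map_congr rfl fun r _ => ?_
    simp
  have hreal : ∀ (m : Multiset ℂ), (∀ σ ∈ m, σ.im = 0) → ∀ s : ℝ,
      ((m.map fun r => (s : ℂ) - r).prod).im = 0 := by
    intro m
    induction m using Multiset.induction_on with
    | empty => intro _ s; simp
    | cons r m ih =>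
      intro hm s
      rw [Multiset.map_cons, Multiset.prod_cons, Complex.mul_im,
        ih (fun σ hσ => hm σ (Multiset.mem_cons_of_mem hσ)) s, Complex.sub_im,
        hm r (Multiset.mem_cons_self r m), Complex.ofReal_im]
      simp
  have him : ∀ z w : ℂ, z.im = 0 → w.im = 0 → (z / w).im = 0 := by
    intro z w hz hw
    rw [Complex.div_im, hz, hw]
    simp
  -- the ratio is a limit of real numbers
  have h1 : Tendsto (fun N : ℕ => (q.eval (0 : ℂ) / (q.eval (N : ℂ) / (N : ℂ) ^ d)).im) atTop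
      (𝓝 ((q.eval (0 : ℂ) / MvPolynomial.eval (fun i => (a i : ℂ)) p).im)) :=
    (Complex.continuous_im.tendsto _).comp (tendsto_const_nhds.div hlim ha)
  have h2 : ∀ᶠ N : ℕ in atTop, (q.eval (0 : ℂ) / (q.eval (N : ℂ) / (N : ℂ) ^ d)).im = 0 := by
    filter_upwards [hne, eventually_gt_atTop 0] with N hN hNpos
    have hq0 : q ≠ 0 := by
      rintro h0
      apply hN
      rw [h0]; simp
    have hlc : q.leadingCoeff ≠ 0 := Polynomial.leadingCoeff_ne_zero.mpr hq0
    have hcast : ((N : ℝ) : ℂ) = (N : ℂ) := by simp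
    have e1 : q.eval (0 : ℂ) / (q.eval (N : ℂ) / (N : ℂ) ^ d) =
        ((q.roots.map fun r => ((0 : ℝ) : ℂ) - r).prod /
          (q.roots.map fun r => ((N : ℝ) : ℂ) - r).prod) * ((N : ℂ) ^ d) := by
      rw [hfac 0, hfac N, hcast, Complex.ofReal_zero]
      have hN0 : (N : ℂ) ≠ 0 := by exact_mod_cast hNpos.ne'
      by_cases hz : (q.roots.map fun r => (N : ℂ) - r).prod = 0
      · rw [hz]; simp
      · field_simp
    rw [e1, Complex.mul_im]
    have e2 : (((N : ℂ) ^ d)).im = 0 := by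
      have : ((N : ℂ) ^ d) = (((N : ℝ) ^ d : ℝ) : ℂ) := by push_cast; rfl
      rw [this, Complex.ofReal_im]
    rw [e2, him _ _ (hreal q.roots hroots 0) (hreal q.roots hroots N)]
    simp
  have h3 : (q.eval (0 : ℂ) / MvPolynomial.eval (fun i => (a i : ℂ)) p).im = 0 :=
    tendsto_nhds_unique h1 (tendsto_const_nhds.congr' (h2.mono fun N hN => hN.symm))
  rw [hq, eval_line] at h3
  simpa using h3

/-- Real `κ` and imaginary rotation. -/
theorem NonHyperbolic.exists_neg_re {p : MvPolynomial (Fin n) ℂ} {a : Fin n → ℤ} {d : ℕ}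
    (hp : p.IsHomogeneous d) (h : NonHyperbolic p a) :
    ∃ (κ : Fin n → ℝ) (σ : ℂ), σ.re < 0 ∧
      MvPolynomial.eval (fun i => σ * a i + I * κ i) p = 0 ∧
      ∃ s₀ : ℂ, MvPolynomial.eval (fun i => s₀ * a i + I * κ i) p ≠ 0 := by
  obtain ⟨κ, ⟨σ, hσ, h0⟩, s₀, hs₀⟩ := h
  have key : ∀ c : ℂ, c ≠ 0 → ∀ s : ℂ,
      (MvPolynomial.eval (fun i => (c * s) * a i + c * κ i) p = 0 ↔
        MvPolynomial.eval (fun i => κ i + s * a i) p = 0) := by
    intro c hc s
    have h1 : (fun i => (c * s) * (a i : ℂ) + c * κ i) = fun i => c * (κ i + s * a i) := by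
      funext i; ring
    rw [h1, eval_mul_of_isHomogeneous hp]
    constructor
    · intro h2
      exact (mul_eq_zero.mp h2).resolve_left (pow_ne_zero _ hc)
    · intro h2
      rw [h2, mul_zero]
  rcases lt_or_gt_of_ne hσ with him | him
  · -- `σ.im < 0`, multiply by `-i`
    refine ⟨fun i => -κ i, -I * σ, ?_, ?_, -I * s₀, ?_⟩
    · simp [Complex.mul_re]; linarith
    · have := (key (-I) (by simp) σ).mpr h0
      rw [← this]
      congr 2
      funext i
      push_cast; ring
    · intro h2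
      apply hs₀
      rw [← key (-I) (by simp) s₀, ← h2]
      congr 2
      funext i
      push_cast; ring
  · refine ⟨κ, I * σ, ?_, ?_, I * s₀, ?_⟩
    · simp [Complex.mul_re]; linarith
    · exact (key I I_ne_zero σ).mpr h0
    · intro h2
      exact hs₀ ((key I I_ne_zero s₀).mp h2)

end Pool.Agent.Lib.MP_209724_lc
end

section

/-!
Definitions for the theorem on moving curves over hypersurfaces (non-hyperbolic ends).
-/

namespace Pool.Agent.Lib.MP_209724_lc.MV

open MvPolynomial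

/-- The leading form of a polynomial. -/
noncomputable def lead {σ : Type*} (c : MvPolynomial σ ℂ) : MvPolynomial σ ℂ :=
  homogeneousComponent c.totalDegree c

/-- Evaluation of a polynomial in one variable `T` with coefficients in `ℂ[x]`. -/
noncomputable def evT {σ S : Type*} [CommRing S] [Algebra ℂ S] (x : σ → S) (t : S) :
    Polynomial (MvPolynomial σ ℂ) →+* S :=
  Polynomial.eval₂RingHom (MvPolynomial.aeval x : MvPolynomial σ ℂ →ₐ[ℂ] S).toRingHom t

/-- `f` satisfies `c(ξ) f^m + ∑_{k<m} a_k(ξ,t) f^k = 0` with `c ∈ ℂ[x]` nonzero and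
`a_k ∈ ℂ[x][T]`. -/
def IntRel {σ L : Type*} [CommRing L] [Algebra ℂ L] (ξ : σ → L) (t f : L) : Prop :=
  ∃ (m : ℕ) (c : MvPolynomial σ ℂ) (a : ℕ → Polynomial (MvPolynomial σ ℂ)), c ≠ 0 ∧
    aeval ξ c * f ^ m + ∑ k ∈ Finset.range m, evT ξ t (a k) * f ^ k = 0

/-- The vector with `l`-th coordinate `z` and the other coordinates given by `v`. -/
noncomputable def glue {n : ℕ} (l : Fin n) (v : {j : Fin n // j ≠ l} → ℂ) (z : ℂ) : Fin n → ℂ :=
  fun i => if h : i = l then z else v ⟨i, h⟩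

theorem evT_C {σ S : Type*} [CommRing S] [Algebra ℂ S] (x : σ → S) (t : S)
    (c : MvPolynomial σ ℂ) : evT x t (Polynomial.C c) = aeval x c := by
  simp [evT]

theorem evT_X {σ S : Type*} [CommRing S] [Algebra ℂ S] (x : σ → S) (t : S) :
    evT x t Polynomial.X = t := by
  simp [evT]

theorem map_evT {σ S S' : Type*} [CommRing S] [Algebra ℂ S] [CommRing S'] [Algebra ℂ S']
    (ψ : S →ₐ[ℂ] S') (x : σ → S) (t : S) (f : Polynomial (MvPolynomial σ ℂ)) :
    ψ (evT x t f) = evT (fun j => ψ (x j)) (ψ t) f := by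
  have h : (ψ : S →+* S').comp (evT x t) = evT (fun j => ψ (x j)) (ψ t) := by
    apply Polynomial.ringHom_ext
    · intro c
      simp only [RingHom.comp_apply, evT_C]
      simp only [RingHom.coe_coe]
      rw [← MvPolynomial.comp_aeval_apply]
    · simp only [RingHom.comp_apply, evT_X]
      rfl
  exact congrArg (fun g => g f) h

theorem glue_self {n : ℕ} (l : Fin n) (v : {j : Fin n // j ≠ l} → ℂ) (z : ℂ) :
    glue l v z l = z := by simp [glue]

theorem glue_of_ne {n : ℕ} (l : Fin n) (v : {j : Fin n // j ≠ l} → ℂ) (z : ℂ)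
    (j : {j : Fin n // j ≠ l}) : glue l v z j = v j := by simp [glue, j.2]

theorem glue_restrict {n : ℕ} (l : Fin n) (w : Fin n → ℂ) :
    glue l (fun j => w j) (w l) = w := by
  funext i
  by_cases h : i = l
  · subst h; simp [glue]
  · simp [glue, h]

end Pool.Agent.Lib.MP_209724_lc.MV
end
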