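import Mathlib
import Pool.Agent.Lib.MP_209724_lc.MV.Defs

section

/-!
Definitions for the criterion in arbitrary codimension.
-/

namespace Pool.Agent.Lib.MP_209724_lc.GC

open MvPolynomial Filter Topology

/-- Evaluation of a polynomial in the variables `t` with coefficients in `ℂ[x]`. -/
noncomputable def evM {σ τ S : Type*} [CommRing S] [Algebra ℂ S] (x : τ → S) (t : σ → S) :
    MvPolynomial σ (MvPolynomial τ ℂ) →+* S :=
  eval₂Hom (aeval x : MvPolynomial τ ℂ →ₐ[ℂ] S).toRingHom t

/-- The weight of an exponent. -/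
def wt {k : ℕ} (ω : Fin k → ℝ) (μ : Fin k →₀ ℕ) : ℝ := ∑ j, ω j * μ j

/-- `μ` is an exponent of `P` and every other exponent of `P` has larger weight. -/
def IsLow {k : ℕ} {R : Type*} [CommSemiring R] (ω : Fin k → ℝ) (P : MvPolynomial (Fin k) R)
    (μ : Fin k →₀ ℕ) : Prop :=
  P.coeff μ ≠ 0 ∧ ∀ ν, P.coeff ν ≠ 0 → ν ≠ μ → wt ω μ < wt ω ν

/-- every exponent of `P` is `μ` or has larger weight. -/
def Above {k : ℕ} {R : Type*} [CommSemiring R] (ω : Fin k → ℝ) (P : MvPolynomial (Fin k) R)
    (μ : Fin k →₀ ℕ) : Prop :=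
  ∀ ν, P.coeff ν ≠ 0 → ν ≠ μ → wt ω μ < wt ω ν

/-- every exponent of `P` has weight larger than that of `μ`. -/
def StrictAbove {k : ℕ} {R : Type*} [CommSemiring R] (ω : Fin k → ℝ) (P : MvPolynomial (Fin k) R)
    (μ : Fin k →₀ ℕ) : Prop :=
  ∀ ν, P.coeff ν ≠ 0 → wt ω μ < wt ω ν

/-- a relation expressing that `f` is integral over the valuation ring of the monomial valuation
of `ℂ(ζ,t)` of weight `ω`. -/
def IntRel {τ L : Type*} {k : ℕ} [CommRing L] [Algebra ℂ L] (ω : Fin k → ℝ) (ζ : τ → L)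
    (t : Fin k → L) (f : L) : Prop :=
  ∃ (m : ℕ) (μ : Fin k →₀ ℕ) (e : MvPolynomial (Fin k) (MvPolynomial τ ℂ))
    (a : ℕ → MvPolynomial (Fin k) (MvPolynomial τ ℂ)), IsLow ω e μ ∧ (∀ i, Above ω (a i) μ) ∧
    evM ζ t e * f ^ m + ∑ i ∈ Finset.range m, evM ζ t (a i) * f ^ i = 0

/-- a relation expressing that `f` is in the maximal ideal of the monomial valuation. -/
def SmallRel {τ L : Type*} {k : ℕ} [CommRing L] [Algebra ℂ L] (ω : Fin k → ℝ) (ζ : τ → L)
    (t : Fin k → L) (f : L) : Prop :=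
  ∃ (μ : Fin k →₀ ℕ) (e a : MvPolynomial (Fin k) (MvPolynomial τ ℂ)),
    IsLow ω e μ ∧ StrictAbove ω a μ ∧ evM ζ t e * f = evM ζ t a

/-- `x` is integral over the valuation ring `𝒪 ∩ F`. -/
def VInt (F : Type*) {L : Type*} [Field F] [Field L] [Algebra F L] (𝒪 : ValuationSubring L)
    (x : L) : Prop :=
  ∃ p : Polynomial F, p.Monic ∧ (∀ i, algebraMap F L (p.coeff i) ∈ 𝒪) ∧ Polynomial.aeval x p = 0

/-- A linear map given by a matrix. -/
def prj {n d : ℕ} (Z : Fin d → Fin n → ℂ) (x : Fin n → ℂ) : Fin d → ℂ := fun j => ∑ i, Z j i * x i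

/-- The asymptotic cone of the zero set of an ideal. -/
def cone {n : ℕ} (p : Ideal (MvPolynomial (Fin n) ℂ)) : Set (Fin n → ℂ) :=
  {w | ∃ (r : ℕ → ℝ) (x : ℕ → Fin n → ℂ), Tendsto r atTop atTop ∧
    (∀ j, ∀ f ∈ p, eval (x j) f = 0) ∧ Tendsto (fun j => (r j)⁻¹ • x j) atTop (𝓝 w)}

theorem evM_C {σ τ S : Type*} [CommRing S] [Algebra ℂ S] (x : τ → S) (t : σ → S)
    (c : MvPolynomial τ ℂ) : evM x t (C c) = aeval x c := by
  simp [evM]

theorem evM_X {σ τ S : Type*} [CommRing S] [Algebra ℂ S] (x : τ → S) (t : σ → S) (j : σ) :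
    evM x t (X j) = t j := by
  simp [evM]

theorem map_evM {σ τ S S' : Type*} [CommRing S] [Algebra ℂ S] [CommRing S'] [Algebra ℂ S']
    (ψ : S →ₐ[ℂ] S') (x : τ → S) (t : σ → S) (f : MvPolynomial σ (MvPolynomial τ ℂ)) :
    ψ (evM x t f) = evM (fun j => ψ (x j)) (fun j => ψ (t j)) f := by
  have h : (ψ : S →+* S').comp (evM x t) = evM (fun j => ψ (x j)) (fun j => ψ (t j)) := by
    apply MvPolynomial.ringHom_ext
    · intro c
      simp only [RingHom.comp_apply, evM_C]
      simp only [RingHom.coe_coe]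
      rw [← MvPolynomial.comp_aeval_apply]
    · intro i
      simp only [RingHom.comp_apply, evM_X]
      rfl
  exact congrArg (fun g => g f) h

theorem evM_eq_sum {k : ℕ} {τ S : Type*} [CommRing S] [Algebra ℂ S] (x : τ → S) (t : Fin k → S)
    (P : MvPolynomial (Fin k) (MvPolynomial τ ℂ)) :
    evM x t P = ∑ μ ∈ P.support, aeval x (P.coeff μ) * ∏ j, t j ^ μ j := by
  unfold evM
  rw [coe_eval₂Hom, eval₂_eq']
  rfl

theorem evM_sum {k : ℕ} {τ S : Type*} [CommRing S] [Algebra ℂ S] (x : τ → S) (t : Fin k → S)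
    (b : MvPolynomial (Fin k ⊕ τ) ℂ) :
    evM x t (sumAlgEquiv ℂ (Fin k) τ b) = aeval (Sum.elim t x) b := by
  have h : (evM x t).comp (sumAlgEquiv ℂ (Fin k) τ : MvPolynomial (Fin k ⊕ τ) ℂ →+* _) =
      ((aeval (Sum.elim t x) : MvPolynomial (Fin k ⊕ τ) ℂ →ₐ[ℂ] S) :
        MvPolynomial (Fin k ⊕ τ) ℂ →+* S) := by
    apply MvPolynomial.ringHom_ext
    · intro c
      simp [evM]
    · rintro (j | j)
      · simp [evM]
      · simp [evM]
  exact congrArg (fun g => g b) h

theorem prj_add {n d : ℕ} (Z : Fin d → Fin n → ℂ) (x y : Fin n → ℂ) :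
    prj Z (x + y) = prj Z x + prj Z y := by
  funext j
  simp [prj, mul_add, Finset.sum_add_distrib]

theorem prj_smul {n d : ℕ} (Z : Fin d → Fin n → ℂ) (c : ℂ) (x : Fin n → ℂ) :
    prj Z (c • x) = c • prj Z x := by
  funext j
  simp only [prj, Pi.smul_apply, smul_eq_mul, Finset.mul_sum]
  exact Finset.sum_congr rfl fun i _ => by ring

theorem prj_sub {n d : ℕ} (Z : Fin d → Fin n → ℂ) (x y : Fin n → ℂ) :
    prj Z (x - y) = prj Z x - prj Z y := by
  funext j
  simp [prj, mul_sub, Finset.sum_sub_distrib]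

theorem continuous_prj {n d : ℕ} (Z : Fin d → Fin n → ℂ) : Continuous (prj Z) := by
  unfold prj
  fun_prop

/-- the valuation ring `𝒪 ∩ F` as a subring -/
def base (F : Type*) {L : Type*} [Field F] [Field L] [Algebra F L] (𝒪 : ValuationSubring L) :
    Subring F := 𝒪.toSubring.comap (algebraMap F L)

theorem mem_base {F L : Type*} [Field F] [Field L] [Algebra F L] {𝒪 : ValuationSubring L}
    {c : F} : c ∈ base F 𝒪 ↔ algebraMap F L c ∈ 𝒪 := Iff.rfl

theorem vInt_iff {F L : Type*} [Field F] [Field L] [Algebra F L] {𝒪 : ValuationSubring L}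
    {x : L} : VInt F 𝒪 x ↔ IsIntegral (base F 𝒪) x := by
  constructor
  · rintro ⟨p, hp, hc, h0⟩
    have h1 : (↑p.coeffs : Set F) ⊆ base F 𝒪 := by
      intro c hc'
      rw [Finset.mem_coe, Polynomial.mem_coeffs_iff] at hc'
      obtain ⟨i, _, rfl⟩ := hc'
      exact hc i
    refine ⟨p.toSubring (base F 𝒪) h1, (Polynomial.monic_toSubring _ _ _).2 hp, ?_⟩
    rw [Polynomial.aeval_def] at h0
    have h2 : (algebraMap (base F 𝒪) L) = (algebraMap F L).comp (base F 𝒪).subtype := rfl
    rw [h2, ← Polynomial.eval₂_map, Polynomial.map_toSubring]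
    exact h0
  · rintro ⟨p, hp, h0⟩
    refine ⟨p.map (base F 𝒪).subtype, hp.map _, ?_, ?_⟩
    · intro i
      rw [Polynomial.coeff_map]
      exact (p.coeff i).2
    · rw [Polynomial.aeval_def, Polynomial.eval₂_map]
      exact h0

end Pool.Agent.Lib.MP_209724_lc.GC
end

section

/-!
# Existence of a place

A finitely generated subgroup of the multiplicative group of a field of transcendence degree one
carries a place over the base field which is described by an integral linear form.
-/

namespace Pool.Agent.Lib.MP_209724_lc.MV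

open Polynomial

/-- a valuation ring containing `K[t]` in which `t` is not a unit -/
theorem placeB_exists {K L : Type} [Field K] [Field L] [Algebra K L] (t : L)
    (ht : Transcendental K t) :
    ∃ 𝒪 : ValuationSubring L, (∀ p : K[X], aeval t p ∈ 𝒪) ∧ 𝒪.valuation t < 1 := by
  set A : Subring L := (Algebra.adjoin K ({t} : Set L)).toSubring with hA
  have htA : t ∈ A := Algebra.subset_adjoin (Set.mem_singleton t)
  set I : Ideal A := Ideal.span {(⟨t, htA⟩ : A)} with hI
  have hne : I ≠ ⊤ := by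
    intro h
    have h1 : (1 : A) ∈ I := by rw [h]; trivial
    rw [hI, Ideal.mem_span_singleton'] at h1
    obtain ⟨⟨y, hy⟩, hyt⟩ := h1
    have hyt' : y * t = 1 := congrArg (Subtype.val) hyt
    have hy' : y ∈ Algebra.adjoin K ({t} : Set L) := hy
    rw [Algebra.adjoin_singleton_eq_range_aeval] at hy'
    obtain ⟨p, rfl⟩ := hy'
    have h2 : aeval t (p * X - 1) = 0 := by
      simp only [map_sub, map_mul, aeval_X, map_one]
      change (aeval t).toRingHom p * t - 1 = 0
      rw [sub_eq_zero]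
      exact hyt'
    have h3 := (transcendental_iff.1 ht) _ h2
    have h4 := congrArg (fun q => eval 0 q) h3
    simp at h4
  obtain ⟨𝒪, h𝒪, hI𝒪⟩ := Ideal.image_subset_nonunits_valuationSubring I hne
  refine ⟨𝒪, ?_, ?_⟩
  · intro p
    apply h𝒪
    change aeval t p ∈ Algebra.adjoin K ({t} : Set L)
    rw [Algebra.adjoin_singleton_eq_range_aeval]
    exact ⟨p, rfl⟩
  · rw [← ValuationSubring.mem_nonunits_iff]
    apply hI𝒪
    refine ⟨⟨t, htA⟩, ?_, rfl⟩
    exact Ideal.subset_span (Set.mem_singleton _)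

theorem placeB_const {K L : Type} [Field K] [Field L] [Algebra K L] (𝒪 : ValuationSubring L)
    (hK : ∀ c : K, algebraMap K L c ∈ 𝒪) (c : K) (hc : c ≠ 0) :
    𝒪.valuation (algebraMap K L c) = 1 := by
  apply le_antisymm
  · rw [ValuationSubring.valuation_le_one_iff]
    exact hK c
  · have h1 : 𝒪.valuation (algebraMap K L c⁻¹) ≤ 1 := by
      rw [ValuationSubring.valuation_le_one_iff]
      exact hK _
    have h2 : 𝒪.valuation (algebraMap K L c) * 𝒪.valuation (algebraMap K L c⁻¹) = 1 := by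
      rw [← map_mul, ← map_mul, mul_inv_cancel₀ hc, map_one, map_one]
    calc (1 : 𝒪.ValueGroup) = 𝒪.valuation (algebraMap K L c) *
          𝒪.valuation (algebraMap K L c⁻¹) := h2.symm
      _ ≤ 𝒪.valuation (algebraMap K L c) * 1 := by gcongr
      _ = _ := mul_one _

theorem placeB_poly {K L : Type} [Field K] [Field L] [Algebra K L] (𝒪 : ValuationSubring L)
    (t : L) (hO : ∀ p : K[X], aeval t p ∈ 𝒪) (ht : 𝒪.valuation t < 1) :
    ∀ (N : ℕ) (p : K[X]), p.natDegree ≤ N → p ≠ 0 →
      ∃ k : ℕ, 𝒪.valuation (aeval t p) = 𝒪.valuation t ^ k := by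
  have hK : ∀ c : K, algebraMap K L c ∈ 𝒪 := by
    intro c
    have := hO (C c)
    rwa [aeval_C] at this
  intro N
  induction N with
  | zero =>
    intro p hp hp0
    refine ⟨0, ?_⟩
    rw [eq_C_of_natDegree_le_zero hp] at hp0 ⊢
    rw [aeval_C, pow_zero]
    apply placeB_const 𝒪 hK
    intro h
    apply hp0
    rw [h, C_0]
  | succ N ih =>
    intro p hp hp0
    by_cases h0 : p.coeff 0 = 0
    · have h1 : p.divX * X = p := by
        have := divX_mul_X_add p
        rwa [h0, C_0, add_zero] at this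
      have h2 : p.divX ≠ 0 := by
        intro h
        apply hp0
        rw [← h1, h, zero_mul]
      obtain ⟨k, hk⟩ := ih p.divX (by
        rw [natDegree_divX_eq_natDegree_tsub_one]
        omega) h2
      refine ⟨k + 1, ?_⟩
      rw [← h1, map_mul, map_mul, hk, aeval_X, pow_succ]
    · refine ⟨0, ?_⟩
      have h1 : 𝒪.valuation (aeval t (p.divX * X)) < 1 := by
        rw [map_mul, map_mul, aeval_X]
        have h2 : 𝒪.valuation (aeval t p.divX) ≤ 1 := by
          rw [ValuationSubring.valuation_le_one_iff]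
          exact hO _
        calc 𝒪.valuation (aeval t p.divX) * 𝒪.valuation t ≤ 1 * 𝒪.valuation t := by gcongr
          _ < 1 := by rwa [one_mul]
      have h3 : 𝒪.valuation (aeval t (C (p.coeff 0))) = 1 := by
        rw [aeval_C]
        exact placeB_const 𝒪 hK _ h0
      conv_lhs => rw [← divX_mul_X_add p, map_add]
      rw [Valuation.map_add_eq_of_lt_right _ (by rw [h3]; exact h1), h3, pow_zero]

/-- two terms of maximal valuation in a vanishing sum -/
theorem placeB_two {L : Type} [Field L] (𝒪 : ValuationSubring L) (s : Finset ℕ) (f : ℕ → L)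
    (hs : s.Nonempty) (hf : ∀ i ∈ s, f i ≠ 0) (hsum : ∑ i ∈ s, f i = 0) :
    ∃ i ∈ s, ∃ j ∈ s, i < j ∧ 𝒪.valuation (f i) = 𝒪.valuation (f j) := by
  obtain ⟨i, hi, hmax⟩ := Finset.exists_max_image s (fun i => 𝒪.valuation (f i)) hs
  by_cases h : ∃ j ∈ s, j ≠ i ∧ 𝒪.valuation (f j) = 𝒪.valuation (f i)
  · obtain ⟨j, hj, hji, he⟩ := h
    rcases lt_or_gt_of_ne hji with hlt | hlt
    · exact ⟨j, hj, i, hi, hlt, he⟩
    · exact ⟨i, hi, j, hj, hlt, he.symm⟩
  · push Not at h
    exfalso
    have h1 : 𝒪.valuation (∑ j ∈ s.erase i, f j) < 𝒪.valuation (f i) := by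
      apply Valuation.map_sum_lt
      · rw [Valuation.ne_zero_iff]
        exact hf i hi
      · intro j hj
        rw [Finset.mem_erase] at hj
        exact lt_of_le_of_ne (hmax j hj.2) (h j hj.2 hj.1)
    have h2 : f i = - ∑ j ∈ s.erase i, f j := by
      rw [← Finset.add_sum_erase s f hi] at hsum
      exact eq_neg_of_add_eq_zero_left hsum
    rw [h2, Valuation.map_neg] at h1
    exact lt_irrefl _ h1

theorem exists_place {n : ℕ} {K L : Type} [Field K] [Field L] [Algebra K L]
    (η : Fin n → L) (hη : ∀ i, η i ≠ 0) (i₀ : Fin n) (h₀ : Transcendental K (η i₀))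
    (halg : Algebra.IsAlgebraic (IntermediateField.adjoin K {η i₀}) L) :
    ∃ a : Fin n → ℤ, a ≠ 0 ∧ ∃ 𝒪 : ValuationSubring L, (∀ c : K, algebraMap K L c ∈ 𝒪) ∧
      ∀ m : Fin n → ℤ, 𝒪.valuation (∏ i, η i ^ m i) < 1 ↔ 0 < ∑ i, a i * m i := by
  obtain ⟨𝒪, hO, ht⟩ := placeB_exists (η i₀) h₀
  set t := η i₀ with htdef
  have hK : ∀ c : K, algebraMap K L c ∈ 𝒪 := by
    intro c
    have := hO (C c)
    rwa [aeval_C] at this
  have hvt0 : 𝒪.valuation t ≠ 0 := by
    rw [Valuation.ne_zero_iff]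
    exact hη i₀
  have hvtpos : 0 < 𝒪.valuation t := zero_lt_iff.2 hvt0
  -- elements of `K(t)`
  have hfield : ∀ x : L, x ∈ IntermediateField.adjoin K {t} → x ≠ 0 →
      ∃ k : ℤ, 𝒪.valuation x = 𝒪.valuation t ^ k := by
    intro x hx hx0
    rw [IntermediateField.mem_adjoin_simple_iff] at hx
    obtain ⟨r, s, hrs⟩ := hx
    have hr : aeval t r ≠ 0 := by
      intro h
      rw [h, zero_div] at hrs
      exact hx0 hrs
    have hs : aeval t s ≠ 0 := by
      intro h
      rw [h, div_zero] at hrs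
      exact hx0 hrs
    have hr' : r ≠ 0 := by
      rintro rfl
      exact hr (map_zero _)
    have hs' : s ≠ 0 := by
      rintro rfl
      exact hs (map_zero _)
    obtain ⟨k, hk⟩ := placeB_poly 𝒪 t hO ht _ r le_rfl hr'
    obtain ⟨l, hl⟩ := placeB_poly 𝒪 t hO ht _ s le_rfl hs'
    refine ⟨(k : ℤ) - l, ?_⟩
    rw [hrs, map_div₀, hk, hl, zpow_sub₀ hvt0, zpow_natCast, zpow_natCast]
  -- the values of the generators
  have hgen : ∀ j, ∃ (e : ℕ) (b : ℤ), 0 < e ∧ 𝒪.valuation (η j) ^ e = 𝒪.valuation t ^ b := by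
    intro j
    obtain ⟨p, hp0, hp⟩ := halg.isAlgebraic (η j)
    set f : ℕ → L := fun i => algebraMap (IntermediateField.adjoin K {t}) L (p.coeff i) * η j ^ i
      with hf
    have hsum : ∑ i ∈ p.support, f i = 0 := by
      rw [aeval_def, eval₂_eq_sum, Polynomial.sum] at hp
      exact hp
    obtain ⟨i, hi, i', hi', hlt, he⟩ := placeB_two 𝒪 p.support f
      (support_nonempty.2 hp0) (fun i hi => by
        rw [hf]
        simp only
        apply mul_ne_zero
        · rw [Ne, map_eq_zero]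
          exact mem_support_iff.1 hi
        · exact pow_ne_zero _ (hη j)) hsum
    obtain ⟨k, hk⟩ := hfield (algebraMap (IntermediateField.adjoin K {t}) L (p.coeff i))
      (p.coeff i).2 (by
        rw [Ne, map_eq_zero]
        exact mem_support_iff.1 hi)
    obtain ⟨k', hk'⟩ := hfield (algebraMap (IntermediateField.adjoin K {t}) L (p.coeff i'))
      (p.coeff i').2 (by
        rw [Ne, map_eq_zero]
        exact mem_support_iff.1 hi')
    refine ⟨i' - i, k - k', by omega, ?_⟩
    rw [hf] at he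
    simp only [map_mul, map_pow] at he
    rw [hk, hk'] at he
    have hj0 : 𝒪.valuation (η j) ≠ 0 := by
      rw [Valuation.ne_zero_iff]
      exact hη j
    have h1 : 𝒪.valuation (η j) ^ i' = 𝒪.valuation (η j) ^ (i' - i) * 𝒪.valuation (η j) ^ i := by
      rw [← pow_add]
      congr 1
      omega
    rw [h1, ← mul_assoc] at he
    have h2 := mul_right_cancel₀ (pow_ne_zero i hj0) he
    rw [zpow_sub₀ hvt0, h2]
    field_simp
  choose e b he hb using hgen
  set P : ℕ := ∏ j, e j with hP
  have hPpos : 0 < P := Finset.prod_pos fun j _ => he j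
  set a : Fin n → ℤ := fun j => b j * ((∏ k ∈ Finset.univ.erase j, e k : ℕ) : ℤ) with ha
  have hval : ∀ j, 𝒪.valuation (η j) ^ P = 𝒪.valuation t ^ a j := by
    intro j
    have h1 : P = e j * ∏ k ∈ Finset.univ.erase j, e k :=
      (Finset.mul_prod_erase _ _ (Finset.mem_univ j)).symm
    rw [h1, pow_mul, hb, ha]
    simp only
    rw [zpow_mul, zpow_natCast]
  refine ⟨a, ?_, 𝒪, hK, ?_⟩
  · intro h
    have h1 := hval i₀
    rw [h] at h1
    simp only [Pi.zero_apply, zpow_zero] at h1
    rw [← htdef] at h1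
    have h2 : 𝒪.valuation t ^ P < 1 := pow_lt_one₀ zero_le ht hPpos.ne'
    rw [h1] at h2
    exact lt_irrefl _ h2
  · intro m
    have h1 : 𝒪.valuation (∏ i, η i ^ m i) ^ P = 𝒪.valuation t ^ (∑ i, a i * m i) := by
      rw [map_prod, ← Finset.prod_pow]
      have h2 : ∀ i, 𝒪.valuation (η i ^ m i) ^ P = 𝒪.valuation t ^ (a i * m i) := by
        intro i
        rw [map_zpow₀, ← zpow_natCast, ← zpow_mul, mul_comm (m i), zpow_mul, zpow_natCast, hval,
          ← zpow_mul]
      rw [Finset.prod_congr rfl fun i _ => h2 i]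
      have h3 : ∀ s : Finset (Fin n), ∏ i ∈ s, 𝒪.valuation t ^ (a i * m i) =
          𝒪.valuation t ^ (∑ i ∈ s, a i * m i) := by
        intro s
        induction s using Finset.induction_on with
        | empty => simp
        | insert i s his ih =>
          rw [Finset.prod_insert his, Finset.sum_insert his, ih, zpow_add₀ hvt0]
      exact h3 Finset.univ
    rw [← pow_lt_one_iff_of_nonneg zero_le hPpos.ne', h1,
      zpow_lt_one_iff_right_of_lt_one₀ hvtpos ht]

end Pool.Agent.Lib.MP_209724_lc.MV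
end

section

/-!
MV-14: roots of `P (N v, N z)` near a simple point of the cone `lead P = 0`.
-/

namespace Pool.Agent.Lib.MP_209724_lc.MV

open MvPolynomial Filter Topology Metric

/-- The derivative of a polynomial function. -/
theorem branch_hasFDerivAt_eval {σ : Type*} [Fintype σ] (q : MvPolynomial σ ℂ) (w : σ → ℂ) :
    HasFDerivAt (fun v : σ → ℂ => eval v q)
      (∑ i, eval w (pderiv i q) • (ContinuousLinearMap.proj i : (σ → ℂ) →L[ℂ] ℂ)) w := by
  classical
  induction q using MvPolynomial.induction_on with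
  | C c =>
    have h0 : HasFDerivAt (fun v : σ → ℂ => eval v (C c : MvPolynomial σ ℂ))
        (0 : (σ → ℂ) →L[ℂ] ℂ) w := by
      simp only [eval_C]
      exact hasFDerivAt_const c w
    refine h0.congr_fderiv ?_
    ext y
    simp
  | add p q hp hq =>
    have h0 := hp.fun_add hq
    simp only [← map_add (MvPolynomial.eval _)] at h0
    refine h0.congr_fderiv ?_
    ext y
    simp [add_mul, Finset.sum_add_distrib]
  | mul_X p i hp =>
    have h1 : HasFDerivAt (fun v : σ → ℂ => v i)
        (ContinuousLinearMap.proj i : (σ → ℂ) →L[ℂ] ℂ) w :=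
      (ContinuousLinearMap.proj (R := ℂ) (φ := fun _ : σ => ℂ) i).hasFDerivAt
    have h2 := hp.mul h1
    simp only [map_mul, eval_X]
    refine h2.congr_fderiv ?_
    ext y
    simp only [Derivation.leibniz, pderiv_X, smul_eq_mul, map_add, map_mul, eval_X,
      add_apply, smul_apply,
      sum_apply, ContinuousLinearMap.proj_apply, add_mul,
      Finset.sum_add_distrib, Finset.mul_sum]
    congr 1
    · rw [Finset.sum_eq_single i]
      · simp
      · intro j _ hj
        simp [hj]
      · intro h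
        exact absurd (Finset.mem_univ i) h
    · apply Finset.sum_congr rfl
      intro j _
      ring

theorem branch_contDiff_eval {σ : Type*} [Fintype σ] (q : MvPolynomial σ ℂ) :
    ContDiff ℂ 1 (fun v : σ → ℂ => eval v q) := by
  induction q using MvPolynomial.induction_on with
  | C c => simp only [eval_C]; exact contDiff_const
  | add p q hp hq => simp only [map_add]; exact hp.add hq
  | mul_X p i hp => simp only [map_mul, eval_X]; exact hp.mul (contDiff_apply ℂ ℂ i)

/-- `glue` as a continuous linear map. -/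
noncomputable def glueL {n : ℕ} (l : Fin n) :
    ({j : Fin n // j ≠ l} → ℂ) × ℂ →L[ℂ] (Fin n → ℂ) :=
  ContinuousLinearMap.pi fun i => if h : i = l then
    ContinuousLinearMap.snd ℂ ({j : Fin n // j ≠ l} → ℂ) ℂ else
    (ContinuousLinearMap.proj (⟨i, h⟩ : {j : Fin n // j ≠ l}) :
      ({j : Fin n // j ≠ l} → ℂ) →L[ℂ] ℂ).comp
        (ContinuousLinearMap.fst ℂ ({j : Fin n // j ≠ l} → ℂ) ℂ)

theorem glueL_apply {n : ℕ} (l : Fin n) (v : {j : Fin n // j ≠ l} → ℂ) (z : ℂ) :
    glueL l (v, z) = glue l v z := by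
  funext i
  by_cases h : i = l
  · simp [glueL, glue, h]
  · simp [glueL, glue, h]

theorem exists_branch {n : ℕ} (P q r : MvPolynomial (Fin n) ℂ) {e : ℕ} (he : 0 < e)
    (hfac : lead P = q ^ e * r) (l : Fin n) (a w : Fin n → ℂ) (hq : eval w q = 0)
    (hl : eval w (pderiv l q) ≠ 0) (ha : ∑ i, a i * eval w (pderiv i q) ≠ 0)
    (hr : eval w r ≠ 0) :
    ∃ (h : ({j : Fin n // j ≠ l} → ℂ) → ℂ) (h' : ({j : Fin n // j ≠ l} → ℂ) →L[ℂ] ℂ)
      (ρ r₁ : ℝ), 0 < ρ ∧ 0 < r₁ ∧ HasStrictFDerivAt h h' (fun j => w j) ∧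
      h' (fun j => a j) ≠ a l ∧ DifferentiableOn ℂ h (ball (fun j => w j) ρ) ∧
      h (fun j => w j) = w l ∧ (∀ v ∈ ball (fun j : {j // j ≠ l} => w j) ρ,
        ‖h v - w l‖ < r₁ / 2) ∧
      (∀ ε : ℝ, 0 < ε → ∀ᶠ N : ℕ in atTop, ∀ v ∈ ball (fun j : {j // j ≠ l} => w j) ρ, ∀ z : ℂ,
        ‖z - w l‖ ≤ r₁ → eval (fun i => (N : ℂ) * glue l v z i) P = 0 → ‖z - h v‖ < ε) ∧
      ∀ᶠ N : ℕ in atTop, ∃ z : ℂ, ‖z - w l‖ < r₁ ∧
        eval (fun i => (N : ℂ) * glue l (fun j => w j) z i) P = 0 := by
  set w' : {j : Fin n // j ≠ l} → ℂ := fun j => w j with hw'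
  have hgw : glue l w' (w l) = w := glue_restrict l w
  set F : ({j : Fin n // j ≠ l} → ℂ) × ℂ → ℂ := fun p => eval (glueL l p) q with hF
  have hFc : ContDiff ℂ 1 F := (branch_contDiff_eval q).comp (glueL l).contDiff
  set D : (Fin n → ℂ) →L[ℂ] ℂ :=
    ∑ i, eval w (pderiv i q) • (ContinuousLinearMap.proj i : (Fin n → ℂ) →L[ℂ] ℂ) with hD
  have hgLw : glueL l (w', w l) = w := by rw [glueL_apply, hgw]
  have hFd : HasFDerivAt F (D.comp (glueL l)) (w', w l) := by
    have h1 : HasFDerivAt (fun v : Fin n → ℂ => eval v q) D (glueL l (w', w l)) := by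
      rw [hgLw]; exact branch_hasFDerivAt_eval q w
    exact h1.comp (w', w l) (glueL l).hasFDerivAt
  have hDa : ∀ y : Fin n → ℂ, D y = ∑ i, y i * eval w (pderiv i q) := by
    intro y
    simp only [hD, sum_apply, smul_apply,
      ContinuousLinearMap.proj_apply, smul_eq_mul]
    exact Finset.sum_congr rfl fun i _ => mul_comm _ _
  have cdf : ContDiffAt ℂ 1 F (w', w l) := hFc.contDiffAt
  have hF0 : F (w', w l) = 0 := by simp only [hF, hgLw, hq]
  have hinr : ((fderiv ℂ F (w', w l)).comp
      (ContinuousLinearMap.inr ℂ ({j : Fin n // j ≠ l} → ℂ) ℂ)) 1 = eval w (pderiv l q) := by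
    rw [hFd.fderiv]
    simp only [ContinuousLinearMap.comp_apply, ContinuousLinearMap.inr_apply]
    rw [glueL_apply, hDa, Finset.sum_eq_single l]
    · simp [glue]
    · intro i _ hi
      simp [glue, hi]
    · intro h
      exact absurd (Finset.mem_univ l) h
  have hinv : ((fderiv ℂ F (w', w l)).comp
      (ContinuousLinearMap.inr ℂ ({j : Fin n // j ≠ l} → ℂ) ℂ)).IsInvertible := by
    refine ⟨ContinuousLinearEquiv.unitsEquivAut ℂ (Units.mk0 _ hl), ?_⟩
    ext
    simp [← hinr]
  have pn : (1 : WithTop ℕ∞) ≠ 0 := one_ne_zero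
  set h := cdf.implicitFunction pn hinv with hh
  have h_self : h w' = w l := cdf.implicitFunction_apply_self pn hinv
  have h_eq : ∀ᶠ x in 𝓝 w', F (x, h x) = F (w', w l) :=
    cdf.eventually_apply_implicitFunction pn hinv
  have h_iff : ∀ᶠ v in 𝓝 (w', w l), F v = F (w', w l) ↔ h v.1 = v.2 :=
    cdf.eventually_apply_eq_iff_implicitFunction pn hinv
  have h_strict := cdf.hasStrictFDerivAt_implicitFunction pn hinv
  set h' := (-((fderiv ℂ F (w', w l)).comp
      (ContinuousLinearMap.inr ℂ ({j : Fin n // j ≠ l} → ℂ) ℂ)).inverse ∘L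
      ((fderiv ℂ F (w', w l)) ∘L (ContinuousLinearMap.inl ℂ ({j : Fin n // j ≠ l} → ℂ) ℂ)))
    with hh'
  have h_cd : ContDiffAt ℂ 1 h w' := cdf.contDiffAt_implicitFunction pn hinv
  have h_diff : ∀ᶠ v in 𝓝 w', DifferentiableAt ℂ h v := by
    filter_upwards [h_cd.eventually (by simp)] with v hv
    exact hv.differentiableAt one_ne_zero
  have h_close : ∀ s : ℝ, 0 < s → ∀ᶠ v in 𝓝 w', ‖h v - w l‖ < s := by
    intro s hs
    have h1 := h_cd.continuousAt.tendsto
    rw [h_self] at h1
    have h2 := (Metric.tendsto_nhds.mp h1) s hs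
    filter_upwards [h2] with v hv
    rwa [dist_eq_norm] at hv
  -- the derivative in the direction `a`
  have h_dir : h' (fun j => a j) ≠ a l := by
    intro hcon
    have h1 : HasFDerivAt (fun x => F (x, h x)) ((D.comp (glueL l)).comp
        ((ContinuousLinearMap.id ℂ _).prod h')) w' := by
      have h2 : HasFDerivAt (fun x => (x, h x))
          ((ContinuousLinearMap.id ℂ ({j : Fin n // j ≠ l} → ℂ)).prod h') w' :=
        (hasFDerivAt_id w').prodMk h_strict.hasFDerivAt
      have h3 : HasFDerivAt F (D.comp (glueL l)) (w', h w') := by rw [h_self]; exact hFd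
      exact h3.comp w' h2
    have h4 : HasFDerivAt (fun x => F (x, h x)) (0 : ({j : Fin n // j ≠ l} → ℂ) →L[ℂ] ℂ) w' :=
      (hasFDerivAt_const (F (w', w l)) w').congr_of_eventuallyEq h_eq
    have h5 := h1.unique h4
    have h6 := congrArg (fun T : ({j : Fin n // j ≠ l} → ℂ) →L[ℂ] ℂ => T (fun j => a j)) h5
    simp only [ContinuousLinearMap.comp_apply, ContinuousLinearMap.prod_apply,
      ContinuousLinearMap.id_apply, zero_apply] at h6
    rw [hcon, glueL_apply, glue_restrict, hDa] at h6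
    exact ha h6
  -- the neighbourhood
  have hrc : ∀ᶠ v in 𝓝 (w', w l), eval (glueL l v) r ≠ 0 := by
    have h1 : Continuous fun v => eval (glueL l v) r :=
      (MvPolynomial.continuous_eval r).comp (glueL l).continuous
    refine h1.continuousAt.eventually_ne ?_
    rw [hgLw]
    exact hr
  obtain ⟨δ, hδ, hδ'⟩ := Metric.eventually_nhds_iff.mp (h_iff.and hrc)
  have hr₁ : 0 < δ / 2 := by positivity
  obtain ⟨δ₂, hδ₂, hδ₂'⟩ := Metric.eventually_nhds_iff.mp
    (h_diff.and (h_close (δ / 2 / 2) (by positivity)))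
  set ρ := min (δ / 2) (δ₂ / 2) with hρ
  have hρpos : 0 < ρ := by positivity
  have hρδ : ρ < δ := lt_of_le_of_lt (min_le_left _ _) (by linarith)
  have hρδ₂ : ρ < δ₂ := lt_of_le_of_lt (min_le_right _ _) (by linarith)
  have hK : ∀ v ∈ closedBall w' ρ, ∀ z ∈ closedBall (w l) (δ / 2),
      eval (glue l v z) (lead P) = 0 → z = h v := by
    intro v hv z hz h0
    have h1 : dist (v, z) (w', w l) < δ := by
      rw [Prod.dist_eq]
      exact max_lt (lt_of_le_of_lt (mem_closedBall.mp hv) hρδ)
        (lt_of_le_of_lt (mem_closedBall.mp hz) (by linarith))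
    obtain ⟨h2, h3⟩ := hδ' h1
    rw [hfac, map_mul, map_pow] at h0
    rw [glueL_apply] at h3
    rcases mul_eq_zero.mp h0 with h4 | h4
    · have h5 : F (v, z) = 0 := by
        simp only [hF, glueL_apply]
        exact pow_eq_zero_iff (by omega) |>.mp h4
      exact (h2.mp (by rw [h5, hF0])).symm
    · exact absurd h4 h3
  have hcont : ContinuousOn h (closedBall w' ρ) := by
    intro v hv
    exact (hδ₂' (lt_of_le_of_lt (mem_closedBall.mp hv) hρδ₂)).1.continuousAt.continuousWithinAt
  refine ⟨h, h', ρ, δ / 2, hρpos, hr₁, h_strict, h_dir, ?_, h_self, ?_, ?_, ?_⟩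
  · intro v hv
    exact (hδ₂' (lt_trans (mem_ball.mp hv) hρδ₂)).1.differentiableWithinAt
  · intro v hv
    exact (hδ₂' (lt_trans (mem_ball.mp hv) hρδ₂)).2
  · intro ε hε
    set K : Set (({j : Fin n // j ≠ l} → ℂ) × ℂ) :=
      {x ∈ closedBall w' ρ ×ˢ closedBall (w l) (δ / 2) | ε ≤ ‖x.2 - h x.1‖} with hKdef
    have hKc : IsCompact K := by
      have h1 : IsCompact (closedBall w' ρ ×ˢ closedBall (w l) (δ / 2)) :=
        (isCompact_closedBall _ _).prod (isCompact_closedBall _ _)
      have h2 : ContinuousOn (fun x : ({j : Fin n // j ≠ l} → ℂ) × ℂ => ‖x.2 - h x.1‖)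
          (closedBall w' ρ ×ˢ closedBall (w l) (δ / 2)) := by
        refine ContinuousOn.norm (continuousOn_snd.sub ?_)
        exact hcont.comp continuousOn_fst fun x hx => hx.1
      have h3 : IsClosed K := by
        have := h2.preimage_isClosed_of_isClosed h1.isClosed (isClosed_Ici (a := ε))
        exact this
      exact h1.of_isClosed_subset h3 fun x hx => hx.1
    have h1 : ∀ᶠ t : ℂ in 𝓝 0, ∀ x ∈ K,
        rescaled P P.totalDegree t (glueL l x) ≠ 0 := by
      refine hKc.eventually_forall_of_forall_eventually fun x hx => ?_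
      have h2 : Continuous fun y : ℂ × (({j : Fin n // j ≠ l} → ℂ) × ℂ) =>
          rescaled P P.totalDegree y.1 (glueL l y.2) :=
        (continuous_rescaled P P.totalDegree).comp
          (continuous_fst.prodMk ((glueL l).continuous.comp continuous_snd))
      refine h2.continuousAt.eventually_ne ?_
      simp only []
      rw [rescaled_zero]
      intro h3
      obtain ⟨⟨h4, h5⟩, h6⟩ := hx
      have h7 := hK x.1 h4 x.2 h5 (by rw [← glueL_apply]; exact h3)
      rw [h7, sub_self, norm_zero] at h6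
      linarith
    have hinv' : Tendsto (fun N : ℕ => (N : ℂ)⁻¹) atTop (𝓝 0) :=
      tendsto_inv_atTop_nhds_zero_nat
    filter_upwards [hinv'.eventually h1, eventually_gt_atTop 0] with N hN hN0 v hv z hz h0
    by_contra hcon
    push Not at hcon
    have hNne : (N : ℂ) ≠ 0 := by exact_mod_cast hN0.ne'
    have h2 := hN (v, z) ⟨⟨ball_subset_closedBall hv, by
      rw [mem_closedBall, dist_eq_norm]; exact hz⟩, hcon⟩
    rw [glueL_apply] at h2
    rw [eval_eq_rescaled P rfl hNne] at h0
    rcases mul_eq_zero.mp h0 with h3 | h3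
    · exact absurd h3 (pow_ne_zero _ hNne)
    · exact h2 h3
  · have hinv' : Tendsto (fun N : ℕ => (N : ℂ)⁻¹) atTop (𝓝 0) :=
      tendsto_inv_atTop_nhds_zero_nat
    have hv : UConv (ball (w l) (δ / 2)) (fun _ z => glue l w' z) (fun z => glue l w' z) := by
      refine UConv.of_bounded (C := ‖glueL l‖ * (‖w'‖ + (‖w l‖ + δ / 2))) fun z hz => ?_
      rw [← glueL_apply]
      refine ((glueL l).le_opNorm _).trans ?_
      gcongr
      rw [Prod.norm_def]
      have h1 : ‖z‖ ≤ ‖w l‖ + δ / 2 := by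
        have h2 : ‖z‖ ≤ ‖z - w l‖ + ‖w l‖ := by
          have := norm_add_le (z - w l) (w l)
          rwa [sub_add_cancel] at this
        rw [mem_ball, dist_eq_norm] at hz
        linarith
      have h3 := norm_nonneg w'
      have h4 : 0 ≤ ‖z‖ := norm_nonneg z
      apply max_le
      · simp only []
        linarith
      · simp only []
        linarith
    have hUB : UConv (ball (w l) (δ / 2))
        (fun N z => rescaled P P.totalDegree (N : ℂ)⁻¹ (glue l w' z))
        (fun z => eval (glue l w' z) (lead P)) := by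
      have h1 := ((UConv.const (s := ball (w l) (δ / 2)) hinv').prodMk hv).comp
        (continuous_rescaled P P.totalDegree)
      simp only [rescaled_zero] at h1
      exact h1
    have hgd : ∀ i, Differentiable ℂ (fun z => glue l w' z i) := by
      intro i
      by_cases hi : i = l
      · subst hi
        simp only [glue_self]
        exact differentiable_id
      · simp only [glue, hi, dite_false]
        exact differentiable_const _
    have hBd : Differentiable ℂ (fun z => eval (glue l w' z) (lead P)) := by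
      rw [← differentiableOn_univ]
      exact differentiableOn_eval (fun i => (hgd i).differentiableOn) _
    have hB0 : eval (glue l w' (w l)) (lead P) = 0 := by
      rw [hgw, hfac, map_mul, map_pow, hq, zero_pow (by omega), zero_mul]
    have hBne : ∃ᶠ z in 𝓝 (w l), eval (glue l w' z) (lead P) ≠ 0 := by
      intro hcon
      obtain ⟨ε, hε, hε'⟩ := Metric.eventually_nhds_iff.mp hcon
      have hη : 0 < min (ε / 2) (δ / 2) := by positivity
      have h1 : dist (w l + (min (ε / 2) (δ / 2) : ℝ)) (w l) = min (ε / 2) (δ / 2) := by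
        rw [dist_eq_norm, add_sub_cancel_left, Complex.norm_real, Real.norm_of_nonneg hη.le]
      have h2 := hε' (y := w l + (min (ε / 2) (δ / 2) : ℝ)) (by
        rw [h1]
        exact lt_of_le_of_lt (min_le_left _ _) (by linarith))
      rw [not_not] at h2
      have h3 := hK w' (mem_closedBall_self hρpos.le) _ (by
        rw [mem_closedBall, h1]; exact min_le_right _ _) h2
      rw [h_self] at h3
      have h4 : ((min (ε / 2) (δ / 2) : ℝ) : ℂ) = 0 := by
        have := add_eq_left.mp h3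
        exact this
      rw [Complex.ofReal_eq_zero] at h4
      linarith
    have hGd : ∀ᶠ N : ℕ in atTop, DifferentiableOn ℂ
        (fun z => rescaled P P.totalDegree (N : ℂ)⁻¹ (glue l w' z)) (ball (w l) (δ / 2)) := by
      refine Eventually.of_forall fun N => ?_
      simp only [rescaled]
      refine DifferentiableOn.fun_sum fun j _ => ?_
      exact (differentiableOn_const _).mul
        (differentiableOn_eval (fun i => (hgd i).differentiableOn) _)
    have key := UConv.exists_zero hr₁ (hBd.analyticAt _) hB0 hBne hGd hUB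
    filter_upwards [key, eventually_gt_atTop 0] with N hN hN0
    obtain ⟨z, hz, hz0⟩ := hN
    have hNne : (N : ℂ) ≠ 0 := by exact_mod_cast hN0.ne'
    refine ⟨z, by rwa [mem_ball, dist_eq_norm] at hz, ?_⟩
    rw [eval_eq_rescaled P rfl hNne, hz0, mul_zero]

end Pool.Agent.Lib.MP_209724_lc.MV
end
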