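import Mathlib
import Pool.Agent.Lib.MP_209724_lc.MV.Defs

section

/-!
Asymptotics of polynomials along `N v`.
-/

namespace Pool.Agent.Lib.MP_209724_lc.MV

open MvPolynomial Filter Topology Metric

theorem asym_eval_mul {σ : Type*} {q : MvPolynomial σ ℂ} {d : ℕ}
    (hq : q.IsHomogeneous d) (c : ℂ) (v : σ → ℂ) :
    eval (fun i => c * v i) q = c ^ d * eval v q := by
  rw [eval_eq, eval_eq, Finset.mul_sum]
  refine Finset.sum_congr rfl fun m hm => ?_
  have h1 : ∑ i ∈ m.support, m i = d := (hq.degree_eq_sum_deg_support hm).symm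
  simp_rw [mul_pow]
  rw [Finset.prod_mul_distrib, Finset.prod_pow_eq_pow_sum, h1]
  ring

/-- The rescaled polynomial `F(h, v) = h ^ d P(v / h)`, for `d` the degree of `P`. -/
noncomputable def asymResc {σ : Type*} (P : MvPolynomial σ ℂ) (d : ℕ) (h : ℂ) (v : σ → ℂ) : ℂ :=
  ∑ j ∈ Finset.range (d + 1), h ^ (d - j) * eval v (homogeneousComponent j P)

theorem continuous_asymResc {σ : Type*} (P : MvPolynomial σ ℂ) (d : ℕ) :
    Continuous (fun p : ℂ × (σ → ℂ) => asymResc P d p.1 p.2) := by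
  unfold asymResc
  refine continuous_finsetSum _ fun j _ => ?_
  exact (continuous_fst.pow _).mul ((MvPolynomial.continuous_eval _).comp continuous_snd)

theorem asymResc_zero {σ : Type*} (P : MvPolynomial σ ℂ) (d : ℕ) (v : σ → ℂ) :
    asymResc P d 0 v = eval v (homogeneousComponent d P) := by
  unfold asymResc
  rw [Finset.sum_range_succ, Finset.sum_eq_zero]
  · simp
  · intro j hj
    rw [zero_pow (by have := Finset.mem_range.mp hj; omega), zero_mul]

theorem eval_eq_asymResc {σ : Type*} (P : MvPolynomial σ ℂ) {d : ℕ} (hd : P.totalDegree = d)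
    {N : ℂ} (hN : N ≠ 0) (v : σ → ℂ) :
    eval (fun i => N * v i) P = N ^ d * asymResc P d N⁻¹ v := by
  have h1 : P = ∑ j ∈ Finset.range (d + 1), homogeneousComponent j P := by
    rw [← hd]; exact (sum_homogeneousComponent P).symm
  conv_lhs => rw [h1]
  rw [map_sum]
  unfold asymResc
  rw [Finset.mul_sum]
  refine Finset.sum_congr rfl fun j hj => ?_
  rw [asym_eval_mul (homogeneousComponent_isHomogeneous j P)]
  have h2 : j ≤ d := by have := Finset.mem_range.mp hj; omega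
  have h3 : N ^ d = N ^ j * N ^ (d - j) := by rw [← pow_add]; congr 1; omega
  rw [h3, inv_pow]
  have h4 : N ^ (d - j) ≠ 0 := pow_ne_zero _ hN
  field_simp

theorem exists_lower_bound {σ : Type*} [Fintype σ] (c : MvPolynomial σ ℂ) {D : Set (σ → ℂ)}
    (hD : IsCompact D) (hc : ∀ w ∈ D, eval w (lead c) ≠ 0) :
    ∃ δ : ℝ, 0 < δ ∧ ∀ᶠ N : ℕ in atTop, ∀ v ∈ D,
      δ ≤ ‖eval (fun j => (N : ℂ) * v j) c‖ := by
  set d := c.totalDegree with hd
  have hcont := continuous_asymResc c d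
  have hopen : IsOpen {p : ℂ × (σ → ℂ) | asymResc c d p.1 p.2 ≠ 0} :=
    isOpen_ne.preimage hcont
  obtain ⟨u, v, hu, hv, h0u, hDv, huv⟩ := generalized_tube_lemma (s := ({0} : Set ℂ))
    isCompact_singleton hD hopen (by
      rintro ⟨z, w⟩ ⟨hz, hw⟩
      rw [Set.mem_singleton_iff] at hz
      simp only at hz hw
      subst hz
      show asymResc c d 0 w ≠ 0
      rw [asymResc_zero]
      exact hc w hw)
  obtain ⟨r, hr, hru⟩ := Metric.nhds_basis_closedBall.mem_iff.1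
    (hu.mem_nhds (h0u (Set.mem_singleton (0 : ℂ))))
  have hK : IsCompact (closedBall (0 : ℂ) r ×ˢ D) := (isCompact_closedBall 0 r).prod hD
  obtain ⟨δ, hδ, hδ2⟩ : ∃ δ : ℝ, 0 < δ ∧ ∀ p ∈ closedBall (0 : ℂ) r ×ˢ D,
      δ ≤ ‖asymResc c d p.1 p.2‖ := by
    rcases (closedBall (0 : ℂ) r ×ˢ D).eq_empty_or_nonempty with h | h
    · exact ⟨1, one_pos, fun p hp => by rw [h] at hp; exact absurd hp (Set.notMem_empty p)⟩
    · obtain ⟨p, hp, hp2⟩ := hK.exists_isMinOn h hcont.norm.continuousOn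
      exact ⟨_, norm_pos_iff.2 (huv ⟨hru hp.1, hDv hp.2⟩), fun x hx => hp2 hx⟩
  refine ⟨δ, hδ, ?_⟩
  filter_upwards [eventually_ge_atTop 1, eventually_ge_atTop ⌈r⁻¹⌉₊] with N hN1 hN2 w hw
  have hN0 : (N : ℂ) ≠ 0 := by
    rw [Nat.cast_ne_zero]; omega
  have hN1' : (1 : ℝ) ≤ N := by exact_mod_cast hN1
  have hN2' : r⁻¹ ≤ (N : ℝ) := (Nat.le_ceil _).trans (by exact_mod_cast hN2)
  rw [eval_eq_asymResc c hd.symm hN0, norm_mul, norm_pow, Complex.norm_natCast]
  have h1 : δ ≤ ‖asymResc c d (N : ℂ)⁻¹ w‖ := by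
    refine hδ2 ((N : ℂ)⁻¹, w) ⟨?_, hw⟩
    rw [mem_closedBall_zero_iff, norm_inv, Complex.norm_natCast]
    exact inv_le_of_inv_le₀ hr hN2'
  calc δ = 1 * δ := (one_mul δ).symm
    _ ≤ (N : ℝ) ^ d * ‖asymResc c d (N : ℂ)⁻¹ w‖ :=
      mul_le_mul (one_le_pow₀ hN1') h1 hδ.le (by positivity)

/-- Polynomially bounded functions of `(x, t)` for `‖x‖ ≤ R N`, `‖t‖ ≤ 1`. -/
def AsymPB {σ : Type*} [Fintype σ] (R : ℝ) (g : (σ → ℂ) → ℂ → ℂ) : Prop :=
  ∃ C : ℕ, ∀ᶠ N : ℕ in atTop, ∀ x : σ → ℂ, ‖x‖ ≤ R * N → ∀ t : ℂ, ‖t‖ ≤ 1 →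
      ‖g x t‖ ≤ (N : ℝ) ^ C

theorem AsymPB.add {σ : Type*} [Fintype σ] {R : ℝ} {g h : (σ → ℂ) → ℂ → ℂ} (hg : AsymPB R g)
    (hh : AsymPB R h) : AsymPB R (fun x t => g x t + h x t) := by
  obtain ⟨C₁, h₁⟩ := hg
  obtain ⟨C₂, h₂⟩ := hh
  refine ⟨max C₁ C₂ + 1, ?_⟩
  filter_upwards [h₁, h₂, eventually_ge_atTop 2] with N h1 h2 hN x hx t ht
  have hN' : (2 : ℝ) ≤ N := by exact_mod_cast hN
  have e1 : (N : ℝ) ^ C₁ ≤ (N : ℝ) ^ max C₁ C₂ :=
    pow_le_pow_right₀ (by linarith) (le_max_left _ _)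
  have e2 : (N : ℝ) ^ C₂ ≤ (N : ℝ) ^ max C₁ C₂ :=
    pow_le_pow_right₀ (by linarith) (le_max_right _ _)
  have e3 : 0 ≤ (N : ℝ) ^ max C₁ C₂ := by positivity
  calc ‖g x t + h x t‖ ≤ ‖g x t‖ + ‖h x t‖ := norm_add_le _ _
    _ ≤ (N : ℝ) ^ max C₁ C₂ + (N : ℝ) ^ max C₁ C₂ :=
      add_le_add ((h1 x hx t ht).trans e1) ((h2 x hx t ht).trans e2)
    _ ≤ (N : ℝ) ^ (max C₁ C₂ + 1) := by rw [pow_succ]; nlinarith

theorem AsymPB.mul {σ : Type*} [Fintype σ] {R : ℝ} {g h : (σ → ℂ) → ℂ → ℂ} (hg : AsymPB R g)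
    (hh : AsymPB R h) : AsymPB R (fun x t => g x t * h x t) := by
  obtain ⟨C₁, h₁⟩ := hg
  obtain ⟨C₂, h₂⟩ := hh
  refine ⟨C₁ + C₂, ?_⟩
  filter_upwards [h₁, h₂] with N h1 h2 x hx t ht
  rw [norm_mul, pow_add]
  exact mul_le_mul (h1 x hx t ht) (h2 x hx t ht) (norm_nonneg _) (by positivity)

theorem AsymPB.const {σ : Type*} [Fintype σ] (R : ℝ) (c : ℂ) :
    AsymPB (σ := σ) R (fun _ _ => c) := by
  refine ⟨1, ?_⟩
  filter_upwards [eventually_ge_atTop ⌈‖c‖⌉₊] with N hN x _ t _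
  rw [pow_one]
  exact (Nat.le_ceil _).trans (by exact_mod_cast hN)

theorem AsymPB.coord {σ : Type*} [Fintype σ] (R : ℝ) (i : σ) :
    AsymPB (σ := σ) R (fun x _ => x i) := by
  refine ⟨2, ?_⟩
  filter_upwards [eventually_ge_atTop ⌈R⌉₊] with N hN x hx t _
  have h1 : R ≤ N := (Nat.le_ceil _).trans (by exact_mod_cast hN)
  calc ‖x i‖ ≤ ‖x‖ := norm_le_pi_norm x i
    _ ≤ R * N := hx
    _ ≤ N * N := mul_le_mul_of_nonneg_right h1 (Nat.cast_nonneg _)
    _ = (N : ℝ) ^ 2 := by ring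

theorem AsymPB.var {σ : Type*} [Fintype σ] (R : ℝ) :
    AsymPB (σ := σ) R (fun _ t => t) := by
  refine ⟨0, ?_⟩
  filter_upwards with N x _ t ht
  rwa [pow_zero]

theorem AsymPB.aeval {σ : Type*} [Fintype σ] (R : ℝ) (c : MvPolynomial σ ℂ) :
    AsymPB R (fun x _ => MvPolynomial.aeval x c) := by
  induction c using MvPolynomial.induction_on with
  | C a => simpa using AsymPB.const (σ := σ) R a
  | add p q hp hq => simpa using hp.add hq
  | mul_X p i hp => simpa using hp.mul (AsymPB.coord R i)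

theorem AsymPB.evT {σ : Type*} [Fintype σ] (R : ℝ) (a : Polynomial (MvPolynomial σ ℂ)) :
    AsymPB R (fun x t => MV.evT x t a) := by
  induction a using Polynomial.induction_on with
  | C a => simpa only [evT_C] using AsymPB.aeval R a
  | add p q hp hq => simpa only [map_add] using hp.add hq
  | monomial n a h =>
    have h2 := h.mul (AsymPB.var (σ := σ) R)
    simp only [map_mul, map_pow, evT_X] at h2 ⊢
    simpa only [pow_succ, mul_assoc] using h2

theorem exists_upper_bound {σ : Type*} [Fintype σ] (a : Polynomial (MvPolynomial σ ℂ)) (R : ℝ) :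
    ∃ C : ℕ, ∀ᶠ N : ℕ in atTop, ∀ x : σ → ℂ, ‖x‖ ≤ R * N → ∀ t : ℂ, ‖t‖ ≤ 1 →
      ‖evT x t a‖ ≤ (N : ℝ) ^ C :=
  AsymPB.evT R a

theorem exists_lower_bound_T {σ : Type*} [Fintype σ] (e : Polynomial (MvPolynomial σ ℂ))
    {D : Set (σ → ℂ)} (hD : IsCompact D) (hc : ∀ w ∈ D, eval w (lead (e.coeff 0)) ≠ 0)
    {δ : ℝ} (hδ : 0 < δ) :
    ∃ ε : ℝ, 0 < ε ∧ ∀ᶠ N : ℕ in atTop, ∀ v ∈ D, ∀ t : ℂ, ‖t‖ ≤ Real.exp (-(δ * N)) →
      ε ≤ ‖evT (fun j => (N : ℂ) * v j) t e‖ := by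
  obtain ⟨δ', hδ', h1⟩ := exists_lower_bound (e.coeff 0) hD hc
  obtain ⟨R, hR⟩ := hD.isBounded.exists_norm_le
  obtain ⟨C, h2⟩ := exists_upper_bound e.divX R
  have hr : |Real.exp (-δ)| < 1 := by
    rw [abs_of_pos (Real.exp_pos _), Real.exp_lt_one_iff]
    linarith
  have h3 : ∀ᶠ N : ℕ in atTop, (N : ℝ) ^ C * Real.exp (-δ) ^ N < δ' / 2 :=
    (tendsto_pow_const_mul_const_pow_of_abs_lt_one C hr).eventually_lt_const (by positivity)
  refine ⟨δ' / 2, by positivity, ?_⟩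
  filter_upwards [h1, h2, h3] with N h1 h2 h3 v hv t ht
  have hev : evT (fun j => (N : ℂ) * v j) t e =
      eval (fun j => (N : ℂ) * v j) (e.coeff 0) + evT (fun j => (N : ℂ) * v j) t e.divX * t := by
    conv_lhs => rw [← Polynomial.divX_mul_X_add e]
    rw [map_add, map_mul, evT_X, evT_C, add_comm]
    simp
  have hexp : Real.exp (-(δ * N)) = Real.exp (-δ) ^ N := by
    rw [← Real.exp_nat_mul]; congr 1; ring
  have ht1 : ‖t‖ ≤ 1 := ht.trans (by
    rw [Real.exp_le_one_iff]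
    have : 0 ≤ δ * N := by positivity
    linarith)
  have hx : ‖fun j => (N : ℂ) * v j‖ ≤ R * N := by
    have h4 : ‖fun j => (N : ℂ) * v j‖ = N * ‖v‖ := by
      have : (fun j => (N : ℂ) * v j) = (N : ℂ) • v := rfl
      rw [this, norm_smul, Complex.norm_natCast]
    rw [h4, mul_comm]
    exact mul_le_mul_of_nonneg_right (hR v hv) (Nat.cast_nonneg N)
  have h5 := h2 _ hx t ht1
  have h6 : ‖evT (fun j => (N : ℂ) * v j) t e.divX * t‖ ≤ δ' / 2 := by
    rw [norm_mul]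
    refine le_trans (mul_le_mul h5 (ht.trans hexp.le) (norm_nonneg _) (by positivity)) h3.le
  rw [hev]
  have h7 := norm_sub_norm_le (eval (fun j => (N : ℂ) * v j) (e.coeff 0))
    (-(evT (fun j => (N : ℂ) * v j) t e.divX * t))
  rw [norm_neg, sub_neg_eq_add] at h7
  have h8 := h1 v hv
  linarith

theorem eventually_ne_zero_T {σ : Type*} [Fintype σ] (b : Polynomial (MvPolynomial σ ℂ))
    {D : Set (σ → ℂ)} (hD : IsCompact D) (hc : ∀ w ∈ D, eval w (lead b.trailingCoeff) ≠ 0)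
    {δ : ℝ} (hδ : 0 < δ) :
    ∀ᶠ N : ℕ in atTop, ∀ v ∈ D, ∀ t : ℂ, t ≠ 0 → ‖t‖ ≤ Real.exp (-(δ * N)) →
      evT (fun j => (N : ℂ) * v j) t b ≠ 0 := by
  obtain ⟨e, he⟩ : Polynomial.X ^ b.natTrailingDegree ∣ b :=
    Polynomial.X_pow_dvd_iff.2 fun d hd => Polynomial.coeff_eq_zero_of_lt_natTrailingDegree hd
  have he0 : e.coeff 0 = b.trailingCoeff := by
    unfold Polynomial.trailingCoeff
    have key : ∀ k : ℕ, b = Polynomial.X ^ k * e → e.coeff 0 = b.coeff k := by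
      intro k hk
      rw [hk, mul_comm, Polynomial.coeff_mul_X_pow', if_pos le_rfl, Nat.sub_self]
    exact key _ he
  obtain ⟨ε, hε, h1⟩ := exists_lower_bound_T e hD (by rw [he0]; exact hc) hδ
  filter_upwards [h1] with N h1 v hv t ht0 ht
  have h2 := h1 v hv t ht
  rw [he, map_mul, map_pow, evT_X]
  refine mul_ne_zero (pow_ne_zero _ ht0) ?_
  intro h3
  rw [h3, norm_zero] at h2
  linarith

theorem lead_ne_zero {σ : Type*} {c : MvPolynomial σ ℂ} (hc : c ≠ 0) : lead c ≠ 0 := by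
  have hne : c.support.Nonempty := support_nonempty.2 hc
  obtain ⟨m, hm, hm2⟩ := Finset.exists_mem_eq_sup c.support hne (fun s => s.sum fun _ e => e)
  intro h
  have h1 := congrArg (coeff m) h
  unfold lead at h1
  rw [coeff_homogeneousComponent, coeff_zero, if_pos] at h1
  · exact (mem_support_iff.1 hm) h1
  · unfold totalDegree
    rw [hm2]
    rfl

end Pool.Agent.Lib.MP_209724_lc.MV
end

section

/-!
Logarithms of analytic functions on convex domains, and their size.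
-/

namespace Pool.Agent.Lib.MP_209724_lc.MV

open Filter Topology Metric

theorem exists_log {E : Type} [NormedAddCommGroup E] [NormedSpace ℂ E]
    {D : Set E} (hDo : IsOpen D) (hDc : Convex ℝ D) {f : E → ℂ} (hf : DifferentiableOn ℂ f D)
    (hf0 : ∀ p ∈ D, f p ≠ 0) :
    ∃ g : E → ℂ, DifferentiableOn ℂ g D ∧ ∀ p ∈ D, Complex.exp (g p) = f p := by
  rcases D.eq_empty_or_nonempty with hD | hD
  · subst hD
    exact ⟨fun _ => 0, fun p hp => absurd hp (Set.notMem_empty p),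
      fun p hp => absurd hp (Set.notMem_empty p)⟩
  have hcs : ContractibleSpace D := hDc.contractibleSpace hD
  have hsc : IsSimplyConnected D := (inferInstance : SimplyConnectedSpace D)
  obtain ⟨g, hgc, hg⟩ := Complex.exists_continuousOn_eqOn_exp_comp hsc hDo hf.continuousOn
    (by rintro ⟨p, hp, h⟩; exact hf0 p hp h)
  have hg' : ∀ p ∈ D, Complex.exp (g p) = f p := fun p hp => hg hp
  refine ⟨g, ?_, hg'⟩
  intro p₁ hp₁
  apply DifferentiableAt.differentiableWithinAt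
  have hDn : D ∈ 𝓝 p₁ := hDo.mem_nhds hp₁
  have hfd : DifferentiableAt ℂ f p₁ := hf.differentiableAt hDn
  set h : E → ℂ := fun p => g p₁ + Complex.log (f p / f p₁) with hh
  have hdiv : DifferentiableAt ℂ (fun p => f p / f p₁) p₁ := by
    simp only [div_eq_mul_inv]
    exact hfd.mul_const _
  have hone : f p₁ / f p₁ = 1 := div_self (hf0 p₁ hp₁)
  have hhd : DifferentiableAt ℂ h p₁ := by
    apply DifferentiableAt.const_add
    apply DifferentiableAt.clog hdiv
    rw [hone]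
    exact Complex.one_mem_slitPlane
  have hgca : ContinuousAt g p₁ := hgc.continuousAt hDn
  have hev : ∀ᶠ p in 𝓝 p₁, ‖g p - h p‖ < 1 := by
    have h1 : ContinuousAt (fun p => ‖g p - h p‖) p₁ := (hgca.sub hhd.continuousAt).norm
    have h2 : ‖g p₁ - h p₁‖ < 1 := by
      rw [hh]
      simp only [hone, Complex.log_one, add_zero, sub_self, norm_zero]
      exact one_pos
    exact h1.eventually_lt continuousAt_const h2
  have heq : g =ᶠ[𝓝 p₁] h := by
    filter_upwards [hev, hDn] with p hp hpD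
    have h3 : Complex.exp (g p) = Complex.exp (h p) := by
      rw [hg' p hpD, hh]
      simp only
      rw [Complex.exp_add, hg' p₁ hp₁, Complex.exp_log (div_ne_zero (hf0 p hpD) (hf0 p₁ hp₁))]
      field_simp [hf0 p₁ hp₁]
    obtain ⟨n, hn⟩ := Complex.exp_eq_exp_iff_exists_int.1 h3
    have h4 : g p - h p = n * (2 * Real.pi * Complex.I) := by rw [hn]; ring
    rw [h4] at hp
    simp only [norm_mul, Complex.norm_intCast, Complex.norm_ofNat, Complex.norm_real,
      Complex.norm_I, mul_one, Real.norm_eq_abs, abs_of_pos Real.pi_pos] at hp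
    have h5 : n = 0 := by
      by_contra hne
      have h6 : (1 : ℝ) ≤ |(n : ℝ)| := by
        exact_mod_cast Int.one_le_abs hne
      have h7 := Real.pi_gt_three
      nlinarith
    rw [hn, h5]
    simp
  exact (heq.differentiableAt_iff).2 hhd

theorem log_small {E : Type} [NormedAddCommGroup E] [NormedSpace ℂ E] {p₀ : E} {ρ : ℝ}
    (hρ : 0 < ρ) (Λ : ℕ → E → ℂ)
    (hd : ∀ᶠ N : ℕ in atTop, DifferentiableOn ℂ (Λ N) (ball p₀ ρ))
    (hre : ∀ ε : ℝ, 0 < ε → ∀ᶠ N : ℕ in atTop, ∀ p ∈ ball p₀ ρ, |(Λ N p).re| ≤ ε * N)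
    (him : ∃ C : ℝ, ∀ᶠ N : ℕ in atTop, |(Λ N p₀).im| ≤ C) :
    ∀ ε : ℝ, 0 < ε → ∀ᶠ N : ℕ in atTop, ∀ p ∈ ball p₀ (ρ / 2), ‖Λ N p‖ ≤ ε * N := by
  intro ε hε
  obtain ⟨C, hC⟩ := him
  have hε6 : 0 < ε / 6 := by positivity
  have hN : ∀ᶠ N : ℕ in atTop, C ≤ ε / 6 * N := by
    have : Tendsto (fun N : ℕ => ε / 6 * (N : ℝ)) atTop atTop :=
      tendsto_natCast_atTop_atTop.const_mul_atTop hε6
    exact this.eventually_ge_atTop C
  filter_upwards [hd, hre (ε / 6) hε6, hC, hN, eventually_gt_atTop 0] with N h1 h2 h3 h4 h5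
  intro p hp
  have hNpos : (0 : ℝ) < N := by exact_mod_cast h5
  set F : ℂ → ℂ := fun z => Λ N (p₀ + z • (p - p₀)) - Λ N p₀ with hF
  have hp' : ‖p - p₀‖ < ρ / 2 := by rwa [mem_ball, dist_eq_norm] at hp
  have hmap : ∀ z ∈ ball (0 : ℂ) 2, p₀ + z • (p - p₀) ∈ ball p₀ ρ := by
    intro z hz
    rw [mem_ball_zero_iff] at hz
    rw [mem_ball, dist_eq_norm, add_sub_cancel_left, norm_smul]
    have := norm_nonneg (p - p₀)
    have := norm_nonneg z
    nlinarith
  have hp₀ : p₀ ∈ ball p₀ ρ := mem_ball_self hρ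
  have h6 := Complex.borelCaratheodory_zero (f := F) (M := 2 * (ε / 6) * N) (R := 2) (z := 1)
    (by positivity) (by
      apply DifferentiableOn.sub_const
      apply h1.comp
      · fun_prop
      · exact hmap) (by
      intro z hz
      simp only [Set.mem_ofPred_eq, hF, Complex.sub_re]
      have h7 := abs_le.1 (h2 _ (hmap z hz))
      have h8 := abs_le.1 (h2 _ hp₀)
      linarith [h7.2, h8.1]) (by norm_num) (by simp) (by simp [hF])
  have h9 : F 1 = Λ N p - Λ N p₀ := by simp [hF]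
  rw [h9] at h6
  simp only [norm_one, mul_one] at h6
  have h10 : ‖Λ N p₀‖ ≤ |(Λ N p₀).re| + |(Λ N p₀).im| := Complex.norm_le_abs_re_add_abs_im _
  have h11 := h2 _ hp₀
  have h12 : ‖Λ N p‖ ≤ ‖Λ N p - Λ N p₀‖ + ‖Λ N p₀‖ := norm_le_norm_sub_add _ _
  have h13 : 2 * (2 * (ε / 6) * (N : ℝ)) / (2 - 1) = 4 * (ε / 6) * N := by ring
  rw [h13] at h6
  linarith

end Pool.Agent.Lib.MP_209724_lc.MV
end

section

/-!
The approximate idempotent at a place: `B = integralClosure K[t] L` is a Dedekind domain, the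
place `𝒪` cuts out a maximal ideal `𝔭 ∋ t` of `B`, and splitting off the `𝔭`-part of the ideal
`(t)` gives `g` with `g ≡ 1 mod 𝔭` and `t ∣ g (g - 1)`.
-/

namespace Pool.Agent.Lib.MP_209724_lc.MV

open IntermediateField.algebraAdjoinAdjoin

open scoped nonZeroDivisors in
/-- In a Dedekind domain `B` with fraction field `L`, the fractional ideal `(1, u)` is
invertible. -/
private theorem idem_denominators {B L : Type*} [CommRing B] [IsDedekindDomain B] [Field L]
    [Algebra B L] [IsFractionRing B L] (u : L) :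
    ∃ a b a' b' : B, algebraMap B L a * u = algebraMap B L a' ∧
      algebraMap B L b * u = algebraMap B L b' ∧ a + b' = 1 := by
  set J : FractionalIdeal B⁰ L := 1 + FractionalIdeal.spanSingleton B⁰ u with hJ
  have h1J : (1 : L) ∈ J := (FractionalIdeal.mem_add _ _ _).2
    ⟨1, FractionalIdeal.one_mem_one _, 0, FractionalIdeal.zero_mem _, add_zero _⟩
  have huJ : u ∈ J := (FractionalIdeal.mem_add _ _ _).2
    ⟨0, FractionalIdeal.zero_mem _, u, FractionalIdeal.mem_spanSingleton_self _ _, zero_add _⟩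
  have hJ0 : J ≠ 0 := by
    intro h
    rw [h] at h1J
    simp at h1J
  have hinv : J * J⁻¹ = 1 := mul_inv_cancel₀ hJ0
  have h1 : (1 : L) ∈ J * J⁻¹ := by rw [hinv]; exact FractionalIdeal.one_mem_one _
  rw [hJ, add_mul, one_mul, ← hJ] at h1
  obtain ⟨a, ha, c, hc, hac⟩ := (FractionalIdeal.mem_add _ _ _).1 h1
  obtain ⟨b, hb, rfl⟩ := FractionalIdeal.mem_singleton_mul.1 hc
  rw [FractionalIdeal.mem_inv_iff hJ0] at ha hb
  obtain ⟨a1, ha1⟩ := (FractionalIdeal.mem_one_iff _).1 (ha 1 h1J)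
  obtain ⟨a2, ha2⟩ := (FractionalIdeal.mem_one_iff _).1 (ha u huJ)
  obtain ⟨b1, hb1⟩ := (FractionalIdeal.mem_one_iff _).1 (hb 1 h1J)
  obtain ⟨b2, hb2⟩ := (FractionalIdeal.mem_one_iff _).1 (hb u huJ)
  rw [mul_one] at ha1 hb1
  refine ⟨a1, b1, a2, b2, by rw [ha1, ha2], by rw [hb1, hb2], ?_⟩
  apply IsFractionRing.injective B L
  rw [map_add, map_one, ha1, hb2, ← hac, mul_comm u b]

/-- Splitting off the `𝔭`-part of `t` in a Dedekind domain. -/
private theorem idem_split {B : Type*} [CommRing B] [IsDedekindDomain B] (𝔭 : Ideal B)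
    [h𝔭 : 𝔭.IsPrime] (t : B) (ht : t ≠ 0) (ht𝔭 : t ∈ 𝔭) :
    ∃ g : B, g - 1 ∈ 𝔭 ∧ t ∣ g * (g - 1) ∧
      ∀ 𝔮 : Ideal B, 𝔮.IsPrime → t ∈ 𝔮 → g ∉ 𝔮 → 𝔮 = 𝔭 := by
  have h𝔭0 : 𝔭 ≠ ⊥ := by
    rintro rfl
    exact ht (by simpa using ht𝔭)
  have hmax : 𝔭.IsMaximal := h𝔭.isMaximal h𝔭0
  have hirr : Irreducible 𝔭 := (Ideal.prime_of_isPrime h𝔭0 h𝔭).irreducible
  have hspan0 : (Ideal.span {t} : Ideal B) ≠ 0 := by
    simpa [Ideal.span_singleton_eq_bot] using ht
  obtain ⟨n, J, hJ, hfac⟩ := WfDvdMonoid.max_power_factor hspan0 hirr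
  have hJ' : ¬ J ≤ 𝔭 := by rwa [Ideal.dvd_iff_le] at hJ
  have hn : n ≠ 0 := by
    rintro rfl
    rw [pow_zero, one_mul] at hfac
    apply hJ'
    rw [← hfac, Ideal.span_singleton_le_iff_mem]
    exact ht𝔭
  have hcop : IsCoprime (𝔭 ^ n) J := by
    apply IsCoprime.pow_left
    rw [Ideal.isCoprime_iff_sup_eq]
    have hlt : 𝔭 < 𝔭 ⊔ J := by
      refine lt_of_le_of_ne le_sup_left fun h => hJ' ?_
      rw [h]
      exact le_sup_right
    exact hmax.1.2 _ hlt
  obtain ⟨x, hx, y, hy, hxy⟩ := Ideal.isCoprime_iff_exists.1 hcop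
  refine ⟨y, ?_, ?_, ?_⟩
  · have : y - 1 = -x := by rw [← hxy]; ring
    rw [this]
    exact 𝔭.neg_mem (Ideal.pow_le_self hn hx)
  · rw [← Ideal.mem_span_singleton, hfac]
    have : y * (y - 1) = -(x * y) := by
      have : y - 1 = -x := by rw [← hxy]; ring
      rw [this]; ring
    rw [this]
    exact neg_mem (Ideal.mul_mem_mul hx hy)
  · intro 𝔮 h𝔮 ht𝔮 hg𝔮
    have hle : 𝔭 ^ n * J ≤ 𝔮 := by
      rw [← hfac, Ideal.span_singleton_le_iff_mem]
      exact ht𝔮
    rcases (h𝔮.mul_le).1 hle with h | h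
    · have h2 : 𝔭 ≤ 𝔮 := h𝔮.le_of_pow_le h
      exact (hmax.eq_of_le h𝔮.ne_top h2).symm
    · exact absurd (h hy) hg𝔮

/-- The main algebraic step for a Dedekind extension `B` of `K[t]` inside `L`. -/
private theorem idem_dedekind {K B L : Type*} [Field K] [CommRing B] [IsDedekindDomain B]
    [Field L] [Algebra B L] [IsFractionRing B L] [Algebra K B] [Algebra K L]
    [IsScalarTower K B L] (t : B) (ht : t ≠ 0)
    (hint : ∀ b : B, b ≠ 0 → ∃ p : Polynomial K, p ≠ 0 ∧ b ∣ Polynomial.aeval t p)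
    (𝒪 : ValuationSubring L) (hB : ∀ b : B, algebraMap B L b ∈ 𝒪)
    (ht1 : 𝒪.valuation (algebraMap B L t) < 1) (U : Finset L) (hU : ∀ u ∈ U, u ∈ 𝒪) :
    ∃ (g f : B) (k : ℕ) (e : Polynomial K), e.coeff 0 ≠ 0 ∧
      𝒪.valuation (algebraMap B L g - 1) < 1 ∧ g * (g - 1) = t * f ∧
      ∀ u ∈ U, ∃ w : B, algebraMap B L (Polynomial.aeval t e * g ^ k) * u =
        algebraMap B L w := by
  classical
  let φ : B →+* 𝒪 := (algebraMap B L).codRestrict 𝒪.toSubring hB
  have hφ : ∀ b : B, ((φ b : 𝒪) : L) = algebraMap B L b := fun b => rfl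
  let 𝔭 : Ideal B := (IsLocalRing.maximalIdeal 𝒪).comap φ
  have hmem : ∀ b : B, b ∈ 𝔭 ↔ 𝒪.valuation (algebraMap B L b) < 1 := by
    intro b
    rw [Ideal.mem_comap, ValuationSubring.valuation_lt_one_iff, hφ]
  have h𝔭 : 𝔭.IsPrime := Ideal.comap_isPrime φ _
  obtain ⟨g, hg𝔭, ⟨f, hf⟩, hgq⟩ := idem_split 𝔭 t ht ((hmem t).2 ht1)
  have key : ∀ u ∈ 𝒪, ∃ (k : ℕ) (e : Polynomial K), e.coeff 0 ≠ 0 ∧ ∃ w : B,
      algebraMap B L (Polynomial.aeval t e * g ^ k) * u = algebraMap B L w := by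
    intro u hu
    obtain ⟨a, b, a', b', ha, hb, hab⟩ := idem_denominators (B := B) u
    let D : Ideal B :=
      { carrier := {b | ∃ w : B, algebraMap B L b * u = algebraMap B L w}
        add_mem' := by
          rintro x y ⟨w, hw⟩ ⟨w', hw'⟩
          exact ⟨w + w', by rw [map_add, add_mul, hw, hw', map_add]⟩
        zero_mem' := ⟨0, by simp⟩
        smul_mem' := by
          rintro c x ⟨w, hw⟩
          exact ⟨c * w, by rw [smul_eq_mul, map_mul, mul_assoc, hw, map_mul]⟩ }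
    have haD : a ∈ D := ⟨a', ha⟩
    have hbD : b ∈ D := ⟨b', hb⟩
    have hD𝔭 : ¬ D ≤ 𝔭 := by
      intro h
      have h1 : 𝒪.valuation (algebraMap B L a) < 1 := (hmem a).1 (h haD)
      have h2 : 𝒪.valuation (algebraMap B L b) < 1 := (hmem b).1 (h hbD)
      have h3 : 𝒪.valuation (algebraMap B L b * u) < 1 := by
        rw [map_mul]
        have : 𝒪.valuation u ≤ 1 := (𝒪.valuation_le_one_iff u).2 hu
        exact mul_lt_one_of_lt_of_le h2 this
      rw [hb] at h3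
      have h4 : 𝒪.valuation (algebraMap B L a + algebraMap B L b') < 1 :=
        Valuation.map_add_lt _ h1 h3
      rw [← map_add, hab, map_one, map_one] at h4
      exact lt_irrefl _ h4
    have hD0 : D ≠ ⊥ := by
      intro h
      apply hD𝔭
      rw [h]
      exact bot_le
    by_contra hcon
    push Not at hcon
    let S : Submonoid B :=
      { carrier := {s | ∃ (k : ℕ) (e : Polynomial K), e.coeff 0 ≠ 0 ∧
          s = Polynomial.aeval t e * g ^ k}
        one_mem' := ⟨0, 1, by simp, by simp⟩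
        mul_mem' := by
          rintro x y ⟨k, e, he, rfl⟩ ⟨k', e', he', rfl⟩
          exact ⟨k + k', e * e', by simp [Polynomial.mul_coeff_zero, he, he'],
            by rw [map_mul, pow_add]; ring⟩ }
    have hdisj : Disjoint (D : Set B) (S : Set B) := by
      rw [Set.disjoint_left]
      rintro x ⟨w, hw⟩ ⟨k, e, he, rfl⟩
      exact hcon k e he w hw
    obtain ⟨𝔮, h𝔮, hD𝔮, hS𝔮⟩ := Ideal.exists_le_prime_disjoint D S hdisj
    have hS𝔮' : ∀ s ∈ S, s ∉ 𝔮 := fun s hs hs' => Set.disjoint_left.1 hS𝔮 hs' hs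
    obtain ⟨d, hdD, hd0⟩ := Submodule.exists_mem_ne_zero_of_ne_bot hD0
    obtain ⟨p, hp0, hdp⟩ := hint d hd0
    have hpq : Polynomial.aeval t p ∈ 𝔮 := 𝔮.mem_of_dvd hdp (hD𝔮 hdD)
    obtain ⟨q, hq, hXq⟩ := Polynomial.exists_eq_pow_rootMultiplicity_mul_and_not_dvd p hp0 0
    rw [Polynomial.C_0, sub_zero] at hq hXq
    have hq0 : q.coeff 0 ≠ 0 := by
      rwa [Ne, ← Polynomial.X_dvd_iff]
    have ht𝔮 : t ∈ 𝔮 := by
      rw [hq, map_mul, map_pow, Polynomial.aeval_X] at hpq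
      rcases h𝔮.mem_or_mem hpq with h | h
      · exact h𝔮.mem_of_pow_mem _ h
      · exact absurd h (hS𝔮' _ ⟨0, q, hq0, by simp⟩)
    have hg𝔮 : g ∉ 𝔮 := hS𝔮' g ⟨1, 1, by simp, by simp⟩
    have := hgq 𝔮 h𝔮 ht𝔮 hg𝔮
    exact hD𝔭 (this ▸ hD𝔮)
  have hall : ∃ (k : ℕ) (e : Polynomial K), e.coeff 0 ≠ 0 ∧ ∀ u ∈ U, ∃ w : B,
      algebraMap B L (Polynomial.aeval t e * g ^ k) * u = algebraMap B L w := by
    induction U using Finset.induction_on with
    | empty => exact ⟨0, 1, by simp, by simp⟩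
    | insert u U huU ih =>
      obtain ⟨k, e, he, h⟩ := ih fun u hu => hU u (Finset.mem_insert_of_mem hu)
      obtain ⟨k', e', he', w', hw'⟩ := key u (hU u (Finset.mem_insert_self _ _))
      refine ⟨k + k', e * e', by simp [Polynomial.mul_coeff_zero, he, he'], ?_⟩
      intro v hv
      rcases Finset.mem_insert.1 hv with rfl | hv
      · refine ⟨Polynomial.aeval t e * g ^ k * w', ?_⟩
        rw [map_mul _ _ w', ← hw', ← mul_assoc, ← map_mul]
        congr 2
        rw [map_mul, pow_add]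
        ring
      · obtain ⟨w, hw⟩ := h v hv
        refine ⟨Polynomial.aeval t e' * g ^ k' * w, ?_⟩
        rw [map_mul _ _ w, ← hw, ← mul_assoc, ← map_mul]
        congr 2
        rw [map_mul, pow_add]
        ring
  obtain ⟨k, e, he, h⟩ := hall
  refine ⟨g, f, k, e, he, ?_, hf, h⟩
  have := (hmem (g - 1)).1 hg𝔭
  rwa [map_sub, map_one] at this

theorem exists_idem {K L : Type} [Field K] [CharZero K] [Field L] [Algebra K L] (t : L)
    (ht : Transcendental K t)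
    (hfin : FiniteDimensional (IntermediateField.adjoin K {t}) L)
    (𝒪 : ValuationSubring L) (hK : ∀ c : K, algebraMap K L c ∈ 𝒪) (ht1 : 𝒪.valuation t < 1)
    (U : Finset L) (hU : ∀ u ∈ U, u ∈ 𝒪) :
    ∃ (g f : L) (k M : ℕ) (e : Polynomial K), e.coeff 0 ≠ 0 ∧ 0 < M ∧
      IsIntegral (Algebra.adjoin K ({t} : Set L)) g ∧ 𝒪.valuation (g - 1) < 1 ∧
      IsIntegral (Algebra.adjoin K ({t} : Set L)) f ∧ (g * (g - 1)) ^ M = t * f ∧
      ∀ u ∈ U, IsIntegral (Algebra.adjoin K ({t} : Set L)) (Polynomial.aeval t e * g ^ k * u) := by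
  classical
  let R : Subalgebra K L := Algebra.adjoin K ({t} : Set L)
  let F : IntermediateField K L := IntermediateField.adjoin K {t}
  have htR : t ∈ R := Algebra.self_mem_adjoin_singleton K t
  let tR : R := ⟨t, htR⟩
  have haev : ∀ p : Polynomial K, ((Polynomial.aeval tR p : R) : L) = Polynomial.aeval t p := by
    intro p
    have := Polynomial.aeval_algHom_apply R.val tR p
    exact this.symm
  have hsurj : Function.Surjective (Polynomial.aeval tR : Polynomial K →ₐ[K] R) := by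
    rintro ⟨x, hx⟩
    have hx' : x ∈ Algebra.adjoin K ({t} : Set L) := hx
    rw [Algebra.adjoin_singleton_eq_range_aeval] at hx'
    obtain ⟨p, hp⟩ := hx'
    exact ⟨p, Subtype.ext ((haev p).trans hp)⟩
  have hPIR : IsPrincipalIdealRing R :=
    IsPrincipalIdealRing.of_surjective (Polynomial.aeval tR : Polynomial K →ₐ[K] R) hsurj
  have hDD : IsDedekindDomain R := inferInstance
  have hDB : IsDedekindDomain (integralClosure R L) :=
    integralClosure.isDedekindDomain R F L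
  have hFB : IsFractionRing (integralClosure R L) L :=
    integralClosure.isFractionRing_of_finite_extension F L
  let tB : integralClosure R L := algebraMap R (integralClosure R L) tR
  have htB : algebraMap (integralClosure R L) L tB = t := rfl
  have haevB : ∀ p : Polynomial K,
      algebraMap (integralClosure R L) L (Polynomial.aeval tB p) = Polynomial.aeval t p := by
    intro p
    exact (Polynomial.aeval_algebraMap_apply L tB p).symm
  have ht0 : t ≠ 0 := by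
    rintro rfl
    exact ht (isAlgebraic_zero)
  have htB0 : tB ≠ 0 := by
    intro h
    apply ht0
    rw [← htB, h, map_zero]
  -- `R ⊆ 𝒪`
  have hR𝒪' : ∀ x ∈ Algebra.adjoin K ({t} : Set L), x ∈ 𝒪 := by
    intro x hx
    induction hx using Algebra.adjoin_induction with
    | mem x hx =>
      rw [Set.mem_singleton_iff] at hx
      rw [hx]
      exact (𝒪.valuation_le_one_iff t).1 ht1.le
    | algebraMap r => exact hK r
    | add x y hx hy h1 h2 => exact add_mem h1 h2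
    | mul x y hx hy h1 h2 => exact mul_mem h1 h2
  have hR𝒪 : ∀ x : R, algebraMap R L x ∈ 𝒪 := fun x => hR𝒪' x.1 x.2
  have hB𝒪 : ∀ b : integralClosure R L, algebraMap (integralClosure R L) L b ∈ 𝒪 := by
    intro b
    obtain ⟨p, hp, hpb⟩ := (mem_integralClosure_iff R L).1 b.2
    let ψ : R →+* 𝒪 := (algebraMap R L).codRestrict 𝒪.toSubring hR𝒪
    have hψ : (algebraMap 𝒪 L).comp ψ = algebraMap R L := RingHom.ext fun x => rfl
    have hint : IsIntegral 𝒪 (b : L) := by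
      refine ⟨p.map ψ, hp.map ψ, ?_⟩
      rw [Polynomial.eval₂_map, hψ]
      exact hpb
    obtain ⟨y, hy⟩ := IsIntegrallyClosed.isIntegral_iff.1 hint
    rw [show algebraMap (integralClosure R L) L b = algebraMap 𝒪 L y from hy.symm]
    exact y.2
  have hintB : ∀ b : integralClosure R L, b ≠ 0 → ∃ p : Polynomial K, p ≠ 0 ∧
      b ∣ Polynomial.aeval tB p := by
    intro b hb
    have halg : IsAlgebraic R b := (integralClosure.isIntegral b).isAlgebraic
    obtain ⟨r, hr0, hr⟩ := halg.exists_nonzero_dvd (mem_nonZeroDivisors_of_ne_zero hb)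
    obtain ⟨p, rfl⟩ := hsurj r
    refine ⟨p, ?_, ?_⟩
    · rintro rfl
      exact hr0 (map_zero _)
    · have h1 : algebraMap R (integralClosure R L) (Polynomial.aeval tR p) =
          Polynomial.aeval tB p := by
        rw [← Polynomial.aeval_algebraMap_apply]
      rwa [h1] at hr
  obtain ⟨g, f, k, e, he, hg, hgf, hU'⟩ := idem_dedekind (K := K) (L := L) tB htB0 hintB 𝒪 hB𝒪
    (by rw [htB]; exact ht1) U hU
  refine ⟨algebraMap _ L g, algebraMap _ L f, k, 1, e, he, one_pos, g.2, hg, f.2, ?_, ?_⟩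
  · rw [pow_one, ← map_one (algebraMap (integralClosure R L) L), ← map_sub, ← map_mul, hgf,
      map_mul, htB]
  · intro u hu
    obtain ⟨w, hw⟩ := hU' u hu
    rw [map_mul, haevB, map_pow] at hw
    rw [hw]
    exact w.2

end Pool.Agent.Lib.MP_209724_lc.MV
end
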