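import Mathlib
import Pool.Agent.Lib.MP_209724_lc.MV.Defs

section

/-!
Commutative algebra for generic choices: factors of homogeneous polynomials.
-/

namespace Pool.Agent.Lib.MP_209724_lc

open MvPolynomial

variable {n : ℕ}

/-- The homomorphism `x_i ↦ x_i T`. -/
noncomputable def scaleHom (n : ℕ) : MvPolynomial (Fin n) ℂ →ₐ[ℂ] Polynomial (MvPolynomial (Fin n) ℂ) :=
  aeval (fun i => Polynomial.C (X i) * Polynomial.X)

theorem scaleHom_monomial (s : Fin n →₀ ℕ) (c : ℂ) :
    scaleHom n (monomial s c) = Polynomial.C (monomial s c) * Polynomial.X ^ s.degree := by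
  rw [scaleHom, aeval_monomial]
  have h1 : (s.prod fun i k => (Polynomial.C (X i : MvPolynomial (Fin n) ℂ) * Polynomial.X) ^ k)
      = Polynomial.C (s.prod fun i k => (X i : MvPolynomial (Fin n) ℂ) ^ k) *
        Polynomial.X ^ s.degree := by
    simp only [mul_pow, Finsupp.prod_mul]
    congr 1
    · rw [map_finsuppProd]
      simp
    · rw [Finsupp.prod, Finset.prod_pow_eq_pow_sum]
      rfl
  rw [h1, monomial_eq, Polynomial.C_mul, ← mul_assoc]
  rfl

theorem scaleHom_of_isHomogeneous {p : MvPolynomial (Fin n) ℂ} {d : ℕ} (hp : p.IsHomogeneous d) :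
    scaleHom n p = Polynomial.C p * Polynomial.X ^ d := by
  conv_lhs => rw [p.as_sum]
  conv_rhs => rw [p.as_sum]
  rw [map_sum, map_sum, Finset.sum_mul]
  refine Finset.sum_congr rfl fun s hs => ?_
  rw [scaleHom_monomial]
  have : s.degree = d := by
    by_contra hne
    exact (mem_support_iff.1 hs) (hp.coeff_eq_zero hne)
  rw [this]

theorem scaleHom_eq (p : MvPolynomial (Fin n) ℂ) :
    scaleHom n p = ∑ i ∈ Finset.range (p.totalDegree + 1),
      Polynomial.C (homogeneousComponent i p) * Polynomial.X ^ i := by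
  conv_lhs => rw [← sum_homogeneousComponent p]
  rw [map_sum]
  exact Finset.sum_congr rfl fun i _ =>
    scaleHom_of_isHomogeneous (homogeneousComponent_isHomogeneous i p)

theorem coeff_scaleHom (p : MvPolynomial (Fin n) ℂ) (k : ℕ) :
    (scaleHom n p).coeff k = homogeneousComponent k p := by
  rw [scaleHom_eq, Polynomial.finsetSum_coeff]
  simp only [Polynomial.coeff_C_mul, Polynomial.coeff_X_pow, mul_ite, mul_one, mul_zero]
  rw [Finset.sum_ite_eq (Finset.range (p.totalDegree + 1)) k]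
  split_ifs with h
  · rfl
  · rw [homogeneousComponent_eq_zero]
    simpa using h

/-- A factor of a nonzero homogeneous polynomial is homogeneous. -/
theorem isHomogeneous_of_mul {p q : MvPolynomial (Fin n) ℂ} {d : ℕ}
    (h : (p * q).IsHomogeneous d) (h0 : p * q ≠ 0) :
    ∃ e k, p.IsHomogeneous e ∧ q.IsHomogeneous k ∧ e + k = d := by
  have hp0 : p ≠ 0 := left_ne_zero_of_mul h0
  have hq0 : q ≠ 0 := right_ne_zero_of_mul h0
  have h1 := scaleHom_of_isHomogeneous h
  rw [map_mul] at h1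
  have hinj : ∀ r : MvPolynomial (Fin n) ℂ, r ≠ 0 → scaleHom n r ≠ 0 := by
    intro r hr h2
    apply hr
    rw [← sum_homogeneousComponent r]
    refine Finset.sum_eq_zero fun i _ => ?_
    rw [← coeff_scaleHom, h2, Polynomial.coeff_zero]
  have hP := hinj p hp0
  have hQ := hinj q hq0
  have hdeg : (scaleHom n p).natDegree + (scaleHom n q).natDegree = d := by
    rw [← Polynomial.natDegree_mul hP hQ, h1, Polynomial.natDegree_C_mul_X_pow _ _ h0]
  have htr : (scaleHom n p).natTrailingDegree + (scaleHom n q).natTrailingDegree = d := by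
    rw [← Polynomial.natTrailingDegree_mul hP hQ, h1, Polynomial.natTrailingDegree_mul
      (by simpa using h0) (by simp), Polynomial.natTrailingDegree_C, Polynomial.natTrailingDegree_X_pow, zero_add]
  have hp1 := Polynomial.natTrailingDegree_le_natDegree (scaleHom n p)
  have hq1 := Polynomial.natTrailingDegree_le_natDegree (scaleHom n q)
  have key : ∀ r : MvPolynomial (Fin n) ℂ, r ≠ 0 →
      (scaleHom n r).natTrailingDegree = (scaleHom n r).natDegree →
      r.IsHomogeneous (scaleHom n r).natDegree := by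
    intro r hr heq
    have : r = homogeneousComponent (scaleHom n r).natDegree r := by
      conv_lhs => rw [← sum_homogeneousComponent r]
      have hz : ∀ i, i ≠ (scaleHom n r).natDegree → homogeneousComponent i r = 0 := by
        intro i hi
        rw [← coeff_scaleHom]
        rcases lt_or_gt_of_ne hi with h | h
        · exact Polynomial.coeff_eq_zero_of_lt_natTrailingDegree (by omega)
        · exact Polynomial.coeff_eq_zero_of_natDegree_lt h
      by_cases hmem : (scaleHom n r).natDegree ∈ Finset.range (r.totalDegree + 1)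
      · exact Finset.sum_eq_single_of_mem _ hmem fun i _ hi => hz i hi
      · rw [Finset.sum_eq_zero fun i hi => hz i (fun h => hmem (h ▸ hi))]
        rw [homogeneousComponent_eq_zero]
        simpa using hmem
    rw [this]
    conv => arg 2; rw [← this]
    exact homogeneousComponent_isHomogeneous _ _
  exact ⟨_, _, key p hp0 (by omega), key q hq0 (by omega), hdeg⟩

theorem exists_factor (p : MvPolynomial (Fin n) ℂ) {d : ℕ} (hp : p.IsHomogeneous d) (hp0 : p ≠ 0)
    (hd : 0 < d) : ∃ (f : MvPolynomial (Fin n) ℂ) (e : ℕ),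
      Irreducible f ∧ f ∣ p ∧ f.IsHomogeneous e ∧ 0 < e := by
  have hu : ¬ IsUnit p := by
    intro hu
    rw [MvPolynomial.isUnit_iff_eq_C_of_isReduced] at hu
    obtain ⟨c, _, rfl⟩ := hu
    have := (isHomogeneous_C (Fin n) c).inj_right hp hp0
    omega
  obtain ⟨f, hf, q, rfl⟩ := WfDvdMonoid.exists_irreducible_factor hu hp0
  obtain ⟨e, k, he, _, _⟩ := isHomogeneous_of_mul hp hp0
  refine ⟨f, e, hf, dvd_mul_right _ _, he, ?_⟩
  rcases Nat.eq_zero_or_pos e with h | h
  · exfalso
    subst h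
    rw [← totalDegree_zero_iff_isHomogeneous, totalDegree_eq_zero_iff_eq_C] at he
    apply hf.not_isUnit
    rw [he]
    rw [MvPolynomial.isUnit_iff_eq_C_of_isReduced]
    refine ⟨_, ?_, rfl⟩
    rw [isUnit_iff_ne_zero]
    intro h0
    rw [h0, C_0] at he
    exact hf.ne_zero he
  · exact h

theorem exists_cofactor (f p : MvPolynomial (Fin n) ℂ) {d e : ℕ} (hf : Irreducible f)
    (hfe : f.IsHomogeneous e) (_he : 0 < e) (hp : p.IsHomogeneous d) (hp0 : p ≠ 0) :
    ∃ (ρ k : ℕ) (w : MvPolynomial (Fin n) ℂ),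
      p = f ^ ρ * w ∧ ¬ f ∣ w ∧ w.IsHomogeneous k ∧ k + e * ρ = d := by
  obtain ⟨ρ, w, hw, hpw⟩ := WfDvdMonoid.max_power_factor hp0 hf
  subst hpw
  obtain ⟨e', k, he', hk, hsum⟩ := isHomogeneous_of_mul hp hp0
  have h2 : e' = e * ρ := he'.inj_right (hfe.pow ρ) (left_ne_zero_of_mul hp0)
  exact ⟨ρ, k, w, rfl, hw, hk, by omega⟩

end Pool.Agent.Lib.MP_209724_lc
end

section

/-!
Commutative algebra for generic choices: resultants along a direction.
-/

namespace Pool.Agent.Lib.MP_209724_lc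

open MvPolynomial

variable {n : ℕ}

/-- The homomorphism `f ↦ f(x + T a)`. -/
noncomputable def shiftHom (a : Fin n → ℂ) :
    MvPolynomial (Fin n) ℂ →+* Polynomial (MvPolynomial (Fin n) ℂ) :=
  eval₂Hom (Polynomial.C.comp C) (fun i => Polynomial.C (X i) + Polynomial.X * Polynomial.C (C (a i)))

theorem shiftHom_C (a : Fin n → ℂ) (c : ℂ) : shiftHom a (C c) = Polynomial.C (C c) := by
  simp [shiftHom]

theorem shiftHom_X (a : Fin n → ℂ) (i : Fin n) :
    shiftHom a (X i) = Polynomial.C (X i) + Polynomial.X * Polynomial.C (C (a i)) := by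
  simp [shiftHom]

/-- The automorphism `x ↦ x + T a`, `T ↦ T` of `ℂ[x][T]` as a homomorphism. -/
noncomputable def shiftMap (a : Fin n → ℂ) :
    Polynomial (MvPolynomial (Fin n) ℂ) →+* Polynomial (MvPolynomial (Fin n) ℂ) :=
  Polynomial.eval₂RingHom (shiftHom a) Polynomial.X

theorem shiftMap_C (a : Fin n → ℂ) (f : MvPolynomial (Fin n) ℂ) :
    shiftMap a (Polynomial.C f) = shiftHom a f := by
  simp [shiftMap]

theorem shiftMap_X (a : Fin n → ℂ) : shiftMap a Polynomial.X = Polynomial.X := by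
  simp [shiftMap]

theorem shiftMap_comp (a b : Fin n → ℂ) (hab : ∀ i, a i + b i = 0) :
    (shiftMap a).comp (shiftMap b) = RingHom.id _ := by
  apply Polynomial.ringHom_ext'
  · apply MvPolynomial.ringHom_ext
    · intro c
      simp [shiftMap_C, shiftHom_C]
    · intro i
      have : (C (b i) : MvPolynomial (Fin n) ℂ) = - C (a i) := by
        rw [← C_neg]
        congr 1
        linear_combination hab i
      simp only [RingHom.coe_comp, Function.comp_apply, shiftMap_C, shiftHom_X, map_add, map_mul,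
        shiftMap_X, RingHom.id_apply, this]
      simp only [map_neg, shiftHom_C]
      ring
  · simp [shiftMap_X]

/-- The automorphism `x ↦ x + T a`, `T ↦ T` of `ℂ[x][T]`. -/
noncomputable def shiftEquiv (a : Fin n → ℂ) :
    Polynomial (MvPolynomial (Fin n) ℂ) ≃+* Polynomial (MvPolynomial (Fin n) ℂ) :=
  RingEquiv.ofRingHom (shiftMap a) (shiftMap (-a))
    (shiftMap_comp _ _ (by simp)) (shiftMap_comp _ _ (by simp))

theorem shiftEquiv_apply (a : Fin n → ℂ) (p) : shiftEquiv a p = shiftMap a p := rfl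

theorem derivative_shiftHom (a : Fin n → ℂ) (f : MvPolynomial (Fin n) ℂ) :
    Polynomial.derivative (shiftHom a f) =
      shiftHom a (∑ j, MvPolynomial.C (a j) * MvPolynomial.pderiv j f) := by
  classical
  induction f using MvPolynomial.induction_on with
  | C c => simp [shiftHom_C]
  | add p q hp hq =>
    rw [map_add, Polynomial.derivative_add, hp, hq, ← map_add, ← Finset.sum_add_distrib]
    simp only [map_add, mul_add]
  | mul_X p i hp =>
    rw [map_mul, Polynomial.derivative_mul, hp, shiftHom_X]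
    have h1 : ∀ j, MvPolynomial.C (a j) * MvPolynomial.pderiv j (p * X i) =
        (MvPolynomial.C (a j) * MvPolynomial.pderiv j p) * X i +
          p * (MvPolynomial.C (a j) * MvPolynomial.pderiv j (X i)) := by
      intro j
      rw [Derivation.leibniz]
      simp only [smul_eq_mul]
      ring
    simp only [h1]
    rw [Finset.sum_add_distrib, ← Finset.sum_mul, ← Finset.mul_sum, (shiftHom a).map_add,
      (shiftHom a).map_mul, (shiftHom a).map_mul, shiftHom_X]
    have h2 : (∑ j, MvPolynomial.C (a j) * MvPolynomial.pderiv j (X i : MvPolynomial (Fin n) ℂ))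
        = MvPolynomial.C (a i) := by
      rw [Finset.sum_eq_single i]
      · simp
      · intro j _ hj
        rw [pderiv_X_of_ne hj.symm, mul_zero]
      · simp
    rw [h2, shiftHom_C]
    simp

theorem eval_shiftHom (a κ : Fin n → ℂ) (σ : ℂ) (f : MvPolynomial (Fin n) ℂ) :
    MvPolynomial.eval κ ((shiftHom a f).eval (C σ)) =
      MvPolynomial.eval (fun i => κ i + σ * a i) f := by
  induction f using MvPolynomial.induction_on with
  | C c => simp [shiftHom_C]
  | add p q hp hq => simp only [map_add, Polynomial.eval_add, hp, hq]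
  | mul_X p i hp =>
    simp only [map_mul, Polynomial.eval_mul, hp, shiftHom_X, eval_X]
    simp only [Polynomial.eval_add, Polynomial.eval_mul, Polynomial.eval_C, Polynomial.eval_X,
      map_add, map_mul, eval_X, eval_C]

theorem isCoprime_of_irreducible {K : Type*} [Field K] {p q : Polynomial K} (hp : Irreducible p)
    (h : ¬ p ∣ q) : IsCoprime p q := hp.coprime_iff_not_dvd.2 h

theorem exists_resultant (f h : MvPolynomial (Fin n) ℂ) (hf : Irreducible f) (hfh : ¬ f ∣ h)
    (a : Fin n → ℂ) (ha : ∑ j, MvPolynomial.C (a j) * MvPolynomial.pderiv j f ≠ 0) :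
    ∃ r : MvPolynomial (Fin n) ℂ, r ≠ 0 ∧ ∀ (κ : Fin n → ℂ) (σ : ℂ),
      MvPolynomial.eval (fun i => κ i + σ * a i) f = 0 →
      MvPolynomial.eval (fun i => κ i + σ * a i) h = 0 → MvPolynomial.eval κ r = 0 := by
  classical
  set F := shiftHom a f with hF
  set H := shiftHom a h with hH
  have hFe : F = shiftEquiv a (Polynomial.C f) := by
    rw [shiftEquiv_apply, shiftMap_C]
  have hHe : H = shiftEquiv a (Polynomial.C h) := by
    rw [shiftEquiv_apply, shiftMap_C]
  have hFirr : Irreducible F := by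
    rw [hFe]
    have h1 : Prime (Polynomial.C f) := Polynomial.prime_C_iff.2 hf.prime
    exact ((MulEquiv.prime_iff (shiftEquiv a).toMulEquiv).2 h1).irreducible
  have hdvd : ¬ F ∣ H := by
    rw [hFe, hHe]
    rw [map_dvd_iff, Polynomial.C_dvd_iff_dvd_coeff]
    intro h1
    have := h1 0
    rw [Polynomial.coeff_C_zero] at this
    exact hfh this
  have hdeg : F.natDegree ≠ 0 := by
    intro h0
    have h1 : Polynomial.derivative F = 0 := by
      rw [Polynomial.eq_C_of_natDegree_eq_zero h0]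
      simp
    rw [hF, derivative_shiftHom] at h1
    apply ha
    have h2 : shiftEquiv a (Polynomial.C (∑ j, MvPolynomial.C (a j) * MvPolynomial.pderiv j f)) = 0 := by
      rw [shiftEquiv_apply, shiftMap_C, h1]
    rw [map_eq_zero_iff _ (shiftEquiv a).injective, Polynomial.C_eq_zero] at h2
    exact h2
  obtain ⟨inst⟩ : Nonempty (NormalizedGCDMonoid (MvPolynomial (Fin n) ℂ)) := inferInstance
  have hprim : F.IsPrimitive := hFirr.isPrimitive hdeg
  let K := FractionRing (MvPolynomial (Fin n) ℂ)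
  have hirrK : Irreducible (F.map (algebraMap _ K)) :=
    (hprim.irreducible_iff_irreducible_map_fraction_map (K := K)).1 hFirr
  obtain ⟨p, q, _, _, hpq⟩ := Polynomial.exists_mul_add_mul_eq_C_resultant F H le_rfl le_rfl
    (Or.inl hdeg)
  refine ⟨F.resultant H, ?_, ?_⟩
  · intro h0
    have h1 := Polynomial.resultant_map_map F H F.natDegree H.natDegree (algebraMap _ K)
    rw [h0, map_zero] at h1
    have hinj : Function.Injective (algebraMap (MvPolynomial (Fin n) ℂ) K) :=
      IsFractionRing.injective _ K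
    rw [← Polynomial.natDegree_map_eq_of_injective hinj F,
      ← Polynomial.natDegree_map_eq_of_injective hinj H] at h1
    rw [Polynomial.resultant_eq_zero_iff] at h1
    apply h1.2
    refine isCoprime_of_irreducible hirrK fun hd => hdvd ?_
    by_cases hH0 : H = 0
    · rw [hH0]
      exact dvd_zero _
    have hcont := H.eq_C_content_mul_primPart
    have hc0 : H.content ≠ 0 := by
      rw [Ne, Polynomial.content_eq_zero_iff]
      exact hH0
    rw [hcont, Polynomial.map_mul, Polynomial.map_C] at hd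
    have hu : IsUnit (Polynomial.C (algebraMap (MvPolynomial (Fin n) ℂ) K H.content)) := by
      rw [Polynomial.isUnit_C, isUnit_iff_ne_zero]
      intro h0
      exact hc0 (hinj (by rw [h0, map_zero]))
    rw [hu.dvd_mul_left] at hd
    have h3 := Polynomial.IsPrimitive.dvd_of_fraction_map_dvd_fraction_map (K := K) hprim hd
    rw [hcont]
    exact h3.mul_left _
  · intro κ σ h1 h2
    have h3 := congrArg (fun P => MvPolynomial.eval κ (Polynomial.eval (C σ) P)) hpq
    simp only [Polynomial.eval_add, Polynomial.eval_mul, map_add, map_mul, Polynomial.eval_C,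
      hF, hH, eval_shiftHom, h1, h2] at h3
    rw [← h3]
    simp

end Pool.Agent.Lib.MP_209724_lc
end

section

/-!
Generic choices avoiding countably many hypersurfaces, and polynomials with proportional
derivatives.
-/

namespace Pool.Agent.Lib.MP_209724_lc

open MvPolynomial

theorem exists_real_generic {n : ℕ} (S : Set (MvPolynomial (Fin n) ℂ)) (hS : S.Countable)
    (h0 : ∀ p ∈ S, p ≠ 0) :
    ∃ κ : Fin n → ℝ, ∀ p ∈ S, MvPolynomial.eval (fun i => (κ i : ℂ)) p ≠ 0 := by
  induction n with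
  | zero =>
    refine ⟨fun i => i.elim0, fun p hp h => h0 p hp ?_⟩
    have h1 : p = C (coeff 0 p) := by
      ext m
      rw [Subsingleton.elim m 0]
      simp
    rw [h1, eval_C] at h
    rw [h1, h, C_0]
  | succ n ih =>
    let T : Set (MvPolynomial (Fin n) ℂ) :=
      (fun p => (finSuccEquiv ℂ n p).leadingCoeff) '' S
    obtain ⟨κ, hκ⟩ := ih T (hS.image _) (by
      rintro _ ⟨p, hp, rfl⟩
      rw [Polynomial.leadingCoeff_ne_zero, Ne, EmbeddingLike.map_eq_zero_iff]
      exact h0 p hp)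
    let P : MvPolynomial (Fin (n + 1)) ℂ → Polynomial ℂ := fun p =>
      Polynomial.map (MvPolynomial.eval (fun i => (κ i : ℂ))) (finSuccEquiv ℂ n p)
    have hP : ∀ p ∈ S, P p ≠ 0 := by
      intro p hp h
      apply hκ _ ⟨p, hp, rfl⟩
      have := congrArg (fun q => Polynomial.coeff q (finSuccEquiv ℂ n p).natDegree) h
      simpa [P, Polynomial.coeff_map] using this
    have hcount : (⋃ p ∈ S, {t : ℝ | (P p).IsRoot (t : ℂ)}).Countable := by
      refine hS.biUnion fun p hp => Set.Finite.countable ?_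
      have h1 : ((P p).rootSet ℂ).Finite := Polynomial.rootSet_finite _ _
      refine Set.Finite.subset (h1.preimage (f := fun t : ℝ => (t : ℂ))
        (Complex.ofReal_injective.injOn)) ?_
      intro t ht
      rw [Set.mem_preimage, Polynomial.mem_rootSet]
      exact ⟨hP p hp, by simpa [Polynomial.IsRoot] using ht⟩
    obtain ⟨t, ht⟩ : ∃ t : ℝ, t ∉ (⋃ p ∈ S, {t : ℝ | (P p).IsRoot (t : ℂ)}) := by
      by_contra! hcon
      have : (Set.univ : Set ℝ).Countable := hcount.mono fun x _ => hcon x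
      exact Cardinal.not_countable_real this
    refine ⟨Fin.cons t κ, fun p hp h => ht ?_⟩
    rw [Set.mem_iUnion₂]
    refine ⟨p, hp, ?_⟩
    rw [Set.mem_ofPred, Polynomial.IsRoot, ← eval_eq_eval_mv_eval', ← h]
    congr 2
    funext i
    refine Fin.cases ?_ (fun j => ?_) i <;> simp

theorem eq_linear_of_euler {n : ℕ} (f : MvPolynomial (Fin n) ℂ) {e : ℕ} (hf : Irreducible f)
    (hfe : f.IsHomogeneous e) (he : 0 < e) (a ν : Fin n → ℂ)
    (ha : ∑ j, MvPolynomial.C (a j) * MvPolynomial.pderiv j f ≠ 0)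
    (h : ∀ j, f ∣ MvPolynomial.pderiv j f -
      MvPolynomial.C (ν j) * ∑ i, MvPolynomial.C (a i) * MvPolynomial.pderiv i f) :
    ∃ c : ℂ, c ≠ 0 ∧ f = MvPolynomial.C c * ∑ j, MvPolynomial.C (ν j) * MvPolynomial.X j := by
  set g := ∑ i, MvPolynomial.C (a i) * MvPolynomial.pderiv i f with hg
  have hgh : g.IsHomogeneous (e - 1) := by
    refine IsHomogeneous.sum _ _ _ fun i _ => ?_
    exact hfe.pderiv.C_mul _
  have hsmall : ∀ q : MvPolynomial (Fin n) ℂ, q.IsHomogeneous (e - 1) → f ∣ q → q = 0 := by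
    intro q hq hfq
    by_contra hq0
    have h1 := hq.totalDegree hq0
    have h2 := hfe.totalDegree hf.ne_zero
    have h3 := totalDegree_le_of_dvd_of_isDomain hfq hq0
    omega
  have hj : ∀ j, MvPolynomial.pderiv j f = MvPolynomial.C (ν j) * g := by
    intro j
    rw [← sub_eq_zero]
    exact hsmall _ (hfe.pderiv.sub (hgh.C_mul _)) (h j)
  have hE := hfe.sum_X_mul_pderiv
  have hE2 : (∑ j, MvPolynomial.C (ν j) * MvPolynomial.X j) * g = e • f := by
    rw [← hE, Finset.sum_mul]
    refine Finset.sum_congr rfl fun j _ => ?_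
    rw [hj j]
    ring
  have hdvd : f ∣ (∑ j, MvPolynomial.C (ν j) * MvPolynomial.X j) * g := by
    rw [hE2, nsmul_eq_mul]
    exact dvd_mul_left _ _
  have hng : ¬ f ∣ g := fun h1 => ha (hsmall g hgh h1)
  have hd := (hf.prime.dvd_or_dvd hdvd).resolve_right hng
  obtain ⟨q, hq⟩ := hd
  have hL : (∑ j, MvPolynomial.C (ν j) * MvPolynomial.X j : MvPolynomial (Fin n) ℂ).IsHomogeneous 1 :=
    IsHomogeneous.sum _ _ _ fun i _ => isHomogeneous_C_mul_X _ _
  have hL0 : (∑ j, MvPolynomial.C (ν j) * MvPolynomial.X j : MvPolynomial (Fin n) ℂ) ≠ 0 := by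
    intro h0
    rw [h0, zero_mul] at hE2
    have : (e : MvPolynomial (Fin n) ℂ) * f = 0 := by rw [← nsmul_eq_mul, ← hE2]
    rcases mul_eq_zero.1 this with h1 | h1
    · have : e = 0 := by exact_mod_cast h1
      omega
    · exact hf.ne_zero h1
  have hq0 : q ≠ 0 := by
    rintro rfl
    exact hL0 (by rw [hq, mul_zero])
  have hdeg := totalDegree_mul_of_isDomain hf.ne_zero hq0
  rw [← hq, hL.totalDegree hL0, hfe.totalDegree hf.ne_zero] at hdeg
  have hq1 : q.totalDegree = 0 := by omega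
  rw [totalDegree_eq_zero_iff_eq_C] at hq1
  set c := coeff 0 q
  have hc : c ≠ 0 := by
    intro h0
    apply hq0
    rw [hq1, h0, C_0]
  refine ⟨c⁻¹, inv_ne_zero hc, ?_⟩
  rw [hq, hq1, mul_comm f, ← mul_assoc, ← C_mul, inv_mul_cancel₀ hc, C_1, one_mul]

section

variable {n : ℕ}

/-- A nonzero linear form vanishing at a nonzero vector. -/
theorem exists_linear_form (v : Fin n → ℤ) (hv : v ≠ 0) (hn : 2 ≤ n) :
    ∃ L : MvPolynomial (Fin n) ℂ, L ≠ 0 ∧
      (∀ (x : Fin n → ℂ) (c : ℂ), MvPolynomial.eval (fun i => x i + c * v i) L = MvPolynomial.eval x L) ∧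
      MvPolynomial.eval (fun _ => 0) L = 0 := by
  obtain ⟨i, hi⟩ : ∃ i, v i ≠ 0 := Function.ne_iff.1 hv
  have : Nontrivial (Fin n) := Fin.nontrivial_iff_two_le.2 hn
  obtain ⟨j, hj⟩ := exists_ne i
  refine ⟨C (v i : ℂ) * X j - C (v j : ℂ) * X i, ?_, ?_, ?_⟩
  · intro h
    have h1 := congrArg (MvPolynomial.eval (Pi.single j (1 : ℂ))) h
    simp [hj.symm] at h1
    exact hi h1
  · intro x c
    simp only [map_sub, map_mul, eval_C, eval_X]
    ring
  · simp

/-- Pullback under `x ↦ c x`. -/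
theorem exists_pullback (p : MvPolynomial (Fin n) ℂ) (c : ℂ) (hc : c ≠ 0) (hp : p ≠ 0) :
    ∃ q : MvPolynomial (Fin n) ℂ, q ≠ 0 ∧
      ∀ x : Fin n → ℂ, MvPolynomial.eval x q = MvPolynomial.eval (fun i => c * x i) p := by
  have hev : ∀ x : Fin n → ℂ, MvPolynomial.eval x (bind₁ (fun i => C c * X i) p) =
      MvPolynomial.eval (fun i => c * x i) p := by
    intro x
    rw [← MvPolynomial.coe_aeval_eq_eval, ← MvPolynomial.coe_aeval_eq_eval]
    simp only [RingHom.coe_coe]
    rw [aeval_bind₁]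
    congr 2
    funext i
    simp
  refine ⟨bind₁ (fun i => C c * X i) p, ?_, hev⟩
  intro h0
  apply hp
  apply MvPolynomial.funext
  intro x
  rw [map_zero]
  have := hev (fun i => c⁻¹ * x i)
  rw [h0, map_zero] at this
  rw [this]
  congr 2
  funext i
  rw [← mul_assoc, mul_inv_cancel₀ hc, one_mul]

theorem ne_zero_of_dot {v μ : Fin n → ℤ} (hμ : ∑ i, μ i * v i = 1) : v ≠ 0 := by
  rintro rfl
  simp at hμ

theorem exists_int_generic (v μ : Fin n → ℤ) (hμ : ∑ i, μ i * v i = 1) (hn : 2 ≤ n)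
    (S : Finset (MvPolynomial (Fin n) ℂ)) (h0 : ∀ p ∈ S, p ≠ 0)
    (hinv : ∀ p ∈ S, ∀ (x : Fin n → ℂ) (c : ℂ),
      MvPolynomial.eval (fun i => x i + c * v i) p = MvPolynomial.eval x p) :
    ∃ ξ : Fin n → ℤ, ξ ≠ 0 ∧ ∑ i, μ i * ξ i = 0 ∧
      ∀ p ∈ S, MvPolynomial.eval (fun i => 2 * Real.pi * Complex.I * (ξ i : ℂ)) p ≠ 0 := by
  classical
  obtain ⟨L, hL0, hLinv, hLz⟩ := exists_linear_form v (ne_zero_of_dot hμ) hn
  have hP : (∏ p ∈ insert L S, p) ≠ 0 := by
    rw [Finset.prod_ne_zero_iff]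
    intro p hp
    rcases Finset.mem_insert.1 hp with rfl | hp
    · exact hL0
    · exact h0 p hp
  have hpi : (2 * Real.pi * Complex.I : ℂ) ≠ 0 := Complex.two_pi_I_ne_zero
  obtain ⟨q, hq0, hq⟩ := exists_pullback _ _ hpi hP
  obtain ⟨x, hx⟩ : ∃ x : Fin n → ℤ, MvPolynomial.eval (fun i => (x i : ℂ)) q ≠ 0 := by
    by_contra! hcon
    apply hq0
    apply MvPolynomial.funext_set (fun _ => Set.range (fun k : ℤ => (k : ℂ)))
      (fun _ => Set.infinite_range_of_injective Int.cast_injective)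
    intro y hy
    have : ∀ i, ∃ k : ℤ, (k : ℂ) = y i := fun i => hy i (Set.mem_univ i)
    choose k hk using this
    rw [map_zero, ← hcon k]
    congr 2
    funext i
    exact (hk i).symm
  rw [hq, map_prod, Finset.prod_ne_zero_iff] at hx
  have hne : ∀ p ∈ insert L S, MvPolynomial.eval
      (fun i => 2 * Real.pi * Complex.I * (((x i - (∑ k, μ k * x k) * v i : ℤ)) : ℂ)) p ≠ 0 := by
    intro p hp
    have h1 := hx p hp
    have h2 : ∀ (x : Fin n → ℂ) (c : ℂ),
      MvPolynomial.eval (fun i => x i + c * v i) p = MvPolynomial.eval x p := by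
      rcases Finset.mem_insert.1 hp with rfl | hp
      · exact hLinv
      · exact hinv p hp
    rw [← h2 _ (- (2 * Real.pi * Complex.I) * (∑ k, μ k * x k : ℤ))] at h1
    convert h1 using 4
    push_cast
    ring
  refine ⟨fun i => x i - (∑ k, μ k * x k) * v i, ?_, ?_, fun p hp => hne p
    (Finset.mem_insert_of_mem hp)⟩
  · intro hξ
    apply hne L (Finset.mem_insert_self _ _)
    rw [← hLz]
    congr 2
    funext i
    have := congrFun hξ i
    simp only [Pi.zero_apply] at this
    rw [this]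
    simp
  · simp only [mul_sub, Finset.sum_sub_distrib]
    have : ∑ i, μ i * ((∑ k, μ k * x k) * v i) = (∑ k, μ k * x k) * ∑ i, μ i * v i := by
      rw [Finset.mul_sum]
      exact Finset.sum_congr rfl fun i _ => by ring
    rw [this, hμ, mul_one, sub_self]

theorem exists_real_generic' (v μ : Fin n → ℤ) (hμ : ∑ i, μ i * v i = 1) (hn : 2 ≤ n)
    (S : Set (MvPolynomial (Fin n) ℂ)) (hS : S.Countable) (h0 : ∀ p ∈ S, p ≠ 0)
    (hinv : ∀ p ∈ S, ∀ (x : Fin n → ℂ) (c : ℂ),
      MvPolynomial.eval (fun i => x i + c * v i) p = MvPolynomial.eval x p) :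
    ∃ ξ : Fin n → ℝ, ξ ≠ 0 ∧ ∑ i, (μ i : ℝ) * ξ i = 0 ∧
      ∀ p ∈ S, MvPolynomial.eval (fun i => Complex.I * (ξ i : ℂ)) p ≠ 0 := by
  classical
  obtain ⟨L, hL0, hLinv, hLz⟩ := exists_linear_form v (ne_zero_of_dot hμ) hn
  have hpull : ∀ p : MvPolynomial (Fin n) ℂ, ∃ q : MvPolynomial (Fin n) ℂ, p ≠ 0 → q ≠ 0 ∧
      ∀ x : Fin n → ℂ, MvPolynomial.eval x q = MvPolynomial.eval (fun i => Complex.I * x i) p := by
    intro p
    by_cases hp : p = 0
    · exact ⟨0, fun h => absurd hp h⟩
    · obtain ⟨q, hq⟩ := exists_pullback p Complex.I Complex.I_ne_zero hp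
      exact ⟨q, fun _ => hq⟩
  choose g hg using hpull
  have hmem : ∀ p ∈ insert L S, p ≠ 0 := by
    intro p hp
    rcases Set.mem_insert_iff.1 hp with rfl | hp
    · exact hL0
    · exact h0 p hp
  obtain ⟨x, hx⟩ := exists_real_generic (g '' (insert L S)) ((hS.insert L).image g) (by
    rintro _ ⟨p, hp, rfl⟩
    exact (hg p (hmem p hp)).1)
  have hne : ∀ p ∈ insert L S, MvPolynomial.eval
      (fun i => Complex.I * (((x i - (∑ k, (μ k : ℝ) * x k) * v i : ℝ)) : ℂ)) p ≠ 0 := by
    intro p hp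
    have h1 := hx _ ⟨p, hp, rfl⟩
    rw [(hg p (hmem p hp)).2] at h1
    have h2 : ∀ (x : Fin n → ℂ) (c : ℂ),
      MvPolynomial.eval (fun i => x i + c * v i) p = MvPolynomial.eval x p := by
      rcases Set.mem_insert_iff.1 hp with rfl | hp
      · exact hLinv
      · exact hinv p hp
    rw [← h2 _ (- Complex.I * ((∑ k, (μ k : ℝ) * x k : ℝ) : ℂ))] at h1
    convert h1 using 4
    push_cast
    ring
  refine ⟨fun i => x i - (∑ k, (μ k : ℝ) * x k) * v i, ?_, ?_, fun p hp => hne p
    (Set.mem_insert_of_mem _ hp)⟩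
  · intro hξ
    apply hne L (Set.mem_insert _ _)
    rw [← hLz]
    congr 2
    funext i
    have := congrFun hξ i
    simp only [Pi.zero_apply] at this
    rw [this]
    simp
  · simp only [mul_sub, Finset.sum_sub_distrib]
    have : ∑ i, (μ i : ℝ) * ((∑ k, (μ k : ℝ) * x k) * v i) =
        (∑ k, (μ k : ℝ) * x k) * ∑ i, (μ i : ℝ) * v i := by
      rw [Finset.mul_sum]
      exact Finset.sum_congr rfl fun i _ => by ring
    have h3 : ∑ i, (μ i : ℝ) * v i = 1 := by
      exact_mod_cast hμ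
    rw [this, h3, mul_one, sub_self]

end

end Pool.Agent.Lib.MP_209724_lc
end

section

/-!
Extension of homomorphisms to `ℂ`.
-/

set_option autoImplicit false

namespace Pool.Agent.Lib.MP_209724_lc.MV

theorem ext_common_multiple {L : Type} [Field L] [Algebra ℂ L] (B : Subalgebra ℂ L)
    (S : Finset L) (h : ∀ x ∈ S, IsAlgebraic B x) :
    ∃ b : B, b ≠ 0 ∧ ∀ x ∈ S, IsIntegral B (b • x) := by
  classical
  induction S using Finset.induction_on with
  | empty => exact ⟨1, one_ne_zero, by simp⟩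
  | insert a S ha ih =>
    obtain ⟨b, hb, H⟩ := ih fun x hx => h x (Finset.mem_insert_of_mem hx)
    obtain ⟨c, hc, Hc⟩ := (h a (Finset.mem_insert_self _ _)).exists_integral_multiple
    refine ⟨c * b, mul_ne_zero hc hb, fun x hx => ?_⟩
    rcases Finset.mem_insert.1 hx with rfl | hx
    · rw [mul_comm, mul_smul]
      exact Hc.smul b
    · rw [mul_smul]
      exact (H x hx).smul c

theorem exists_ext {L : Type} [Field L] [Algebra ℂ L] (B A : Subalgebra ℂ L) (hBA : B ≤ A)
    (hA : A.FG) (halg : ∀ x ∈ A, IsAlgebraic B x) (f : L) (hf : f ∈ A) :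
    ∃ b : B, b ≠ 0 ∧ ∀ φ : B →ₐ[ℂ] ℂ, φ b ≠ 0 → ∀ r : ℂ,
      (∀ h : Polynomial B, Polynomial.aeval f h = 0 →
        (h.map (φ : B →+* ℂ)).eval r = 0) →
      ∃ ψ : A →ₐ[ℂ] ℂ, (∀ x : B, ψ (Subalgebra.inclusion hBA x) = φ x) ∧ ψ ⟨f, hf⟩ = r := by
  classical
  obtain ⟨S, hS⟩ := hA
  have hSA : ∀ x ∈ S, x ∈ A := fun x hx => by rw [← hS]; exact Algebra.subset_adjoin hx
  obtain ⟨b, hb, Hb⟩ := ext_common_multiple B S fun x hx => halg x (hSA x hx)
  refine ⟨b, hb, fun φ hφ r hr => ?_⟩
  -- the evaluation and the ideal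
  let π : Polynomial B →+* L := (Polynomial.aeval f : Polynomial B →ₐ[B] L)
  let ε : Polynomial B →+* ℂ := Polynomial.eval₂RingHom (φ : B →+* ℂ) r
  have hε : ∀ h : Polynomial B, ε h = (h.map (φ : B →+* ℂ)).eval r := fun h => by
    simp [ε, Polynomial.eval₂_eq_eval_map]
  let I : Ideal π.range := Ideal.map π.rangeRestrict (RingHom.ker ε)
  have hI : I ≠ ⊤ := by
    intro htop
    have h1 : (1 : π.range) ∈ I := by rw [htop]; trivial
    rw [Ideal.mem_map_iff_of_surjective _ π.rangeRestrict_surjective] at h1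
    obtain ⟨h, hh, h1⟩ := h1
    have h2 : π (h - 1) = 0 := by
      rw [map_sub, map_one]
      have : (π.rangeRestrict h : L) = ((1 : π.range) : L) := by rw [h1]
      rw [RingHom.coe_rangeRestrict] at this
      rw [this]
      simp
    have h3 := hr (h - 1) h2
    rw [← hε, map_sub, map_one, (RingHom.mem_ker).1 hh] at h3
    norm_num at h3
  obtain ⟨V, hV, hIV⟩ := Ideal.image_subset_nonunits_valuationSubring I hI
  -- facts
  have h1 : ∀ h : Polynomial B, ε h = 0 → Polynomial.aeval f h ∈ V.nonunits := fun h hh =>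
    hIV ⟨⟨π h, ⟨h, rfl⟩⟩, Ideal.mem_map_of_mem (f := π.rangeRestrict) (I := RingHom.ker ε)
      (x := h) hh, rfl⟩
  have h2 : ∀ h : Polynomial B, Polynomial.aeval f h ∈ V := fun h => hV ⟨h, rfl⟩
  have hBV : ∀ x : B, (x : L) ∈ V := fun x => by
    have := h2 (Polynomial.C x)
    rwa [Polynomial.aeval_C] at this
  have hCV : ∀ c : ℂ, algebraMap ℂ L c ∈ V := fun c => hBV (algebraMap ℂ B c)
  have hBφ : ∀ x : B, (x : L) - algebraMap ℂ L (φ x) ∈ V.nonunits := fun x => by
    have := h1 (Polynomial.C (x - algebraMap ℂ B (φ x))) (by simp [ε])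
    rw [Polynomial.aeval_C] at this
    exact this
  have hfr : f - algebraMap ℂ L r ∈ V.nonunits := by
    have := h1 (Polynomial.X - Polynomial.C (algebraMap ℂ B r)) (by simp [ε])
    rw [map_sub, Polynomial.aeval_X, Polynomial.aeval_C] at this
    exact this
  -- the residue field
  let κ := IsLocalRing.ResidueField V
  let res : V →+* κ := IsLocalRing.residue V
  have hres : ∀ x : V, res x = 0 ↔ (x : L) ∈ V.nonunits := fun x => by
    rw [ValuationSubring.coe_mem_nonunits_iff]
    exact IsLocalRing.residue_eq_zero_iff x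
  have hres' : ∀ (x y : L) (hx : x ∈ V) (hy : y ∈ V), x - y ∈ V.nonunits →
      res ⟨x, hx⟩ = res ⟨y, hy⟩ := fun x y hx hy h => by
    rw [← sub_eq_zero, ← map_sub]
    exact (hres _).2 h
  let jC : ℂ →+* V := (algebraMap ℂ L).codRestrict V.toSubring hCV
  let jB : B →+* V := (B.val : B →+* L).codRestrict V.toSubring hBV
  let ι : ℂ →+* κ := res.comp jC
  have hιφ : ∀ x : B, res (jB x) = ι (φ x) := fun x => hres' _ _ _ _ (hBφ x)
  have hιφ' : res.comp jB = ι.comp (φ : B →+* ℂ) := RingHom.ext hιφ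
  -- every element of A is in V and has residue in the range of ι
  have hrb : res (jB b) ≠ 0 := by
    rw [hιφ, Ne, map_eq_zero]
    exact hφ
  have hvb : V.valuation (b : L) = 1 := by
    refine le_antisymm ((V.valuation_le_one_iff _).2 (hBV b)) ?_
    by_contra hlt
    exact hrb ((hres _).2 (not_le.1 hlt))
  have hgen : ∀ x ∈ S, ∃ hx : x ∈ V, res ⟨x, hx⟩ ∈ ι.range := by
    intro x hx
    obtain ⟨p, hp, hpx⟩ := Hb x hx
    have hint : IsIntegral V ((b : L) * x) := by
      refine ⟨p.map jB, hp.map _, ?_⟩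
      rw [Polynomial.eval₂_map]
      exact hpx
    have hmem : (b : L) * x ∈ V := by
      obtain ⟨y, hy⟩ := IsIntegrallyClosed.isIntegral_iff.1 hint
      rw [← hy]
      exact y.2
    have hxV : x ∈ V := by
      rw [← V.valuation_le_one_iff] at hmem ⊢
      rwa [map_mul, hvb, one_mul] at hmem
    refine ⟨hxV, ?_⟩
    have hroot : ((p.map (φ : B →+* ℂ)).map ι).IsRoot (res ⟨(b : L) * x, hmem⟩) := by
      rw [Polynomial.map_map, ← hιφ', ← Polynomial.map_map, Polynomial.IsRoot.def,
        Polynomial.eval_map, Polynomial.eval₂_hom]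
      have : (p.map jB).eval (⟨(b : L) * x, hmem⟩ : V) = 0 := by
        apply Subtype.ext
        rw [Polynomial.eval_map, ZeroMemClass.coe_zero]
        have e : ((Polynomial.eval₂ jB (⟨(b : L) * x, hmem⟩ : V) p : V) : L) =
            V.subtype (Polynomial.eval₂ jB (⟨(b : L) * x, hmem⟩ : V) p) := rfl
        rw [e, Polynomial.hom_eval₂]
        exact hpx
      rw [this, map_zero]
    have hne : p.map (φ : B →+* ℂ) ≠ 0 := (hp.map _).ne_zero
    obtain ⟨c, hc⟩ := (IsAlgClosed.splits _).mem_range_of_isRoot hne hroot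
    have hmul : res ⟨(b : L) * x, hmem⟩ = res (jB b) * res ⟨x, hxV⟩ := by
      rw [← map_mul]; rfl
    refine ⟨c / φ b, ?_⟩
    rw [map_div₀, hc, hmul, ← hιφ, mul_comm, mul_div_assoc, div_self hrb, mul_one]
  have hall : ∀ x ∈ A, ∃ hx : x ∈ V, res ⟨x, hx⟩ ∈ ι.range := by
    intro x hx
    rw [← hS] at hx
    induction hx using Algebra.adjoin_induction with
    | mem x hx => exact hgen x hx
    | algebraMap c => exact ⟨hCV c, c, rfl⟩
    | add x y _ _ hx hy =>
      obtain ⟨hx, c, hc⟩ := hx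
      obtain ⟨hy, d, hd⟩ := hy
      refine ⟨V.add_mem _ _ hx hy, c + d, ?_⟩
      rw [map_add, hc, hd, ← map_add]
      rfl
    | mul x y _ _ hx hy =>
      obtain ⟨hx, c, hc⟩ := hx
      obtain ⟨hy, d, hd⟩ := hy
      refine ⟨V.mul_mem _ _ hx hy, c * d, ?_⟩
      rw [map_mul, hc, hd, ← map_mul]
      rfl
  -- the homomorphism
  let jA : A →+* V := (A.val : A →+* L).codRestrict V.toSubring fun x => (hall x x.2).1
  let ρ : A →+* ι.range := (res.comp jA).codRestrict ι.range fun x => (hall x x.2).2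
  let e : ℂ ≃+* ι.range := RingEquiv.ofBijective ι.rangeRestrict
    ⟨fun x y h => ι.injective (by
      have := congrArg (Subtype.val) h
      exact this), ι.rangeRestrict_surjective⟩
  let ψ₀ : A →+* ℂ := (e.symm : ι.range →+* ℂ).comp ρ
  have hψ₀ : ∀ (x : A) (c : ℂ), (x : L) - algebraMap ℂ L c ∈ V.nonunits → ψ₀ x = c := by
    intro x c hx
    change e.symm (ρ x) = c
    rw [RingEquiv.symm_apply_eq]
    apply Subtype.ext
    exact hres' _ _ _ _ hx
  let ψ : A →ₐ[ℂ] ℂ := { ψ₀ with
    commutes' := fun c => hψ₀ _ c (by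
      have : ((algebraMap ℂ A c : A) : L) = algebraMap ℂ L c := rfl
      rw [this, sub_self]
      exact V.nonunits.zero_mem) }
  refine ⟨ψ, fun x => hψ₀ _ _ (hBφ x), hψ₀ _ _ hfr⟩

end Pool.Agent.Lib.MP_209724_lc.MV
end

section

/-!
Generic points of the cone of the leading form (non-hyperbolic case).
-/

namespace Pool.Agent.Lib.MP_209724_lc.MV

open Filter Topology Metric MvPolynomial

variable {n : ℕ}

/-- The derivative in the direction `a`. -/
private noncomputable def dp (f : MvPolynomial (Fin n) ℂ) (a : Fin n → ℂ) :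
    MvPolynomial (Fin n) ℂ := ∑ j, C (a j) * pderiv j f

private theorem eval_dp (f : MvPolynomial (Fin n) ℂ) (a x : Fin n → ℂ) :
    eval x (dp f a) = ∑ j, a j * eval x (pderiv j f) := by
  unfold dp
  rw [map_sum]
  refine Finset.sum_congr rfl fun j _ => ?_
  rw [map_mul, eval_C]

private theorem dp_homog {f : MvPolynomial (Fin n) ℂ} {e : ℕ} (hfe : f.IsHomogeneous e)
    (a : Fin n → ℂ) : (dp f a).IsHomogeneous (e - 1) := by
  unfold dp
  refine IsHomogeneous.sum _ _ _ fun i _ => ?_
  exact hfe.pderiv.C_mul _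

private theorem dp_single (f : MvPolynomial (Fin n) ℂ) (l : Fin n) :
    dp f (Pi.single l 1) = pderiv l f := by
  unfold dp
  rw [Finset.sum_eq_single l]
  · simp
  · intro j _ hj
    simp [Pi.single_eq_of_ne hj]
  · simp

private theorem not_dvd_dp {f : MvPolynomial (Fin n) ℂ} {e : ℕ} (hf : Irreducible f)
    (hfe : f.IsHomogeneous e) (he : 0 < e) (a : Fin n → ℂ) (ha : dp f a ≠ 0) :
    ¬ f ∣ dp f a := by
  rintro ⟨q, hq⟩
  have h1 := dp_homog hfe a
  have hq0 : q ≠ 0 := by
    rintro rfl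
    exact ha (by rw [hq, mul_zero])
  have h2 := h1.totalDegree ha
  rw [hq, MvPolynomial.totalDegree_mul_of_isDomain hf.ne_zero hq0,
    hfe.totalDegree hf.ne_zero] at h2
  omega

/-- An irreducible factor vanishing at a given zero. -/
private theorem exists_irr_factor_zero (x : Fin n → ℂ) (p : MvPolynomial (Fin n) ℂ) :
    p ≠ 0 → eval x p = 0 → ∃ q, Irreducible q ∧ q ∣ p ∧ eval x q = 0 := by
  induction p using WfDvdMonoid.induction_on_irreducible with
  | zero => intro h; exact absurd rfl h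
  | unit u hu =>
    intro _ h
    exact absurd h (hu.map (eval x)).ne_zero
  | mul a i ha hi ih =>
    intro _ h
    rw [map_mul, mul_eq_zero] at h
    rcases h with h | h
    · exact ⟨i, hi, dvd_mul_right _ _, h⟩
    · obtain ⟨q, h1, h2, h3⟩ := ih ha h
      exact ⟨q, h1, h2.mul_left _, h3⟩

/-- Scaling of the variables. -/
private noncomputable def sc (c : ℂ) : MvPolynomial (Fin n) ℂ →ₐ[ℂ] MvPolynomial (Fin n) ℂ :=
  aeval fun i => C c * X i

private theorem eval_sc (c : ℂ) (x : Fin n → ℂ) (p : MvPolynomial (Fin n) ℂ) :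
    eval x (sc c p) = eval (fun i => c * x i) p := by
  unfold sc
  induction p using MvPolynomial.induction_on with
  | C a => simp
  | add p q hp hq => simp only [map_add, hp, hq]
  | mul_X p i hp => simp only [map_mul, hp, aeval_X, eval_C, eval_X]

private theorem sc_sc {c : ℂ} (hc : c ≠ 0) (p : MvPolynomial (Fin n) ℂ) :
    sc c⁻¹ (sc c p) = p := by
  apply MvPolynomial.funext
  intro x
  rw [eval_sc, eval_sc]
  congr 2
  funext i
  rw [← mul_assoc, mul_inv_cancel₀ hc, one_mul]

private theorem sc_homog {q : MvPolynomial (Fin n) ℂ} {e : ℕ} (hq : q.IsHomogeneous e) (c : ℂ) :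
    sc c q = C (c ^ e) * q := by
  apply MvPolynomial.funext
  intro x
  rw [eval_sc, eval_mul_of_isHomogeneous hq, map_mul, eval_C]

private theorem not_dvd_sc {q R : MvPolynomial (Fin n) ℂ} {e : ℕ} (hq : q.IsHomogeneous e)
    {c : ℂ} (hc : c ≠ 0) (h : ¬ q ∣ R) : ¬ q ∣ sc c R := by
  intro h1
  apply h
  have h2 : sc c⁻¹ q ∣ sc c⁻¹ (sc c R) := map_dvd _ h1
  rw [sc_sc hc, sc_homog hq] at h2
  exact (Dvd.intro_left _ rfl).trans h2

/-- If the derivative in the direction `a` vanishes then `q` is constant in this direction. -/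
private theorem const_of_dp {q : MvPolynomial (Fin n) ℂ} {a : Fin n → ℂ} (h : dp q a = 0)
    (κ : Fin n → ℂ) (s s' : ℂ) :
    eval (fun i => κ i + s * a i) q = eval (fun i => κ i + s' * a i) q := by
  have h1 : Polynomial.derivative (shiftHom a q) = 0 := by
    rw [derivative_shiftHom]
    have : (∑ j, MvPolynomial.C (a j) * MvPolynomial.pderiv j q) = 0 := h
    rw [this, map_zero]
  have h2 := Polynomial.natDegree_eq_zero_of_derivative_eq_zero h1
  obtain ⟨c, hc⟩ := Polynomial.natDegree_eq_zero.1 h2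
  rw [← eval_shiftHom, ← eval_shiftHom, ← hc, Polynomial.eval_C, Polynomial.eval_C]

private theorem degreeOf_rename_val (l : Fin n) (c : MvPolynomial {j : Fin n // j ≠ l} ℂ) :
    degreeOf l (rename Subtype.val c) = 0 := by
  classical
  by_contra h
  have h1 : l ∈ (rename Subtype.val c : MvPolynomial (Fin n) ℂ).vars := by
    rw [vars_def, Multiset.mem_toFinset]
    rw [degreeOf_def] at h
    exact Multiset.count_ne_zero.1 h
  have h2 := vars_rename Subtype.val c h1
  rw [Finset.mem_image] at h2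
  obtain ⟨j, _, hj⟩ := h2
  exact j.2 hj

private theorem degreeOf_pos_of_pderiv {q : MvPolynomial (Fin n) ℂ} {l : Fin n}
    (h : pderiv l q ≠ 0) : 0 < degreeOf l q := by
  classical
  by_contra hcon
  apply h
  apply pderiv_eq_zero_of_notMem_vars
  intro hl
  rw [vars_def, Multiset.mem_toFinset] at hl
  have := Multiset.count_pos.2 hl
  rw [degreeOf_def] at hcon
  omega

private theorem degreeOf_le_of_dvd {q R : MvPolynomial (Fin n) ℂ} (l : Fin n) (hR : R ≠ 0)
    (h : q ∣ R) : degreeOf l q ≤ degreeOf l R := by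
  obtain ⟨s, rfl⟩ := h
  rw [degreeOf_mul_eq (left_ne_zero_of_mul hR) (right_ne_zero_of_mul hR)]
  exact Nat.le_add_right _ _

private theorem degreeOf_lead_le (P : MvPolynomial (Fin n) ℂ) (l : Fin n) :
    degreeOf l (lead P) ≤ degreeOf l P := by
  rw [degreeOf_le_iff]
  intro m hm
  have h1 : m ∈ P.support := by
    rw [mem_support_iff] at hm ⊢
    unfold lead at hm
    rw [coeff_homogeneousComponent] at hm
    split_ifs at hm with h
    · exact hm
    · exact absurd rfl hm
  exact monomial_le_degreeOf l h1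

private theorem line_ne {R : MvPolynomial (Fin n) ℂ} {κ v : Fin n → ℂ} {s : ℂ}
    (h : eval (fun i => κ i + s * v i) R ≠ 0) : line R κ v ≠ 0 := by
  intro h0
  apply h
  rw [← eval_line, h0, Polynomial.eval_zero]

theorem exists_generic {n : ℕ} (P : MvPolynomial (Fin n) ℂ) (a : Fin n → ℤ)
    (h : NonHyperbolic (lead P) a) :
    ∃ (l : Fin n) (q r : MvPolynomial (Fin n) ℂ) (e : ℕ), 0 < e ∧ lead P = q ^ e * r ∧
      (∀ c : MvPolynomial {j : Fin n // j ≠ l} ℂ, c ≠ 0 → ¬ P ∣ rename Subtype.val c) ∧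
      ∀ c : MvPolynomial {j : Fin n // j ≠ l} ℂ, c ≠ 0 →
        ∃ (κ : Fin n → ℝ) (s : ℂ) (w : Fin n → ℂ), 0 < s.im ∧
          (∀ i, w i = 2 * Real.pi * Complex.I * (κ i + s * a i)) ∧
          eval w q = 0 ∧ eval w (pderiv l q) ≠ 0 ∧
          ∑ i, (a i : ℂ) * eval w (pderiv i q) ≠ 0 ∧ eval w r ≠ 0 ∧
          eval (fun j : {j : Fin n // j ≠ l} => w j) c ≠ 0 := by
  classical
  obtain ⟨κ₀, ⟨σ₀, hσ₀, hz⟩, s₀, hs₀⟩ := h
  have hp : (lead P).IsHomogeneous P.totalDegree := homogeneousComponent_isHomogeneous _ _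
  have hp0 : lead P ≠ 0 := by
    intro h0; apply hs₀; rw [h0, map_zero]
  obtain ⟨q, hq, hqp, hqz⟩ := exists_irr_factor_zero _ _ hp0 hz
  -- `q` is homogeneous of positive degree
  obtain ⟨d, hd, hd0⟩ : ∃ d, q.IsHomogeneous d ∧ 0 < d := by
    obtain ⟨g, hg⟩ := hqp
    have h1 : (q * g).IsHomogeneous P.totalDegree := by rw [← hg]; exact hp
    obtain ⟨e, k, he, _, _⟩ := isHomogeneous_of_mul h1 (by rw [← hg]; exact hp0)
    refine ⟨e, he, ?_⟩
    rcases Nat.eq_zero_or_pos e with h | h
    · exfalso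
      subst h
      rw [← totalDegree_zero_iff_isHomogeneous, totalDegree_eq_zero_iff_eq_C] at he
      apply hq.not_isUnit
      rw [he]
      rw [MvPolynomial.isUnit_iff_eq_C_of_isReduced]
      refine ⟨_, ?_, rfl⟩
      rw [isUnit_iff_ne_zero]
      intro h0
      rw [h0, C_0] at he
      exact hq.ne_zero he
    · exact h
  obtain ⟨e, k, r, hpr, hqr, _, _⟩ := exists_cofactor q (lead P) hq hd hd0 hp hp0
  have he : 0 < e := by
    by_contra h0
    have h0' : e = 0 := by omega
    apply hqr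
    rw [hpr, h0', pow_zero, one_mul] at hqp
    exact hqp
  have hqs : eval (fun i => κ₀ i + s₀ * a i) q ≠ 0 := by
    intro h0
    apply hs₀
    obtain ⟨g, hg⟩ := hqp
    rw [hg, map_mul, h0, zero_mul]
  have hda : dp q (fun i => (a i : ℂ)) ≠ 0 := by
    intro h0
    apply hqs
    rw [const_of_dp h0 _ s₀ σ₀]
    exact hqz
  obtain ⟨l, hl⟩ : ∃ l, pderiv l q ≠ 0 := by
    by_contra hcon
    push Not at hcon
    apply hda
    unfold dp
    refine Finset.sum_eq_zero fun j _ => ?_
    rw [hcon j, mul_zero]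
  have hlq := degreeOf_pos_of_pderiv hl
  refine ⟨l, q, r, e, he, hpr, ?_, ?_⟩
  · intro c hc hdvd
    have hR : (rename Subtype.val c : MvPolynomial (Fin n) ℂ) ≠ 0 := by
      intro h0
      exact hc ((map_eq_zero_iff _ (rename_injective _ Subtype.val_injective)).1 h0)
    have h1 := degreeOf_le_of_dvd l hR hdvd
    rw [degreeOf_rename_val] at h1
    have h2 := degreeOf_lead_le P l
    have h3 := degreeOf_le_of_dvd l hp0 hqp
    omega
  · intro c hc
    set R : MvPolynomial (Fin n) ℂ := rename Subtype.val c with hRdef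
    have hR : R ≠ 0 := by
      intro h0
      exact hc ((map_eq_zero_iff _ (rename_injective _ Subtype.val_injective)).1 h0)
    have hqR : ¬ q ∣ R := by
      intro hdvd
      have h1 := degreeOf_le_of_dvd l hR hdvd
      rw [hRdef, degreeOf_rename_val] at h1
      omega
    set c₀ : ℂ := 2 * Real.pi * Complex.I with hc₀
    have hc₀0 : c₀ ≠ 0 := Complex.two_pi_I_ne_zero
    set H₀ := pderiv l q * dp q (fun i => (a i : ℂ)) * r * sc c₀ R with hH₀
    have hprime := hq.prime
    have hql : ¬ q ∣ pderiv l q := by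
      rw [← dp_single]
      exact not_dvd_dp hq hd hd0 _ (by rw [dp_single]; exact hl)
    have hqH₀ : ¬ q ∣ H₀ := by
      rw [hH₀]
      intro h1
      rcases hprime.dvd_or_dvd h1 with h1 | h1
      · rcases hprime.dvd_or_dvd h1 with h1 | h1
        · rcases hprime.dvd_or_dvd h1 with h1 | h1
          · exact hql h1
          · exact not_dvd_dp hq hd hd0 _ hda h1
        · exact hqr h1
      · exact not_dvd_sc hd hc₀0 hqR h1
    have hqH : ¬ q ∣ H₀ * sc (-1) H₀ := by
      intro h1
      rcases hprime.dvd_or_dvd h1 with h1 | h1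
      · exact hqH₀ h1
      · exact not_dvd_sc hd (by norm_num) hqH₀ h1
    obtain ⟨Res, hRes0, hRes⟩ := exists_resultant q _ hq hqH (fun i => (a i : ℂ)) hda
    obtain ⟨κ₁, hκ₁⟩ := exists_real_generic {Res} (Set.countable_singleton _) (by
      intro p hp; rw [Set.mem_singleton_iff] at hp; rw [hp]; exact hRes0)
    have hκ₁' := hκ₁ Res rfl
    -- the points `κ₀ + τ (κ₁ - κ₀)`
    set τ : ℕ → ℝ := fun N => ((N : ℝ) + 1)⁻¹ with hτ
    have hτlim : Tendsto τ atTop (𝓝 0) := by
      have := tendsto_one_div_add_atTop_nhds_zero_nat (𝕜 := ℝ)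
      simpa [hτ, one_div] using this
    have hτinj : Function.Injective fun N => ((τ N : ℝ) : ℂ) := by
      intro N N' h1
      simp only [hτ, Complex.ofReal_inj, inv_inj, add_left_inj, Nat.cast_inj] at h1
      exact h1
    set L := line Res (fun i => (κ₀ i : ℂ)) (fun i => ((κ₁ i : ℂ) - κ₀ i)) with hL
    have hL0 : L ≠ 0 := line_ne (s := 1) (by
      have : (fun i => (κ₀ i : ℂ) + 1 * ((κ₁ i : ℂ) - κ₀ i)) = fun i => (κ₁ i : ℂ) := by
        funext i; ring
      rw [this]
      exact hκ₁')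
    have ev1 : ∀ᶠ N : ℕ in atTop, L.eval ((τ N : ℝ) : ℂ) ≠ 0 := by
      rw [← Nat.cofinite_eq_atTop, eventually_cofinite]
      have hfin : {z : ℂ | L.eval z = 0}.Finite := by
        refine (Polynomial.finite_setOf_isRoot hL0).subset ?_
        intro z hz; exact hz
      refine (hfin.preimage (f := fun N => ((τ N : ℝ) : ℂ)) hτinj.injOn).subset ?_
      intro N hN
      simpa using hN
    -- Hurwitz
    set rad : ℝ := |σ₀.im| / 2 with hrad
    have hrad0 : 0 < rad := by
      have := abs_pos.2 hσ₀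
      positivity
    have hC : ∀ u ∈ ball σ₀ rad, ‖u‖ ≤ ‖σ₀‖ + rad := by
      intro u hu
      rw [mem_ball, dist_eq_norm] at hu
      calc ‖u‖ = ‖σ₀ + (u - σ₀)‖ := by ring_nf
        _ ≤ ‖σ₀‖ + ‖u - σ₀‖ := norm_add_le _ _
        _ ≤ ‖σ₀‖ + rad := by linarith
    have hUC : UConv (ball σ₀ rad)
        (fun N u => eval (fun i => ((κ₀ i : ℂ) + τ N * ((κ₁ i : ℂ) - κ₀ i)) + u * a i) q)
        (fun u => eval (fun i => (κ₀ i : ℂ) + u * a i) q) := by
      refine UConv.comp (F := fun x : Fin n → ℂ => eval x q) ?_ (MvPolynomial.continuous_eval _)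
      refine UConv.pi fun i => ?_
      refine UConv.add (UConv.const ?_) ((UConv.of_bounded hC).mul (UConv.const
        tendsto_const_nhds))
      have h1 : Tendsto (fun N => (κ₀ i : ℂ) + τ N * ((κ₁ i : ℂ) - κ₀ i)) atTop
          (𝓝 ((κ₀ i : ℂ) + ((0 : ℝ) : ℂ) * ((κ₁ i : ℂ) - κ₀ i))) :=
        tendsto_const_nhds.add (((Complex.continuous_ofReal.tendsto _).comp hτlim).mul
          tendsto_const_nhds)
      simpa using h1
    have hana : AnalyticAt ℂ (fun u => eval (fun i => (κ₀ i : ℂ) + u * a i) q) σ₀ := by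
      have : (fun u => eval (fun i => (κ₀ i : ℂ) + u * a i) q) =
          fun u => (line q (fun i => (κ₀ i : ℂ)) (fun i => (a i : ℂ))).eval u := by
        funext u; rw [eval_line]
      rw [this]
      exact (Polynomial.differentiable _).analyticAt _
    have hne : ∃ᶠ z in 𝓝 σ₀, eval (fun i => (κ₀ i : ℂ) + z * a i) q ≠ 0 := by
      have hl0 : line q (fun i => (κ₀ i : ℂ)) (fun i => (a i : ℂ)) ≠ 0 := line_ne hqs
      rcases hana.eventually_eq_zero_or_eventually_ne_zero with h1 | h1
      · exfalso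
        have h2 : {z : ℂ | (line q (fun i => (κ₀ i : ℂ)) (fun i => (a i : ℂ))).eval z = 0}.Finite :=
          (Polynomial.finite_setOf_isRoot hl0).subset fun z hz => hz
        have h3 : {z : ℂ | eval (fun i => (κ₀ i : ℂ) + z * a i) q = 0} ∈ 𝓝 σ₀ := h1
        have h4 := infinite_of_mem_nhds σ₀ h3
        apply h4
        refine h2.subset fun z hz => ?_
        rw [Set.mem_setOf_eq, eval_line]
        exact hz
      · exact h1.frequently.filter_mono nhdsWithin_le_nhds
    have ev2 := hurwitz (G := fun N u =>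
        eval (fun i => ((κ₀ i : ℂ) + τ N * ((κ₁ i : ℂ) - κ₀ i)) + u * a i) q)
      (B := fun u => eval (fun i => (κ₀ i : ℂ) + u * a i) q) hrad0 hana hqz hne
      (Eventually.of_forall fun N => differentiableOn_eval (fun i => by fun_prop) q)
      hUC.tendstoUniformlyOn
    obtain ⟨N, hN1, σ, hσ, hσz⟩ := (ev1.and ev2).exists
    -- the point found
    set κ₂ : Fin n → ℝ := fun i => κ₀ i + τ N * (κ₁ i - κ₀ i) with hκ₂
    have hκ₂c : ∀ i, ((κ₂ i : ℝ) : ℂ) = (κ₀ i : ℂ) + τ N * ((κ₁ i : ℂ) - κ₀ i) := by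
      intro i; rw [hκ₂]; push_cast; ring
    have hz2 : eval (fun i => (κ₂ i : ℂ) + σ * a i) q = 0 := by
      rw [← hσz]
      congr 2
      funext i
      rw [hκ₂c]
    have hRes2 : eval (fun i => (κ₂ i : ℂ)) Res ≠ 0 := by
      rw [hL, eval_line] at hN1
      intro h0
      apply hN1
      rw [← h0]
      congr 2
      funext i
      rw [hκ₂c]
    have hH2 : eval (fun i => (κ₂ i : ℂ) + σ * a i) (H₀ * sc (-1) H₀) ≠ 0 := fun h0 =>
      hRes2 (hRes _ σ hz2 h0)
    have him : σ.im ≠ 0 := by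
      intro h0
      rw [mem_ball, dist_eq_norm] at hσ
      have h1 : |(σ - σ₀).im| ≤ ‖σ - σ₀‖ := Complex.abs_im_le_norm _
      rw [Complex.sub_im, h0, zero_sub, abs_neg] at h1
      rw [hrad] at hσ
      have := abs_pos.2 hσ₀
      linarith
    rw [map_mul, mul_ne_zero_iff] at hH2
    -- the sign of the imaginary part
    have key : ∀ (κ : Fin n → ℝ) (s : ℂ), 0 < s.im →
        eval (fun i => (κ i : ℂ) + s * a i) q = 0 →
        eval (fun i => (κ i : ℂ) + s * a i) H₀ ≠ 0 →
        ∃ (κ : Fin n → ℝ) (s : ℂ) (w : Fin n → ℂ), 0 < s.im ∧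
          (∀ i, w i = 2 * Real.pi * Complex.I * (κ i + s * a i)) ∧
          eval w q = 0 ∧ eval w (pderiv l q) ≠ 0 ∧
          ∑ i, (a i : ℂ) * eval w (pderiv i q) ≠ 0 ∧ eval w r ≠ 0 ∧
          eval (fun j : {j : Fin n // j ≠ l} => w j) c ≠ 0 := by
      intro κ s hs hzq hzH
      rw [hH₀, map_mul, map_mul, map_mul, mul_ne_zero_iff, mul_ne_zero_iff,
        mul_ne_zero_iff] at hzH
      obtain ⟨⟨⟨g1, g2⟩, g3⟩, g4⟩ := hzH
      have hpow : ∀ m : ℕ, c₀ ^ m ≠ 0 := fun m => pow_ne_zero _ hc₀0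
      refine ⟨κ, s, fun i => c₀ * (κ i + s * a i), hs, fun i => rfl, ?_, ?_, ?_, ?_, ?_⟩
      · rw [eval_mul_of_isHomogeneous hd c₀ (fun i => (κ i : ℂ) + s * a i), hzq, mul_zero]
      · rw [eval_mul_of_isHomogeneous hd.pderiv c₀ (fun i => (κ i : ℂ) + s * a i)]
        exact mul_ne_zero (hpow _) g1
      · have h1 := eval_dp q (fun i => (a i : ℂ)) (fun i => c₀ * ((κ i : ℂ) + s * a i))
        rw [← h1, eval_mul_of_isHomogeneous (dp_homog hd _) c₀
          (fun i => (κ i : ℂ) + s * a i)]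
        exact mul_ne_zero (hpow _) g2
      · rename_i hrk _
        rw [eval_mul_of_isHomogeneous hrk c₀ (fun i => (κ i : ℂ) + s * a i)]
        exact mul_ne_zero (hpow _) g3
      · rw [eval_sc, hRdef, eval_rename] at g4
        exact g4
    rcases lt_or_gt_of_ne him with hneg | hpos
    · refine key (fun i => -κ₂ i) (-σ) (by simpa using hneg) ?_ ?_
      · have h1 : (fun i => ((-κ₂ i : ℝ) : ℂ) + -σ * a i) =
            fun i => (-1 : ℂ) * ((κ₂ i : ℂ) + σ * a i) := by
          funext i; push_cast; ring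
        rw [h1, eval_mul_of_isHomogeneous hd, hz2, mul_zero]
      · have h1 : (fun i => ((-κ₂ i : ℝ) : ℂ) + -σ * a i) =
            fun i => (-1 : ℂ) * ((κ₂ i : ℂ) + σ * a i) := by
          funext i; push_cast; ring
        rw [h1, ← eval_sc]
        exact hH2.2
    · exact key κ₂ σ hpos hz2 hH2.1

end Pool.Agent.Lib.MP_209724_lc.MV
end
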