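import Mathlib
import Pool.Agent.Lib.MP_209724_lc.MV.Defs

section

/-!
Algebraic preparations for the main theorem.
-/

namespace Pool.Agent.Lib.MP_209724_lc.MV

open MvPolynomial

/-- the uniformizer `t` and the units `u i`. -/
theorem exists_unif {n : ℕ} {L : Type} [Field L] (η : Fin n → L) (hη : ∀ i, η i ≠ 0)
    (a : Fin n → ℤ) (ha : a ≠ 0) (𝒪 : ValuationSubring L)
    (h𝒪 : ∀ m : Fin n → ℤ, 𝒪.valuation (∏ i, η i ^ m i) < 1 ↔ 0 < ∑ i, a i * m i) :
    ∃ (i₀ : Fin n) (t : L) (E : ℕ), (t = η i₀ ∨ t = (η i₀)⁻¹) ∧ 0 < E ∧ 𝒪.valuation t < 1 ∧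
      (∀ i, η i ^ E * t ^ (-a i) ∈ 𝒪) ∧ ∀ i, (η i ^ E * t ^ (-a i))⁻¹ ∈ 𝒪 := by
  classical
  obtain ⟨i₀, hi₀⟩ : ∃ i, a i ≠ 0 := by
    by_contra hcon
    push Not at hcon
    exact ha (funext hcon)
  set ε : ℤ := Int.sign (a i₀) with hε
  have hεa : a i₀ * ε = (a i₀).natAbs := by
    rw [hε, mul_comm, Int.sign_mul_self_eq_natAbs]
  set t : L := η i₀ ^ ε with ht
  set E : ℕ := (a i₀).natAbs with hE
  have hEpos : 0 < E := Int.natAbs_pos.mpr hi₀
  have hprod : ∀ m : Fin n → ℤ, ∀ x y : ℤ, ∀ i, 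
      (∏ j, η j ^ ((Pi.single i x + Pi.single i₀ y : Fin n → ℤ) j)) = η i ^ x * η i₀ ^ y := by
    intro m x y i
    simp only [Pi.add_apply]
    rw [Finset.prod_congr rfl (fun j _ => zpow_add₀ (hη j) _ _), Finset.prod_mul_distrib]
    congr 1
    · rw [Finset.prod_eq_single i]
      · simp
      · intro j _ hj
        simp [Pi.single_eq_of_ne hj]
      · simp
    · rw [Finset.prod_eq_single i₀]
      · simp
      · intro j _ hj
        simp [Pi.single_eq_of_ne hj]
      · simp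
  have hsum : ∀ x y : ℤ, ∀ i,
      (∑ j, a j * ((Pi.single i x + Pi.single i₀ y : Fin n → ℤ) j)) = a i * x + a i₀ * y := by
    intro x y i
    simp only [Pi.add_apply, mul_add, Finset.sum_add_distrib]
    congr 1
    · rw [Finset.sum_eq_single i]
      · simp
      · intro j _ hj
        simp [Pi.single_eq_of_ne hj]
      · simp
    · rw [Finset.sum_eq_single i₀]
      · simp
      · intro j _ hj
        simp [Pi.single_eq_of_ne hj]
      · simp
  have hmem : ∀ (x y : ℤ) (i), a i * x + a i₀ * y = 0 → η i ^ x * η i₀ ^ y ∈ 𝒪 ∧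
      (η i ^ x * η i₀ ^ y)⁻¹ ∈ 𝒪 := by
    intro x y i h0
    have hne : η i ^ x * η i₀ ^ y ≠ 0 := mul_ne_zero (zpow_ne_zero _ (hη i)) (zpow_ne_zero _ (hη i₀))
    have h1 : ¬ 𝒪.valuation (η i ^ x * η i₀ ^ y) < 1 := by
      rw [← hprod 0 x y i, h𝒪, hsum, h0]
      exact lt_irrefl _
    have h2 : ¬ 𝒪.valuation (η i ^ x * η i₀ ^ y)⁻¹ < 1 := by
      have h3 : (η i ^ x * η i₀ ^ y)⁻¹ = η i ^ (-x) * η i₀ ^ (-y) := by
        rw [mul_inv, zpow_neg, zpow_neg]
      rw [h3, ← hprod 0 (-x) (-y) i, h𝒪, hsum]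
      have h4 : a i * -x + a i₀ * -y = 0 := by linarith
      rw [h4]
      exact lt_irrefl _
    rw [not_lt] at h1 h2
    rw [map_inv₀] at h2
    have hv : 𝒪.valuation (η i ^ x * η i₀ ^ y) ≠ 0 := (Valuation.ne_zero_iff _).mpr hne
    constructor
    · rw [← ValuationSubring.valuation_le_one_iff]
      exact (one_le_inv₀ (zero_lt_iff.mpr hv)).mp h2
    · rw [← ValuationSubring.valuation_le_one_iff, map_inv₀]
      exact (inv_le_one₀ (zero_lt_iff.mpr hv)).mpr h1
  refine ⟨i₀, t, E, ?_, hEpos, ?_, ?_, ?_⟩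
  · rcases lt_or_gt_of_ne hi₀ with h | h
    · right
      rw [ht, hε, Int.sign_eq_neg_one_of_neg h, zpow_neg_one]
    · left
      rw [ht, hε, Int.sign_eq_one_of_pos h, zpow_one]
  · have h1 := hprod 0 0 ε i₀
    rw [zpow_zero, one_mul] at h1
    rw [ht, ← h1, h𝒪, hsum, mul_zero, zero_add, hεa]
    exact_mod_cast hEpos
  · intro i
    have h1 : η i ^ E * t ^ (-a i) = η i ^ (E : ℤ) * η i₀ ^ (ε * (-a i)) := by
      rw [ht, zpow_mul, zpow_natCast]
    rw [h1]
    refine (hmem _ _ i ?_).1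
    have : a i₀ * (ε * (-a i)) = -(a i₀ * ε) * a i := by ring
    rw [this, hεa]
    ring
  · intro i
    have h1 : η i ^ E * t ^ (-a i) = η i ^ (E : ℤ) * η i₀ ^ (ε * (-a i)) := by
      rw [ht, zpow_mul, zpow_natCast]
    rw [h1]
    refine (hmem _ _ i ?_).2
    have : a i₀ * (ε * (-a i)) = -(a i₀ * ε) * a i := by ring
    rw [this, hεa]
    ring

theorem transcendental_of_valuation {F L : Type} [Field F] [Field L] [Algebra F L]
    (K : IntermediateField F L) (𝒪 : ValuationSubring L) (hK : ∀ c ∈ K, c ∈ 𝒪) {t : L}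
    (ht : t ≠ 0) (ht1 : 𝒪.valuation t < 1) : Transcendental K t := by
  intro halg
  have h1 : IsAlgebraic K t⁻¹ := halg.inv
  have h2 : IsIntegral K t⁻¹ := h1.isIntegral
  have h3 : t⁻¹ ∈ 𝒪 := by
    let φ : K →+* 𝒪 := K.val.toRingHom.codRestrict 𝒪.toSubring (fun x => hK x x.2)
    have h4 : IsIntegral 𝒪 t⁻¹ := by
      obtain ⟨p, hp, hpt⟩ := h2
      refine ⟨p.map φ, hp.map _, ?_⟩
      rw [Polynomial.eval₂_map]
      exact hpt
    obtain ⟨y, hy⟩ := (IsIntegrallyClosed.isIntegral_iff (R := 𝒪) (K := L)).mp h4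
    rw [← hy]
    exact y.2
  rw [← ValuationSubring.valuation_le_one_iff, map_inv₀] at h3
  have hv : 𝒪.valuation t ≠ 0 := (Valuation.ne_zero_iff _).mpr ht
  exact absurd ((inv_le_one₀ (zero_lt_iff.mpr hv)).mp h3) (not_le.mpr ht1)

theorem algebraicIndependent_xi {n : ℕ} {L : Type} [Field L] [Algebra ℂ L] (ξ : Fin n → L)
    (P : MvPolynomial (Fin n) ℂ) (hP : ∀ c, aeval ξ c = 0 ↔ P ∣ c) (l : Fin n)
    (hdiv : ∀ c : MvPolynomial {j : Fin n // j ≠ l} ℂ, c ≠ 0 → ¬ P ∣ rename Subtype.val c) :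
    AlgebraicIndependent ℂ (fun j : {j : Fin n // j ≠ l} => ξ j) := by
  rw [algebraicIndependent_iff]
  intro c hc
  by_contra hc0
  apply hdiv c hc0
  rw [← hP, aeval_rename]
  exact hc

theorem isAlgebraic_xi {n : ℕ} {L : Type} [Field L] [Algebra ℂ L] (ξ : Fin n → L)
    (P : MvPolynomial (Fin n) ℂ) (hP0 : P ≠ 0) (hP : aeval ξ P = 0) (l : Fin n)
    (hξ : AlgebraicIndependent ℂ (fun j : {j : Fin n // j ≠ l} => ξ j)) :
    IsAlgebraic (IntermediateField.adjoin ℂ (Set.range fun j : {j // j ≠ l} => ξ j)) (ξ l) := by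
  rw [IntermediateField.isAlgebraic_adjoin_iff]
  by_contra hcon
  have h1 := (hξ.option_iff_transcendental (ξ l)).mpr hcon
  have h2 := h1.comp _ (Equiv.optionSubtypeNe l).symm.injective
  have h3 : (fun o : Option {j : Fin n // j ≠ l} => o.elim (ξ l) fun j => ξ j) ∘
      (Equiv.optionSubtypeNe l).symm = ξ := by
    funext i
    by_cases hi : i = l
    · subst hi; simp
    · simp [Equiv.optionSubtypeNe_symm_of_ne hi]
  rw [h3] at h2
  exact hP0 ((algebraicIndependent_iff.mp h2) P hP)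

theorem isAlgebraic_of_map {R₁ R₂ L : Type*} [CommRing R₁] [CommRing R₂] [Field L] [Algebra R₁ L]
    [Algebra R₂ L] (φ : R₁ →+* R₂) (hφ : ∀ r, algebraMap R₂ L (φ r) = algebraMap R₁ L r)
    (hinj : Function.Injective φ) {x : L} (h : IsAlgebraic R₁ x) : IsAlgebraic R₂ x := by
  obtain ⟨p, hp0, hpx⟩ := h
  refine ⟨p.map φ, (Polynomial.map_ne_zero_iff hinj).mpr hp0, ?_⟩
  rw [Polynomial.aeval_def, Polynomial.eval₂_map]
  have : (algebraMap R₂ L).comp φ = algebraMap R₁ L := RingHom.ext hφ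
  rw [this]
  exact hpx

/-- the transcendence basis `ξ', t`. -/
theorem z_facts {n : ℕ} {L : Type} [Field L] [Algebra ℂ L] (ξ : Fin n → L)
    (htr : Algebra.trdeg ℂ L = n) (l : Fin n)
    (hξ : AlgebraicIndependent ℂ (fun j : {j : Fin n // j ≠ l} => ξ j)) (t : L)
    (ht : Transcendental (IntermediateField.adjoin ℂ (Set.range ξ)) t) :
    AlgebraicIndependent ℂ (fun o : Option {j : Fin n // j ≠ l} => o.elim t fun j => ξ j) ∧
      Algebra.IsAlgebraic (Algebra.adjoin ℂ
        (Set.range fun o : Option {j : Fin n // j ≠ l} => o.elim t fun j => ξ j)) L := by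
  have hsub : Algebra.adjoin ℂ (Set.range fun j : {j : Fin n // j ≠ l} => ξ j) ≤
      (IntermediateField.adjoin ℂ (Set.range ξ)).toSubalgebra := by
    apply Algebra.adjoin_le
    rintro _ ⟨j, rfl⟩
    exact IntermediateField.subset_adjoin _ _ ⟨j, rfl⟩
  have h1 : Transcendental (Algebra.adjoin ℂ (Set.range fun j : {j : Fin n // j ≠ l} => ξ j)) t := by
    intro h
    apply ht
    exact isAlgebraic_of_map (Subalgebra.inclusion hsub).toRingHom (fun r => rfl)
      (Subalgebra.inclusion_injective hsub) h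
  have h2 := (hξ.option_iff_transcendental t).mpr h1
  refine ⟨h2, ?_⟩
  apply IsTranscendenceBasis.isAlgebraic
  apply AlgebraicIndependent.isTranscendenceBasis_of_trdeg_le_of_finite h2
  rw [htr, Cardinal.mk_fintype, Fintype.card_option]
  have : Fintype.card {j : Fin n // j ≠ l} = n - 1 := by
    rw [Fintype.card_subtype_compl, Fintype.card_fin, Fintype.card_subtype_eq]
  rw [this]
  have hn : 0 < n := l.pos
  have : n - 1 + 1 = n := by omega
  rw [this]

theorem isAlgebraic_adjoin_simple' {n : ℕ} {L : Type} [Field L] [Algebra ℂ L] (ξ : Fin n → L)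
    (l : Fin n) (t : L)
    (h : Algebra.IsAlgebraic (Algebra.adjoin ℂ
        (Set.range fun o : Option {j : Fin n // j ≠ l} => o.elim t fun j => ξ j)) L) (x : L) :
    IsAlgebraic (IntermediateField.adjoin
      (IntermediateField.adjoin ℂ (Set.range fun j : {j // j ≠ l} => ξ j)) {t}) x := by
  set K' := IntermediateField.adjoin ℂ (Set.range fun j : {j // j ≠ l} => ξ j) with hK'
  set F := IntermediateField.adjoin K' {t} with hF
  have hsub : Algebra.adjoin ℂ
      (Set.range fun o : Option {j : Fin n // j ≠ l} => o.elim t fun j => ξ j) ≤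
      (F.restrictScalars ℂ).toSubalgebra := by
    apply Algebra.adjoin_le
    rintro _ ⟨o, rfl⟩
    rcases o with _ | j
    · exact IntermediateField.subset_adjoin K' _ (Set.mem_singleton t)
    · have h1 : ξ j ∈ K' := IntermediateField.subset_adjoin _ _ ⟨j, rfl⟩
      exact F.algebraMap_mem ⟨ξ j, h1⟩
  have h1 := h.isAlgebraic x
  exact isAlgebraic_of_map (Subalgebra.inclusion hsub).toRingHom (fun r => rfl)
      (Subalgebra.inclusion_injective hsub) h1

theorem finiteDimensional_L {n : ℕ} {L : Type} [Field L] [Algebra ℂ L] (ξ η : Fin n → L)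
    (hgen : IntermediateField.adjoin ℂ (Set.range ξ ∪ Set.range η) = ⊤)
    (l : Fin n) (t : L)
    (h : Algebra.IsAlgebraic (Algebra.adjoin ℂ
        (Set.range fun o : Option {j : Fin n // j ≠ l} => o.elim t fun j => ξ j)) L) :
    FiniteDimensional (IntermediateField.adjoin
      (IntermediateField.adjoin ℂ (Set.range fun j : {j // j ≠ l} => ξ j)) {t}) L := by
  set K' := IntermediateField.adjoin ℂ (Set.range fun j : {j // j ≠ l} => ξ j) with hK'
  set F := IntermediateField.adjoin K' {t} with hF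
  have hfin : Finite ↥(Set.range ξ ∪ Set.range η) :=
    Set.Finite.to_subtype ((Set.finite_range ξ).union (Set.finite_range η))
  have h1 : FiniteDimensional F (IntermediateField.adjoin F (Set.range ξ ∪ Set.range η)) :=
    IntermediateField.finiteDimensional_adjoin fun x _ =>
      (isAlgebraic_adjoin_simple' ξ l t h x).isIntegral
  have h2 : IntermediateField.adjoin F (Set.range ξ ∪ Set.range η) = ⊤ := by
    rw [eq_top_iff]
    intro x _
    have h3 : x ∈ IntermediateField.adjoin ℂ (Set.range ξ ∪ Set.range η) := by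
      rw [hgen]; trivial
    have h4 : IntermediateField.adjoin ℂ (Set.range ξ ∪ Set.range η) ≤
        ((IntermediateField.adjoin F (Set.range ξ ∪ Set.range η)).restrictScalars K').restrictScalars ℂ := by
      rw [IntermediateField.adjoin_le_iff]
      intro y hy
      exact IntermediateField.subset_adjoin F _ hy
    exact h4 h3
  rw [h2] at h1
  exact (IntermediateField.topEquiv (F := F) (E := L)).toLinearEquiv.finiteDimensional

end Pool.Agent.Lib.MP_209724_lc.MV
end

section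

namespace Pool.Agent.Lib.MP_209724_lc.MV

open Filter Topology Metric
open scoped NNReal

theorem hurwitz_multi {E F : Type} [NormedAddCommGroup E] [NormedSpace ℂ E] [CompleteSpace E]
    [NormedAddCommGroup F] [NormedSpace ℂ F] {f : E → F} {G : ℕ → E → F} {p₀ : E}
    {f' : E ≃L[ℂ] F} (hf : HasStrictFDerivAt f (f' : E →L[ℂ] F) p₀) (hf0 : f p₀ = 0)
    {ρ : ℝ} (hρ : 0 < ρ) (hfd : DifferentiableOn ℂ f (ball p₀ ρ))
    (hG : ∀ᶠ N : ℕ in atTop, DifferentiableOn ℂ (G N) (ball p₀ ρ))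
    (hlim : ∀ ε : ℝ, 0 < ε → ∀ᶠ N : ℕ in atTop, ∀ p ∈ ball p₀ ρ, ‖G N p - f p‖ ≤ ε) :
    ∀ᶠ N : ℕ in atTop, ∃ p ∈ ball p₀ ρ, G N p = 0 := by
  rcases subsingleton_or_nontrivial E with hE | hE
  · have hF : Subsingleton F := f'.symm.toEquiv.subsingleton
    exact Filter.Eventually.of_forall fun N => ⟨p₀, mem_ball_self hρ, Subsingleton.elim _ _⟩
  have hpos : 0 < ‖(f'.symm : F →L[ℂ] E)‖₊ := by
    rcases f'.subsingleton_or_nnnorm_symm_pos with h | h
    · exact absurd hE (not_nontrivial_iff_subsingleton.2 h)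
    · exact h
  set ν : ℝ≥0 := ‖(f'.symm : F →L[ℂ] E)‖₊⁻¹ with hν
  have hνpos : 0 < ν := inv_pos.2 hpos
  have hνpos' : (0 : ℝ) < ν := hνpos
  obtain ⟨s, hps, hso, happ⟩ := hf.approximates_deriv_on_open_nhds
  obtain ⟨r₀, hr₀, hr₀s⟩ := Metric.isOpen_iff.1 hso p₀ hps
  set r : ℝ := min (r₀ / 2) (ρ / 8) with hr
  have hrpos : 0 < r := by positivity
  have hrs : closedBall p₀ r ⊆ s := by
    refine (closedBall_subset_ball ?_).trans hr₀s
    have : r ≤ r₀ / 2 := min_le_left _ _
    linarith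
  have hrρ : r ≤ ρ / 8 := min_le_right _ _
  have hrb : closedBall p₀ r ⊆ ball p₀ ρ := closedBall_subset_ball (by linarith)
  set ε : ℝ := min (ν * ρ / 16) (ν * r / 4) with hε
  have hεpos : 0 < ε := by positivity
  filter_upwards [hG, hlim ε hεpos] with N hGN hN
  set u : E → F := fun p => G N p - f p with hu
  have hud : DifferentiableOn ℂ u (ball p₀ ρ) := hGN.sub hfd
  have hLip : ∀ p ∈ closedBall p₀ r, ∀ q ∈ closedBall p₀ r,
      ‖u p - u q‖ ≤ ν / 4 * ‖p - q‖ := by
    intro p hp q hq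
    have h1 : ball q (ρ / 2) ⊆ ball p₀ ρ := by
      apply ball_subset_ball'
      have := mem_closedBall.1 hq
      linarith
    have hmaps : Set.MapsTo u (ball q (ρ / 2)) (closedBall (u q) (2 * ε)) := by
      intro z hz
      rw [mem_closedBall, dist_eq_norm]
      calc ‖u z - u q‖ ≤ ‖u z‖ + ‖u q‖ := norm_sub_le _ _
        _ ≤ ε + ε := add_le_add (hN z (h1 hz)) (hN q (hrb hq))
        _ = 2 * ε := by ring
    have hpq : p ∈ ball q (ρ / 2) := by
      rw [mem_ball]
      calc dist p q ≤ dist p p₀ + dist q p₀ := dist_triangle_right _ _ _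
        _ ≤ r + r := add_le_add (mem_closedBall.1 hp) (mem_closedBall.1 hq)
        _ < ρ / 2 := by linarith
    have h2 := Complex.dist_le_div_mul_dist_of_mapsTo_ball (hud.mono h1) hmaps hpq
    rw [dist_eq_norm, dist_eq_norm] at h2
    refine h2.trans (mul_le_mul_of_nonneg_right ?_ (norm_nonneg _))
    have h3 : ε ≤ ν * ρ / 16 := min_le_left _ _
    rw [div_le_iff₀ (by linarith)]
    linarith
  have happN : ApproximatesLinearOn (G N) (f' : E →L[ℂ] F) (closedBall p₀ r) (ν / 2 + ν / 4) := by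
    intro p hp q hq
    have h1 := happ p (hrs hp) q (hrs hq)
    have h2 := hLip p hp q hq
    have h3 : G N p - G N q - (f' : E →L[ℂ] F) (p - q) =
        (f p - f q - (f' : E →L[ℂ] F) (p - q)) + (u p - u q) := by
      simp only [hu]
      abel
    rw [h3]
    refine (norm_add_le _ _).trans ((add_le_add h1 h2).trans (le_of_eq ?_))
    rw [← hν]
    push_cast
    ring
  have hsurj := happN.surjOn_closedBall_of_nonlinearRightInverse f'.toNonlinearRightInverse
    hrpos.le subset_rfl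
  have h0 : (0 : F) ∈ closedBall (G N p₀)
      (((f'.toNonlinearRightInverse.nnnorm : ℝ)⁻¹ - ((ν / 2 + ν / 4 : ℝ≥0) : ℝ)) * r) := by
    have h1 : (f'.toNonlinearRightInverse.nnnorm : ℝ)⁻¹ = ν := by
      rw [hν]
      rw [NNReal.coe_inv]
      rfl
    rw [h1, mem_closedBall, dist_eq_norm, zero_sub, norm_neg]
    have h2 := hN p₀ (mem_ball_self hρ)
    rw [hf0, sub_zero] at h2
    have h3 : ε ≤ ν * r / 4 := min_le_right _ _
    push_cast
    refine h2.trans (h3.trans (le_of_eq ?_))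
    ring
  obtain ⟨p, hp, hp0⟩ := hsurj h0
  exact ⟨p, hrb hp, hp0⟩

end Pool.Agent.Lib.MP_209724_lc.MV
end
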