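import Mathlib
import Pool.Agent.Lib.MP_209724_lc.MV.Branch
import Pool.Agent.Lib.MP_209724_lc.MV.Idem
import Pool.Agent.Lib.MP_209724_lc.MV.GenericPoint
import Pool.Agent.Lib.MP_209724_lc.MV.Defs
import Pool.Agent.Lib.MP_209724_lc.MV.HurwitzMulti

section

/-!
Asymptotics of polynomials in `x` and in exponentials.
-/

namespace Pool.Agent.Lib.MP_209724_lc.GC

open MvPolynomial Filter Topology Metric
open MV (lead)

private theorem as_aeval {τ : Type} [Fintype τ] (R : ℝ) (c : MvPolynomial τ ℂ) :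
    ∃ C : ℕ, ∀ᶠ r : ℝ in atTop, ∀ x : τ → ℂ, ‖x‖ ≤ R * r → ‖aeval x c‖ ≤ r ^ C := by
  induction c using MvPolynomial.induction_on with
  | C a =>
    refine ⟨1, ?_⟩
    filter_upwards [eventually_ge_atTop ‖a‖] with r hr x _
    rw [pow_one]
    simpa using hr
  | add p q hp hq =>
    obtain ⟨C₁, h₁⟩ := hp
    obtain ⟨C₂, h₂⟩ := hq
    refine ⟨max C₁ C₂ + 1, ?_⟩
    filter_upwards [h₁, h₂, eventually_ge_atTop 2] with r h1 h2 hr x hx
    have e1 : r ^ C₁ ≤ r ^ max C₁ C₂ := pow_le_pow_right₀ (by linarith) (le_max_left _ _)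
    have e2 : r ^ C₂ ≤ r ^ max C₁ C₂ := pow_le_pow_right₀ (by linarith) (le_max_right _ _)
    have e3 : 0 ≤ r ^ max C₁ C₂ := by positivity
    rw [map_add]
    calc ‖aeval x p + aeval x q‖ ≤ ‖aeval x p‖ + ‖aeval x q‖ := norm_add_le _ _
      _ ≤ r ^ max C₁ C₂ + r ^ max C₁ C₂ := add_le_add ((h1 x hx).trans e1) ((h2 x hx).trans e2)
      _ ≤ r ^ (max C₁ C₂ + 1) := by rw [pow_succ]; nlinarith
  | mul_X p i hp =>
    obtain ⟨C₁, h₁⟩ := hp
    refine ⟨C₁ + 2, ?_⟩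
    filter_upwards [h₁, eventually_ge_atTop R, eventually_ge_atTop 0] with r h1 hr hr0 x hx
    rw [map_mul, norm_mul, pow_add, aeval_X]
    refine mul_le_mul (h1 x hx) ?_ (norm_nonneg _) (by positivity)
    calc ‖x i‖ ≤ ‖x‖ := norm_le_pi_norm x i
      _ ≤ R * r := hx
      _ ≤ r * r := mul_le_mul_of_nonneg_right hr hr0
      _ = r ^ 2 := by ring

private theorem as_aeval_fin {τ : Type} [Fintype τ] {k : ℕ} (R : ℝ)
    (P : MvPolynomial (Fin k) (MvPolynomial τ ℂ)) :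
    ∃ C : ℕ, ∀ᶠ r : ℝ in atTop, ∀ ν ∈ P.support, ∀ x : τ → ℂ, ‖x‖ ≤ R * r →
      ‖aeval x (P.coeff ν)‖ ≤ r ^ C := by
  choose C hC using fun c : MvPolynomial τ ℂ => as_aeval R c
  refine ⟨P.support.sup fun ν => C (P.coeff ν), ?_⟩
  have h1 : ∀ᶠ r : ℝ in atTop, ∀ ν ∈ P.support, ∀ x : τ → ℂ, ‖x‖ ≤ R * r →
      ‖aeval x (P.coeff ν)‖ ≤ r ^ C (P.coeff ν) :=
    (Finset.eventually_all P.support).2 fun ν _ => hC (P.coeff ν)
  filter_upwards [h1, eventually_ge_atTop 1] with r h1 hr ν hν x hx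
  refine (h1 ν hν x hx).trans (pow_le_pow_right₀ hr ?_)
  exact Finset.le_sup (f := fun ν => C (P.coeff ν)) hν

/-- the norm of a monomial in the exponentials -/
private theorem as_norm {k : ℕ} (ς : Fin k → ℂ) (r : ℝ) (μ : Fin k →₀ ℕ) :
    ‖∏ j, Complex.exp (r * ς j) ^ μ j‖ = Real.exp (r * ∑ j, (ς j).re * μ j) := by
  rw [norm_prod, Finset.mul_sum, Real.exp_sum]
  refine Finset.prod_congr rfl fun j _ => ?_
  rw [norm_pow, Complex.norm_exp, ← Real.exp_nat_mul]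
  congr 1
  rw [Complex.re_ofReal_mul]
  ring

private noncomputable def asN {k : ℕ} (μ ν : Fin k →₀ ℕ) : ℝ := ∑ j, |(ν j : ℝ) - μ j|

private theorem asN_nonneg {k : ℕ} (μ ν : Fin k →₀ ℕ) : 0 ≤ asN μ ν :=
  Finset.sum_nonneg fun _ _ => abs_nonneg _

private theorem as_term {k : ℕ} {ω : Fin k → ℝ} {ς : Fin k → ℂ} {ε r : ℝ} (hr : 0 ≤ r)
    (hς : ∀ j, ‖ς j + ω j‖ ≤ ε) (μ ν : Fin k →₀ ℕ) :
    ‖∏ j, Complex.exp (r * ς j) ^ ν j‖ ≤
      Real.exp (-(r * (wt ω ν - wt ω μ - ε * asN μ ν))) *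
        ‖∏ j, Complex.exp (r * ς j) ^ μ j‖ := by
  rw [as_norm, as_norm, ← Real.exp_add, Real.exp_le_exp]
  have h1 : ∑ j, (ς j).re * ν j - ∑ j, (ς j).re * μ j ≤
      -(wt ω ν - wt ω μ - ε * asN μ ν) := by
    unfold wt asN
    rw [Finset.mul_sum, ← Finset.sum_sub_distrib, ← Finset.sum_sub_distrib,
      ← Finset.sum_sub_distrib, ← Finset.sum_neg_distrib]
    refine Finset.sum_le_sum fun j _ => ?_
    have h2 : |(ς j).re + ω j| ≤ ε := by
      have := (Complex.abs_re_le_norm (ς j + ω j)).trans (hς j)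
      rwa [Complex.add_re, Complex.ofReal_re] at this
    have h3 : ((ς j).re + ω j) * ((ν j : ℝ) - μ j) ≤ ε * |(ν j : ℝ) - μ j| := by
      refine (le_abs_self _).trans ?_
      rw [abs_mul]
      exact mul_le_mul_of_nonneg_right h2 (abs_nonneg _)
    linarith
  have h4 := mul_le_mul_of_nonneg_left h1 hr
  linarith

/-- uniform gap -/
private theorem as_gap {k : ℕ} (ω : Fin k → ℝ) (μ : Fin k →₀ ℕ) (S : Finset (Fin k →₀ ℕ))
    (h : ∀ ν ∈ S, wt ω μ < wt ω ν) :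
    ∃ ε : ℝ, 0 < ε ∧ ∃ δ : ℝ, 0 < δ ∧ ∀ ν ∈ S, 2 * δ ≤ wt ω ν - wt ω μ - ε * asN μ ν := by
  classical
  obtain ⟨γ, hγ, hγ2⟩ : ∃ γ : ℝ, 0 < γ ∧ ∀ ν ∈ S, γ ≤ wt ω ν - wt ω μ := by
    rcases S.eq_empty_or_nonempty with hS | hS
    · exact ⟨1, one_pos, fun ν hν => by rw [hS] at hν; exact absurd hν (Finset.notMem_empty ν)⟩
    · obtain ⟨ν₀, hν₀, hmin⟩ := S.exists_min_image (fun ν => wt ω ν - wt ω μ) hS
      exact ⟨wt ω ν₀ - wt ω μ, sub_pos.2 (h ν₀ hν₀), fun ν hν => hmin ν hν⟩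
  set N : ℝ := ∑ ν ∈ S, asN μ ν with hN
  have hN0 : 0 ≤ N := Finset.sum_nonneg fun ν _ => asN_nonneg μ ν
  refine ⟨γ / (2 * (N + 1)), by positivity, γ / 4, by positivity, fun ν hν => ?_⟩
  have h1 : asN μ ν ≤ N := Finset.single_le_sum (f := fun ν => asN μ ν)
    (fun ν _ => asN_nonneg μ ν) hν
  have h2 : γ / (2 * (N + 1)) * asN μ ν ≤ γ / 2 := by
    rw [div_mul_eq_mul_div, div_le_iff₀ (by positivity)]
    nlinarith
  have := hγ2 ν hν
  linarith

/-- the bound for the sum -/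
private theorem as_sum {τ : Type} [Fintype τ] {k : ℕ} (P : MvPolynomial (Fin k) (MvPolynomial τ ℂ))
    (x : τ → ℂ) (t : Fin k → ℂ) {A T : ℝ} (hA0 : 0 ≤ A)
    (hA : ∀ ν ∈ P.support, ‖aeval x (P.coeff ν)‖ ≤ A)
    (hT : ∀ ν ∈ P.support, ‖∏ j, t j ^ ν j‖ ≤ T) : ‖evM x t P‖ ≤ P.support.card * (A * T) := by
  rw [evM_eq_sum]
  refine (norm_sum_le _ _).trans ?_
  rw [← nsmul_eq_mul]
  refine Finset.sum_le_card_nsmul _ _ _ fun ν hν => ?_
  rw [norm_mul]
  exact mul_le_mul (hA ν hν) (hT ν hν) (norm_nonneg _) hA0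

theorem upper_bound {τ : Type} [Fintype τ] {k : ℕ} (ω : Fin k → ℝ)
    (P : MvPolynomial (Fin k) (MvPolynomial τ ℂ)) (μ : Fin k →₀ ℕ) (h : Above ω P μ) :
    ∃ ε : ℝ, 0 < ε ∧ ∀ R : ℝ, ∃ C : ℕ, ∀ᶠ r : ℝ in atTop, ∀ x : τ → ℂ, ‖x‖ ≤ R * r →
      ∀ ς : Fin k → ℂ, (∀ j, ‖ς j + ω j‖ ≤ ε) →
        ‖evM x (fun j => Complex.exp (r * ς j)) P‖ ≤
          r ^ C * ‖∏ j, Complex.exp (r * ς j) ^ μ j‖ := by
  classical
  obtain ⟨ε, hε, δ, hδ, hgap⟩ := as_gap ω μ (P.support.erase μ) (fun ν hν => by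
    rw [Finset.mem_erase, mem_support_iff] at hν
    exact h ν hν.2 hν.1)
  refine ⟨ε, hε, fun R => ?_⟩
  obtain ⟨C, hC⟩ := as_aeval_fin R P
  refine ⟨C + 1, ?_⟩
  filter_upwards [hC, eventually_ge_atTop (P.support.card : ℝ), eventually_ge_atTop 0]
    with r hC hr hr0 x hx ς hς
  have hT : ∀ ν ∈ P.support, ‖∏ j, (fun j => Complex.exp (r * ς j)) j ^ ν j‖ ≤
      ‖∏ j, Complex.exp (r * ς j) ^ μ j‖ := by
    intro ν hν
    by_cases hνμ : ν = μ
    · subst hνμ; exact le_rfl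
    · refine (as_term hr0 hς μ ν).trans ?_
      have h1 := hgap ν (Finset.mem_erase.2 ⟨hνμ, hν⟩)
      have h2 : Real.exp (-(r * (wt ω ν - wt ω μ - ε * asN μ ν))) ≤ 1 := by
        rw [Real.exp_le_one_iff]
        have : 0 ≤ r * (wt ω ν - wt ω μ - ε * asN μ ν) := mul_nonneg hr0 (by linarith)
        linarith
      calc _ ≤ 1 * ‖∏ j, Complex.exp (r * ς j) ^ μ j‖ :=
            mul_le_mul_of_nonneg_right h2 (norm_nonneg _)
        _ = _ := one_mul _
  refine (as_sum P x _ (pow_nonneg hr0 C) (fun ν hν => hC ν hν x hx) hT).trans ?_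
  calc (P.support.card : ℝ) * (r ^ C * ‖∏ j, Complex.exp (r * ς j) ^ μ j‖)
      ≤ r * (r ^ C * ‖∏ j, Complex.exp (r * ς j) ^ μ j‖) :=
        mul_le_mul_of_nonneg_right hr (mul_nonneg (pow_nonneg hr0 C) (norm_nonneg _))
    _ = r ^ (C + 1) * ‖∏ j, Complex.exp (r * ς j) ^ μ j‖ := by ring

theorem small_bound {τ : Type} [Fintype τ] {k : ℕ} (ω : Fin k → ℝ)
    (P : MvPolynomial (Fin k) (MvPolynomial τ ℂ)) (μ : Fin k →₀ ℕ) (h : StrictAbove ω P μ) :
    ∃ ε : ℝ, 0 < ε ∧ ∃ δ : ℝ, 0 < δ ∧ ∀ R : ℝ, ∀ᶠ r : ℝ in atTop, ∀ x : τ → ℂ, ‖x‖ ≤ R * r →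
      ∀ ς : Fin k → ℂ, (∀ j, ‖ς j + ω j‖ ≤ ε) →
        ‖evM x (fun j => Complex.exp (r * ς j)) P‖ ≤
          Real.exp (-(δ * r)) * ‖∏ j, Complex.exp (r * ς j) ^ μ j‖ := by
  obtain ⟨ε, hε, δ, hδ, hgap⟩ := as_gap ω μ P.support (fun ν hν => by
    rw [mem_support_iff] at hν
    exact h ν hν)
  refine ⟨ε, hε, δ, hδ, fun R => ?_⟩
  obtain ⟨C, hC⟩ := as_aeval_fin R P
  have hlim : Tendsto (fun r : ℝ => P.support.card * (r ^ C * Real.exp (-(δ * r)))) atTop (𝓝 0) := by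
    have h1 : Tendsto (fun r : ℝ => r ^ C * Real.exp (-δ * r)) atTop (𝓝 0) := by
      have := tendsto_rpow_mul_exp_neg_mul_atTop_nhds_zero (C : ℝ) δ hδ
      simpa using this
    have h2 := h1.const_mul (P.support.card : ℝ)
    rw [mul_zero] at h2
    refine h2.congr fun r => ?_
    rw [neg_mul]
  filter_upwards [hC, eventually_ge_atTop 0, hlim.eventually_le_const one_pos]
    with r hC hr0 hlim x hx ς hς
  set T := ‖∏ j, Complex.exp (r * ς j) ^ μ j‖ with hTdef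
  have hT : ∀ ν ∈ P.support, ‖∏ j, (fun j => Complex.exp (r * ς j)) j ^ ν j‖ ≤
      Real.exp (-(δ * r)) * Real.exp (-(δ * r)) * T := by
    intro ν hν
    refine (as_term hr0 hς μ ν).trans ?_
    have h1 := hgap ν hν
    have h2 : Real.exp (-(r * (wt ω ν - wt ω μ - ε * asN μ ν))) ≤
        Real.exp (-(δ * r)) * Real.exp (-(δ * r)) := by
      rw [← Real.exp_add, Real.exp_le_exp]
      have := mul_le_mul_of_nonneg_left h1 hr0
      linarith
    exact mul_le_mul_of_nonneg_right h2 (norm_nonneg _)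
  refine (as_sum P x _ (pow_nonneg hr0 C) (fun ν hν => hC ν hν x hx) hT).trans ?_
  have h3 : 0 ≤ Real.exp (-(δ * r)) * T := mul_nonneg (Real.exp_pos _).le (norm_nonneg _)
  calc (P.support.card : ℝ) * (r ^ C * (Real.exp (-(δ * r)) * Real.exp (-(δ * r)) * T))
      = (P.support.card * (r ^ C * Real.exp (-(δ * r)))) * (Real.exp (-(δ * r)) * T) := by ring
    _ ≤ 1 * (Real.exp (-(δ * r)) * T) := mul_le_mul_of_nonneg_right hlim h3
    _ = _ := one_mul _

/-- lower bound for the leading coefficient, real parameter -/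
private theorem as_lower {τ : Type} [Fintype τ] (c : MvPolynomial τ ℂ) {D : Set (τ → ℂ)}
    (hD : IsCompact D) (hc : ∀ w ∈ D, eval w (lead c) ≠ 0) :
    ∃ δ : ℝ, 0 < δ ∧ ∀ᶠ r : ℝ in atTop, ∀ v ∈ D, δ ≤ ‖eval (fun j => (r : ℂ) * v j) c‖ := by
  set d := c.totalDegree with hd
  have hcont := MV.continuous_asymResc c d
  have hopen : IsOpen {p : ℂ × (τ → ℂ) | MV.asymResc c d p.1 p.2 ≠ 0} :=
    isOpen_ne.preimage hcont
  obtain ⟨u, v, hu, hv, h0u, hDv, huv⟩ := generalized_tube_lemma (s := ({0} : Set ℂ))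
    isCompact_singleton hD hopen (by
      rintro ⟨z, w⟩ ⟨hz, hw⟩
      rw [Set.mem_singleton_iff] at hz
      simp only at hz hw
      subst hz
      show MV.asymResc c d 0 w ≠ 0
      rw [MV.asymResc_zero]
      exact hc w hw)
  obtain ⟨r, hr, hru⟩ := Metric.nhds_basis_closedBall.mem_iff.1
    (hu.mem_nhds (h0u (Set.mem_singleton (0 : ℂ))))
  have hK : IsCompact (closedBall (0 : ℂ) r ×ˢ D) := (isCompact_closedBall 0 r).prod hD
  obtain ⟨δ, hδ, hδ2⟩ : ∃ δ : ℝ, 0 < δ ∧ ∀ p ∈ closedBall (0 : ℂ) r ×ˢ D,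
      δ ≤ ‖MV.asymResc c d p.1 p.2‖ := by
    rcases (closedBall (0 : ℂ) r ×ˢ D).eq_empty_or_nonempty with h | h
    · exact ⟨1, one_pos, fun p hp => by rw [h] at hp; exact absurd hp (Set.notMem_empty p)⟩
    · obtain ⟨p, hp, hp2⟩ := hK.exists_isMinOn h hcont.norm.continuousOn
      exact ⟨_, norm_pos_iff.2 (huv ⟨hru hp.1, hDv hp.2⟩), fun x hx => hp2 hx⟩
  refine ⟨δ, hδ, ?_⟩
  filter_upwards [eventually_ge_atTop 1, eventually_ge_atTop r⁻¹] with N hN1 hN2 w hw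
  have hN0' : (0 : ℝ) < N := by linarith
  have hN0 : (N : ℂ) ≠ 0 := by
    rw [Ne, Complex.ofReal_eq_zero]; exact hN0'.ne'
  rw [MV.eval_eq_asymResc c hd.symm hN0, norm_mul, norm_pow, Complex.norm_real, Real.norm_eq_abs,
    abs_of_pos hN0']
  have h1 : δ ≤ ‖MV.asymResc c d (N : ℂ)⁻¹ w‖ := by
    refine hδ2 ((N : ℂ)⁻¹, w) ⟨?_, hw⟩
    rw [mem_closedBall_zero_iff, norm_inv, Complex.norm_real, Real.norm_eq_abs, abs_of_pos hN0']
    exact inv_le_of_inv_le₀ hr hN2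
  calc δ = 1 * δ := (one_mul δ).symm
    _ ≤ N ^ d * ‖MV.asymResc c d (N : ℂ)⁻¹ w‖ :=
      mul_le_mul (one_le_pow₀ hN1) h1 hδ.le (by positivity)

theorem lower_bound {τ : Type} [Fintype τ] {k : ℕ} (ω : Fin k → ℝ)
    (P : MvPolynomial (Fin k) (MvPolynomial τ ℂ)) (μ : Fin k →₀ ℕ) (h : IsLow ω P μ) :
    ∃ ε : ℝ, 0 < ε ∧ ∀ D : Set (τ → ℂ), IsCompact D →
      (∀ z ∈ D, eval z (lead (P.coeff μ)) ≠ 0) → ∃ c : ℝ, 0 < c ∧ ∀ᶠ r : ℝ in atTop,
      ∀ z ∈ D, ∀ ς : Fin k → ℂ, (∀ j, ‖ς j + ω j‖ ≤ ε) →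
        c * ‖∏ j, Complex.exp (r * ς j) ^ μ j‖ ≤
          ‖evM (fun j => r * z j) (fun j => Complex.exp (r * ς j)) P‖ := by
  classical
  set P' := P - monomial μ (P.coeff μ) with hP'
  have hP's : StrictAbove ω P' μ := by
    intro ν hν
    rw [hP', coeff_sub, coeff_monomial] at hν
    by_cases hμν : μ = ν
    · subst hμν
      rw [if_pos rfl, sub_self] at hν
      exact absurd rfl hν
    · rw [if_neg hμν, sub_zero] at hν
      exact h.2 ν hν (Ne.symm hμν)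
  obtain ⟨ε, hε, δ, hδ, hsm⟩ := small_bound ω P' μ hP's
  refine ⟨ε, hε, fun D hD hlead => ?_⟩
  obtain ⟨c, hc, hlow⟩ := as_lower (P.coeff μ) hD hlead
  obtain ⟨R, hR⟩ := hD.isBounded.exists_norm_le
  have hlim : Tendsto (fun r : ℝ => Real.exp (-(δ * r))) atTop (𝓝 0) := by
    refine Real.tendsto_exp_neg_atTop_nhds_zero.comp ?_
    exact tendsto_id.const_mul_atTop hδ
  refine ⟨c / 2, by positivity, ?_⟩
  filter_upwards [hsm R, hlow, hlim.eventually_le_const (show (0 : ℝ) < c / 2 by positivity),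
    eventually_ge_atTop 0] with r h1 h2 h3 hr0 z hz ς hς
  set T := ‖∏ j, Complex.exp (r * ς j) ^ μ j‖ with hT
  have hT0 : 0 ≤ T := norm_nonneg _
  have hx : ‖fun j => (r : ℂ) * z j‖ ≤ R * r := by
    have h4 : ‖fun j => (r : ℂ) * z j‖ = r * ‖z‖ := by
      have : (fun j => (r : ℂ) * z j) = (r : ℂ) • z := rfl
      rw [this, norm_smul, Complex.norm_real, Real.norm_eq_abs, abs_of_nonneg hr0]
    rw [h4, mul_comm]
    exact mul_le_mul_of_nonneg_right (hR z hz) hr0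
  have h5 := h1 _ hx ς hς
  have h6 := h2 z hz
  have hev : evM (fun j => (r : ℂ) * z j) (fun j => Complex.exp (r * ς j)) P =
      eval (fun j => (r : ℂ) * z j) (P.coeff μ) * ∏ j, Complex.exp (r * ς j) ^ μ j +
        evM (fun j => (r : ℂ) * z j) (fun j => Complex.exp (r * ς j)) P' := by
    have e1 : P = monomial μ (P.coeff μ) + P' := by rw [hP']; ring
    conv_lhs => rw [e1]
    rw [map_add]
    congr 1
    unfold evM
    rw [coe_eval₂Hom, eval₂_monomial, Finsupp.prod_fintype _ _ (fun j => by simp)]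
    rfl
  rw [hev]
  have h7 := norm_sub_norm_le
    (eval (fun j => (r : ℂ) * z j) (P.coeff μ) * ∏ j, Complex.exp (r * ς j) ^ μ j)
    (-(evM (fun j => (r : ℂ) * z j) (fun j => Complex.exp (r * ς j)) P'))
  rw [norm_neg, sub_neg_eq_add, norm_mul, ← hT] at h7
  have h8 : c * T ≤ ‖eval (fun j => (r : ℂ) * z j) (P.coeff μ)‖ * T :=
    mul_le_mul_of_nonneg_right h6 hT0
  have h9 : Real.exp (-(δ * r)) * T ≤ c / 2 * T := mul_le_mul_of_nonneg_right h3 hT0
  linarith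

end Pool.Agent.Lib.MP_209724_lc.GC
end

section

/-!
The local chart of the cone.
-/

namespace Pool.Agent.Lib.MP_209724_lc.GC

open MvPolynomial Filter Topology Metric
open MV (lead)

/-- The linear map `prj Z` as a continuous linear map. -/
noncomputable def chartPrjL {n d : ℕ} (Z : Fin d → Fin n → ℂ) : (Fin n → ℂ) →L[ℂ] (Fin d → ℂ) :=
  ContinuousLinearMap.pi fun j => ∑ i, Z j i • (ContinuousLinearMap.proj i : (Fin n → ℂ) →L[ℂ] ℂ)

theorem chartPrjL_apply {n d : ℕ} (Z : Fin d → Fin n → ℂ) (x : Fin n → ℂ) :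
    chartPrjL Z x = prj Z x := by
  funext j
  simp [chartPrjL, prj]

/-- The derivative of the chart. -/
noncomputable def chartD {n d k : ℕ} (Z : Fin d → Fin n → ℂ) (F : Fin k → MvPolynomial (Fin n) ℂ)
    (x : Fin n → ℂ) : (Fin n → ℂ) →L[ℂ] (Fin d → ℂ) × (Fin k → ℂ) :=
  (chartPrjL Z).prod (ContinuousLinearMap.pi fun l =>
    ∑ i, eval x (pderiv i (F l)) • (ContinuousLinearMap.proj i : (Fin n → ℂ) →L[ℂ] ℂ))

theorem chartD_apply {n d k : ℕ} (Z : Fin d → Fin n → ℂ) (F : Fin k → MvPolynomial (Fin n) ℂ)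
    (x b : Fin n → ℂ) :
    chartD Z F x b = (prj Z b, fun l => ∑ i, b i * eval x (pderiv i (F l))) := by
  refine Prod.ext ?_ ?_
  · exact chartPrjL_apply Z b
  · funext l
    simp [chartD, mul_comm]

/-- The chart. -/
noncomputable def chartPhi {n d k : ℕ} (Z : Fin d → Fin n → ℂ)
    (F : Fin k → MvPolynomial (Fin n) ℂ) (x : Fin n → ℂ) : (Fin d → ℂ) × (Fin k → ℂ) :=
  (prj Z x, fun l => eval x (F l))

theorem chartPhi_hasFDerivAt {n d k : ℕ} (Z : Fin d → Fin n → ℂ)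
    (F : Fin k → MvPolynomial (Fin n) ℂ) (x : Fin n → ℂ) :
    HasFDerivAt (chartPhi Z F) (chartD Z F x) x := by
  refine HasFDerivAt.prodMk ?_ ?_
  · have h1 : prj Z = fun x => chartPrjL Z x := by
      funext x
      exact (chartPrjL_apply Z x).symm
    rw [h1]
    exact (chartPrjL Z).hasFDerivAt
  · rw [hasFDerivAt_pi]
    intro l
    exact MV.branch_hasFDerivAt_eval (F l) x

theorem chartPhi_contDiff {n d k : ℕ} (Z : Fin d → Fin n → ℂ)
    (F : Fin k → MvPolynomial (Fin n) ℂ) : ContDiff ℂ 1 (chartPhi Z F) := by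
  refine ContDiff.prodMk ?_ ?_
  · have h1 : prj Z = fun x => chartPrjL Z x := by
      funext x
      exact (chartPrjL_apply Z x).symm
    rw [h1]
    exact (chartPrjL Z).contDiff
  · rw [contDiff_pi]
    intro l
    exact MV.branch_contDiff_eval (F l)

theorem exists_chart {n d k : ℕ} (hdk : d + k = n) (S : Set (Fin n → ℂ)) (w : Fin n → ℂ)
    (hw : w ∈ S) (a : Fin n → Fin k → ℤ) (F : Fin k → MvPolynomial (Fin n) ℂ)
    (hFS : ∀ l, ∀ w' ∈ S, eval w' (F l) = 0)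
    (hF : ∀ β : Fin k → ℂ, (∀ l, ∑ i, (∑ j, (a i j : ℂ) * β j) * eval w (pderiv i (F l)) = 0) →
      β = 0)
    (Z : Fin d → Fin n → ℂ)
    (hZ : ∀ b : Fin n → ℂ, (∀ l, ∑ i, b i * eval w (pderiv i (F l)) = 0) → prj Z b = 0 → b = 0) :
    ∃ (H : (Fin d → ℂ) → Fin n → ℂ) (ρ₁ r₀ ρ : ℝ), 0 < ρ ∧ ρ ≤ ρ₁ ∧ 0 < r₀ ∧
      ContDiffOn ℂ 1 H (ball (prj Z w) ρ₁) ∧ H (prj Z w) = w ∧
      (∀ z ∈ ball (prj Z w) ρ₁, prj Z (H z) = z) ∧
      (∀ w' : Fin n → ℂ, ‖w' - w‖ ≤ r₀ → prj Z w' ∈ ball (prj Z w) ρ₁) ∧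
      (∀ w' ∈ S, ‖w' - w‖ ≤ r₀ → w' = H (prj Z w')) ∧
      (∀ z ∈ ball (prj Z w) ρ, ‖H z - w‖ < r₀ / 2) ∧
      ∀ z ∈ ball (prj Z w) ρ, ∀ (v : Fin d → ℂ) (β : Fin k → ℂ),
        (∀ i, fderiv ℂ H z v i = ∑ j, (a i j : ℂ) * β j) → v = 0 ∧ β = 0 := by
  classical
  -- the derivative at `w` is invertible
  have hinj : Function.Injective (chartD Z F w : (Fin n → ℂ) →ₗ[ℂ] (Fin d → ℂ) × (Fin k → ℂ)) := by
    rw [injective_iff_map_eq_zero]
    intro b hb
    have hb' : chartD Z F w b = 0 := hb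
    rw [chartD_apply] at hb'
    have h1 : prj Z b = 0 := congrArg Prod.fst hb'
    have h2 : (fun l => ∑ i, b i * eval w (pderiv i (F l))) = 0 := congrArg Prod.snd hb'
    exact hZ b (fun l => congrFun h2 l) h1
  have hdim : Module.finrank ℂ (Fin n → ℂ) = Module.finrank ℂ ((Fin d → ℂ) × (Fin k → ℂ)) := by
    rw [Module.finrank_prod, Module.finrank_fin_fun, Module.finrank_fin_fun,
      Module.finrank_fin_fun, hdk]
  let f' : (Fin n → ℂ) ≃L[ℂ] (Fin d → ℂ) × (Fin k → ℂ) :=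
    (LinearMap.linearEquivOfInjective (chartD Z F w : (Fin n → ℂ) →ₗ[ℂ] (Fin d → ℂ) × (Fin k → ℂ))
      hinj hdim).toContinuousLinearEquiv
  have hf' : (f' : (Fin n → ℂ) →L[ℂ] (Fin d → ℂ) × (Fin k → ℂ)) = chartD Z F w := by
    ext1 b
    rfl
  have hder : HasFDerivAt (chartPhi Z F)
      (f' : (Fin n → ℂ) →L[ℂ] (Fin d → ℂ) × (Fin k → ℂ)) w := by
    rw [hf']
    exact chartPhi_hasFDerivAt Z F w
  have hcd : ContDiffAt ℂ 1 (chartPhi Z F) w := (chartPhi_contDiff Z F).contDiffAt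
  let P := hcd.toOpenPartialHomeomorph (chartPhi Z F) hder one_ne_zero
  have hPcoe : ∀ x, P x = chartPhi Z F x := fun x => rfl
  have hwS : w ∈ P.source := hcd.mem_toOpenPartialHomeomorph_source hder one_ne_zero
  have hwT : chartPhi Z F w ∈ P.target :=
    hcd.image_mem_toOpenPartialHomeomorph_target hder one_ne_zero
  have hΨ : ContDiffAt ℂ 1 P.symm (chartPhi Z F w) := hcd.to_localInverse hder one_ne_zero
  have hΨev : ∀ᶠ y in 𝓝 (chartPhi Z F w), ContDiffAt ℂ 1 P.symm y := hΨ.eventually (by simp)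
  have hΦw : chartPhi Z F w = (prj Z w, 0) := by
    refine Prod.ext rfl ?_
    funext l
    exact hFS l w hw
  -- the slice
  let ι : (Fin d → ℂ) → (Fin d → ℂ) × (Fin k → ℂ) := fun z => (z, 0)
  have hιc : Continuous ι := by fun_prop
  have hιd : ContDiff ℂ 1 ι := contDiff_id.prodMk contDiff_const
  have hN : ∀ᶠ z in 𝓝 (prj Z w), ι z ∈ P.target ∧ ContDiffAt ℂ 1 P.symm (ι z) := by
    have h1 : Tendsto ι (𝓝 (prj Z w)) (𝓝 (chartPhi Z F w)) := by
      rw [hΦw]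
      exact hιc.tendsto _
    exact h1.eventually ((P.open_target.eventually_mem hwT).and hΨev)
  obtain ⟨ρ₁, hρ₁, hball⟩ := Metric.mem_nhds_iff.mp hN
  let H : (Fin d → ℂ) → Fin n → ℂ := fun z => P.symm (ι z)
  have hHd : ∀ z ∈ ball (prj Z w) ρ₁, ContDiffAt ℂ 1 H z := by
    intro z hz
    exact (hball hz).2.comp z hιd.contDiffAt
  have hHw : H (prj Z w) = w := by
    have h1 : H (prj Z w) = P.symm (P w) := by
      rw [hPcoe, hΦw]
    rw [h1, P.left_inv hwS]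
  have hΦH : ∀ z ∈ ball (prj Z w) ρ₁, chartPhi Z F (H z) = ι z := by
    intro z hz
    rw [← hPcoe]
    exact P.right_inv (hball hz).1
  -- the radius r₀
  have hr : ∀ᶠ w' in 𝓝 w, w' ∈ P.source ∧ prj Z w' ∈ ball (prj Z w) ρ₁ :=
    (P.open_source.eventually_mem hwS).and
      ((continuous_prj Z).continuousAt.eventually (isOpen_ball.eventually_mem (mem_ball_self hρ₁)))
  obtain ⟨r₀, hr₀, hr₀b⟩ := Metric.nhds_basis_closedBall.mem_iff.mp hr
  have hmemr : ∀ w' : Fin n → ℂ, ‖w' - w‖ ≤ r₀ → w' ∈ closedBall w r₀ := by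
    intro w' h
    rw [mem_closedBall, dist_eq_norm]
    exact h
  -- the matrix
  let M : (Fin n → ℂ) → Matrix (Fin k) (Fin k) ℂ := fun x =>
    Matrix.of fun l j => ∑ i, (a i j : ℂ) * eval x (pderiv i (F l))
  have hMv : ∀ (x : Fin n → ℂ) (β : Fin k → ℂ) (l : Fin k), (M x).mulVec β l =
      ∑ i, (∑ j, (a i j : ℂ) * β j) * eval x (pderiv i (F l)) := by
    intro x β l
    simp only [M, Matrix.mulVec, dotProduct, Matrix.of_apply, Finset.sum_mul]
    rw [Finset.sum_comm]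
    refine Finset.sum_congr rfl fun i _ => Finset.sum_congr rfl fun j _ => ?_
    ring
  have hMc : Continuous fun x => (M x).det := by
    refine Continuous.matrix_det ?_
    refine continuous_matrix fun l j => ?_
    simp only [M, Matrix.of_apply]
    refine continuous_finsetSum _ fun i _ => continuous_const.mul ?_
    exact MvPolynomial.continuous_eval _
  have hMw : (M w).det ≠ 0 := by
    intro h0
    obtain ⟨β, hβ, hβ0⟩ := Matrix.exists_mulVec_eq_zero_iff.mpr h0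
    refine hβ (hF β fun l => ?_)
    rw [← hMv w β l, hβ0]
    rfl
  have hHc : ContinuousAt H (prj Z w) := (hHd _ (mem_ball_self hρ₁)).continuousAt
  have hρev : ∀ᶠ z in 𝓝 (prj Z w), ‖H z - w‖ < r₀ / 2 ∧ (M (H z)).det ≠ 0 := by
    refine Eventually.and ?_ ?_
    · have h1 : ∀ᶠ y in 𝓝 (H (prj Z w)), ‖y - w‖ < r₀ / 2 := by
        rw [hHw]
        have := ball_mem_nhds w (half_pos hr₀)
        filter_upwards [this] with y hy
        rwa [mem_ball, dist_eq_norm] at hy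
      exact hHc.eventually h1
    · have h1 : ∀ᶠ y in 𝓝 (H (prj Z w)), (M y).det ≠ 0 := by
        rw [hHw]
        exact hMc.continuousAt.eventually_ne hMw
      exact hHc.eventually h1
  obtain ⟨ρ₂, hρ₂, hρ₂b⟩ := Metric.mem_nhds_iff.mp hρev
  refine ⟨H, ρ₁, r₀, min ρ₁ ρ₂, lt_min hρ₁ hρ₂, min_le_left _ _, hr₀, ?_, hHw, ?_, ?_, ?_, ?_, ?_⟩
  · intro z hz
    exact (hHd z hz).contDiffWithinAt
  · intro z hz
    exact congrArg Prod.fst (hΦH z hz)
  · intro w' hw'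
    exact (hr₀b (hmemr w' hw')).2
  · intro w' hw'S hw'
    have h1 : w' ∈ P.source := (hr₀b (hmemr w' hw')).1
    have h2 : chartPhi Z F w' = ι (prj Z w') := by
      refine Prod.ext rfl ?_
      funext l
      exact hFS l w' hw'S
    change w' = P.symm (ι (prj Z w'))
    rw [← h2, ← hPcoe, P.left_inv h1]
  · intro z hz
    exact (hρ₂b (ball_subset_ball (min_le_right _ _) hz)).1
  · intro z hz v β hvβ
    have hz1 : z ∈ ball (prj Z w) ρ₁ := ball_subset_ball (min_le_left _ _) hz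
    have hdet : (M (H z)).det ≠ 0 := (hρ₂b (ball_subset_ball (min_le_right _ _) hz)).2
    have hHz : HasFDerivAt H (fderiv ℂ H z) z :=
      ((hHd z hz1).differentiableAt one_ne_zero).hasFDerivAt
    have hcomp : HasFDerivAt (fun z' => chartPhi Z F (H z'))
        ((chartD Z F (H z)).comp (fderiv ℂ H z)) z :=
      (chartPhi_hasFDerivAt Z F (H z)).comp z hHz
    have hιder : HasFDerivAt ι (ContinuousLinearMap.inl ℂ (Fin d → ℂ) (Fin k → ℂ)) z :=
      (ContinuousLinearMap.inl ℂ (Fin d → ℂ) (Fin k → ℂ)).hasFDerivAt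
    have hcongr : (fun z' => chartPhi Z F (H z')) =ᶠ[𝓝 z] ι := by
      filter_upwards [isOpen_ball.mem_nhds hz1] with z' hz'
      exact hΦH z' hz'
    have heq := (hcomp.congr_of_eventuallyEq hcongr.symm).unique hιder
    have happ : chartD Z F (H z) (fderiv ℂ H z v) = (v, 0) := by
      have := congrArg (fun L => L v) heq
      simpa using this
    rw [chartD_apply] at happ
    have h1 : prj Z (fderiv ℂ H z v) = v := congrArg Prod.fst happ
    have h2 : (fun l => ∑ i, (fderiv ℂ H z v) i * eval (H z) (pderiv i (F l))) = 0 :=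
      congrArg Prod.snd happ
    have hβ : β = 0 := by
      by_contra hne
      refine hdet (Matrix.exists_mulVec_eq_zero_iff.mp ⟨β, hne, ?_⟩)
      funext l
      rw [hMv]
      have h3 := congrFun h2 l
      simp only [hvβ] at h3
      exact h3
    refine ⟨?_, hβ⟩
    have hb : fderiv ℂ H z v = 0 := by
      funext i
      rw [hvβ i, hβ]
      simp
    rw [← h1, hb]
    funext j
    simp [prj]

end Pool.Agent.Lib.MP_209724_lc.GC
end

section

/-!
Density of generic homomorphisms (GC-6).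
-/

namespace Pool.Agent.Lib.MP_209724_lc.GC

open MvPolynomial Filter Topology

namespace NearAux

/-- A root of small absolute value. -/
theorem exists_root (p : Polynomial ℂ) (hp : p.Monic) (hd : 0 < p.natDegree) :
    ∃ r : ℂ, p.eval r = 0 ∧ ‖r‖ ^ p.natDegree ≤ ‖p.eval 0‖ := by
  by_contra hcon
  push Not at hcon
  have hs : p.Splits := IsAlgClosed.splits p
  have hp0 : p ≠ 0 := hp.ne_zero
  have hcard : p.roots.card = p.natDegree := hs.natDegree_eq_card_roots.symm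
  -- the root of least absolute value
  have hne : p.roots.toFinset.Nonempty := by
    rw [Multiset.toFinset_nonempty]
    intro h0
    rw [h0, Multiset.card_zero] at hcard
    omega
  obtain ⟨r, hr, hmin⟩ := Finset.exists_min_image p.roots.toFinset (fun r => ‖r‖) hne
  rw [Multiset.mem_toFinset] at hr
  have h3 : ∀ s : Multiset ℂ, (∀ x ∈ s, ‖r‖ ≤ ‖0 - x‖) →
      ‖r‖ ^ s.card ≤ ‖(s.map fun x => 0 - x).prod‖ := by
    intro s
    induction s using Multiset.induction with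
    | empty => intro _; simp
    | cons a s ih =>
      intro h
      rw [Multiset.card_cons, Multiset.map_cons, Multiset.prod_cons, norm_mul, pow_succ, mul_comm]
      have := ih fun x hx => h x (Multiset.mem_cons_of_mem hx)
      have h' := h a (Multiset.mem_cons_self a s)
      gcongr
  have h4 := h3 p.roots (fun x hx => by
    rw [zero_sub, norm_neg]
    exact hmin x (Multiset.mem_toFinset.2 hx))
  have h5 : p.eval 0 = p.leadingCoeff * (p.roots.map fun x => 0 - x).prod :=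
    hs.eval_eq_prod_roots 0
  rw [hp.leadingCoeff, one_mul] at h5
  rw [← h5, hcard] at h4
  have := hcon r ((Polynomial.mem_roots hp0).1 hr)
  linarith

/-- A bound for the roots of a monic polynomial. -/
theorem root_bound (p : Polynomial ℂ) (hp : p.Monic) (z : ℂ) (hz : p.eval z = 0) :
    ‖z‖ ≤ 1 + ∑ i ∈ Finset.range p.natDegree, ‖p.coeff i‖ := by
  by_cases h1 : ‖z‖ ≤ 1
  · exact h1.trans (le_add_of_nonneg_right (Finset.sum_nonneg fun i _ => norm_nonneg _))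
  · push Not at h1
    rw [Polynomial.eval_eq_sum_range, Finset.sum_range_succ, hp.coeff_natDegree, one_mul] at hz
    have hN : p.natDegree ≠ 0 := by
      intro h0
      rw [h0] at hz
      simp at hz
    obtain ⟨N, hN'⟩ : ∃ N, p.natDegree = N + 1 := Nat.exists_eq_succ_of_ne_zero hN
    rw [hN'] at hz ⊢
    have h2 : z ^ (N + 1) = -∑ i ∈ Finset.range (N + 1), p.coeff i * z ^ i := by
      linear_combination hz
    have h3 : ‖z‖ ^ (N + 1) ≤ (∑ i ∈ Finset.range (N + 1), ‖p.coeff i‖) * ‖z‖ ^ N := by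
      rw [← norm_pow, h2, norm_neg, Finset.sum_mul]
      refine (norm_sum_le _ _).trans (Finset.sum_le_sum fun i hi => ?_)
      rw [norm_mul, norm_pow]
      gcongr
      · exact h1.le
      · have := Finset.mem_range.1 hi
        omega
    rw [pow_succ, mul_comm] at h3
    have h4 := le_of_mul_le_mul_right h3 (by positivity)
    linarith

/-- The non-zero set of a polynomial is dense. -/
theorem dense_ne {s : ℕ} (q : MvPolynomial (Fin s) ℂ) (hq : q ≠ 0) (y₀ : Fin s → ℂ) :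
    (𝓝[{y | eval y q ≠ 0}] y₀).NeBot := by
  rw [← mem_closure_iff_nhdsWithin_neBot]
  obtain ⟨w, hw⟩ : ∃ w, eval w q ≠ 0 := by
    by_contra h
    push Not at h
    exact hq (MvPolynomial.funext fun x => by rw [h x, map_zero])
  let p : Polynomial ℂ := aeval (fun j => Polynomial.C (y₀ j) +
    Polynomial.C (w j - y₀ j) * Polynomial.X) q
  have hp : ∀ x : ℂ, p.eval x = eval (fun j => y₀ j + (w j - y₀ j) * x) q := by
    intro x
    have h1 : ((Polynomial.aeval x : Polynomial ℂ →ₐ[ℂ] ℂ)).comp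
        (aeval (fun j => Polynomial.C (y₀ j) +
          Polynomial.C (w j - y₀ j) * Polynomial.X) : MvPolynomial (Fin s) ℂ →ₐ[ℂ] _) =
        aeval (fun j => y₀ j + (w j - y₀ j) * x) := by
      ext j
      simp
    have h2 := congrArg (fun f => f q) h1
    simp only [AlgHom.comp_apply, Polynomial.coe_aeval_eq_eval, aeval_eq_eval] at h2
    exact h2
  have hp0 : p ≠ 0 := by
    intro h0
    apply hw
    have := hp 1
    rw [h0, Polynomial.eval_zero] at this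
    rw [this]
    congr 2
    funext j
    ring
  have h1 : Tendsto (fun x : ℂ => fun j => y₀ j + (w j - y₀ j) * x) (𝓝[≠] 0) (𝓝 y₀) := by
    have : Tendsto (fun x : ℂ => fun j => y₀ j + (w j - y₀ j) * x) (𝓝 0)
        (𝓝 fun j => y₀ j + (w j - y₀ j) * 0) := by
      apply Continuous.tendsto
      fun_prop
    simp only [mul_zero, add_zero] at this
    exact this.mono_left nhdsWithin_le_nhds
  refine mem_closure_of_tendsto (s := {y | eval y q ≠ 0}) h1 ?_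
  have h2 : ∀ᶠ x : ℂ in 𝓝[≠] 0, x ∉ p.roots.toFinset.erase 0 := by
    have : IsOpen ((↑(p.roots.toFinset.erase 0) : Set ℂ)ᶜ) :=
      (Finset.finite_toSet _).isClosed.isOpen_compl
    exact mem_nhdsWithin_of_mem_nhds (this.mem_nhds (by simp))
  filter_upwards [h2, self_mem_nhdsWithin] with x hx hx0
  rw [← hp]
  intro h0
  apply hx
  rw [Finset.mem_erase, Multiset.mem_toFinset, Polynomial.mem_roots hp0]
  exact ⟨hx0, h0⟩

/-- The fibres of a finite map are finite. -/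
theorem finite_fibre {A : Type*} [CommRing A] [Algebra ℂ A] [Algebra.FiniteType ℂ A] {s : ℕ}
    (g : MvPolynomial (Fin s) ℂ →ₐ[ℂ] A) (hg : g.IsIntegral) (y₀ : Fin s → ℂ) :
    {ψ : A →ₐ[ℂ] ℂ | ∀ p, ψ (g p) = eval y₀ p}.Finite := by
  classical
  obtain ⟨S, hS⟩ := Algebra.FiniteType.out (R := ℂ) (A := A)
  choose P hPm hP0 using hg
  let Φ : (A →ₐ[ℂ] ℂ) → (S → ℂ) := fun ψ a => ψ a
  have hinj : Function.Injective Φ := by
    intro ψ₁ ψ₂ h
    apply AlgHom.ext_of_adjoin_eq_top hS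
    intro a ha
    exact congrFun h ⟨a, ha⟩
  refine Set.Finite.of_finite_image (f := Φ) ?_ hinj.injOn
  refine (Set.Finite.pi' fun a : S =>
    Finset.finite_toSet ((P a).map (eval y₀)).roots.toFinset).subset ?_
  rintro _ ⟨ψ, hψ, rfl⟩ a
  rw [Finset.mem_coe, Multiset.mem_toFinset, Polynomial.mem_roots ((hPm a).map _).ne_zero]
  change Polynomial.eval (ψ a) _ = 0
  rw [Polynomial.eval_map]
  have h1 := congrArg ψ (hP0 a)
  rw [map_zero] at h1
  rw [← h1]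
  have h2 : (ψ : A →+* ℂ).comp (g : MvPolynomial (Fin s) ℂ →+* A) = eval y₀ :=
    RingHom.ext fun p => hψ p
  rw [← h2]
  exact (Polynomial.hom_eval₂ _ _ _ _).symm

/-- A function separating `φ` from the other points of a finite set. -/
theorem exists_sep {A : Type*} [CommRing A] [Algebra ℂ A] (φ : A →ₐ[ℂ] ℂ)
    (T : Set (A →ₐ[ℂ] ℂ)) (hT : T.Finite) :
    ∃ f : A, φ f = 0 ∧ ∀ ψ ∈ T, ψ f = 0 → ψ = φ := by
  classical
  by_contra hcon
  push Not at hcon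
  have h1 : ((RingHom.ker φ : Ideal A) : Set A) ⊆ ⋃ i ∈ (↑(hT.toFinset.erase φ) :
      Set (A →ₐ[ℂ] ℂ)), ((RingHom.ker i : Ideal A) : Set A) := by
    intro f hf
    obtain ⟨ψ, hψT, hψ0, hne⟩ := hcon f hf
    rw [Set.mem_iUnion₂]
    refine ⟨ψ, ?_, hψ0⟩
    rw [Finset.mem_coe, Finset.mem_erase, Set.Finite.mem_toFinset]
    exact ⟨hne, hψT⟩
  rw [Ideal.subset_union_prime φ φ (fun i _ _ _ => RingHom.ker_isPrime _)] at h1
  obtain ⟨ψ, hψ, hle⟩ := h1
  rw [Finset.mem_erase] at hψ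
  apply hψ.1
  ext x
  have h2 : x - algebraMap ℂ A (φ x) ∈ (RingHom.ker φ : Ideal A) := by
    rw [RingHom.mem_ker, map_sub, AlgHom.commutes]
    simp
  have h3 := hle h2
  rw [RingHom.mem_ker, map_sub, AlgHom.commutes, sub_eq_zero] at h3
  simpa using h3

theorem exists_dvd {R A : Type*} [CommRing R] [Nontrivial R] [CommRing A] [IsDomain A]
    (g : R →+* A) (c : A) (hc : c ≠ 0) (hint : g.IsIntegralElem c) : ∃ β : R, β ≠ 0 ∧ c ∣ g β := by
  let := g.toAlgebra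
  have h1 : IsIntegral R c := hint
  exact h1.isAlgebraic.exists_nonzero_dvd (mem_nonZeroDivisors_of_ne_zero hc)

end NearAux

open NearAux in
theorem exists_near {L : Type} [Field L] [Algebra ℂ L] (A : Subalgebra ℂ L) (hA : A.FG)
    (φ : A →ₐ[ℂ] ℂ) (c : A) (hc : c ≠ 0) (s : Finset A) {ε : ℝ} (hε : 0 < ε) :
    ∃ φ' : A →ₐ[ℂ] ℂ, φ' c ≠ 0 ∧ ∀ x ∈ s, ‖φ' x - φ x‖ < ε := by
  classical
  have hft : Algebra.FiniteType ℂ A := A.fg_iff_finiteType.1 hA
  obtain ⟨d, g, hginj, hgint⟩ := exists_integral_inj_algHom_of_fg ℂ A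
  set y₀ : Fin d → ℂ := fun j => φ (g (X j)) with hy₀
  have hφg : ∀ p, φ (g p) = eval y₀ p := by
    intro p
    have h1 : φ.comp g = aeval y₀ := by
      ext j
      simp [hy₀]
    have h2 := congrArg (fun f => f p) h1
    simp only [AlgHom.comp_apply, aeval_eq_eval] at h2
    exact h2
  obtain ⟨f, hf0, hfsep⟩ := exists_sep φ _ (finite_fibre g hgint y₀)
  -- the subalgebra of `L`
  let gL : MvPolynomial (Fin d) ℂ →ₐ[ℂ] L := A.val.comp g
  have hgL : Function.Injective gL := Subtype.val_injective.comp hginj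
  let B : Subalgebra ℂ L := gL.range
  let e : MvPolynomial (Fin d) ℂ ≃ₐ[ℂ] B := AlgEquiv.ofInjective gL hgL
  have he : ∀ p, ((e p : B) : L) = g p := fun p => rfl
  have hBA : B ≤ A := by
    rintro _ ⟨p, rfl⟩
    exact (g p).2
  have hincl : ∀ p, Subalgebra.inclusion hBA (e p) = g p := fun p => Subtype.ext rfl
  have halg : ∀ x ∈ A, IsIntegral B x := by
    intro x hx
    obtain ⟨P, hP, hP0⟩ := hgint ⟨x, hx⟩
    refine ⟨P.map (e : MvPolynomial (Fin d) ℂ →+* B), hP.map _, ?_⟩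
    rw [Polynomial.eval₂_map]
    have h1 : (A.val : A →+* L) (Polynomial.eval₂ (g : MvPolynomial (Fin d) ℂ →+* A)
        (⟨x, hx⟩ : A) P) = 0 :=
      (congrArg A.val hP0).trans (map_zero _)
    rw [Polynomial.hom_eval₂] at h1
    exact h1
  have hcl : IsIntegrallyClosed B := IsIntegrallyClosed.of_equiv e.toRingEquiv
  obtain ⟨b, hb, hext⟩ :=
    MV.exists_ext B A hBA hA (fun x hx => (halg x hx).isAlgebraic) f f.2
  obtain ⟨β, hβ, hdvd⟩ := exists_dvd (g : MvPolynomial (Fin d) ℂ →+* A) c hc (hgint c)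
  set q := e.symm b * β with hq
  have hq0 : q ≠ 0 := mul_ne_zero (by
    rw [Ne, EmbeddingLike.map_eq_zero_iff]
    exact hb) hβ
  have hf := halg f f.2
  set G := minpoly B (f : L) with hG
  have hGm : G.Monic := minpoly.monic hf
  have hGd : 0 < G.natDegree := minpoly.natDegree_pos hf
  -- the extensions
  have hψ : ∀ y : Fin d → ℂ, ∃ ψ : A →ₐ[ℂ] ℂ, eval y q ≠ 0 →
      (∀ p, ψ (g p) = eval y p) ∧ ψ c ≠ 0 ∧
        ‖ψ f‖ ^ G.natDegree ≤ ‖eval y (e.symm (G.coeff 0))‖ := by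
    intro y
    by_cases hy : eval y q = 0
    · exact ⟨φ, fun h => absurd hy h⟩
    rw [hq, map_mul] at hy
    let χ : B →ₐ[ℂ] ℂ := (aeval y : MvPolynomial (Fin d) ℂ →ₐ[ℂ] ℂ).comp e.symm.toAlgHom
    have hχ : ∀ x, χ x = eval y (e.symm x) := by
      intro x
      change aeval y (e.symm x) = _
      rw [aeval_eq_eval]
    have hχb : χ b ≠ 0 := by
      rw [hχ]
      exact left_ne_zero_of_mul hy
    obtain ⟨r, hr0, hr⟩ := exists_root (G.map (χ : B →+* ℂ)) (hGm.map _) (by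
      rw [hGm.natDegree_map]
      exact hGd)
    rw [hGm.natDegree_map, ← Polynomial.coeff_zero_eq_eval_zero, Polynomial.coeff_map] at hr
    obtain ⟨ψ, hψB, hψf⟩ := hext χ hχb r (by
      intro h hh
      obtain ⟨h', rfl⟩ := minpoly.isIntegrallyClosed_dvd hf hh
      rw [Polynomial.map_mul, Polynomial.eval_mul, hr0, zero_mul])
    have hψg : ∀ p, ψ (g p) = eval y p := by
      intro p
      rw [← hincl, hψB, hχ, AlgEquiv.symm_apply_apply]
    refine ⟨ψ, fun _ => ⟨hψg, ?_, ?_⟩⟩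
    · intro h0
      obtain ⟨c', hc'⟩ := hdvd
      have h1 := congrArg ψ hc'
      rw [map_mul, h0, zero_mul] at h1
      exact right_ne_zero_of_mul hy ((hψg β).symm.trans h1)
    · have h1 : ψ f = r := hψf
      rw [h1]
      have h2 : (χ : B →+* ℂ) (G.coeff 0) = eval y (e.symm (G.coeff 0)) := hχ _
      rw [← h2]
      exact hr
  choose ψ hψ using hψ
  have hNB := dense_ne q hq0 y₀
  let 𝒰 : Ultrafilter (Fin d → ℂ) := Ultrafilter.of (𝓝[{y | eval y q ≠ 0}] y₀)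
  have h𝒰 : (𝒰 : Filter (Fin d → ℂ)) ≤ 𝓝[{y | eval y q ≠ 0}] y₀ := Ultrafilter.of_le _
  have h𝒰n : (𝒰 : Filter (Fin d → ℂ)) ≤ 𝓝 y₀ := h𝒰.trans nhdsWithin_le_nhds
  have h𝒰q : ∀ᶠ y in (𝒰 : Filter (Fin d → ℂ)), eval y q ≠ 0 := h𝒰 self_mem_nhdsWithin
  have hcont : ∀ p : MvPolynomial (Fin d) ℂ,
      Tendsto (fun y => eval y p) (𝒰 : Filter (Fin d → ℂ)) (𝓝 (eval y₀ p)) := fun p =>
    ((MvPolynomial.continuous_eval p).tendsto y₀).mono_left h𝒰n
  -- limits along the ultrafilter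
  have hlim : ∀ x : A, ∃ z : ℂ, Tendsto (fun y => ψ y x) (𝒰 : Filter (Fin d → ℂ)) (𝓝 z) := by
    intro x
    obtain ⟨P, hP, hP0⟩ := hgint x
    have hb : ∀ᶠ y in (𝒰 : Filter (Fin d → ℂ)), ψ y x ∈ Metric.closedBall (0 : ℂ)
        (1 + ∑ i ∈ Finset.range P.natDegree, (‖eval y₀ (P.coeff i)‖ + 1)) := by
      have h1 : ∀ᶠ y in (𝒰 : Filter (Fin d → ℂ)), ∀ i ∈ Finset.range P.natDegree,
          ‖eval y (P.coeff i)‖ < ‖eval y₀ (P.coeff i)‖ + 1 := by
        rw [Filter.eventually_all_finset]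
        intro i _
        exact (hcont _).norm.eventually_lt_const (lt_add_one _)
      filter_upwards [h1, h𝒰q] with y h1 hy
      rw [mem_closedBall_zero_iff]
      have h2 := root_bound (P.map (eval y)) (hP.map _) (ψ y x) (by
        rw [Polynomial.eval_map]
        have h3 := congrArg (ψ y) hP0
        rw [map_zero] at h3
        rw [← h3]
        have h4 : (ψ y : A →+* ℂ).comp (g : MvPolynomial (Fin d) ℂ →+* A) = eval y :=
          RingHom.ext fun p => (hψ y hy).1 p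
        rw [← h4]
        exact (Polynomial.hom_eval₂ _ _ _ _).symm)
      refine h2.trans ?_
      rw [hP.natDegree_map]
      gcongr with i hi
      rw [Polynomial.coeff_map]
      exact (h1 i hi).le
    obtain ⟨z, _, hz⟩ := (isCompact_closedBall (0 : ℂ) _).ultrafilter_le_nhds
      (𝒰.map fun y => ψ y x) (le_principal_iff.2 hb)
    exact ⟨z, hz⟩
  choose Ψ hΨ using hlim
  let Ψh : A →ₐ[ℂ] ℂ :=
    { toFun := Ψ
      map_one' := tendsto_nhds_unique (hΨ 1) (by simp)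
      map_mul' := fun x y => tendsto_nhds_unique (hΨ (x * y)) (by
        simpa using (hΨ x).mul (hΨ y))
      map_zero' := tendsto_nhds_unique (hΨ 0) (by simp)
      map_add' := fun x y => tendsto_nhds_unique (hΨ (x + y)) (by
        simpa using (hΨ x).add (hΨ y))
      commutes' := fun r => tendsto_nhds_unique (hΨ _) (by simp) }
  have hΨφ : Ψh = φ := by
    refine hfsep Ψh (fun p => ?_) ?_
    · exact tendsto_nhds_unique (hΨ (g p))
        ((hcont p).congr' (h𝒰q.mono fun y hy => ((hψ y hy).1 p).symm))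
    · have h1 : Tendsto (fun y => ‖ψ y f‖ ^ G.natDegree) (𝒰 : Filter (Fin d → ℂ)) (𝓝 0) := by
        have h2 := (hcont (e.symm (G.coeff 0))).norm
        have h3 : eval y₀ (e.symm (G.coeff 0)) = 0 := by
          have h5 : Polynomial.eval₂ (Subalgebra.inclusion hBA : B →+* A) f G = 0 := by
            apply Subtype.ext
            have h6 : A.val (Polynomial.eval₂ (Subalgebra.inclusion hBA : B →+* A) f G) =
                Polynomial.eval₂ ((A.val : A →+* L).comp (Subalgebra.inclusion hBA : B →+* A))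
                  (f : L) G := Polynomial.hom_eval₂ _ _ (A.val : A →+* L) _
            change A.val (Polynomial.eval₂ (Subalgebra.inclusion hBA : B →+* A) f G) = 0
            rw [h6]
            exact minpoly.aeval B (f : L)
          have h7 := (congrArg (φ : A →+* ℂ) h5).trans (map_zero _)
          rw [Polynomial.hom_eval₂] at h7
          have h8 : (φ : A →+* ℂ) f = 0 := hf0
          rw [h8, Polynomial.eval₂_at_zero] at h7
          rw [← h7, ← hφg, ← hincl, AlgEquiv.apply_symm_apply]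
          rfl
        rw [h3, norm_zero] at h2
        refine tendsto_of_tendsto_of_tendsto_of_le_of_le' tendsto_const_nhds h2
          (Eventually.of_forall fun y => by positivity) (h𝒰q.mono fun y hy => (hψ y hy).2.2)
      have h4 := tendsto_nhds_unique ((hΨ f).norm.pow G.natDegree) h1
      exact norm_eq_zero.1 (pow_eq_zero_iff hGd.ne' |>.1 h4)
  have hfin : ∀ᶠ y in (𝒰 : Filter (Fin d → ℂ)), ∀ x ∈ s, ‖ψ y x - φ x‖ < ε := by
    rw [Filter.eventually_all_finset]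
    intro x _
    have h1 : Tendsto (fun y => ψ y x) (𝒰 : Filter (Fin d → ℂ)) (𝓝 (φ x)) := by
      rw [← hΨφ]
      exact hΨ x
    have h2 := (h1.sub_const (φ x)).norm
    rw [sub_self, norm_zero] at h2
    exact h2.eventually_lt_const hε
  obtain ⟨y, hy, hys⟩ := (h𝒰q.and hfin).exists
  exact ⟨ψ y, (hψ y hy).2.1, hys⟩

end Pool.Agent.Lib.MP_209724_lc.GC
end

section

/-!
Solving the exponential equations near a nondegenerate zero of the limit system.
-/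

namespace Pool.Agent.Lib.MP_209724_lc.MV

open Filter Topology Metric Set

private lemma sol_adjust (z : ℂ) :
    ∃ c : ℤ, |(z + c * (2 * Real.pi * Complex.I)).im| ≤ Real.pi := by
  refine ⟨-round (z.im / (2 * Real.pi)), ?_⟩
  have h1 := abs_sub_round (z.im / (2 * Real.pi))
  have hpi := Real.pi_pos
  have h2 : (z + ((-round (z.im / (2 * Real.pi)) : ℤ) : ℂ) * (2 * Real.pi * Complex.I)).im =
      (2 * Real.pi) * (z.im / (2 * Real.pi) - round (z.im / (2 * Real.pi))) := by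
    have h3 : (((-round (z.im / (2 * Real.pi)) : ℤ) : ℂ) * (2 * Real.pi * Complex.I)).im =
        -(round (z.im / (2 * Real.pi)) : ℝ) * (2 * Real.pi) := by
      have : ((-round (z.im / (2 * Real.pi)) : ℤ) : ℂ) * (2 * Real.pi * Complex.I) =
          ((-(round (z.im / (2 * Real.pi)) : ℝ) * (2 * Real.pi) : ℝ) : ℂ) * Complex.I := by
        push_cast
        ring
      rw [this, Complex.im_ofReal_mul, Complex.I_im, mul_one]
    rw [Complex.add_im, h3]
    field_simp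
    ring
  rw [h2, abs_mul, abs_of_pos (by positivity)]
  nlinarith

private lemma sol_log {P : Type} [NormedAddCommGroup P] [NormedSpace ℂ P] {p₀ : P} {ρ : ℝ}
    {f : P → ℂ} (hf : DifferentiableOn ℂ f (ball p₀ ρ))
    (hf0 : ∀ p ∈ ball p₀ ρ, f p ≠ 0) (b : ℂ) :
    ∃ L : P → ℂ, DifferentiableOn ℂ L (ball p₀ ρ) ∧ (∀ p ∈ ball p₀ ρ, Complex.exp (L p) = f p) ∧
      |(L p₀ - b).im| ≤ Real.pi := by
  obtain ⟨g, hg1, hg2⟩ := exists_log isOpen_ball (convex_ball p₀ ρ) hf hf0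
  obtain ⟨c, hc⟩ := sol_adjust (g p₀ - b)
  refine ⟨fun p => g p + c * (2 * Real.pi * Complex.I), hg1.add_const _, ?_, ?_⟩
  · intro p hp
    rw [Complex.exp_add, Complex.exp_int_mul_two_pi_mul_I, mul_one, hg2 p hp]
  · have : g p₀ + c * (2 * Real.pi * Complex.I) - b = g p₀ - b + c * (2 * Real.pi * Complex.I) := by
      ring
    rw [this]
    exact hc

private lemma sol_glue_differentiable {n : ℕ} (l : Fin n) {P : Type} [NormedAddCommGroup P]
    [NormedSpace ℂ P] {D : Set P} {v : P → ({j : Fin n // j ≠ l} → ℂ)} {x : P → ℂ}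
    (hv : DifferentiableOn ℂ v D) (hx : DifferentiableOn ℂ x D) :
    DifferentiableOn ℂ (fun p => glue l (v p) (x p)) D := by
  rw [differentiableOn_pi]
  intro i
  by_cases hi : i = l
  · subst hi
    simp only [glue_self]
    exact hx
  · have h1 : ∀ p, glue l (v p) (x p) i = v p ⟨i, hi⟩ := fun p => glue_of_ne l (v p) (x p) ⟨i, hi⟩
    simp only [h1]
    exact differentiableOn_pi.1 hv ⟨i, hi⟩

private lemma sol_log_le (C : ℕ) (E : ℕ) (hE : 0 < E) (ε : ℝ) (hε : 0 < ε) :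
    ∀ᶠ N : ℕ in atTop, C * Real.log N ≤ E * (ε * N) := by
  have h1 := (Real.isLittleO_log_id_atTop.comp_tendsto (tendsto_natCast_atTop_atTop (R := ℝ))).def
    (show (0 : ℝ) < ε / (C + 1) by positivity)
  filter_upwards [h1, eventually_ge_atTop 1] with N hN hN1
  have hN1' : (1 : ℝ) ≤ N := by exact_mod_cast hN1
  have hlog : 0 ≤ Real.log N := Real.log_nonneg hN1'
  simp only [Function.comp_apply, id_eq, Real.norm_eq_abs, abs_of_nonneg hlog, Nat.abs_cast] at hN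
  have hE' : (1 : ℝ) ≤ E := by exact_mod_cast hE
  have h2 : C * Real.log N ≤ ε * N := by
    calc C * Real.log N ≤ (C + 1) * Real.log N := by nlinarith
      _ ≤ (C + 1) * (ε / (C + 1) * N) := mul_le_mul_of_nonneg_left hN (by positivity)
      _ = ε * N := by field_simp
  have h3 : 0 ≤ ε * N := by positivity
  nlinarith

theorem exists_solution {n : ℕ} (l : Fin n) (a : Fin n → ℤ) (κ : Fin n → ℝ) (s : ℂ)
    (w : Fin n → ℂ) (hw : ∀ i, w i = 2 * Real.pi * Complex.I * (κ i + s * a i))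
    (E : ℕ) (hE : 0 < E) (h : ({j : Fin n // j ≠ l} → ℂ) → ℂ)
    (h' : ({j : Fin n // j ≠ l} → ℂ) →L[ℂ] ℂ) (hh : HasStrictFDerivAt h h' (fun j => w j))
    (hne : h' (fun j => (a j : ℂ)) ≠ a l) (hwl : h (fun j => w j) = w l) {ρ : ℝ} (hρ : 0 < ρ)
    (hhd : DifferentiableOn ℂ h (ball (fun j => w j) ρ))
    (p₀ : ({j : Fin n // j ≠ l} → ℂ) × ℂ)
    (hp₀ : p₀ = ((fun j => w j : {j : Fin n // j ≠ l} → ℂ), 2 * Real.pi * Complex.I * (E * s)))
    (Y : ℕ → Fin n → ({j : Fin n // j ≠ l} → ℂ) × ℂ → ℂ)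
    (X : ℕ → ({j : Fin n // j ≠ l} → ℂ) × ℂ → ℂ)
    (hY : ∀ᶠ N : ℕ in atTop, ∀ i, DifferentiableOn ℂ (Y N i) (ball p₀ ρ))
    (hX : ∀ᶠ N : ℕ in atTop, DifferentiableOn ℂ (X N) (ball p₀ ρ))
    (hXlim : ∀ ε : ℝ, 0 < ε → ∀ᶠ N : ℕ in atTop, ∀ p ∈ ball p₀ ρ, ‖X N p - h p.1‖ ≤ ε)
    (hbd : ∃ C : ℕ, ∀ᶠ N : ℕ in atTop, ∀ i, ∀ p ∈ ball p₀ ρ, Y N i p ≠ 0 ∧
      ‖Y N i p ^ E * Complex.exp (-(a i * (N * p.2)))‖ ≤ (N : ℝ) ^ C ∧
      ‖(Y N i p ^ E * Complex.exp (-(a i * (N * p.2))))⁻¹‖ ≤ (N : ℝ) ^ C) :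
    ∀ᶠ N : ℕ in atTop, ∃ p ∈ ball p₀ ρ, ∀ i, Y N i p = Complex.exp (N * glue l p.1 (X N p) i) := by
  classical
  obtain ⟨C, hbd⟩ := hbd
  have hE0 : (E : ℂ) ≠ 0 := by exact_mod_cast hE.ne'
  have hER : (0 : ℝ) < E := by exact_mod_cast hE
  -- the logarithms
  have hexL : ∀ (N : ℕ) (i : Fin n), ∃ L : ({j : Fin n // j ≠ l} → ℂ) × ℂ → ℂ,
      DifferentiableOn ℂ (Y N i) (ball p₀ ρ) → (∀ p ∈ ball p₀ ρ, Y N i p ≠ 0) →
      DifferentiableOn ℂ L (ball p₀ ρ) ∧ (∀ p ∈ ball p₀ ρ, Complex.exp (L p) = Y N i p) ∧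
      |(L p₀ - (a i : ℂ) / E * (N * p₀.2)).im| ≤ Real.pi := by
    intro N i
    by_cases h1 : DifferentiableOn ℂ (Y N i) (ball p₀ ρ) ∧ ∀ p ∈ ball p₀ ρ, Y N i p ≠ 0
    · obtain ⟨L, hL⟩ := sol_log h1.1 h1.2 ((a i : ℂ) / E * (N * p₀.2))
      exact ⟨L, fun _ _ => hL⟩
    · exact ⟨0, fun h2 h3 => absurd ⟨h2, h3⟩ h1⟩
  choose L hL using hexL
  set Λ : ℕ → Fin n → ({j : Fin n // j ≠ l} → ℂ) × ℂ → ℂ :=
    fun N i p => L N i p - (a i : ℂ) / E * (N * p.2) with hΛ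
  have hsnd : ∀ (N : ℕ) (i : Fin n), Differentiable ℂ
      (fun p : ({j : Fin n // j ≠ l} → ℂ) × ℂ => (a i : ℂ) / E * (N * p.2)) := by
    intro N i
    fun_prop
  have hΛd : ∀ᶠ N : ℕ in atTop, ∀ i, DifferentiableOn ℂ (Λ N i) (ball p₀ ρ) := by
    filter_upwards [hY, hbd] with N h1 h2 i
    exact (hL N i (h1 i) (fun p hp => (h2 i p hp).1)).1.sub (hsnd N i).differentiableOn
  have hre : ∀ i, ∀ ε : ℝ, 0 < ε → ∀ᶠ N : ℕ in atTop, ∀ p ∈ ball p₀ ρ,
      |(Λ N i p).re| ≤ ε * N := by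
    intro i ε hε
    filter_upwards [hY, hbd, sol_log_le C E hE ε hε, eventually_ge_atTop 1] with N h1 h2 h3 hN1 p hp
    have hNpos : (0 : ℝ) < N := by exact_mod_cast hN1
    have hexpL := (hL N i (h1 i) (fun p hp => (h2 i p hp).1)).2.1 p hp
    have h4 : Y N i p ^ E * Complex.exp (-(a i * (N * p.2))) = Complex.exp (E * Λ N i p) := by
      rw [← hexpL, ← Complex.exp_nat_mul, ← Complex.exp_add]
      congr 1
      simp only [hΛ]
      field_simp
      ring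
    have h5 := (h2 i p hp).2.1
    have h6 := (h2 i p hp).2.2
    rw [h4, Complex.norm_exp] at h5
    rw [h4, ← Complex.exp_neg, Complex.norm_exp] at h6
    have hre1 : ((E : ℂ) * Λ N i p).re = E * (Λ N i p).re := by
      rw [← Complex.ofReal_natCast, Complex.re_ofReal_mul]
    rw [Complex.neg_re, hre1] at h6
    rw [hre1] at h5
    have h7 : E * (Λ N i p).re ≤ C * Real.log N := by
      rw [← Real.log_pow, ← Real.log_exp (E * (Λ N i p).re)]
      exact Real.log_le_log (Real.exp_pos _) h5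
    have h8 : -(E * (Λ N i p).re) ≤ C * Real.log N := by
      rw [← Real.log_pow, ← Real.log_exp (-(E * (Λ N i p).re))]
      exact Real.log_le_log (Real.exp_pos _) h6
    have h9 : |E * (Λ N i p).re| ≤ E * (ε * N) := by
      rw [abs_le]
      constructor <;> linarith
    rw [abs_mul, abs_of_pos hER] at h9
    exact le_of_mul_le_mul_left h9 hER
  have hsmall : ∀ i, ∀ ε : ℝ, 0 < ε → ∀ᶠ N : ℕ in atTop, ∀ p ∈ ball p₀ (ρ / 2),
      ‖Λ N i p‖ ≤ ε * N := by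
    intro i
    apply log_small hρ (fun N => Λ N i)
    · filter_upwards [hΛd] with N h1
      exact h1 i
    · exact hre i
    · refine ⟨Real.pi, ?_⟩
      filter_upwards [hY, hbd] with N h1 h2
      exact (hL N i (h1 i) (fun p hp => (h2 i p hp).1)).2.2
  -- the limit system
  set f : ({j : Fin n // j ≠ l} → ℂ) × ℂ → (Fin n → ℂ) := fun p i =>
    glue l p.1 (h p.1) i - (a i : ℂ) / E * p.2 - 2 * Real.pi * Complex.I * κ i with hf
  set G : ℕ → ({j : Fin n // j ≠ l} → ℂ) × ℂ → (Fin n → ℂ) := fun N p i =>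
    glue l p.1 (X N p) i - 1 / (N : ℂ) * (Λ N i p + (a i : ℂ) / E * (N * p.2)) -
      2 * Real.pi * Complex.I * ((⌊(N : ℝ) * κ i⌋ : ℤ) / (N : ℂ)) with hG
  have hp₀1 : p₀.1 = (fun j => w j : {j : Fin n // j ≠ l} → ℂ) := by rw [hp₀]
  have hp₀2 : p₀.2 = 2 * Real.pi * Complex.I * (E * s) := by rw [hp₀]
  have hf0 : f p₀ = 0 := by
    ext i
    simp only [hf, Pi.zero_apply, hp₀1, hp₀2, hwl]
    have h1 : glue l (fun j : {j : Fin n // j ≠ l} => w j) (w l) i = w i := by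
      rw [glue_restrict]
    rw [h1, hw i]
    field_simp
    ring
  -- its derivative
  set f' : ({j : Fin n // j ≠ l} → ℂ) × ℂ →L[ℂ] (Fin n → ℂ) :=
    ContinuousLinearMap.pi fun i =>
      (if hi : i = l then h'.comp (ContinuousLinearMap.fst ℂ _ _) else
        (ContinuousLinearMap.proj (⟨i, hi⟩ : {j : Fin n // j ≠ l})).comp
          (ContinuousLinearMap.fst ℂ _ _)) -
      ((a i : ℂ) / E) • ContinuousLinearMap.snd ℂ _ _ with hf'
  have hfs : HasStrictFDerivAt f f' p₀ := by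
    rw [hasStrictFDerivAt_pi']
    intro i
    have hsn : HasStrictFDerivAt (fun p : ({j : Fin n // j ≠ l} → ℂ) × ℂ => (a i : ℂ) / E * p.2)
        (((a i : ℂ) / E) • ContinuousLinearMap.snd ℂ ({j : Fin n // j ≠ l} → ℂ) ℂ) p₀ :=
      hasStrictFDerivAt_snd.const_mul _
    by_cases hi : i = l
    · subst hi
      have h1 : HasStrictFDerivAt (fun p : ({j : Fin n // j ≠ i} → ℂ) × ℂ => h p.1)
          (h'.comp (ContinuousLinearMap.fst ℂ _ _)) p₀ := by
        apply HasStrictFDerivAt.comp (g := h) p₀ _ hasStrictFDerivAt_fst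
        rw [hp₀1]
        exact hh
      have h2 := (h1.sub hsn).sub_const (2 * Real.pi * Complex.I * κ i)
      have h3 : (ContinuousLinearMap.proj (R := ℂ) (φ := fun _ : Fin n => ℂ) i).comp f' =
          h'.comp (ContinuousLinearMap.fst ℂ _ _) - ((a i : ℂ) / E) •
            ContinuousLinearMap.snd ℂ ({j : Fin n // j ≠ i} → ℂ) ℂ := by
        ext z <;> simp [hf']
      rw [h3]
      have h4 : (fun p : ({j : Fin n // j ≠ i} → ℂ) × ℂ => f p i) = fun p =>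
          h p.1 - (a i : ℂ) / E * p.2 - 2 * Real.pi * Complex.I * κ i := by
        ext p
        simp only [hf, glue_self]
      rw [h4]
      exact h2
    · have h1 : HasStrictFDerivAt (fun p : ({j : Fin n // j ≠ l} → ℂ) × ℂ => p.1 ⟨i, hi⟩)
          ((ContinuousLinearMap.proj (R := ℂ) (φ := fun _ : {j : Fin n // j ≠ l} => ℂ)
            (⟨i, hi⟩ : {j : Fin n // j ≠ l})).comp (ContinuousLinearMap.fst ℂ _ _)) p₀ :=
        ((ContinuousLinearMap.proj (R := ℂ) (φ := fun _ : {j : Fin n // j ≠ l} => ℂ)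
          (⟨i, hi⟩ : {j : Fin n // j ≠ l})).comp
            (ContinuousLinearMap.fst ℂ ({j : Fin n // j ≠ l} → ℂ) ℂ)).hasStrictFDerivAt
      have h2 := (h1.sub hsn).sub_const (2 * Real.pi * Complex.I * κ i)
      have h3 : (ContinuousLinearMap.proj (R := ℂ) (φ := fun _ : Fin n => ℂ) i).comp f' =
          (ContinuousLinearMap.proj (R := ℂ) (φ := fun _ : {j : Fin n // j ≠ l} => ℂ)
            (⟨i, hi⟩ : {j : Fin n // j ≠ l})).comp (ContinuousLinearMap.fst ℂ _ _) -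
            ((a i : ℂ) / E) • ContinuousLinearMap.snd ℂ ({j : Fin n // j ≠ l} → ℂ) ℂ := by
        ext z <;> simp [hf', hi]
      rw [h3]
      have h4 : (fun p : ({j : Fin n // j ≠ l} → ℂ) × ℂ => f p i) = fun p =>
          p.1 ⟨i, hi⟩ - (a i : ℂ) / E * p.2 - 2 * Real.pi * Complex.I * κ i := by
        ext p
        simp only [hf]
        rw [glue_of_ne l p.1 (h p.1) ⟨i, hi⟩]
      rw [h4]
      exact h2
  have hf'l : ∀ z : ({j : Fin n // j ≠ l} → ℂ) × ℂ, f' z l = h' z.1 - (a l : ℂ) / E * z.2 := by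
    intro z
    simp [hf']
  have hf'ne : ∀ (z : ({j : Fin n // j ≠ l} → ℂ) × ℂ) (j : {j : Fin n // j ≠ l}),
      f' z j = z.1 j - (a j : ℂ) / E * z.2 := by
    intro z j
    simp [hf', j.2]
  have hinj : Function.Injective f' := by
    rw [injective_iff_map_eq_zero]
    intro z hz
    have h1 : ∀ j : {j : Fin n // j ≠ l}, z.1 j = z.2 / E * a j := by
      intro j
      have h2 := congrFun hz j
      rw [hf'ne, Pi.zero_apply] at h2
      linear_combination h2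
    have h2 : z.1 = (z.2 / E) • (fun j : {j : Fin n // j ≠ l} => (a j : ℂ)) := by
      ext j
      rw [h1 j]
      rfl
    have h3 := congrFun hz l
    rw [hf'l, h2, map_smul, Pi.zero_apply, smul_eq_mul] at h3
    have h4 : z.2 / E * (h' (fun j => (a j : ℂ)) - a l) = 0 := by
      linear_combination h3
    have h5 : z.2 = 0 := by
      rcases mul_eq_zero.1 h4 with h6 | h6
      · exact (div_eq_zero_iff.1 h6).resolve_right hE0
      · exact absurd (sub_eq_zero.1 h6) hne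
    apply Prod.ext
    · rw [h2, h5, zero_div, zero_smul]
      rfl
    · exact h5
  have hsurj : Function.Surjective f' := by
    have hfr : Module.finrank ℂ (({j : Fin n // j ≠ l} → ℂ) × ℂ) = Module.finrank ℂ (Fin n → ℂ) := by
      rw [Module.finrank_prod, Module.finrank_fintype_fun_eq_card,
        Module.finrank_fintype_fun_eq_card, Module.finrank_self, Fintype.card_fin,
        Fintype.card_subtype_compl, Fintype.card_fin, Fintype.card_subtype_eq]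
      have := l.pos
      omega
    exact (LinearMap.injective_iff_surjective_of_finrank_eq_finrank
      (f := (f' : ({j : Fin n // j ≠ l} → ℂ) × ℂ →ₗ[ℂ] (Fin n → ℂ))) hfr).1 hinj
  let e : (({j : Fin n // j ≠ l} → ℂ) × ℂ) ≃L[ℂ] (Fin n → ℂ) :=
    ContinuousLinearEquiv.ofBijective f' (LinearMap.ker_eq_bot.2 hinj)
      (LinearMap.range_eq_top.2 hsurj)
  have he : (e : ({j : Fin n // j ≠ l} → ℂ) × ℂ →L[ℂ] (Fin n → ℂ)) = f' :=
    ContinuousLinearEquiv.coe_ofBijective _ _ _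
  have hfe : HasStrictFDerivAt f (e : ({j : Fin n // j ≠ l} → ℂ) × ℂ →L[ℂ] (Fin n → ℂ)) p₀ := by
    rw [he]; exact hfs
  have hball : ball p₀ (ρ / 2) ⊆ ball p₀ ρ := ball_subset_ball (by linarith)
  have hfst : MapsTo Prod.fst (ball p₀ ρ) (ball (fun j => w j : {j : Fin n // j ≠ l} → ℂ) ρ) := by
    intro p hp
    rw [mem_ball, ← hp₀1]
    exact lt_of_le_of_lt (by rw [Prod.dist_eq]; exact le_max_left _ _) (mem_ball.1 hp)
  have hfstd : DifferentiableOn ℂ (Prod.fst : ({j : Fin n // j ≠ l} → ℂ) × ℂ → _) (ball p₀ ρ) :=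
    differentiable_fst.differentiableOn
  have hfd : DifferentiableOn ℂ f (ball p₀ (ρ / 2)) := by
    have h1 : DifferentiableOn ℂ (fun p : ({j : Fin n // j ≠ l} → ℂ) × ℂ => h p.1) (ball p₀ ρ) :=
      hhd.comp hfstd hfst
    have h2 := (sol_glue_differentiable l hfstd h1).mono hball
    rw [differentiableOn_pi] at h2 ⊢
    intro i
    have h3 : DifferentiableOn ℂ (fun p : ({j : Fin n // j ≠ l} → ℂ) × ℂ => (a i : ℂ) / E * p.2)
        (ball p₀ (ρ / 2)) := by fun_prop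
    exact ((h2 i).sub h3).sub_const _
  have hGd : ∀ᶠ N : ℕ in atTop, DifferentiableOn ℂ (G N) (ball p₀ (ρ / 2)) := by
    filter_upwards [hX, hΛd] with N h1 h4
    have h2 := (sol_glue_differentiable l hfstd h1).mono hball
    rw [differentiableOn_pi] at h2 ⊢
    intro i
    have h3 := ((((h4 i).mono hball).add (hsnd N i).differentiableOn).const_mul (1 / (N : ℂ)))
    exact ((h2 i).sub h3).sub_const _
  have hlim : ∀ ε : ℝ, 0 < ε → ∀ᶠ N : ℕ in atTop, ∀ p ∈ ball p₀ (ρ / 2), ‖G N p - f p‖ ≤ ε := by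
    intro ε hε
    have hNlarge : ∀ᶠ N : ℕ in atTop, 2 * Real.pi / (ε / 3) ≤ N :=
      (tendsto_natCast_atTop_atTop (R := ℝ)).eventually_ge_atTop _
    filter_upwards [hXlim (ε / 3) (by positivity),
      eventually_all.2 fun i => hsmall i (ε / 3) (by positivity), hNlarge,
      eventually_ge_atTop 1] with N h1 h2 h3 hN1 p hp
    have hNpos : (0 : ℝ) < N := by exact_mod_cast hN1
    have hN0 : (N : ℂ) ≠ 0 := by exact_mod_cast (by omega : N ≠ 0)
    rw [pi_norm_le_iff_of_nonneg hε.le]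
    intro i
    have e1 : (G N p - f p) i = (glue l p.1 (X N p) i - glue l p.1 (h p.1) i) -
        1 / (N : ℂ) * Λ N i p +
        2 * Real.pi * Complex.I * (((κ i - (⌊(N : ℝ) * κ i⌋ : ℤ) / (N : ℝ) : ℝ)) : ℂ) := by
      simp only [hf, hG, Pi.sub_apply]
      push_cast
      field_simp
      ring
    have e2 : ‖glue l p.1 (X N p) i - glue l p.1 (h p.1) i‖ ≤ ε / 3 := by
      by_cases hi : i = l
      · subst hi
        rw [glue_self, glue_self]
        exact h1 p (hball hp)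
      · rw [glue_of_ne l p.1 (X N p) ⟨i, hi⟩, glue_of_ne l p.1 (h p.1) ⟨i, hi⟩, sub_self,
          norm_zero]
        positivity
    have e3 : ‖1 / (N : ℂ) * Λ N i p‖ ≤ ε / 3 := by
      rw [norm_mul, norm_div, norm_one, Complex.norm_natCast, one_div, inv_mul_le_iff₀ hNpos]
      calc ‖Λ N i p‖ ≤ ε / 3 * N := h2 i p hp
        _ = N * (ε / 3) := mul_comm _ _
    have e4 : ‖2 * Real.pi * Complex.I *
        (((κ i - (⌊(N : ℝ) * κ i⌋ : ℤ) / (N : ℝ) : ℝ)) : ℂ)‖ ≤ ε / 3 := by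
      rw [norm_mul, norm_mul, norm_mul, Complex.norm_I, Complex.norm_ofNat, Complex.norm_real,
        Complex.norm_real, Real.norm_eq_abs, Real.norm_eq_abs, abs_of_pos Real.pi_pos, mul_one]
      have h5 : |κ i - (⌊(N : ℝ) * κ i⌋ : ℤ) / (N : ℝ)| ≤ 1 / N := by
        have h6 := Int.floor_le ((N : ℝ) * κ i)
        have h7 := Int.lt_floor_add_one ((N : ℝ) * κ i)
        have h8 : κ i - (⌊(N : ℝ) * κ i⌋ : ℤ) / (N : ℝ) =
            ((N : ℝ) * κ i - (⌊(N : ℝ) * κ i⌋ : ℤ)) / N := by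
          field_simp
        rw [h8, abs_of_nonneg (div_nonneg (by linarith) hNpos.le)]
        apply div_le_div_of_nonneg_right _ hNpos.le
        linarith
      calc 2 * Real.pi * |κ i - (⌊(N : ℝ) * κ i⌋ : ℤ) / (N : ℝ)| ≤ 2 * Real.pi * (1 / N) :=
            mul_le_mul_of_nonneg_left h5 (by positivity)
        _ = 2 * Real.pi / N := by ring
        _ ≤ ε / 3 := by
          rw [div_le_iff₀ (by positivity)] at h3
          rw [div_le_iff₀ hNpos]
          linarith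
    rw [e1]
    calc _ ≤ ‖(glue l p.1 (X N p) i - glue l p.1 (h p.1) i) - 1 / (N : ℂ) * Λ N i p‖ +
          ‖2 * Real.pi * Complex.I *
            (((κ i - (⌊(N : ℝ) * κ i⌋ : ℤ) / (N : ℝ) : ℝ)) : ℂ)‖ := norm_add_le _ _
      _ ≤ (‖glue l p.1 (X N p) i - glue l p.1 (h p.1) i‖ + ‖1 / (N : ℂ) * Λ N i p‖) +
          ‖2 * Real.pi * Complex.I *
            (((κ i - (⌊(N : ℝ) * κ i⌋ : ℤ) / (N : ℝ) : ℝ)) : ℂ)‖ := by
        gcongr
        exact norm_sub_le _ _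
      _ ≤ (ε / 3 + ε / 3) + ε / 3 := add_le_add (add_le_add e2 e3) e4
      _ = ε := by ring
  filter_upwards [hurwitz_multi hfe hf0 (by positivity : 0 < ρ / 2) hfd hGd hlim, hY, hbd,
    eventually_ge_atTop 1] with N hN h1 h2 hN1
  obtain ⟨p, hp, hp0⟩ := hN
  refine ⟨p, hball hp, fun i => ?_⟩
  have hN0 : (N : ℂ) ≠ 0 := by exact_mod_cast (by omega : N ≠ 0)
  have h3 := congrFun hp0 i
  simp only [hG, Pi.zero_apply] at h3
  have h4 : (N : ℂ) * glue l p.1 (X N p) i = L N i p +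
      (⌊(N : ℝ) * κ i⌋ : ℤ) * (2 * Real.pi * Complex.I) := by
    have h5 : glue l p.1 (X N p) i = 1 / (N : ℂ) * (Λ N i p + (a i : ℂ) / E * (N * p.2)) +
      2 * Real.pi * Complex.I * ((⌊(N : ℝ) * κ i⌋ : ℤ) / (N : ℂ)) := by
      linear_combination h3
    rw [h5]
    simp only [hΛ]
    field_simp
    ring
  rw [h4, Complex.exp_add, Complex.exp_int_mul_two_pi_mul_I, mul_one]
  exact ((hL N i (h1 i) (fun p hp => (h2 i p hp).1)).2.1 p (hball hp)).symm

end Pool.Agent.Lib.MP_209724_lc.MV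
end

section

/-!
The analytic part of the proof of the main theorem.
-/

namespace Pool.Agent.Lib.MP_209724_lc.MV

open MvPolynomial Filter Topology Metric

/-- Uniform polynomial bound for the values of `f` at the homomorphisms `ψ` with
`ψ ξ = N v`, `v ∈ D`, `‖ψ t‖ ≤ 1`. -/
def Bdd {σ S : Type*} [Fintype σ] [CommRing S] [Algebra ℂ S] (ξ : σ → S) (t f : S)
    (D : Set (σ → ℂ)) : Prop :=
  ∃ C : ℕ, ∀ᶠ N : ℕ in atTop, ∀ v ∈ D, ∀ ψ : S →ₐ[ℂ] ℂ, (∀ j, ψ (ξ j) = N * v j) →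
    ‖ψ t‖ ≤ 1 → ‖ψ f‖ ≤ (N : ℝ) ^ C

theorem persist {E : Type*} [NormedAddCommGroup E] [NormedSpace ℂ E] {p₀ : E} {ρ c : ℝ}
    (hρ : 0 < ρ) (F : E → ℝ) (hF : ContinuousOn F (ball p₀ ρ)) (h0 : F p₀ < c)
    (hc : ∀ p ∈ ball p₀ ρ, F p ≠ c) : ∀ p ∈ ball p₀ ρ, F p < c := by
  intro p hp
  by_contra hcon
  have hpre : IsPreconnected (ball p₀ ρ) := by
    let _ : NormedSpace ℝ E := NormedSpace.restrictScalars ℝ ℂ E
    exact (convex_ball p₀ ρ).isPreconnected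
  have := hpre.intermediate_value (mem_ball_self hρ) hp hF
  obtain ⟨p', hp', hp'c⟩ := this ⟨h0.le, not_lt.mp hcon⟩
  exact hc p' hp' hp'c

theorem tendsto_exp_mul_pow {δ : ℝ} (hδ : 0 < δ) (C : ℕ) :
    Tendsto (fun N : ℕ => Real.exp (-(δ * N)) * (N : ℝ) ^ C) atTop (𝓝 0) := by
  have h1 : Tendsto (fun x : ℝ => x ^ C * Real.exp (-δ * x)) atTop (𝓝 0) := by
    have := tendsto_rpow_mul_exp_neg_mul_atTop_nhds_zero (C : ℝ) δ hδ
    refine this.congr' ?_
    filter_upwards with x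
    rw [Real.rpow_natCast]
  have h2 : Tendsto (fun N : ℕ => (N : ℝ) ^ C * Real.exp (-δ * (N : ℝ))) atTop (𝓝 0) :=
    h1.comp (tendsto_natCast_atTop_atTop (R := ℝ))
  refine h2.congr fun N => ?_
  rw [mul_comm]
  congr 2
  ring

theorem eval_hom {σ S : Type*} [CommRing S] [Algebra ℂ S] (ψ : S →ₐ[ℂ] ℂ) (ξ : σ → S)
    (P : MvPolynomial σ ℂ) : eval (fun i => ψ (ξ i)) P = ψ (aeval ξ P) := by
  rw [← MvPolynomial.aeval_eq_eval, ← MvPolynomial.comp_aeval_apply]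

theorem core_analysis {n : ℕ} {S : Type} [CommRing S] [Algebra ℂ S] (l : Fin n)
    (ξ η u u' : Fin n → S) (t g f : S) (P q r : MvPolynomial (Fin n) ℂ) {e₁ : ℕ} (he₁ : 0 < e₁)
    (hfac : lead P = q ^ e₁ * r) (hP : aeval ξ P = 0) (a : Fin n → ℤ) (κ : Fin n → ℝ) (s : ℂ) (w : Fin n → ℂ)
    (hs : 0 < s.im) (hw : ∀ i, w i = 2 * Real.pi * Complex.I * (κ i + s * a i))
    (hq : eval w q = 0) (hql : eval w (pderiv l q) ≠ 0)
    (hqa : ∑ i, (a i : ℂ) * eval w (pderiv i q) ≠ 0) (hr : eval w r ≠ 0)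
    {E M : ℕ} (k : ℕ) (hE : 0 < E) (hM : 0 < M)
    (e' b : Polynomial (MvPolynomial {j : Fin n // j ≠ l} ℂ))
    (D : Set ({j : Fin n // j ≠ l} → ℂ)) (hD : IsCompact D) (hDw : D ∈ 𝓝 (fun j => w j : {j : Fin n // j ≠ l} → ℂ))
    (he' : ∀ v ∈ D, eval v (lead (e'.coeff 0)) ≠ 0)
    (hb : ∀ v ∈ D, eval v (lead b.trailingCoeff) ≠ 0)
    (hgf : (g * (g - 1)) ^ M = t * f)
    (hf : Bdd (fun j : {j // j ≠ l} => ξ j) t f D)
    (hu : ∀ i, Bdd (fun j : {j // j ≠ l} => ξ j) t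
      (evT (fun j : {j // j ≠ l} => ξ j) t e' * g ^ k * u i) D)
    (hu' : ∀ i, Bdd (fun j : {j // j ≠ l} => ξ j) t
      (evT (fun j : {j // j ≠ l} => ξ j) t e' * g ^ k * u' i) D)
    (huu : ∀ i, u i * u' i = 1)
    (hη : ∀ i, ∀ ψ : S →ₐ[ℂ] ℂ, ∀ τ : ℂ, ψ t = Complex.exp τ →
      ψ (u i) = ψ (η i) ^ E * Complex.exp (-(a i * τ)))
    (hsheets : ∀ (N : ℂ) (U : Set (({j : Fin n // j ≠ l} → ℂ) × ℂ)), IsOpen U → Convex ℝ U →
      (∀ p ∈ U, evT (fun j => N * p.1 j) (Complex.exp (N * p.2)) b ≠ 0) → ∀ p₀ ∈ U,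
      ∀ φ₀ : S →ₐ[ℂ] ℂ, (∀ j : {j // j ≠ l}, φ₀ (ξ j) = N * p₀.1 j) →
      φ₀ t = Complex.exp (N * p₀.2) →
      ∃ Φ : ({j : Fin n // j ≠ l} → ℂ) × ℂ → (S →ₐ[ℂ] ℂ), Φ p₀ = φ₀ ∧
        (∀ p ∈ U, (∀ j : {j // j ≠ l}, Φ p (ξ j) = N * p.1 j) ∧
          Φ p t = Complex.exp (N * p.2)) ∧ ∀ x : S, DifferentiableOn ℂ (fun p => Φ p x) U)
    (hgood : ∀ δ : ℝ, 0 < δ → ∀ R : ℝ, ∀ᶠ N : ℕ in atTop, ∀ x : Fin n → ℂ, ‖x‖ ≤ R * N →
          eval x P = 0 → ∀ v ∈ D, (∀ j : {j : Fin n // j ≠ l}, x j = N * v j) →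
          ∀ t₀ : ℂ, t₀ ≠ 0 → ‖t₀‖ ≤ Real.exp (-(δ * N)) →
          ∃ ψ : S →ₐ[ℂ] ℂ, (∀ i, ψ (ξ i) = x i) ∧ ψ t = t₀ ∧ ‖ψ g - 1‖ ≤ 1 / 2) :
    ∃ δ : ℝ, 0 < δ ∧ ∀ᶠ N : ℕ in atTop, ∃ (ψ : S →ₐ[ℂ] ℂ) (ς : ℂ), ς.re ≤ -δ ∧
      ψ t = Complex.exp (N * ς) ∧ ∀ i, ψ (η i) = Complex.exp (ψ (ξ i)) := by
  classical
  obtain ⟨h, h', ρ₁, r₁, hρ₁, hr₁, hh', hne, hhd, hhw, hhr, hclose, hroot⟩ :=
    exists_branch P q r he₁ hfac l (fun i => (a i : ℂ)) w hq hql hqa hr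
  set w' : {j : Fin n // j ≠ l} → ℂ := fun j => w j with hw'
  -- the centre in the `ς` plane
  set ς₀ : ℂ := 2 * Real.pi * Complex.I * (E * s) with hς₀
  have hς₀re : ς₀.re = -(2 * Real.pi * E * s.im) := by
    rw [hς₀]
    simp only [Complex.mul_re, Complex.mul_im, Complex.I_re, Complex.I_im, Complex.ofReal_re,
      Complex.ofReal_im, Complex.re_ofNat, Complex.im_ofNat, Complex.natCast_re,
      Complex.natCast_im]
    ring
  set δ : ℝ := Real.pi * E * s.im with hδ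
  have hδpos : 0 < δ := by
    have : (0 : ℝ) < E := by exact_mod_cast hE
    positivity
  have hς₀δ : ς₀.re = -(2 * δ) := by rw [hς₀re, hδ]; ring
  obtain ⟨ρ₂, hρ₂, hρ₂D⟩ := Metric.mem_nhds_iff.mp hDw
  set ρ : ℝ := min (min ρ₁ ρ₂) δ with hρ
  have hρpos : 0 < ρ := lt_min (lt_min hρ₁ hρ₂) hδpos
  have hρρ₁ : ρ ≤ ρ₁ := (min_le_left _ _).trans (min_le_left _ _)
  have hρρ₂ : ρ ≤ ρ₂ := (min_le_left _ _).trans (min_le_right _ _)
  have hρδ : ρ ≤ δ := min_le_right _ _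
  set p₀ : ({j : Fin n // j ≠ l} → ℂ) × ℂ := (w', ς₀) with hp₀
  have hball1 : ∀ p ∈ ball p₀ ρ, p.1 ∈ ball w' ρ := by
    intro p hp
    rw [mem_ball, Prod.dist_eq] at hp
    exact mem_ball.mpr ((le_max_left _ _).trans_lt hp)
  have hball2 : ∀ p ∈ ball p₀ ρ, p.2 ∈ ball ς₀ ρ := by
    intro p hp
    rw [mem_ball, Prod.dist_eq] at hp
    exact mem_ball.mpr ((le_max_right _ _).trans_lt hp)
  have hD1 : ∀ p ∈ ball p₀ ρ, p.1 ∈ D := fun p hp =>
    hρ₂D (ball_subset_ball hρρ₂ (hball1 p hp))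
  have hre : ∀ p ∈ ball p₀ ρ, p.2.re ≤ -δ := by
    intro p hp
    have h1 := mem_ball.mp (hball2 p hp)
    rw [Complex.dist_eq] at h1
    have h2 := (Complex.abs_re_le_norm (p.2 - ς₀)).trans h1.le
    rw [Complex.sub_re, hς₀δ] at h2
    have h3 := (abs_le.mp h2).2
    linarith
  have hnorm : ∀ (N : ℕ), ∀ p ∈ ball p₀ ρ, ‖Complex.exp (N * p.2)‖ ≤ Real.exp (-(δ * N)) := by
    intro N p hp
    rw [Complex.norm_exp]
    apply Real.exp_le_exp.mpr
    have h1 := hre p hp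
    have h2 : ((N : ℂ) * p.2).re = N * p.2.re := by simp
    rw [h2]
    have h3 : (0 : ℝ) ≤ N := Nat.cast_nonneg N
    nlinarith
  have hnorm1 : ∀ (N : ℕ), ∀ p ∈ ball p₀ ρ, ‖Complex.exp (N * p.2)‖ ≤ 1 := by
    intro N p hp
    refine (hnorm N p hp).trans ?_
    rw [Real.exp_le_one_iff]
    have h3 : (0 : ℝ) ≤ N := Nat.cast_nonneg N
    have : 0 ≤ δ * N := by positivity
    linarith
  have hp₀mem : p₀ ∈ ball p₀ ρ := mem_ball_self hρpos
  -- the family of homomorphisms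
  obtain ⟨Cf, hCf⟩ := hf
  have hfam : ∀ᶠ N : ℕ in atTop, ∃ Φ : ({j : Fin n // j ≠ l} → ℂ) × ℂ → (S →ₐ[ℂ] ℂ),
      (∀ p ∈ ball p₀ ρ, (∀ j : {j // j ≠ l}, Φ p (ξ j) = N * p.1 j) ∧
          Φ p t = Complex.exp (N * p.2)) ∧
        (∀ x : S, DifferentiableOn ℂ (fun p => Φ p x) (ball p₀ ρ)) ∧
        (∀ p ∈ ball p₀ ρ, ‖Φ p (ξ l) / N - w l‖ < r₁) ∧
        (∀ p ∈ ball p₀ ρ, ‖Φ p g - 1‖ < 3 / 4) := by
    set R : ℝ := ‖w'‖ + ‖w l‖ + r₁ with hR
    have hsmall : ∀ᶠ N : ℕ in atTop,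
        Real.exp (-(δ * N)) * (N : ℝ) ^ Cf < (3 / 16 : ℝ) ^ M := by
      have := (tendsto_exp_mul_pow hδpos Cf).eventually (gt_mem_nhds
        (show (0 : ℝ) < (3 / 16 : ℝ) ^ M by positivity))
      exact this
    filter_upwards [hroot, hgood δ hδpos R, eventually_ne_zero_T b hD hb hδpos,
      hclose (r₁ / 2) (by positivity), hCf, hsmall, eventually_gt_atTop 0]
      with N hN1 hN2 hN3 hN4 hN5 hN6 hN7
    have hN0 : (N : ℂ) ≠ 0 := by exact_mod_cast hN7.ne'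
    obtain ⟨z, hz, hzP⟩ := hN1
    set x : Fin n → ℂ := fun i => (N : ℂ) * glue l w' z i with hx
    have hxnorm : ‖x‖ ≤ R * N := by
      rw [pi_norm_le_iff_of_nonneg (by positivity)]
      intro i
      rw [hx]
      simp only [norm_mul, Complex.norm_natCast]
      rw [mul_comm]
      apply mul_le_mul_of_nonneg_right _ (Nat.cast_nonneg N)
      by_cases hi : i = l
      · subst hi
        rw [glue_self]
        have h1 : ‖z‖ ≤ ‖w i‖ + ‖z - w i‖ := by
          calc ‖z‖ = ‖w i + (z - w i)‖ := by congr 1; ring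
            _ ≤ _ := norm_add_le _ _
        have h2 : 0 ≤ ‖w'‖ := norm_nonneg _
        rw [hR]
        linarith
      · have h1 := glue_of_ne l w' z ⟨i, hi⟩
        simp only at h1
        rw [h1]
        have h2 : ‖w' ⟨i, hi⟩‖ ≤ ‖w'‖ := norm_le_pi_norm w' _
        have h3 : 0 ≤ ‖w l‖ := norm_nonneg _
        rw [hR]
        linarith
    have hw'D : w' ∈ D := mem_of_mem_nhds hDw
    obtain ⟨ψ₀, hψξ, hψt, hψg⟩ := hN2 x hxnorm hzP w' hw'D (fun j => by
      rw [hx]; simp only; rw [glue_of_ne]) (Complex.exp (N * ς₀)) (Complex.exp_ne_zero _)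
      (hnorm N p₀ hp₀mem)
    obtain ⟨Φ, hΦ0, hΦ, hΦd⟩ := hsheets N (ball p₀ ρ) isOpen_ball (convex_ball p₀ ρ)
      (fun p hp => hN3 p.1 (hD1 p hp) _ (Complex.exp_ne_zero _) (hnorm N p hp)) p₀ hp₀mem ψ₀
      (fun j => by rw [hψξ, hx]; simp only; rw [glue_of_ne]) hψt
    have hPψ : ∀ ψ : S →ₐ[ℂ] ℂ, eval (fun i => ψ (ξ i)) P = 0 := by
      intro ψ
      rw [eval_hom, hP, map_zero]
    have hglue : ∀ p ∈ ball p₀ ρ, (fun i => Φ p (ξ i)) =
        fun i => (N : ℂ) * glue l p.1 (Φ p (ξ l) / N) i := by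
      intro p hp
      funext i
      by_cases hi : i = l
      · subst hi
        rw [glue_self]
        field_simp
      · have h1 := glue_of_ne l p.1 (Φ p (ξ l) / N) ⟨i, hi⟩
        simp only at h1
        rw [h1]
        exact (hΦ p hp).1 ⟨i, hi⟩
    refine ⟨Φ, hΦ, hΦd, ?_, ?_⟩
    · apply persist hρpos
      · apply ContinuousOn.norm
        apply ContinuousOn.sub _ continuousOn_const
        exact ((hΦd (ξ l)).continuousOn).div_const _
      · rw [hΦ0, hψξ, hx]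
        simp only
        rw [glue_self, mul_div_cancel_left₀ _ hN0]
        exact hz
      · intro p hp hcon
        have h1 := hN4 p.1 (ball_subset_ball hρρ₁ (hball1 p hp)) (Φ p (ξ l) / N) hcon.le (by
          rw [← hglue p hp]
          exact hPψ _)
        have h2 := hhr p.1 (ball_subset_ball hρρ₁ (hball1 p hp))
        have h3 : ‖Φ p (ξ l) / N - w l‖ ≤ ‖Φ p (ξ l) / N - h p.1‖ + ‖h p.1 - w l‖ := by
          calc ‖Φ p (ξ l) / N - w l‖ = ‖(Φ p (ξ l) / N - h p.1) + (h p.1 - w l)‖ := by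
                congr 1; ring
            _ ≤ _ := norm_add_le _ _
        rw [hcon] at h3
        linarith
    · apply persist hρpos
      · apply ContinuousOn.norm
        exact ((hΦd g).continuousOn).sub continuousOn_const
      · rw [hΦ0]
        linarith
      · intro p hp hcon
        have h1 : (Φ p g * (Φ p g - 1)) ^ M = Φ p t * Φ p f := by
          have := congrArg (Φ p) hgf
          simpa using this
        have h2 : ‖Φ p f‖ ≤ (N : ℝ) ^ Cf := hN5 p.1 (hD1 p hp) (Φ p) (hΦ p hp).1 (by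
          rw [(hΦ p hp).2]
          exact hnorm1 N p hp)
        have h3 : ‖Φ p t‖ ≤ Real.exp (-(δ * N)) := by
          rw [(hΦ p hp).2]
          exact hnorm N p hp
        have h4 : ‖(Φ p g * (Φ p g - 1)) ^ M‖ < (3 / 16 : ℝ) ^ M := by
          rw [h1, norm_mul]
          refine lt_of_le_of_lt ?_ hN6
          exact mul_le_mul h3 h2 (norm_nonneg _) (Real.exp_pos _).le
        rw [norm_pow] at h4
        have h5 := lt_of_pow_lt_pow_left₀ M (by positivity) h4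
        rw [norm_mul, hcon] at h5
        have h6 : (1 : ℝ) / 4 ≤ ‖Φ p g‖ := by
          have h7 : ‖(1 : ℂ)‖ ≤ ‖Φ p g‖ + ‖Φ p g - 1‖ := by
            calc ‖(1 : ℂ)‖ = ‖Φ p g - (Φ p g - 1)‖ := by congr 1; ring
              _ ≤ _ := norm_sub_le _ _
          rw [norm_one, hcon] at h7
          linarith
        linarith
  rw [Filter.eventually_atTop] at hfam
  obtain ⟨N₀, hN₀⟩ := hfam
  have hfam' : ∀ N : ℕ, ∃ Φ : ({j : Fin n // j ≠ l} → ℂ) × ℂ → (S →ₐ[ℂ] ℂ), N₀ ≤ N →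
      (∀ p ∈ ball p₀ ρ, (∀ j : {j // j ≠ l}, Φ p (ξ j) = N * p.1 j) ∧
          Φ p t = Complex.exp (N * p.2)) ∧
        (∀ x : S, DifferentiableOn ℂ (fun p => Φ p x) (ball p₀ ρ)) ∧
        (∀ p ∈ ball p₀ ρ, ‖Φ p (ξ l) / N - w l‖ < r₁) ∧
        (∀ p ∈ ball p₀ ρ, ‖Φ p g - 1‖ < 3 / 4) := by
    intro N
    by_cases hN : N₀ ≤ N
    · obtain ⟨Φ, hΦ⟩ := hN₀ N hN
      exact ⟨Φ, fun _ => hΦ⟩
    · obtain ⟨Φ, hΦ⟩ := hN₀ N₀ le_rfl
      exact ⟨Φ, fun hcon => absurd hcon hN⟩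
  choose Φ hΦ using hfam'
  have hev : ∀ᶠ N : ℕ in atTop, N₀ ≤ N := eventually_ge_atTop N₀
  -- bounds for the units
  obtain ⟨ε, hε, hεe⟩ := exists_lower_bound_T e' hD he' hδpos
  have hunit : ∀ U : Fin n → S, (∀ i, Bdd (fun j : {j // j ≠ l} => ξ j) t
      (evT (fun j : {j // j ≠ l} => ξ j) t e' * g ^ k * U i) D) →
      ∃ C : ℕ, ∀ᶠ N : ℕ in atTop, ∀ i, ∀ p ∈ ball p₀ ρ, ‖Φ N p (U i)‖ ≤ (N : ℝ) ^ C := by
    intro U hU
    choose C hC using hU
    set C₀ : ℕ := Finset.univ.sup C with hC₀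
    refine ⟨C₀ + 1, ?_⟩
    have hC' : ∀ᶠ N : ℕ in atTop, ∀ i, ∀ v ∈ D, ∀ ψ : S →ₐ[ℂ] ℂ,
        (∀ j : {j // j ≠ l}, ψ (ξ j) = N * v j) → ‖ψ t‖ ≤ 1 →
        ‖ψ (evT (fun j : {j // j ≠ l} => ξ j) t e' * g ^ k * U i)‖ ≤ (N : ℝ) ^ C i :=
      Filter.eventually_all.mpr hC
    have hlarge : ∀ᶠ N : ℕ in atTop, 4 ^ k / ε ≤ (N : ℝ) :=
      tendsto_natCast_atTop_atTop.eventually_ge_atTop _
    filter_upwards [hC', hεe, hlarge, hev, eventually_ge_atTop 1] with N h1 h2 h3 h4 h5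
    intro i p hp
    obtain ⟨hΦ1, hΦ2, hΦ3, hΦ4⟩ := hΦ N h4
    have hN1 : (1 : ℝ) ≤ N := by exact_mod_cast h5
    have h6 := h1 i p.1 (hD1 p hp) (Φ N p) (hΦ1 p hp).1 (by
      rw [(hΦ1 p hp).2]; exact hnorm1 N p hp)
    rw [map_mul, map_mul, map_pow, map_evT, (hΦ1 p hp).2, norm_mul, norm_mul, norm_pow] at h6
    have h7 : (fun j : {j // j ≠ l} => Φ N p (ξ j)) = fun j => (N : ℂ) * p.1 j :=
      funext (hΦ1 p hp).1
    rw [h7] at h6
    have h8 := h2 p.1 (hD1 p hp) _ (hnorm N p hp)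
    have h9 : (1 : ℝ) / 4 ≤ ‖Φ N p g‖ := by
      have h10 : ‖(1 : ℂ)‖ ≤ ‖Φ N p g‖ + ‖Φ N p g - 1‖ := by
        calc ‖(1 : ℂ)‖ = ‖Φ N p g - (Φ N p g - 1)‖ := by congr 1; ring
          _ ≤ _ := norm_sub_le _ _
      rw [norm_one] at h10
      have := hΦ4 p hp
      linarith
    have h10 : (1 / 4 : ℝ) ^ k ≤ ‖Φ N p g‖ ^ k := pow_le_pow_left₀ (by norm_num) h9 k
    have h11 : ε * (1 / 4 : ℝ) ^ k * ‖Φ N p (U i)‖ ≤ (N : ℝ) ^ C i := by
      refine le_trans ?_ h6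
      apply mul_le_mul_of_nonneg_right _ (norm_nonneg _)
      exact mul_le_mul h8 h10 (by positivity) (norm_nonneg _)
    have h12 : (N : ℝ) ^ C i ≤ (N : ℝ) ^ C₀ :=
      pow_le_pow_right₀ hN1 (Finset.le_sup (f := C) (Finset.mem_univ i))
    have h13 : ‖Φ N p (U i)‖ ≤ (4 ^ k / ε) * (N : ℝ) ^ C₀ := by
      have h14 : ε * (1 / 4 : ℝ) ^ k * ‖Φ N p (U i)‖ ≤ (N : ℝ) ^ C₀ := h11.trans h12
      have h15 : (4 ^ k / ε : ℝ) * (ε * (1 / 4 : ℝ) ^ k * ‖Φ N p (U i)‖) = ‖Φ N p (U i)‖ := by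
        rw [one_div, inv_pow]
        field_simp
      calc ‖Φ N p (U i)‖ = (4 ^ k / ε : ℝ) * (ε * (1 / 4 : ℝ) ^ k * ‖Φ N p (U i)‖) := h15.symm
        _ ≤ _ := mul_le_mul_of_nonneg_left h14 (by positivity)
    refine h13.trans ?_
    rw [pow_succ', ]
    exact mul_le_mul_of_nonneg_right h3 (by positivity)
  obtain ⟨C₁, hC₁⟩ := hunit u hu
  obtain ⟨C₂, hC₂⟩ := hunit u' hu'
  have hsol := exists_solution l a κ s w hw E hE h h' hh' hne hhw hρpos
    (hhd.mono (ball_subset_ball hρρ₁)) p₀ hp₀ (fun N i p => Φ N p (η i))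
    (fun N p => Φ N p (ξ l) / N)
    (hev.mono fun N hN i => (hΦ N hN).2.1 (η i))
    (hev.mono fun N hN => by
      simp only [div_eq_mul_inv]
      exact ((hΦ N hN).2.1 (ξ l)).mul_const _)
    (by
      intro ε hε
      filter_upwards [hev, hclose ε hε, eventually_gt_atTop 0] with N h1 h2 h3
      intro p hp
      have hN0 : (N : ℂ) ≠ 0 := by exact_mod_cast h3.ne'
      obtain ⟨hΦ1, hΦ2, hΦ3, hΦ4⟩ := hΦ N h1
      refine (h2 p.1 (ball_subset_ball hρρ₁ (hball1 p hp)) _ (hΦ3 p hp).le ?_).le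
      have hPψ : eval (fun i => Φ N p (ξ i)) P = 0 := by
        rw [eval_hom, hP, map_zero]
      rw [← hPψ]
      congr 2
      funext i
      by_cases hi : i = l
      · subst hi
        rw [glue_self]
        field_simp
      · have h1 := glue_of_ne l p.1 (Φ N p (ξ l) / N) ⟨i, hi⟩
        simp only at h1
        rw [h1]
        exact ((hΦ1 p hp).1 ⟨i, hi⟩).symm)
    (by
      refine ⟨max C₁ C₂, ?_⟩
      filter_upwards [hev, hC₁, hC₂, eventually_ge_atTop 1] with N h1 h2 h3 h4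
      intro i p hp
      obtain ⟨hΦ1, hΦ2, hΦ3, hΦ4⟩ := hΦ N h1
      have hN1 : (1 : ℝ) ≤ N := by exact_mod_cast h4
      have h5 := hη i (Φ N p) (N * p.2) (hΦ1 p hp).2
      have h6 : Φ N p (u i) * Φ N p (u' i) = 1 := by
        rw [← map_mul, huu, map_one]
      refine ⟨?_, ?_, ?_⟩
      · intro hcon
        rw [h5] at h6
        rw [hcon, zero_pow hE.ne', zero_mul, zero_mul] at h6
        exact zero_ne_one h6
      · rw [← h5]
        exact (h2 i p hp).trans (pow_le_pow_right₀ hN1 (le_max_left _ _))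
      · rw [← h5, ← eq_inv_of_mul_eq_one_right h6]
        exact (h3 i p hp).trans (pow_le_pow_right₀ hN1 (le_max_right _ _)))
  refine ⟨δ, hδpos, ?_⟩
  filter_upwards [hsol, hev, eventually_gt_atTop 0] with N h1 h2 h3
  obtain ⟨p, hp, hpη⟩ := h1
  obtain ⟨hΦ1, hΦ2, hΦ3, hΦ4⟩ := hΦ N h2
  have hN0 : (N : ℂ) ≠ 0 := by exact_mod_cast h3.ne'
  refine ⟨Φ N p, p.2, hre p hp, (hΦ1 p hp).2, ?_⟩
  intro i
  rw [hpη i]
  congr 1
  by_cases hi : i = l
  · subst hi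
    rw [glue_self]
    field_simp
  · have h1 := glue_of_ne l p.1 (Φ N p (ξ l) / N) ⟨i, hi⟩
    simp only at h1
    rw [h1]
    exact ((hΦ1 p hp).1 ⟨i, hi⟩).symm

end Pool.Agent.Lib.MP_209724_lc.MV
end
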