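import Mathlib
import Pool.Agent.Lib.MP_209724_lc.MV.Defs

section

/-!
The minimal polynomial of `g` over `ℂ(ξ)(t)`, with denominators in the variables other than `l`.
-/

namespace Pool.Agent.Lib.MP_209724_lc.MV

open MvPolynomial

namespace MinPolyAux

section Rep

variable {n : ℕ} {L : Type} [Field L] [Algebra ℂ L] (ξ : Fin n → L) (l : Fin n) (t : L)

/-- Elements of the form `evT ξ t p / c(ξ')`, where `ξ'` are the variables other than `l`. -/
def Rep (x : L) : Prop :=
  ∃ (c : MvPolynomial {j : Fin n // j ≠ l} ℂ) (p : Polynomial (MvPolynomial (Fin n) ℂ)),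
    aeval (fun j : {j : Fin n // j ≠ l} => ξ j) c ≠ 0 ∧
      aeval (fun j : {j : Fin n // j ≠ l} => ξ j) c * x = evT ξ t p

theorem evT_rename (c : MvPolynomial {j : Fin n // j ≠ l} ℂ) :
    evT ξ t (Polynomial.C (rename Subtype.val c)) =
      aeval (fun j : {j : Fin n // j ≠ l} => ξ j) c := by
  rw [evT_C, aeval_rename]
  rfl

theorem rep_evT (p : Polynomial (MvPolynomial (Fin n) ℂ)) : Rep ξ l t (evT ξ t p) :=
  ⟨1, p, by simp, by simp⟩

theorem rep_add {x y : L} (hx : Rep ξ l t x) (hy : Rep ξ l t y) : Rep ξ l t (x + y) := by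
  obtain ⟨c, p, h1, h2⟩ := hx
  obtain ⟨d, q, h3, h4⟩ := hy
  refine ⟨c * d, Polynomial.C (rename Subtype.val d) * p + Polynomial.C (rename Subtype.val c) * q,
    by rw [map_mul]; exact mul_ne_zero h1 h3, ?_⟩
  rw [map_add, map_mul (evT ξ t), map_mul (evT ξ t), evT_rename, evT_rename, ← h2, ← h4, map_mul]
  ring

theorem rep_mul {x y : L} (hx : Rep ξ l t x) (hy : Rep ξ l t y) : Rep ξ l t (x * y) := by
  obtain ⟨c, p, h1, h2⟩ := hx
  obtain ⟨d, q, h3, h4⟩ := hy
  refine ⟨c * d, p * q, by rw [map_mul]; exact mul_ne_zero h1 h3, ?_⟩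
  rw [map_mul (evT ξ t), ← h2, ← h4, map_mul]
  ring

theorem rep_K' {x : L}
    (hx : x ∈ IntermediateField.adjoin ℂ (Set.range fun j : {j : Fin n // j ≠ l} => ξ j)) :
    Rep ξ l t x := by
  rw [IntermediateField.mem_adjoin_range_iff] at hx
  obtain ⟨r, s, hrs⟩ := hx
  by_cases hs : aeval (fun j : {j : Fin n // j ≠ l} => ξ j) s = 0
  · rw [hs, div_zero] at hrs
    rw [hrs, ← map_zero (evT ξ t)]
    exact rep_evT ξ l t 0
  · refine ⟨s, Polynomial.C (rename Subtype.val r), hs, ?_⟩
    rw [evT_rename, hrs]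
    field_simp

theorem rep_K (F : IntermediateField ℂ L) (hF : ∀ x ∈ F, Rep ξ l t x)
    (hF2 : ∀ i, i ≠ l → ξ i ∈ F) (hl : IsAlgebraic F (ξ l)) {x : L}
    (hx : x ∈ IntermediateField.adjoin ℂ (Set.range ξ)) : Rep ξ l t x := by
  have hle : IntermediateField.adjoin ℂ (Set.range ξ) ≤
      IntermediateField.restrictScalars ℂ (IntermediateField.adjoin F {ξ l}) := by
    rw [IntermediateField.adjoin_le_iff]
    rintro _ ⟨i, rfl⟩
    rw [SetLike.mem_coe, IntermediateField.mem_restrictScalars]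
    by_cases hi : i = l
    · rw [hi]
      exact IntermediateField.mem_adjoin_simple_self F (ξ l)
    · exact (IntermediateField.adjoin F {ξ l}).algebraMap_mem ⟨ξ i, hF2 i hi⟩
  have hx3 : x ∈ Algebra.adjoin F {ξ l} := by
    have h1 := hle hx
    rw [IntermediateField.mem_restrictScalars] at h1
    rw [← IntermediateField.adjoin_simple_toSubalgebra_of_isAlgebraic hl]
    exact h1
  clear hx hle
  induction hx3 using Algebra.adjoin_induction with
  | mem y hy =>
    rw [Set.mem_singleton_iff] at hy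
    rw [hy]
    have : evT ξ t (Polynomial.C (X l)) = ξ l := by rw [evT_C, aeval_X]
    rw [← this]
    exact rep_evT ξ l t _
  | algebraMap r => exact hF _ r.2
  | add y z hy hz h1 h2 => exact rep_add ξ l t h1 h2
  | mul y z hy hz h1 h2 => exact rep_mul ξ l t h1 h2

theorem rep_adjoin (K : IntermediateField ℂ L) (hK : ∀ x ∈ K, Rep ξ l t x) {x : L}
    (hx : x ∈ Algebra.adjoin K ({t} : Set L)) : Rep ξ l t x := by
  induction hx using Algebra.adjoin_induction with
  | mem y hy =>
    rw [Set.mem_singleton_iff] at hy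
    rw [hy]
    have : evT ξ t Polynomial.X = t := evT_X ξ t
    nth_rewrite 2 [← this]
    exact rep_evT ξ l t _
  | algebraMap r => exact hK _ r.2
  | add y z hy hz h1 h2 => exact rep_add ξ l t h1 h2
  | mul y z hy hz h1 h2 => exact rep_mul ξ l t h1 h2

theorem exists_common (s : Finset ℕ) (x : ℕ → L) (hx : ∀ k ∈ s, Rep ξ l t (x k)) :
    ∃ (c : MvPolynomial {j : Fin n // j ≠ l} ℂ) (a : ℕ → Polynomial (MvPolynomial (Fin n) ℂ)),
      aeval (fun j : {j : Fin n // j ≠ l} => ξ j) c ≠ 0 ∧
        ∀ k ∈ s, aeval (fun j : {j : Fin n // j ≠ l} => ξ j) c * x k = evT ξ t (a k) := by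
  choose! c p h1 h2 using hx
  refine ⟨∏ j ∈ s, c j, fun k => Polynomial.C (rename Subtype.val (∏ j ∈ s.erase k, c j)) * p k,
    ?_, ?_⟩
  · rw [map_prod]
    exact Finset.prod_ne_zero_iff.2 h1
  · intro k hk
    rw [map_mul (evT ξ t), evT_rename, ← h2 k hk, ← Finset.mul_prod_erase s c hk, map_mul]
    ring

end Rep

section Val

variable {L : Type} [Field L] [Algebra ℂ L] (K : IntermediateField ℂ L) (𝒪 : ValuationSubring L)
  (hK : ∀ c ∈ K, c ∈ 𝒪) (t : L) (ht1 : 𝒪.valuation t < 1)

include hK ht1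

theorem adjoin_mem {x : L} (hx : x ∈ Algebra.adjoin K ({t} : Set L)) : x ∈ 𝒪 := by
  induction hx using Algebra.adjoin_induction with
  | mem y hy =>
    rw [Set.mem_singleton_iff] at hy
    rw [hy]
    exact (𝒪.valuation_le_one_iff t).1 ht1.le
  | algebraMap r => exact hK _ r.2
  | add y z hy hz h1 h2 => exact 𝒪.add_mem _ _ h1 h2
  | mul y z hy hz h1 h2 => exact 𝒪.mul_mem _ _ h1 h2

theorem aeval_mem (p : Polynomial K) : Polynomial.aeval t p ∈ 𝒪 :=
  adjoin_mem K 𝒪 hK t ht1 (Polynomial.aeval_mem_adjoin_singleton K t)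

theorem coeff_zero (p : Polynomial K) (hp : 𝒪.valuation (Polynomial.aeval t p) < 1) :
    p.coeff 0 = 0 := by
  by_contra h0
  have h1 : Polynomial.aeval t p =
      (p.coeff 0 : L) + t * Polynomial.aeval t (Polynomial.divX p) := by
    conv_lhs => rw [← Polynomial.X_mul_divX_add p]
    rw [map_add, map_mul, Polynomial.aeval_X, Polynomial.aeval_C, add_comm]
    rfl
  have h2 : 𝒪.valuation (t * Polynomial.aeval t (Polynomial.divX p)) < 1 := by
    rw [map_mul]
    exact mul_lt_one_of_lt_of_le ht1 ((𝒪.valuation_le_one_iff _).2 (aeval_mem K 𝒪 hK t ht1 _))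
  have h3 : 𝒪.valuation ((p.coeff 0 : L)) < 1 := by
    have : (p.coeff 0 : L) =
        Polynomial.aeval t p - t * Polynomial.aeval t (Polynomial.divX p) := by
      rw [h1]; ring
    rw [this]
    exact (𝒪.valuation.map_sub _ _).trans_lt (max_lt hp h2)
  have h4 : ((p.coeff 0 : K) : L)⁻¹ ∈ 𝒪 := hK _ (K.inv_mem (p.coeff 0).2)
  have h5 : 𝒪.valuation (((p.coeff 0 : K) : L)⁻¹) ≤ 1 := (𝒪.valuation_le_one_iff _).2 h4
  have h6 : ((p.coeff 0 : K) : L) ≠ 0 := by
    intro h
    exact h0 (Subtype.ext h)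
  have h7 : 𝒪.valuation ((p.coeff 0 : L) * ((p.coeff 0 : K) : L)⁻¹) < 1 := by
    rw [map_mul]
    exact mul_lt_one_of_lt_of_le h3 h5
  rw [mul_inv_cancel₀ h6, map_one] at h7
  exact lt_irrefl _ h7

theorem transcendental (ht0 : t ≠ 0) : Transcendental K t := by
  rintro ⟨p, hp, h0⟩
  obtain ⟨q, hq, hnd⟩ := Polynomial.exists_eq_pow_rootMultiplicity_mul_and_not_dvd p hp 0
  rw [map_zero, sub_zero] at hq hnd
  rw [hq, map_mul, map_pow, Polynomial.aeval_X] at h0
  have h1 : Polynomial.aeval t q = 0 := by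
    rcases mul_eq_zero.1 h0 with h | h
    · exact absurd h (pow_ne_zero _ ht0)
    · exact h
  apply hnd
  rw [Polynomial.X_dvd_iff]
  apply coeff_zero K 𝒪 hK t ht1
  rw [h1, map_zero]
  exact zero_lt_one

end Val

theorem integral_mono {L : Type} [Field L] [Algebra ℂ L] (K' K : IntermediateField ℂ L)
    (h : K' ≤ K) (t g : L) (hg : IsIntegral (Algebra.adjoin K' ({t} : Set L)) g) :
    IsIntegral (Algebra.adjoin K ({t} : Set L)) g := by
  have hmem : ∀ x : Algebra.adjoin K' ({t} : Set L), (x : L) ∈ Algebra.adjoin K ({t} : Set L) := by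
    rintro ⟨x, hx⟩
    induction hx using Algebra.adjoin_induction with
    | mem y hy => exact Algebra.subset_adjoin hy
    | algebraMap r => exact (Algebra.adjoin K ({t} : Set L)).algebraMap_mem ⟨r.1, h r.2⟩
    | add y z hy hz h1 h2 => exact (Algebra.adjoin K ({t} : Set L)).add_mem h1 h2
    | mul y z hy hz h1 h2 => exact (Algebra.adjoin K ({t} : Set L)).mul_mem h1 h2
  let ι : Algebra.adjoin K' ({t} : Set L) →+* Algebra.adjoin K ({t} : Set L) :=
    RingHom.codRestrict (algebraMap (Algebra.adjoin K' ({t} : Set L)) L)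
      (Algebra.adjoin K ({t} : Set L)) hmem
  obtain ⟨p, hp, h0⟩ := hg
  refine ⟨p.map ι, hp.map ι, ?_⟩
  rw [Polynomial.eval₂_map]
  exact h0

/-- Pseudo-division. -/
theorem pseudo_div {B : Type} [CommRing B] (c : B) (m : ℕ) (hm : 0 < m) (M : Polynomial B)
    (hM : M.natDegree ≤ m) (hc : M.coeff m = c) :
    ∀ (d : ℕ) (h : Polynomial B), h.natDegree ≤ d →
      ∃ (j : ℕ) (q r : Polynomial B), Polynomial.C c ^ j * h = M * q + r ∧ r.natDegree < m := by
  intro d
  induction d with
  | zero =>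
    intro h hd
    exact ⟨0, 0, h, by simp, by omega⟩
  | succ d ih =>
    intro h hd
    by_cases hlt : h.natDegree < m
    · exact ⟨0, 0, h, by simp, hlt⟩
    · by_cases hdm : m ≤ d + 1
      · have h1 : (Polynomial.C c * h -
            M * (Polynomial.C (h.coeff (d + 1)) * Polynomial.X ^ (d + 1 - m))).natDegree ≤ d := by
          have h2 : (Polynomial.C c * h -
              M * (Polynomial.C (h.coeff (d + 1)) * Polynomial.X ^ (d + 1 - m))).natDegree
              ≤ d + 1 := by
            refine (Polynomial.natDegree_sub_le _ _).trans (max_le ?_ ?_)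
            · exact (Polynomial.natDegree_C_mul_le _ _).trans hd
            · refine (Polynomial.natDegree_mul_le).trans ?_
              have h3 : (Polynomial.C (h.coeff (d + 1)) *
                  Polynomial.X ^ (d + 1 - m)).natDegree ≤ d + 1 - m :=
                Polynomial.natDegree_C_mul_X_pow_le _ _
              omega
          have h4 : (Polynomial.C c * h -
              M * (Polynomial.C (h.coeff (d + 1)) * Polynomial.X ^ (d + 1 - m))).coeff
                (d + 1) = 0 := by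
            have h5 : (M * (Polynomial.C (h.coeff (d + 1)) *
                Polynomial.X ^ (d + 1 - m))).coeff (d + 1) = c * h.coeff (d + 1) := by
              have h6 : M * (Polynomial.C (h.coeff (d + 1)) * Polynomial.X ^ (d + 1 - m)) =
                  Polynomial.C (h.coeff (d + 1)) * (M * Polynomial.X ^ (d + 1 - m)) := by ring
              rw [h6, Polynomial.coeff_C_mul]
              have h7 : (M * Polynomial.X ^ (d + 1 - m)).coeff (d + 1) = M.coeff m := by
                conv_lhs => rw [show d + 1 = m + (d + 1 - m) by omega]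
                rw [show m + (d + 1 - m) - m = d + 1 - m by omega]
                exact Polynomial.coeff_mul_X_pow _ _ _
              rw [h7, hc]
              ring
            rw [Polynomial.coeff_sub, Polynomial.coeff_C_mul, h5, sub_self]
          have h8 := Polynomial.natDegree_le_pred h2 h4
          simpa using h8
        obtain ⟨j, q, r, hjq, hr⟩ := ih _ h1
        refine ⟨j + 1, q + Polynomial.C c ^ j *
          (Polynomial.C (h.coeff (d + 1)) * Polynomial.X ^ (d + 1 - m)), r, ?_, hr⟩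
        have : Polynomial.C c ^ (j + 1) * h =
            Polynomial.C c ^ j * (Polynomial.C c * h -
              M * (Polynomial.C (h.coeff (d + 1)) * Polynomial.X ^ (d + 1 - m))) +
            M * (Polynomial.C c ^ j *
              (Polynomial.C (h.coeff (d + 1)) * Polynomial.X ^ (d + 1 - m))) := by ring
        rw [this, hjq]
        ring
      · omega

theorem key {n : ℕ} {L : Type} [Field L] [Algebra ℂ L] (ξ : Fin n → L) (l : Fin n)
    (K : IntermediateField ℂ L) (t g : L) (hrep : ∀ x ∈ K, Rep ξ l t x) (hξK : ∀ i, ξ i ∈ K)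
    (ht0 : t ≠ 0) (𝒪 : ValuationSubring L)
    (hK : ∀ c ∈ K, c ∈ 𝒪) (ht1 : 𝒪.valuation t < 1)
    (hg : IsIntegral (Algebra.adjoin K ({t} : Set L)) g)
    (hg1 : 𝒪.valuation (g - 1) < 1)
    (B : Subalgebra ℂ L) (hB : B = Algebra.adjoin ℂ (Set.range ξ ∪ {t})) (hξB : ∀ i, ξ i ∈ B)
    (htB : t ∈ B) :
    ∃ (m : ℕ) (c : MvPolynomial {j : Fin n // j ≠ l} ℂ)
      (a : ℕ → Polynomial (MvPolynomial (Fin n) ℂ)) (e : Polynomial (MvPolynomial (Fin n) ℂ)),
      0 < m ∧
      c ≠ 0 ∧ aeval (fun j : {j // j ≠ l} => ξ j) c + ∑ k ∈ Finset.range m, evT ξ t (a k) =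
        t * evT ξ t e ∧
      ∀ φ : B →ₐ[ℂ] ℂ, eval (fun j : {j // j ≠ l} => φ ⟨ξ j, hξB j⟩) c ≠ 0 → ∀ r : ℂ,
        eval (fun j : {j // j ≠ l} => φ ⟨ξ j, hξB j⟩) c * r ^ m +
          ∑ k ∈ Finset.range m, evT (fun i => φ ⟨ξ i, hξB i⟩) (φ ⟨t, htB⟩) (a k) * r ^ k = 0 →
        ∀ h : Polynomial B, Polynomial.aeval g h = 0 → (h.map (φ : B →+* ℂ)).eval r = 0 := by
  classical
  have htr : Transcendental K t := transcendental K 𝒪 hK t ht1 ht0
  have hcl : IsIntegrallyClosed (Algebra.adjoin K ({t} : Set L)) :=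
    IsIntegrallyClosed.of_equiv (Polynomial.algEquivOfTranscendental K t htr).toRingEquiv
  set R := Algebra.adjoin K ({t} : Set L) with hR
  set μ := minpoly R g with hμ
  have hmon : μ.Monic := minpoly.monic hg
  have hm : 0 < μ.natDegree := minpoly.natDegree_pos hg
  -- the relation for `g`
  have hμg : g ^ μ.natDegree + ∑ k ∈ Finset.range μ.natDegree, (μ.coeff k : L) * g ^ k = 0 := by
    have h1 : Polynomial.aeval g μ = 0 := minpoly.aeval R g
    rw [Polynomial.aeval_eq_sum_range, Finset.sum_range_succ, hmon.coeff_natDegree, one_smul] at h1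
    rw [← h1, add_comm]
    rfl
  -- the value at one
  have hμ1 : ((μ.eval 1 : R) : L) = 1 + ∑ k ∈ Finset.range μ.natDegree, (μ.coeff k : L) := by
    rw [Polynomial.eval_eq_sum_range, Finset.sum_range_succ, hmon.coeff_natDegree]
    simp only [one_pow, mul_one]
    rw [Subalgebra.coe_add, Subalgebra.coe_one, add_comm]
    congr 1
    exact map_sum R.val _ _
  have hgO : g ∈ 𝒪 := by
    have h1 : g - 1 ∈ 𝒪 := (𝒪.valuation_le_one_iff _).1 hg1.le
    have h2 := 𝒪.add_mem _ _ h1 𝒪.one_mem
    rwa [sub_add_cancel] at h2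
  have hv1 : 𝒪.valuation ((μ.eval 1 : R) : L) < 1 := by
    let j : R →+* 𝒪 := RingHom.codRestrict (algebraMap R L) 𝒪
      (fun x => adjoin_mem K 𝒪 hK t ht1 x.2)
    have h1 := Polynomial.sub_dvd_eval_sub (⟨g, hgO⟩ : 𝒪) 1 (μ.map j)
    obtain ⟨s, hs⟩ := h1
    have h2 : (((μ.map j).eval (⟨g, hgO⟩ : 𝒪) : 𝒪) : L) = 0 := by
      have h3 : Polynomial.aeval g μ = 0 := minpoly.aeval R g
      rw [Polynomial.eval_map]
      have h4 : 𝒪.subtype (Polynomial.eval₂ j (⟨g, hgO⟩ : 𝒪) μ) =
          Polynomial.eval₂ (𝒪.subtype.comp j) (𝒪.subtype ⟨g, hgO⟩) μ :=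
        Polynomial.hom_eval₂ _ _ _ _
      change 𝒪.subtype (Polynomial.eval₂ j (⟨g, hgO⟩ : 𝒪) μ) = 0
      rw [h4]
      exact h3
    have h5 : (((μ.map j).eval (1 : 𝒪) : 𝒪) : L) = ((μ.eval 1 : R) : L) := by
      have h6 : (μ.map j).eval (1 : 𝒪) = j (μ.eval 1) := by
        rw [Polynomial.eval_map, ← map_one j, Polynomial.eval₂_at_apply]
      rw [h6]
      rfl
    have h7 : ((μ.eval 1 : R) : L) = - ((g - 1) * (s : L)) := by
      have h8 := congrArg 𝒪.subtype hs
      rw [map_sub, map_mul] at h8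
      have h9 : 𝒪.subtype (Polynomial.eval (⟨g, hgO⟩ : 𝒪) (Polynomial.map j μ)) = 0 := h2
      have h10 : 𝒪.subtype (Polynomial.eval (1 : 𝒪) (Polynomial.map j μ)) =
          ((μ.eval 1 : R) : L) := h5
      have h11 : 𝒪.subtype ((⟨g, hgO⟩ : 𝒪) - 1) = g - 1 := rfl
      have h12 : 𝒪.subtype s = (s : L) := rfl
      rw [h9, h10, h11, h12, zero_sub] at h8
      rw [← h8, neg_neg]
    rw [h7, Valuation.map_neg, map_mul]
    exact mul_lt_one_of_lt_of_le hg1 ((𝒪.valuation_le_one_iff _).2 s.2)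
  obtain ⟨p1, hp1⟩ : ∃ p1 : Polynomial K, Polynomial.aeval t p1 = ((μ.eval 1 : R) : L) := by
    exact Algebra.adjoin_mem_exists_aeval K t (μ.eval 1 : R).2
  have hp10 : p1.coeff 0 = 0 := coeff_zero K 𝒪 hK t ht1 p1 (by rw [hp1]; exact hv1)
  have hβ : ((μ.eval 1 : R) : L) = t * Polynomial.aeval t (Polynomial.divX p1) := by
    rw [← hp1]
    conv_lhs => rw [← Polynomial.X_mul_divX_add p1]
    rw [hp10, map_add, map_mul, Polynomial.aeval_X, Polynomial.aeval_C, map_zero, add_zero]
  -- common denominators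
  obtain ⟨c, a, hc0, ha⟩ := exists_common ξ l t (Finset.range (μ.natDegree + 1))
    (fun k => if k < μ.natDegree then (μ.coeff k : L) else
      Polynomial.aeval t (Polynomial.divX p1)) (by
      intro k _
      by_cases hk : k < μ.natDegree
      · simp only [hk, if_true]
        exact rep_adjoin ξ l t K hrep (μ.coeff k).2
      · simp only [hk, if_false]
        exact rep_adjoin ξ l t K hrep (Polynomial.aeval_mem_adjoin_singleton K t))
  have hak : ∀ k ∈ Finset.range μ.natDegree,
      evT ξ t (a k) = aeval (fun j : {j : Fin n // j ≠ l} => ξ j) c * (μ.coeff k : L) := by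
    intro k hk
    rw [← ha k (Finset.mem_range.2 ((Finset.mem_range.1 hk).trans (Nat.lt_succ_self _)))]
    simp only [Finset.mem_range.1 hk, if_true]
  have ham : evT ξ t (a μ.natDegree) = aeval (fun j : {j : Fin n // j ≠ l} => ξ j) c *
      Polynomial.aeval t (Polynomial.divX p1) := by
    rw [← ha _ (Finset.mem_range.2 (Nat.lt_succ_self _))]
    simp
  refine ⟨μ.natDegree, c, a, a μ.natDegree, hm, ?_, ?_, ?_⟩
  · rintro rfl
    exact hc0 (map_zero _)
  · rw [Finset.sum_congr rfl hak, ← Finset.mul_sum, ham]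
    have : aeval (fun j : {j : Fin n // j ≠ l} => ξ j) c +
        aeval (fun j : {j : Fin n // j ≠ l} => ξ j) c *
          ∑ k ∈ Finset.range μ.natDegree, (μ.coeff k : L) =
        aeval (fun j : {j : Fin n // j ≠ l} => ξ j) c * ((μ.eval 1 : R) : L) := by
      rw [hμ1]; ring
    rw [this, hβ]
    ring
  · intro φ hφ r hr h hh
    -- the polynomial over `B`
    let cB : B := aeval (fun j : {j : Fin n // j ≠ l} => (⟨ξ j, hξB j⟩ : B)) c
    let aB : ℕ → B := fun k => evT (fun i => (⟨ξ i, hξB i⟩ : B)) ⟨t, htB⟩ (a k)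
    have hcB : (cB : L) = aeval (fun j : {j : Fin n // j ≠ l} => ξ j) c := by
      change B.val (aeval (fun j : {j : Fin n // j ≠ l} => (⟨ξ j, hξB j⟩ : B)) c) = _
      rw [MvPolynomial.comp_aeval_apply]
      rfl
    have haB : ∀ k, (aB k : L) = evT ξ t (a k) := by
      intro k
      change B.val (evT (fun i => (⟨ξ i, hξB i⟩ : B)) ⟨t, htB⟩ (a k)) = _
      rw [map_evT]
      rfl
    have hφc : φ cB = eval (fun j : {j // j ≠ l} => φ ⟨ξ j, hξB j⟩) c := by
      change φ (aeval (fun j : {j : Fin n // j ≠ l} => (⟨ξ j, hξB j⟩ : B)) c) = _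
      rw [MvPolynomial.comp_aeval_apply]
      rw [MvPolynomial.aeval_eq_eval]
    have hφa : ∀ k, φ (aB k) = evT (fun i => φ ⟨ξ i, hξB i⟩) (φ ⟨t, htB⟩) (a k) := by
      intro k
      exact map_evT φ _ _ _
    let M : Polynomial B := Polynomial.C cB * Polynomial.X ^ μ.natDegree +
      ∑ k ∈ Finset.range μ.natDegree, Polynomial.C (aB k) * Polynomial.X ^ k
    have hMdeg : M.natDegree ≤ μ.natDegree := by
      refine (Polynomial.natDegree_add_le _ _).trans (max_le ?_ ?_)
      · exact Polynomial.natDegree_C_mul_X_pow_le _ _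
      · refine Polynomial.natDegree_sum_le_of_forall_le _ _ ?_
        intro k hk
        exact (Polynomial.natDegree_C_mul_X_pow_le _ _).trans (Finset.mem_range.1 hk).le
    have hMc : M.coeff μ.natDegree = cB := by
      simp only [M, Polynomial.coeff_add, Polynomial.finsetSum_coeff, Polynomial.coeff_C_mul,
        Polynomial.coeff_X_pow, if_true, mul_one]
      rw [Finset.sum_eq_zero, add_zero]
      intro k hk
      rw [if_neg (Finset.mem_range.1 hk).ne', mul_zero]
    have hMg : Polynomial.aeval g M = 0 := by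
      have h1 : Polynomial.aeval g M = (cB : L) * g ^ μ.natDegree +
          ∑ k ∈ Finset.range μ.natDegree, (aB k : L) * g ^ k := by
        simp only [M, map_add, map_mul, map_sum, map_pow, Polynomial.aeval_X, Polynomial.aeval_C]
        rfl
      rw [h1, hcB]
      have h2 : ∑ k ∈ Finset.range μ.natDegree, (aB k : L) * g ^ k =
          aeval (fun j : {j : Fin n // j ≠ l} => ξ j) c *
            ∑ k ∈ Finset.range μ.natDegree, (μ.coeff k : L) * g ^ k := by
        rw [Finset.mul_sum]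
        refine Finset.sum_congr rfl fun k hk => ?_
        rw [haB, hak k hk]
        ring
      rw [h2, ← mul_add, hμg, mul_zero]
    have hMr : (M.map (φ : B →+* ℂ)).eval r = 0 := by
      have h1 : (M.map (φ : B →+* ℂ)).eval r = φ cB * r ^ μ.natDegree +
          ∑ k ∈ Finset.range μ.natDegree, φ (aB k) * r ^ k := by
        simp only [M, Polynomial.eval_map, Polynomial.eval₂_add, Polynomial.eval₂_mul,
          Polynomial.eval₂_C, Polynomial.eval₂_X_pow, Polynomial.eval₂_finsetSum]
        rfl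
      rw [h1, hφc, ← hr]
      congr 1
      refine Finset.sum_congr rfl fun k _ => ?_
      rw [hφa]
    obtain ⟨j, q, rem, hdiv, hrem⟩ := pseudo_div cB μ.natDegree hm M hMdeg hMc h.natDegree h le_rfl
    have hremg : Polynomial.aeval g rem = 0 := by
      have h1 := congrArg (Polynomial.aeval g) hdiv
      rw [map_mul, hh, mul_zero, map_add, map_mul, hMg, zero_mul, zero_add] at h1
      exact h1.symm
    -- the remainder vanishes
    have hmemR : ∀ x : B, (x : L) ∈ R := by
      rintro ⟨x, hx'⟩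
      have hx : x ∈ Algebra.adjoin ℂ (Set.range ξ ∪ {t}) := hB ▸ hx'
      change x ∈ R
      clear hx'
      induction hx using Algebra.adjoin_induction with
      | mem y hy =>
        rcases hy with ⟨i, rfl⟩ | hy
        · exact R.algebraMap_mem ⟨ξ i, hξK i⟩
        · rw [Set.mem_singleton_iff] at hy
          rw [hy]
          exact Algebra.subset_adjoin rfl
      | algebraMap z => exact R.algebraMap_mem (algebraMap ℂ K z)
      | add y z hy hz h1 h2 => exact R.add_mem h1 h2
      | mul y z hy hz h1 h2 => exact R.mul_mem h1 h2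
    let ι : B →+* R := RingHom.codRestrict (algebraMap B L) R hmemR
    have hιinj : Function.Injective ι := by
      intro x y hxy
      have h1 := congrArg (fun z : R => (z : L)) hxy
      exact Subtype.ext h1
    have hrem0 : rem = 0 := by
      by_contra hne
      have h1 : rem.map ι ≠ 0 := by
        intro h2
        exact hne ((Polynomial.map_eq_zero_iff hιinj).1 h2)
      have h3 : Polynomial.aeval g (rem.map ι) = 0 := by
        rw [Polynomial.aeval_def, Polynomial.eval₂_map]
        exact hremg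
      have h4 := minpoly.IsIntegrallyClosed.degree_le_of_ne_zero (R := R) (s := g) h1 h3
      have h5 : μ.natDegree ≤ (rem.map ι).natDegree := Polynomial.natDegree_le_natDegree h4
      have h6 : (rem.map ι).natDegree ≤ rem.natDegree := Polynomial.natDegree_map_le
      omega
    rw [hrem0, add_zero] at hdiv
    have h1 := congrArg (fun p : Polynomial B => (p.map (φ : B →+* ℂ)).eval r) hdiv
    simp only [Polynomial.map_mul, Polynomial.eval_mul, hMr, zero_mul, Polynomial.map_pow,
      Polynomial.map_C, Polynomial.eval_pow, Polynomial.eval_C] at h1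
    rcases mul_eq_zero.1 h1 with h2 | h2
    · exfalso
      refine hφ ?_
      rw [← hφc]
      exact eq_zero_of_pow_eq_zero h2
    · exact h2

end MinPolyAux

theorem exists_minpoly {n : ℕ} {L : Type} [Field L] [Algebra ℂ L] (ξ : Fin n → L) (l : Fin n)
    (hl : IsAlgebraic (IntermediateField.adjoin ℂ (Set.range fun j : {j // j ≠ l} => ξ j)) (ξ l))
    (t g : L) (ht0 : t ≠ 0) (𝒪 : ValuationSubring L)
    (hK : ∀ c ∈ IntermediateField.adjoin ℂ (Set.range ξ), c ∈ 𝒪) (ht1 : 𝒪.valuation t < 1)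
    (hg : IsIntegral (Algebra.adjoin
      (IntermediateField.adjoin ℂ (Set.range fun j : {j // j ≠ l} => ξ j)) ({t} : Set L)) g)
    (hg1 : 𝒪.valuation (g - 1) < 1)
    (B : Subalgebra ℂ L) (hB : B = Algebra.adjoin ℂ (Set.range ξ ∪ {t})) (hξB : ∀ i, ξ i ∈ B)
    (htB : t ∈ B) :
    ∃ (m : ℕ) (c : MvPolynomial {j : Fin n // j ≠ l} ℂ)
      (a : ℕ → Polynomial (MvPolynomial (Fin n) ℂ)) (e : Polynomial (MvPolynomial (Fin n) ℂ)),
      0 < m ∧
      c ≠ 0 ∧ aeval (fun j : {j // j ≠ l} => ξ j) c + ∑ k ∈ Finset.range m, evT ξ t (a k) =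
        t * evT ξ t e ∧
      ∀ φ : B →ₐ[ℂ] ℂ, eval (fun j : {j // j ≠ l} => φ ⟨ξ j, hξB j⟩) c ≠ 0 → ∀ r : ℂ,
        eval (fun j : {j // j ≠ l} => φ ⟨ξ j, hξB j⟩) c * r ^ m +
          ∑ k ∈ Finset.range m, evT (fun i => φ ⟨ξ i, hξB i⟩) (φ ⟨t, htB⟩) (a k) * r ^ k = 0 →
        ∀ h : Polynomial B, Polynomial.aeval g h = 0 → (h.map (φ : B →+* ℂ)).eval r = 0 := by
  have hξK : ∀ i, ξ i ∈ IntermediateField.adjoin ℂ (Set.range ξ) := fun i =>
    IntermediateField.subset_adjoin _ _ ⟨i, rfl⟩
  have hle : IntermediateField.adjoin ℂ (Set.range fun j : {j // j ≠ l} => ξ j) ≤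
      IntermediateField.adjoin ℂ (Set.range ξ) := by
    rw [IntermediateField.adjoin_le_iff]
    rintro _ ⟨j, rfl⟩
    exact hξK j
  have hrep : ∀ x ∈ IntermediateField.adjoin ℂ (Set.range ξ), MinPolyAux.Rep ξ l t x := by
    intro x hx
    refine MinPolyAux.rep_K ξ l t _ (fun y hy => MinPolyAux.rep_K' ξ l t hy) ?_ hl hx
    intro i hi
    exact IntermediateField.subset_adjoin _ _ ⟨⟨i, hi⟩, rfl⟩
  exact MinPolyAux.key ξ l _ t g hrep hξK ht0 𝒪 hK ht1
    (MinPolyAux.integral_mono _ _ hle t g hg) hg1 B hB hξB htB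

end Pool.Agent.Lib.MP_209724_lc.MV
end

section

/-!
Analytic families of simple roots over a convex domain.
-/

namespace Pool.Agent.Lib.MP_209724_lc.MV

open Filter Topology Metric Set

set_option linter.unusedSectionVars false

section RootFamily

variable {E : Type} [NormedAddCommGroup E] [NormedSpace ℂ E] [FiniteDimensional ℂ E]

/-- The evaluation map as a function of both variables. -/
private noncomputable def rfF (G : E → Polynomial ℂ) (m : ℕ) (z : E × ℂ) : ℂ :=
  ∑ k ∈ Finset.range (m + 1), (G z.1).coeff k * z.2 ^ k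

private lemma rfF_eq {D : Set E} {G : E → Polynomial ℂ} {m : ℕ}
    (hG : ∀ p ∈ D, (G p).Monic ∧ (G p).natDegree = m) {p : E} (hp : p ∈ D) (θ : ℂ) :
    rfF G m (p, θ) = (G p).eval θ := by
  rw [rfF, Polynomial.eval_eq_sum_range, (hG p hp).2]

private lemma rfF_analyticAt {D : Set E} {G : E → Polynomial ℂ} {m : ℕ}
    (hcoeff : ∀ k, AnalyticOnNhd ℂ (fun p => (G p).coeff k) D) {p : E} (hp : p ∈ D) (θ : ℂ) :
    AnalyticAt ℂ (rfF G m) (p, θ) := by
  unfold rfF
  apply Finset.analyticAt_fun_sum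
  intro k _
  have h1 : AnalyticAt ℂ (fun z : E × ℂ => (G z.1).coeff k) (p, θ) :=
    AnalyticAt.comp (g := fun p => (G p).coeff k) (f := Prod.fst) (x := (p, θ))
      (hcoeff k p hp) analyticAt_fst
  exact h1.mul (analyticAt_snd.pow k)

private lemma rfF_deriv {D : Set E} {G : E → Polynomial ℂ} {m : ℕ}
    (hG : ∀ p ∈ D, (G p).Monic ∧ (G p).natDegree = m)
    (hcoeff : ∀ k, AnalyticOnNhd ℂ (fun p => (G p).coeff k) D) {p : E} (hp : p ∈ D) (θ : ℂ) :
    fderiv ℂ (rfF G m) (p, θ) (0, 1) = (Polynomial.derivative (G p)).eval θ := by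
  have h1 : HasFDerivAt (rfF G m) (fderiv ℂ (rfF G m) (p, θ)) (p, θ) :=
    (rfF_analyticAt hcoeff hp θ).differentiableAt.hasFDerivAt
  have h2 : HasDerivAt (fun t : ℂ => (p, t)) ((0 : E), (1 : ℂ)) θ :=
    (hasDerivAt_const θ p).prodMk (hasDerivAt_id θ)
  have h3 : HasDerivAt (fun t : ℂ => rfF G m (p, t)) (fderiv ℂ (rfF G m) (p, θ) (0, 1)) θ :=
    h1.comp_hasDerivAt θ h2
  have h4 : (fun t : ℂ => rfF G m (p, t)) = fun t => (G p).eval t := by
    ext t
    exact rfF_eq hG hp t
  rw [h4] at h3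
  exact h3.unique ((G p).hasDerivAt θ)

/-- The local inverse data at a simple root. -/
private lemma rf_local {D : Set E} {G : E → Polynomial ℂ} {m : ℕ}
    (hG : ∀ p ∈ D, (G p).Monic ∧ (G p).natDegree = m)
    (hcoeff : ∀ k, AnalyticOnNhd ℂ (fun p => (G p).coeff k) D)
    (hsep : ∀ p ∈ D, (G p).Separable) {p₁ : E} (hp₁ : p₁ ∈ D) {θ₁ : ℂ}
    (hθ₁ : (G p₁).eval θ₁ = 0) :
    ∃ Φ : OpenPartialHomeomorph (E × ℂ) (E × ℂ), (p₁, θ₁) ∈ Φ.source ∧
      (∀ z, Φ z = (z.1, rfF G m z)) ∧ DifferentiableAt ℂ Φ.symm (p₁, 0) := by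
  have hder : (Polynomial.derivative (G p₁)).eval θ₁ ≠ 0 := by
    intro h
    obtain ⟨a, b, hab⟩ := hsep p₁ hp₁
    have := congrArg (Polynomial.eval θ₁) hab
    rw [Polynomial.eval_add, Polynomial.eval_mul, Polynomial.eval_mul, hθ₁, h] at this
    simp at this
  set F' : E × ℂ →L[ℂ] ℂ := fderiv ℂ (rfF G m) (p₁, θ₁) with hF'
  have hF1 : F' (0, 1) ≠ 0 := by
    rw [hF', rfF_deriv hG hcoeff hp₁]
    exact hder
  have hFs : HasStrictFDerivAt (rfF G m) F' (p₁, θ₁) :=
    (rfF_analyticAt hcoeff hp₁ θ₁).hasStrictFDerivAt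
  have hΨs : HasStrictFDerivAt (fun z : E × ℂ => (z.1, rfF G m z))
      ((ContinuousLinearMap.fst ℂ E ℂ).prod F') (p₁, θ₁) :=
    hasStrictFDerivAt_fst.prodMk hFs
  have hF'eq : ∀ z : E × ℂ, F' z = F' (z.1, 0) + z.2 * F' (0, 1) := by
    intro z
    have : z = (z.1, 0) + z.2 • ((0 : E), (1 : ℂ)) := by
      ext <;> simp
    conv_lhs => rw [this]
    rw [map_add, map_smul, smul_eq_mul]
  have hinj : ((ContinuousLinearMap.fst ℂ E ℂ).prod F').ker = ⊥ := by
    rw [LinearMap.ker_eq_bot']
    intro z hz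
    have hz' : (z.1, F' z) = ((0 : E), (0 : ℂ)) := hz
    have h1 : z.1 = 0 := congrArg Prod.fst hz'
    have h2 : F' z = 0 := congrArg Prod.snd hz'
    rw [hF'eq, h1] at h2
    have h3 : ((0 : E), (0 : ℂ)) = 0 := rfl
    rw [h3, map_zero, zero_add] at h2
    have h4 : z.2 = 0 := (mul_eq_zero.1 h2).resolve_right hF1
    exact Prod.ext h1 h4
  have hsurj : ((ContinuousLinearMap.fst ℂ E ℂ).prod F').range = ⊤ := by
    rw [LinearMap.range_eq_top]
    intro y
    refine ⟨(y.1, (y.2 - F' (y.1, 0)) / F' (0, 1)), ?_⟩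
    change (y.1, F' (y.1, (y.2 - F' (y.1, 0)) / F' (0, 1))) = y
    rw [hF'eq]
    ext
    · rfl
    · simp only
      field_simp
      ring
  let e : (E × ℂ) ≃L[ℂ] (E × ℂ) := ContinuousLinearEquiv.ofBijective _ hinj hsurj
  have he : (e : E × ℂ →L[ℂ] E × ℂ) = (ContinuousLinearMap.fst ℂ E ℂ).prod F' :=
    ContinuousLinearEquiv.coe_ofBijective _ hinj hsurj
  have hΨe : HasStrictFDerivAt (fun z : E × ℂ => (z.1, rfF G m z)) (e : E × ℂ →L[ℂ] E × ℂ)
      (p₁, θ₁) := by
    rw [he]
    exact hΨs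
  refine ⟨hΨe.toOpenPartialHomeomorph _, hΨe.mem_toOpenPartialHomeomorph_source,
    fun z => rfl, ?_⟩
  have h5 := hΨe.to_localInverse
  have h6 : ((p₁, θ₁).1, rfF G m (p₁, θ₁)) = (p₁, 0) := by
    rw [rfF_eq hG hp₁, hθ₁]
  rw [h6] at h5
  exact h5.differentiableAt

/-- The space of roots over `D`. -/
private def RX (D : Set E) (G : E → Polynomial ℂ) : Type :=
  {z : D × ℂ // (G z.1).eval z.2 = 0}

private instance (D : Set E) (G : E → Polynomial ℂ) : TopologicalSpace (RX D G) :=
  inferInstanceAs (TopologicalSpace {z : D × ℂ // (G z.1).eval z.2 = 0})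

private instance (D : Set E) (G : E → Polynomial ℂ) : T2Space (RX D G) :=
  inferInstanceAs (T2Space {z : D × ℂ // (G z.1).eval z.2 = 0})

private def RXp (D : Set E) (G : E → Polynomial ℂ) (x : RX D G) : D := x.1.1

private lemma RXp_continuous (D : Set E) (G : E → Polynomial ℂ) : Continuous (RXp D G) :=
  continuous_fst.comp continuous_subtype_val

private lemma rf_cont_eval {D : Set E} {G : E → Polynomial ℂ} {m : ℕ}
    (hG : ∀ p ∈ D, (G p).Monic ∧ (G p).natDegree = m)
    (hcoeff : ∀ k, AnalyticOnNhd ℂ (fun p => (G p).coeff k) D) :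
    Continuous fun z : D × ℂ => (G z.1).eval z.2 := by
  have h1 : (fun z : D × ℂ => (G z.1).eval z.2) = fun z : D × ℂ => rfF G m (z.1.1, z.2) := by
    ext z
    exact (rfF_eq hG z.1.2 z.2).symm
  rw [h1, continuous_iff_continuousAt]
  intro z
  have h2 : ContinuousAt (rfF G m) (z.1.1, z.2) :=
    (rfF_analyticAt hcoeff z.1.2 z.2).continuousAt
  have h3 : ContinuousAt (fun z : D × ℂ => ((z.1 : E), z.2)) z := by fun_prop
  exact ContinuousAt.comp (f := fun z : D × ℂ => ((z.1 : E), z.2)) h2 h3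

private lemma rf_closedMap {D : Set E} (hDo : IsOpen D) {G : E → Polynomial ℂ} {m : ℕ}
    (hG : ∀ p ∈ D, (G p).Monic ∧ (G p).natDegree = m)
    (hcoeff : ∀ k, AnalyticOnNhd ℂ (fun p => (G p).coeff k) D) :
    IsClosedMap (RXp D G) := by
  have : ProperSpace E := FiniteDimensional.proper ℂ E
  have : LocallyCompactSpace D := hDo.locallyCompactSpace
  apply IsProperMap.isClosedMap
  rw [isProperMap_iff_isCompact_preimage]
  refine ⟨RXp_continuous D G, ?_⟩
  intro K hK
  -- the roots are bounded over `K`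
  have hbd : ∃ R : ℝ, ∀ x : RX D G, RXp D G x ∈ K → ‖x.1.2‖ ≤ R := by
    have hc : Continuous fun p : D => ∑ k ∈ Finset.range m, ‖(G p.1).coeff k‖ + 1 := by
      apply Continuous.add _ continuous_const
      apply continuous_finsetSum
      intro k _
      apply Continuous.norm
      rw [continuous_iff_continuousAt]
      intro p
      exact ContinuousAt.comp (f := fun p : D => (p : E)) (hcoeff k p.1 p.2).continuousAt
        continuous_subtype_val.continuousAt
    obtain ⟨R, hR⟩ := (hK.image hc).bddAbove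
    refine ⟨R, fun x hx => ?_⟩
    refine le_trans ?_ (hR (Set.mem_image_of_mem _ hx))
    have hmon := (hG x.1.1 x.1.1.2).1
    have hroot : (G x.1.1).IsRoot x.1.2 := x.2
    have h1 := hroot.norm_lt_cauchyBound hmon.ne_zero
    have h2 : ((Polynomial.cauchyBound (G x.1.1) : NNReal) : ℝ) ≤
        ∑ k ∈ Finset.range m, ‖(G x.1.1).coeff k‖ + 1 := by
      rw [Polynomial.cauchyBound, (hG x.1.1 x.1.1.2).2, hmon.leadingCoeff, nnnorm_one, div_one]
      push_cast
      have h3 : (Finset.range m).sup (fun k => ‖(G x.1.1).coeff k‖₊) ≤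
          ∑ k ∈ Finset.range m, ‖(G x.1.1).coeff k‖₊ := by
        apply Finset.sup_le
        intro k hk
        exact Finset.single_le_sum (f := fun k => ‖(G x.1.1).coeff k‖₊) (fun _ _ => zero_le) hk
      have h4 : (((Finset.range m).sup (fun k => ‖(G x.1.1).coeff k‖₊) : NNReal) : ℝ) ≤
          ((∑ k ∈ Finset.range m, ‖(G x.1.1).coeff k‖₊ : NNReal) : ℝ) := by exact_mod_cast h3
      push_cast at h4
      linarith
    have h5 : ‖x.1.2‖ < ((Polynomial.cauchyBound (G x.1.1) : NNReal) : ℝ) := by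
      exact_mod_cast h1
    exact (h5.trans_le h2).le
  obtain ⟨R, hR⟩ := hbd
  have hclosed : IsClosed {z : D × ℂ | (G z.1).eval z.2 = 0} :=
    isClosed_eq (rf_cont_eval hG hcoeff) continuous_const
  have hemb : Topology.IsClosedEmbedding (fun x : RX D G => x.1) :=
    hclosed.isClosedEmbedding_subtypeVal
  have hcomp : IsCompact (K ×ˢ closedBall (0 : ℂ) R) := hK.prod (isCompact_closedBall _ _)
  have h6 := hemb.isCompact_preimage hcomp
  have h7 : RXp D G ⁻¹' K = (fun x : RX D G => x.1) ⁻¹' (K ×ˢ closedBall (0 : ℂ) R) := by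
    ext x
    constructor
    · intro hx
      exact ⟨hx, by simpa using hR x hx⟩
    · intro hx
      exact hx.1
  rw [h7]
  exact h6

private lemma rf_covering {D : Set E} (hDo : IsOpen D) {G : E → Polynomial ℂ} {m : ℕ}
    (hG : ∀ p ∈ D, (G p).Monic ∧ (G p).natDegree = m)
    (hcoeff : ∀ k, AnalyticOnNhd ℂ (fun p => (G p).coeff k) D)
    (hsep : ∀ p ∈ D, (G p).Separable) : IsCoveringMap (RXp D G) := by
  classical
  rw [isCoveringMap_iff_isCoveringMapOn_univ]
  apply (rf_closedMap hDo hG hcoeff).isCoveringMapOn_of_isLocalHomeomorphOn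
  · intro p _
    have h1 : Set.Finite {θ : ℂ | (G p.1).IsRoot θ} :=
      Polynomial.finite_setOfPred_isRoot (hG p.1 p.2).1.ne_zero
    apply Set.Finite.of_finite_image (f := fun x : RX D G => x.1.2)
    · apply h1.subset
      rintro _ ⟨x, hx, rfl⟩
      have hx' : x.1.1 = p := hx
      change (G p.1).eval x.1.2 = 0
      rw [← hx']
      exact x.2
    · intro x hx y hy hxy
      have hx' : x.1.1 = p := hx
      have hy' : y.1.1 = p := hy
      apply Subtype.ext
      exact Prod.ext (hx'.trans hy'.symm) hxy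
  · apply IsLocalHomeomorphOn.mk
    intro x _
    obtain ⟨Φ, hΦs, hΦ, -⟩ := rf_local hG hcoeff hsep x.1.1.2 x.2
    have hkey : ∀ p : D, ((p : E), (0 : ℂ)) ∈ Φ.target →
        (Φ.symm (p, 0)).1 = p ∧ (G p).eval (Φ.symm (p, 0)).2 = 0 := by
      intro p hp
      have h1 := Φ.right_inv hp
      rw [hΦ] at h1
      have h2 : (Φ.symm ((p : E), (0 : ℂ))).1 = p := (Prod.ext_iff.1 h1).1
      have h3 : rfF G m (Φ.symm ((p : E), (0 : ℂ))) = 0 := (Prod.ext_iff.1 h1).2
      refine ⟨h2, ?_⟩
      have h4 : ((p : E), (Φ.symm ((p : E), (0 : ℂ))).2) = Φ.symm ((p : E), (0 : ℂ)) :=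
        Prod.ext h2.symm rfl
      rw [← rfF_eq hG p.2, h4, h3]
    let inv : D → RX D G := fun p =>
      if h : ((p : E), (0 : ℂ)) ∈ Φ.target then ⟨(p, (Φ.symm (p, 0)).2), (hkey p h).2⟩ else x
    have hinv : ∀ p : D, ((p : E), (0 : ℂ)) ∈ Φ.target →
        (inv p).1 = (p, (Φ.symm (p, 0)).2) := by
      intro p hp
      simp only [inv]
      rw [dif_pos hp]
    have hcoe : Continuous fun y : RX D G => ((y.1.1 : E), y.1.2) := by
      have h1 : Continuous fun y : RX D G => y.1 := continuous_subtype_val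
      exact (continuous_subtype_val.comp (continuous_fst.comp h1)).prodMk
        (continuous_snd.comp h1)
    have hcoe2 : Continuous fun p : D => ((p : E), (0 : ℂ)) :=
      continuous_subtype_val.prodMk continuous_const
    have hmap : ∀ y : RX D G, Φ ((y.1.1 : E), y.1.2) = ((y.1.1 : E), (0 : ℂ)) := by
      intro y
      rw [hΦ, rfF_eq hG y.1.1.2, y.2]
    let e : OpenPartialHomeomorph (RX D G) D :=
      { toFun := RXp D G
        invFun := inv
        source := {y | ((y.1.1 : E), y.1.2) ∈ Φ.source}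
        target := {p | ((p : E), (0 : ℂ)) ∈ Φ.target}
        map_source' := by
          intro y hy
          have h1 := Φ.map_source hy
          rw [hmap] at h1
          exact h1
        map_target' := by
          intro p hp
          have h1 := Φ.map_target hp
          have h2 : ((inv p).1.1 : E) = (Φ.symm ((p : E), (0 : ℂ))).1 := by
            rw [hinv p hp]
            exact (hkey p hp).1.symm
          have h3 : (inv p).1.2 = (Φ.symm ((p : E), (0 : ℂ))).2 := by
            rw [hinv p hp]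
          change (((inv p).1.1 : E), (inv p).1.2) ∈ Φ.source
          rw [h2, h3]
          exact h1
        left_inv' := by
          intro y hy
          have h1 := Φ.left_inv hy
          rw [hmap] at h1
          have h2 : ((RXp D G y : E), (0 : ℂ)) ∈ Φ.target := by
            have := Φ.map_source hy
            rw [hmap] at this
            exact this
          apply Subtype.ext
          rw [hinv _ h2]
          apply Prod.ext
          · rfl
          · exact (Prod.ext_iff.1 h1).2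
        right_inv' := by
          intro p hp
          change (inv p).1.1 = p
          rw [hinv p hp]
        open_source := Φ.open_source.preimage hcoe
        open_target := Φ.open_target.preimage hcoe2
        continuousOn_toFun := (RXp_continuous D G).continuousOn
        continuousOn_invFun := by
          have hind : Topology.IsInducing (fun y : RX D G => y.1) := Topology.IsInducing.subtypeVal
          rw [hind.continuousOn_iff]
          have h1 : ContinuousOn (fun p : D => (p, (Φ.symm ((p : E), (0 : ℂ))).2))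
              {p | ((p : E), (0 : ℂ)) ∈ Φ.target} := by
            apply ContinuousOn.prodMk continuousOn_id
            apply continuous_snd.comp_continuousOn
            exact Φ.continuousOn_symm.comp hcoe2.continuousOn (fun p hp => hp)
          apply h1.congr
          intro p hp
          exact hinv p hp }
    exact ⟨e, hΦs, fun _ _ => rfl⟩

/-- Analytic families of simple roots over a convex domain. -/
theorem exists_root_family {E : Type} [NormedAddCommGroup E] [NormedSpace ℂ E]
    [FiniteDimensional ℂ E] {D : Set E} (hDo : IsOpen D) (hDc : Convex ℝ D)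
    (G : E → Polynomial ℂ) (m : ℕ) (hG : ∀ p ∈ D, (G p).Monic ∧ (G p).natDegree = m)
    (hcoeff : ∀ k, AnalyticOnNhd ℂ (fun p => (G p).coeff k) D)
    (hsep : ∀ p ∈ D, (G p).Separable) (p₀ : E) (hp₀ : p₀ ∈ D) (θ₀ : ℂ)
    (hθ₀ : (G p₀).eval θ₀ = 0) :
    ∃ θ : E → ℂ, DifferentiableOn ℂ θ D ∧ θ p₀ = θ₀ ∧ ∀ p ∈ D, (G p).eval (θ p) = 0 := by
  classical
  have hcov := rf_covering hDo hG hcoeff hsep
  have : ContractibleSpace D := hDc.contractibleSpace ⟨p₀, hp₀⟩
  have : LocallyPathConnectedSpace D := hDo.locallyPathConnectedSpace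
  obtain ⟨F, ⟨hF0, hF⟩, -⟩ := hcov.existsUnique_continuousMap_lifts (ContinuousMap.id D)
    (⟨p₀, hp₀⟩ : D) (⟨(⟨p₀, hp₀⟩, θ₀), hθ₀⟩ : RX D G) rfl
  have hF' : ∀ p : D, (F p).1.1 = p := fun p => congrFun hF p
  let θ : E → ℂ := fun p => if h : p ∈ D then (F ⟨p, h⟩).1.2 else 0
  have hθ : ∀ p : D, θ p = (F p).1.2 := by
    intro p
    simp only [θ]
    rw [dif_pos p.2]
  have hroot : ∀ p ∈ D, (G p).eval (θ p) = 0 := by
    intro p hp
    have h1 := (F ⟨p, hp⟩).2
    rw [hF'] at h1
    rw [hθ ⟨p, hp⟩]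
    exact h1
  have hcont : ContinuousOn θ D := by
    rw [continuousOn_iff_continuous_domRestrict]
    have h1 : D.domRestrict θ = fun p : D => (F p).1.2 := by
      ext p
      exact hθ p
    rw [h1]
    have h2 : Continuous fun y : RX D G => y.1 := continuous_subtype_val
    exact continuous_snd.comp (h2.comp F.continuous)
  refine ⟨θ, ?_, ?_, hroot⟩
  · intro p hp
    obtain ⟨Φ, hΦs, hΦ, hdiff⟩ := rf_local hG hcoeff hsep hp (hroot p hp)
    have h1 : ∀ᶠ q in 𝓝 p, (q, θ q) ∈ Φ.source := by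
      have h2 : ContinuousAt (fun q => (q, θ q)) p :=
        continuousAt_id.prodMk (hcont.continuousAt (hDo.mem_nhds hp))
      exact h2.preimage_mem_nhds (Φ.open_source.mem_nhds hΦs)
    have h3 : θ =ᶠ[𝓝 p] fun q => (Φ.symm (q, 0)).2 := by
      filter_upwards [h1, hDo.mem_nhds hp] with q hq hqD
      have h4 := Φ.left_inv hq
      rw [hΦ, rfF_eq hG hqD, hroot q hqD] at h4
      exact (Prod.ext_iff.1 h4).2.symm
    have h5 : DifferentiableAt ℂ (fun q : E => (Φ.symm (q, 0)).2) p := by
      have h6 : DifferentiableAt ℂ (fun q : E => (q, (0 : ℂ))) p :=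
        differentiableAt_id.prodMk (differentiableAt_const _)
      exact (DifferentiableAt.comp (f := fun q : E => (q, (0 : ℂ))) p hdiff h6).snd
    exact (h5.congr_of_eventuallyEq h3).differentiableWithinAt
  · have h1 := hθ ⟨p₀, hp₀⟩
    rw [hF0] at h1
    exact h1

end RootFamily

end Pool.Agent.Lib.MP_209724_lc.MV
end

section

namespace Pool.Agent.Lib.MP_209724_lc.MV

open Polynomial

theorem sheets_alg {R L : Type} [CommRing R] [IsDomain R] [IsIntegrallyClosed R] [CharZero R]
    [Field L] [Algebra R L] [FaithfulSMul R L] (A : Subalgebra R L) (hA : A.FG)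
    (halg : ∀ x ∈ A, IsAlgebraic R x) :
    ∃ (θ : L) (G U V : R[X]) (d₀ d : R), θ ∈ A ∧ G.Monic ∧ aeval θ G = 0 ∧
      (∀ q : R[X], aeval θ q = 0 → G ∣ q) ∧ d₀ ≠ 0 ∧
      U * G + V * derivative G = C d₀ ∧ d ≠ 0 ∧
      ∀ x ∈ A, ∃ (k : ℕ) (q : R[X]), (algebraMap R L d) ^ k * x = aeval θ q := by
  classical
  let : Algebra (FractionRing R) L := FractionRing.liftAlgebra R L
  have : IsScalarTower R (FractionRing R) L := FractionRing.isScalarTower_liftAlgebra R L
  have hinj : Function.Injective (algebraMap R L) := FaithfulSMul.algebraMap_injective R L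
  have : CharZero (FractionRing R) :=
    charZero_of_injective_algebraMap (IsFractionRing.injective R (FractionRing R))
  obtain ⟨s, hs⟩ := hA
  have hsA : ∀ x ∈ (s : Set L), x ∈ A := fun x hx => hs ▸ Algebra.subset_adjoin hx
  have hsalg : ∀ x ∈ (s : Set L), IsAlgebraic (FractionRing R) x := fun x hx =>
    (halg x (hsA x hx)).extendScalars (IsFractionRing.injective R (FractionRing R))
  set F := IntermediateField.adjoin (FractionRing R) (s : Set L) with hF
  have hFadj : F.toSubalgebra = Algebra.adjoin (FractionRing R) (s : Set L) :=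
    IntermediateField.adjoin_toSubalgebra_of_isAlgebraic hsalg
  have : FiniteDimensional (FractionRing R) F :=
    IntermediateField.finiteDimensional_adjoin (fun x hx => (hsalg x hx).isIntegral)
  obtain ⟨α, hα⟩ := Field.exists_primitive_element (FractionRing R) F
  -- every element of F is a fraction of an element of A
  have hfrac : ∀ x ∈ Algebra.adjoin (FractionRing R) (s : Set L), ∃ r : R, r ≠ 0 ∧
      algebraMap R L r * x ∈ A := by
    intro x hx
    induction hx using Algebra.adjoin_induction with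
    | mem x hx => exact ⟨1, one_ne_zero, by simpa using hsA x hx⟩
    | algebraMap k =>
      obtain ⟨a, b, hb, rfl⟩ := IsFractionRing.div_surjective (A := R) k
      refine ⟨b, nonZeroDivisors.ne_zero hb, ?_⟩
      have hb' : algebraMap R L b ≠ 0 := by
        rw [Ne, FaithfulSMul.algebraMap_eq_zero_iff]; exact nonZeroDivisors.ne_zero hb
      rw [map_div₀, ← IsScalarTower.algebraMap_apply, ← IsScalarTower.algebraMap_apply,
        mul_div_cancel₀ _ hb']
      exact A.algebraMap_mem a
    | add x y _ _ hx hy =>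
      obtain ⟨r, hr, hx⟩ := hx
      obtain ⟨r', hr', hy⟩ := hy
      refine ⟨r * r', mul_ne_zero hr hr', ?_⟩
      have : algebraMap R L (r * r') * (x + y) =
          algebraMap R L r' * (algebraMap R L r * x) +
            algebraMap R L r * (algebraMap R L r' * y) := by
        rw [map_mul]; ring
      rw [this]
      exact A.add_mem (A.mul_mem (A.algebraMap_mem _) hx) (A.mul_mem (A.algebraMap_mem _) hy)
    | mul x y _ _ hx hy =>
      obtain ⟨r, hr, hx⟩ := hx
      obtain ⟨r', hr', hy⟩ := hy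
      refine ⟨r * r', mul_ne_zero hr hr', ?_⟩
      have : algebraMap R L (r * r') * (x * y) =
          (algebraMap R L r * x) * (algebraMap R L r' * y) := by
        rw [map_mul]; ring
      rw [this]
      exact A.mul_mem hx hy
  -- every element of F is a polynomial in α
  have hpoly : ∀ x ∈ Algebra.adjoin (FractionRing R) (s : Set L),
      ∃ p : (FractionRing R)[X], aeval (α : L) p = x := by
    intro x hx
    have hx' : x ∈ F := by
      have : x ∈ F.toSubalgebra := by rw [hFadj]; exact hx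
      exact this
    have h1 : (⟨x, hx'⟩ : F) ∈ (IntermediateField.adjoin (FractionRing R) {α}) := by
      rw [hα]; exact IntermediateField.mem_top
    have h2 : (IntermediateField.adjoin (FractionRing R) {α}).toSubalgebra =
        Algebra.adjoin (FractionRing R) {α} :=
      IntermediateField.adjoin_simple_toSubalgebra_of_isAlgebraic
        (Algebra.IsAlgebraic.isAlgebraic α)
    have h3 : (⟨x, hx'⟩ : F) ∈ Algebra.adjoin (FractionRing R) {α} := by
      rw [← h2]; exact h1
    rw [Algebra.adjoin_singleton_eq_range_aeval] at h3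
    obtain ⟨p, hp⟩ := h3
    refine ⟨p, ?_⟩
    have := congrArg (fun y : F => (y : L)) hp
    simp only at this
    rw [← this]
    change _ = F.val (aeval α p)
    rw [← Polynomial.aeval_algHom_apply]
    rfl
  -- the primitive element
  have hαF : (α : L) ∈ Algebra.adjoin (FractionRing R) (s : Set L) := by
    rw [← hFadj]; exact α.2
  obtain ⟨r₁, hr₁, hα₁⟩ := hfrac _ hαF
  obtain ⟨r₂, hr₂, hα₂⟩ := (halg _ hα₁).exists_integral_multiple
  obtain ⟨θ, hθ⟩ : ∃ θ : L, θ = algebraMap R L (r₂ * r₁) * α := ⟨_, rfl⟩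
  have hr : r₂ * r₁ ≠ 0 := mul_ne_zero hr₂ hr₁
  have hr' : algebraMap R L (r₂ * r₁) ≠ 0 := by
    rw [Ne, FaithfulSMul.algebraMap_eq_zero_iff]; exact hr
  have hθA : θ ∈ A := by
    rw [hθ, map_mul, mul_assoc]
    exact A.mul_mem (A.algebraMap_mem _) hα₁
  have hθint : IsIntegral R θ := by
    rw [hθ, map_mul, mul_assoc, ← Algebra.smul_def]
    exact hα₂
  have hpolyθ : ∀ x ∈ Algebra.adjoin (FractionRing R) (s : Set L),
      ∃ p : (FractionRing R)[X], aeval θ p = x := by
    intro x hx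
    obtain ⟨p, hp⟩ := hpoly x hx
    refine ⟨p.comp (C ((algebraMap R (FractionRing R) (r₂ * r₁))⁻¹) * X), ?_⟩
    rw [aeval_comp]
    have : aeval θ (C ((algebraMap R (FractionRing R) (r₂ * r₁))⁻¹) * X) = (α : L) := by
      rw [map_mul, aeval_C, aeval_X, map_inv₀, ← IsScalarTower.algebraMap_apply, hθ,
        inv_mul_cancel_left₀ hr']
    rw [this, hp]
  have hclear : ∀ p : (FractionRing R)[X], ∃ b : R, b ≠ 0 ∧ ∃ q : R[X],
      q.map (algebraMap R (FractionRing R)) = b • p := by
    intro p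
    obtain ⟨b, hb, h⟩ := IsLocalization.integerNormalization_spec (nonZeroDivisors R) p
    exact ⟨b, nonZeroDivisors.ne_zero hb, _, h⟩
  -- the common denominator
  have hgen : ∀ x ∈ s, ∃ b : R, b ≠ 0 ∧ ∃ q : R[X], algebraMap R L b * x = aeval θ q := by
    intro x hx
    obtain ⟨p, hp⟩ := hpolyθ x (Algebra.subset_adjoin hx)
    obtain ⟨b, hb, q, hq⟩ := hclear p
    refine ⟨b, hb, q, ?_⟩
    rw [← aeval_map_algebraMap (FractionRing R) θ q, hq, ← hp,
      ← algebraMap_smul (FractionRing R) b p, map_smul, Algebra.smul_def,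
      ← IsScalarTower.algebraMap_apply]
  choose! b hb q hq using hgen
  refine ⟨θ, minpoly R θ, ?_⟩
  have hmin : minpoly (FractionRing R) θ = (minpoly R θ).map (algebraMap R (FractionRing R)) :=
    minpoly.isIntegrallyClosed_eq_field_fractions (FractionRing R) L hθint
  have hθK : IsIntegral (FractionRing R) θ := hθint.tower_top
  have hsep : (minpoly (FractionRing R) θ).Separable :=
    (minpoly.irreducible hθK).separable
  obtain ⟨u, v, huv⟩ := hsep
  obtain ⟨bu, hbu, U, hU⟩ := hclear u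
  obtain ⟨bv, hbv, V, hV⟩ := hclear v
  refine ⟨C bv * U, C bu * V, bv * bu, ∏ x ∈ s, b x, hθA, minpoly.monic hθint,
    minpoly.aeval R θ, fun q hq => minpoly.isIntegrallyClosed_dvd hθint hq,
    mul_ne_zero hbv hbu, ?_, Finset.prod_ne_zero_iff.2 fun x hx => hb x hx, ?_⟩
  · apply Polynomial.map_injective _ (IsFractionRing.injective R (FractionRing R))
    simp only [Polynomial.map_add, Polynomial.map_mul, Polynomial.map_C, ← derivative_map, ← hmin,
      hU, hV]
    have : C (algebraMap R (FractionRing R) bv) * (bu • u) * minpoly (FractionRing R) θ +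
        C (algebraMap R (FractionRing R) bu) * (bv • v) *
          derivative (minpoly (FractionRing R) θ) =
        C (algebraMap R (FractionRing R) (bv * bu)) *
          (u * minpoly (FractionRing R) θ + v * derivative (minpoly (FractionRing R) θ)) := by
      rw [← algebraMap_smul (FractionRing R) bu u, ← algebraMap_smul (FractionRing R) bv v,
        smul_eq_C_mul, smul_eq_C_mul, map_mul, C_mul]
      ring
    rw [this, huv, mul_one]
  · intro x hx
    rw [← hs] at hx
    induction hx using Algebra.adjoin_induction with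
    | mem x hx =>
      refine ⟨1, C (∏ y ∈ s.erase x, b y) * q x, ?_⟩
      rw [map_mul, aeval_C, ← hq x hx, pow_one, ← Finset.mul_prod_erase s b hx, map_mul]
      ring
    | algebraMap k => exact ⟨0, C k, by simp⟩
    | add x y _ _ hx hy =>
      obtain ⟨k, p, hx⟩ := hx
      obtain ⟨k', p', hy⟩ := hy
      refine ⟨k + k', C ((∏ x ∈ s, b x) ^ k') * p + C ((∏ x ∈ s, b x) ^ k) * p', ?_⟩
      rw [map_add, map_mul, map_mul, aeval_C, aeval_C, ← hx, ← hy, map_pow, map_pow]
      ring
    | mul x y _ _ hx hy =>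
      obtain ⟨k, p, hx⟩ := hx
      obtain ⟨k', p', hy⟩ := hy
      refine ⟨k + k', p * p', ?_⟩
      rw [map_mul, ← hx, ← hy]
      ring

theorem sheets_lift {S L : Type} [CommRing S] [Algebra ℂ S] [Field L] [Algebra ℂ L]
    (A : Subalgebra ℂ L) (f : S →ₐ[ℂ] L) (g : S →ₐ[ℂ] ℂ) (hker : ∀ s, f s = 0 → g s = 0) (d : S)
    (hd : g d ≠ 0) (hA : ∀ x ∈ A, ∃ (k : ℕ) (s : S), f d ^ k * x = f s) :
    ∃ Φ : A →ₐ[ℂ] ℂ, ∀ (x : A) (k : ℕ) (s : S), f d ^ k * x = f s → Φ x = g s / g d ^ k := by
  choose! k s hks using hA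
  have key : ∀ (x : L), x ∈ A → ∀ (k' : ℕ) (s' : S), f d ^ k' * x = f s' →
      g (s x) / g d ^ (k x) = g s' / g d ^ k' := by
    intro x hx k' s' h
    have h1 := hks x hx
    have h2 : f (d ^ k' * s x - d ^ (k x) * s') = 0 := by
      rw [map_sub, map_mul, map_mul, map_pow, map_pow, ← h, ← h1]
      ring
    have h3 := hker _ h2
    rw [map_sub, map_mul, map_mul, map_pow, map_pow, sub_eq_zero] at h3
    rw [div_eq_div_iff (pow_ne_zero _ hd) (pow_ne_zero _ hd)]
    linear_combination h3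
  refine ⟨{ toFun := fun x => g (s x) / g d ^ (k x), map_one' := ?_, map_mul' := ?_,
            map_zero' := ?_, map_add' := ?_, commutes' := ?_ }, ?_⟩
  · change g (s 1) / g d ^ (k 1) = 1
    rw [key _ (A.one_mem) 0 1 (by simp)]
    simp
  · intro x y
    have hx := hks x x.2
    have hy := hks y y.2
    change g (s (x * y : L)) / g d ^ (k (x * y : L)) = g (s x) / g d ^ (k x) *
      (g (s y) / g d ^ (k y))
    rw [key _ (A.mul_mem x.2 y.2) (k x + k y) (s x * s y) (by
      rw [map_mul, ← hx, ← hy]; ring), map_mul, pow_add, div_mul_div_comm]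
  · change g (s 0) / g d ^ (k 0) = 0
    rw [key _ (A.zero_mem) 0 0 (by simp)]
    simp
  · intro x y
    have hx := hks x x.2
    have hy := hks y y.2
    change g (s (x + y : L)) / g d ^ (k (x + y : L)) = g (s x) / g d ^ (k x) +
      g (s y) / g d ^ (k y)
    rw [key _ (A.add_mem x.2 y.2) (k x + k y) (d ^ (k y) * s x + d ^ (k x) * s y) (by
      rw [map_add, map_mul, map_mul, ← hx, ← hy, map_pow, map_pow]; ring), map_add, map_mul,
      map_mul, map_pow, map_pow, pow_add]
    field_simp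
  · intro c
    change g (s (algebraMap ℂ L c)) / g d ^ (k (algebraMap ℂ L c)) = algebraMap ℂ ℂ c
    rw [key _ (A.algebraMap_mem c) 0 (algebraMap ℂ S c) (by simp)]
    simp
  · intro x k' s' h
    exact key x x.2 k' s' h


theorem exists_sheets {ι L : Type} [Finite ι] [Field L] [Algebra ℂ L] (z : ι → L)
    (hz : AlgebraicIndependent ℂ z) (A : Subalgebra ℂ L) (hA : A.FG) (hzA : ∀ i, z i ∈ A)
    (halg : ∀ x ∈ A, IsAlgebraic (Algebra.adjoin ℂ (Set.range z)) x) :
    ∃ b : MvPolynomial ι ℂ, b ≠ 0 ∧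
      ∀ (E : Type) [NormedAddCommGroup E] [NormedSpace ℂ E] [FiniteDimensional ℂ E] (D : Set E),
        IsOpen D → Convex ℝ D → ∀ Z : E → ι → ℂ, (∀ i, AnalyticOnNhd ℂ (fun p => Z p i) D) →
        (∀ p ∈ D, MvPolynomial.eval (Z p) b ≠ 0) → ∀ p₀ ∈ D, ∀ φ₀ : A →ₐ[ℂ] ℂ,
        (∀ i, φ₀ ⟨z i, hzA i⟩ = Z p₀ i) →
        ∃ Φ : E → (A →ₐ[ℂ] ℂ), Φ p₀ = φ₀ ∧ (∀ p ∈ D, ∀ i, Φ p ⟨z i, hzA i⟩ = Z p i) ∧
          ∀ x : A, DifferentiableOn ℂ (fun p => Φ p x) D := by
  classical
  let : Algebra (MvPolynomial ι ℂ) L :=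
    (MvPolynomial.aeval z : MvPolynomial ι ℂ →ₐ[ℂ] L).toRingHom.toAlgebra
  have hmap : ∀ r, algebraMap (MvPolynomial ι ℂ) L r = MvPolynomial.aeval z r := fun r => rfl
  have : IsScalarTower ℂ (MvPolynomial ι ℂ) L := IsScalarTower.of_algebraMap_eq (fun c => by
    rw [hmap, MvPolynomial.algebraMap_eq, MvPolynomial.aeval_C])
  have : FaithfulSMul (MvPolynomial ι ℂ) L := (faithfulSMul_iff_algebraMap_injective _ _).2 hz
  have hmem : ∀ r : MvPolynomial ι ℂ, MvPolynomial.aeval z r ∈ A := by
    intro r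
    have h1 : MvPolynomial.aeval z r ∈ Algebra.adjoin ℂ (Set.range z) := by
      rw [Algebra.adjoin_range_eq_range_aeval]
      exact ⟨r, rfl⟩
    refine Algebra.adjoin_le ?_ h1
    rintro _ ⟨i, rfl⟩
    exact hzA i
  let A' : Subalgebra (MvPolynomial ι ℂ) L :=
    { A.toSubsemiring with algebraMap_mem' := hmem }
  have hA'mem : ∀ x, x ∈ A' ↔ x ∈ A := fun x => Iff.rfl
  have hA' : A'.FG := by
    obtain ⟨s, hs⟩ := hA
    refine ⟨s, le_antisymm (Algebra.adjoin_le fun x hx => ?_) fun x hx => ?_⟩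
    · change x ∈ A
      rw [← hs]
      exact Algebra.subset_adjoin hx
    · have hx' : x ∈ A := hx
      rw [← hs] at hx'
      have h2 : Algebra.adjoin ℂ (s : Set L) ≤
          (Algebra.adjoin (MvPolynomial ι ℂ) (s : Set L)).restrictScalars ℂ :=
        Algebra.adjoin_le Algebra.subset_adjoin
      exact h2 hx'
  have halg' : ∀ x ∈ A', IsAlgebraic (MvPolynomial ι ℂ) x := by
    intro x hx
    refine IsAlgebraic.of_ringHom_of_comp_eq (S := Algebra.adjoin ℂ (Set.range z))
      (B := L) (hz.aevalEquiv : MvPolynomial ι ℂ →+* Algebra.adjoin ℂ (Set.range z))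
      (RingHom.id L) (halg x hx) hz.aevalEquiv.surjective Function.injective_id ?_
    ext r
    · simp [hmap]
    · simp [hmap]
  obtain ⟨θ, G, U, V, d₀, d, hθA, hGm, hGθ, hGdvd, hd₀, hUV, hd, hrep⟩ := sheets_alg A' hA' halg'
  refine ⟨d₀ * d, mul_ne_zero hd₀ hd, ?_⟩
  intro E _ _ _ D hDo hDc Z hZ hb p₀ hp₀ φ₀ hφ₀
  have hb₀ : ∀ p ∈ D, MvPolynomial.eval (Z p) d₀ ≠ 0 := fun p hp h => hb p hp (by simp [h])
  have hbd : ∀ p ∈ D, MvPolynomial.eval (Z p) d ≠ 0 := fun p hp h => hb p hp (by simp [h])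
  -- the homomorphisms
  let f : (MvPolynomial ι ℂ)[X] →ₐ[ℂ] L := (Polynomial.aeval θ).restrictScalars ℂ
  have hf : ∀ s, f s = Polynomial.aeval θ s := fun s => rfl
  let g : E → ℂ → (MvPolynomial ι ℂ)[X] →ₐ[ℂ] ℂ := fun p y =>
    Polynomial.eval₂AlgHom (MvPolynomial.aeval (Z p)) y (fun _ => Commute.all _ _)
  have hg : ∀ p y s, g p y s = (s.map (MvPolynomial.eval (Z p))).eval y := by
    intro p y s
    change Polynomial.eval₂ (MvPolynomial.aeval (Z p) : MvPolynomial ι ℂ →ₐ[ℂ] ℂ).toRingHom y s = _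
    rw [Polynomial.eval_map]
    rfl
  have hgC : ∀ p y r, g p y (C r) = MvPolynomial.eval (Z p) r := by
    intro p y r
    rw [hg, Polynomial.map_C, Polynomial.eval_C]
  have hgX : ∀ p y, g p y X = y := by
    intro p y
    rw [hg, Polynomial.map_X, Polynomial.eval_X]
  have hfA : ∀ s, f s ∈ A := by
    intro s
    have : Polynomial.aeval θ s ∈ A' := by
      rw [Polynomial.aeval_eq_sum_range]
      exact A'.sum_mem fun i _ => A'.smul_mem (A'.pow_mem hθA i) _
    exact this
  let fA : (MvPolynomial ι ℂ)[X] →ₐ[ℂ] A := f.codRestrict A hfA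
  have hfAval : ∀ s, (fA s : L) = f s := fun s => rfl
  have hφg : ∀ s, φ₀ (fA s) = g p₀ (φ₀ ⟨θ, hθA⟩) s := by
    have hR : ∀ r : MvPolynomial ι ℂ, φ₀ (fA (C r)) = MvPolynomial.eval (Z p₀) r := by
      intro r
      induction r using MvPolynomial.induction_on with
      | C c =>
        have : fA (C (MvPolynomial.C c)) = algebraMap ℂ A c := by
          have h1 : (C (MvPolynomial.C c) : (MvPolynomial ι ℂ)[X]) =
            algebraMap ℂ (MvPolynomial ι ℂ)[X] c := rfl
          rw [h1, AlgHom.commutes]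
        rw [this, AlgHom.commutes, MvPolynomial.eval_C]
        rfl
      | add a b ha hb => rw [C_add, map_add, map_add, ha, hb, map_add]
      | mul_X a i ha =>
        rw [C_mul, map_mul, map_mul, ha, map_mul, MvPolynomial.eval_X]
        congr 1
        have : fA (C (MvPolynomial.X i)) = ⟨z i, hzA i⟩ := by
          apply Subtype.ext
          rw [hfAval, hf, Polynomial.aeval_C, hmap, MvPolynomial.aeval_X]
        rw [this, hφ₀]
    intro s
    induction s using Polynomial.induction_on' with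
    | add a b ha hb => rw [map_add, map_add, ha, hb, map_add]
    | monomial k r =>
      rw [← C_mul_X_pow_eq_monomial, map_mul, map_mul, map_mul, hR, hgC, map_pow, map_pow,
        map_pow, hgX]
      congr 3
      apply Subtype.ext
      rw [hfAval, hf, Polynomial.aeval_X]
  obtain ⟨Θ, hΘd, hΘ₀, hΘ⟩ := exists_root_family hDo hDc
    (fun p => G.map (MvPolynomial.eval (Z p))) G.natDegree
    (fun p _ => ⟨hGm.map _, hGm.natDegree_map _⟩)
    (fun k p hp => by
      simp only [Polynomial.coeff_map]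
      exact AnalyticAt.aeval_mvPolynomial (fun i => hZ i p hp) (G.coeff k))
    (fun p hp => by
      have h1 := congrArg (Polynomial.map (MvPolynomial.eval (Z p))) hUV
      rw [Polynomial.map_add, Polynomial.map_mul, Polynomial.map_mul, Polynomial.map_C,
        ← derivative_map] at h1
      refine ⟨C ((MvPolynomial.eval (Z p) d₀)⁻¹) * U.map (MvPolynomial.eval (Z p)),
        C ((MvPolynomial.eval (Z p) d₀)⁻¹) * V.map (MvPolynomial.eval (Z p)), ?_⟩
      rw [mul_assoc, mul_assoc, ← mul_add, h1, ← C_mul, inv_mul_cancel₀ (hb₀ p hp), C_1])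
    p₀ hp₀ (φ₀ ⟨θ, hθA⟩) (by
      rw [← hg, ← hφg]
      have : fA G = 0 := by
        apply Subtype.ext
        rw [hfAval, hf, hGθ]
        rfl
      rw [this, map_zero])
  have hker : ∀ p ∈ D, ∀ s, f s = 0 → g p (Θ p) s = 0 := by
    intro p hp s hs
    obtain ⟨q, rfl⟩ := hGdvd s hs
    rw [map_mul, hg p (Θ p) G, hΘ p hp, zero_mul]
  have hex : ∀ p ∈ D, ∃ Φ : A →ₐ[ℂ] ℂ, ∀ (x : A) (k : ℕ) (s : (MvPolynomial ι ℂ)[X]),
      f (C d) ^ k * x = f s → Φ x = g p (Θ p) s / g p (Θ p) (C d) ^ k := by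
    intro p hp
    refine sheets_lift A f (g p (Θ p)) (hker p hp) (C d) (by rw [hgC]; exact hbd p hp) ?_
    intro x hx
    obtain ⟨k, q, h⟩ := hrep x hx
    exact ⟨k, q, by rw [hf, hf, Polynomial.aeval_C, h]⟩
  have : Nonempty (A →ₐ[ℂ] ℂ) := ⟨φ₀⟩
  choose! Φ hΦ using hex
  refine ⟨fun p => if p ∈ D then Φ p else φ₀, ?_, ?_, ?_⟩
  · simp only [hp₀, if_true]
    ext x
    obtain ⟨k, s, h⟩ := hrep x x.2
    have h' : f (C d) ^ k * x = f s := by rw [hf, hf, Polynomial.aeval_C, h]
    rw [hΦ p₀ hp₀ x k s h', div_eq_iff (pow_ne_zero _ (by rw [hgC]; exact hbd p₀ hp₀)), hΘ₀,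
      ← hφg, ← hφg, ← map_pow, ← map_mul]
    congr 1
    apply Subtype.ext
    rw [hfAval, ← h']
    change _ = (x : L) * (fA (C d) : L) ^ k
    rw [hfAval, mul_comm]
  · intro p hp i
    simp only [hp, if_true]
    rw [hΦ p hp _ 0 (C (MvPolynomial.X i)) (by
      rw [hf, hf, Polynomial.aeval_C, Polynomial.aeval_C, hmap, hmap, MvPolynomial.aeval_X]; simp)]
    rw [hgC, MvPolynomial.eval_X]
    simp
  · intro x
    obtain ⟨k, s, h⟩ := hrep x x.2
    have h' : f (C d) ^ k * x = f s := by rw [hf, hf, Polynomial.aeval_C, h]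
    have hdR : ∀ r : MvPolynomial ι ℂ,
        DifferentiableOn ℂ (fun p => MvPolynomial.eval (Z p) r) D := by
      intro r p hp
      exact (AnalyticAt.aeval_mvPolynomial (fun i => hZ i p hp) r).differentiableAt.differentiableWithinAt
    have hds : DifferentiableOn ℂ (fun p => g p (Θ p) s) D := by
      have : (fun p => g p (Θ p) s) = fun p => ∑ i ∈ Finset.range (s.natDegree + 1),
          MvPolynomial.eval (Z p) (s.coeff i) * Θ p ^ i := by
        funext p
        rw [hg, Polynomial.eval_map, Polynomial.eval₂_eq_sum_range]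
      rw [this]
      refine DifferentiableOn.fun_sum fun i _ => (hdR _).mul (hΘd.pow i)
    have hdq : DifferentiableOn ℂ (fun p => g p (Θ p) s * (MvPolynomial.eval (Z p) d ^ k)⁻¹) D :=
      hds.mul (((hdR d).fun_pow k).inv (fun p hp => pow_ne_zero _ (hbd p hp)))
    refine hdq.congr fun p hp => ?_
    simp only [hp, if_true]
    rw [hΦ p hp x k s h', hgC, div_eq_mul_inv]

end Pool.Agent.Lib.MP_209724_lc.MV
end
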