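import Mathlib
import Pool.Agent.Lib.MP_209724_lc.MV.Defs
import Pool.Agent.Lib.MP_209724_lc.MV.Idem
import Pool.Agent.Lib.MP_209724_lc.MV.GenericPoint
import Pool.Agent.Lib.MP_209724_lc.MV.Sheets
import Pool.Agent.Lib.MP_209724_lc.MV.CoreA
import Pool.Agent.Lib.MP_209724_lc.MV.HurwitzMulti

section

/-!
Denominators: clearing the denominators of finitely many elements of `ℂ(ξ)`.
-/

namespace Pool.Agent.Lib.MP_209724_lc.MV

open MvPolynomial

private theorem denom_one {σ L : Type} [Field L] [Algebra ℂ L] (ξ : σ → L)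
    (x : IntermediateField.adjoin ℂ (Set.range ξ)) :
    ∃ c p : MvPolynomial σ ℂ, aeval ξ c ≠ 0 ∧ aeval ξ p = aeval ξ c * (x : L) := by
  obtain ⟨r, s, hrs⟩ := (IntermediateField.mem_adjoin_range_iff ℂ ξ (x : L)).1 x.2
  by_cases hs : aeval ξ s = 0
  · refine ⟨1, 0, by simp, ?_⟩
    rw [hrs, hs]
    simp
  · refine ⟨s, r, hs, ?_⟩
    rw [hrs]
    field_simp

private theorem denom_family {σ L : Type} [Field L] [Algebra ℂ L] (ξ : σ → L)
    (x : ℕ → IntermediateField.adjoin ℂ (Set.range ξ)) (N : ℕ) :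
    ∃ (c : MvPolynomial σ ℂ) (p : ℕ → MvPolynomial σ ℂ), aeval ξ c ≠ 0 ∧
      ∀ k < N, aeval ξ (p k) = aeval ξ c * (x k : L) := by
  induction N with
  | zero => exact ⟨1, fun _ => 0, by simp, by simp⟩
  | succ N ih =>
    obtain ⟨c, p, hc, hp⟩ := ih
    obtain ⟨d, q, hd, hq⟩ := denom_one ξ (x N)
    refine ⟨c * d, fun k => if k = N then c * q else p k * d, ?_, ?_⟩
    · rw [map_mul]; exact mul_ne_zero hc hd
    · intro k hk
      by_cases hkN : k = N
      · subst hkN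
        simp only [if_true, map_mul, hq]
        ring
      · have hk' : k < N := by omega
        simp only [hkN, if_false, map_mul, hp k hk']
        ring

private theorem denom_poly {σ L : Type} [Field L] [Algebra ℂ L] (ξ : σ → L) (t : L)
    (e : Polynomial (IntermediateField.adjoin ℂ (Set.range ξ))) :
    ∃ (c : MvPolynomial σ ℂ) (e' : Polynomial (MvPolynomial σ ℂ)), aeval ξ c ≠ 0 ∧
      (∀ k, aeval ξ (e'.coeff k) = aeval ξ c * (e.coeff k : L)) ∧
      evT ξ t e' = aeval ξ c * Polynomial.aeval t e := by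
  obtain ⟨c, p, hc, hp⟩ := denom_family ξ e.coeff (e.natDegree + 1)
  refine ⟨c, ∑ k ∈ Finset.range (e.natDegree + 1), Polynomial.monomial k (p k), hc, ?_, ?_⟩
  · intro k
    rw [Polynomial.finsetSum_coeff]
    simp only [Polynomial.coeff_monomial]
    rw [Finset.sum_ite_eq']
    by_cases hk : k < e.natDegree + 1
    · rw [if_pos (Finset.mem_range.2 hk)]
      exact hp k hk
    · rw [if_neg (by simpa using hk)]
      rw [Polynomial.coeff_eq_zero_of_natDegree_lt (by omega)]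
      simp
  · rw [map_sum, Polynomial.aeval_eq_sum_range, Finset.mul_sum]
    refine Finset.sum_congr rfl fun k hk => ?_
    rw [← Polynomial.C_mul_X_pow_eq_monomial, map_mul, map_pow, evT_C, evT_X,
      hp k (Finset.mem_range.1 hk), Algebra.smul_def, mul_assoc]
    rfl

private theorem denom_polys {σ L : Type} [Field L] [Algebra ℂ L] (ξ : σ → L) (t : L)
    (e : ℕ → Polynomial (IntermediateField.adjoin ℂ (Set.range ξ))) (N : ℕ) :
    ∃ (c : MvPolynomial σ ℂ) (a : ℕ → Polynomial (MvPolynomial σ ℂ)), aeval ξ c ≠ 0 ∧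
      ∀ k < N, evT ξ t (a k) = aeval ξ c * Polynomial.aeval t (e k) := by
  induction N with
  | zero => exact ⟨1, fun _ => 0, by simp, by simp⟩
  | succ N ih =>
    obtain ⟨c, p, hc, hp⟩ := ih
    obtain ⟨d, q, hd, -, hq⟩ := denom_poly ξ t (e N)
    refine ⟨c * d, fun k => if k = N then Polynomial.C c * q else p k * Polynomial.C d, ?_, ?_⟩
    · rw [map_mul]; exact mul_ne_zero hc hd
    · intro k hk
      by_cases hkN : k = N
      · subst hkN
        simp only [if_true, map_mul, hq, evT_C]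
        ring
      · have hk' : k < N := by omega
        simp only [hkN, if_false, map_mul, hp k hk', evT_C]
        ring

theorem intRel_of_isIntegral {σ L : Type} [Finite σ] [Field L] [Algebra ℂ L] (ξ : σ → L)
    (t f : L)
    (h : IsIntegral (Algebra.adjoin (IntermediateField.adjoin ℂ (Set.range ξ)) ({t} : Set L)) f) :
    IntRel ξ t f := by
  obtain ⟨P, hP, hPf⟩ := h
  have hq : ∀ k, ∃ q : Polynomial (IntermediateField.adjoin ℂ (Set.range ξ)),
      Polynomial.aeval t q = (P.coeff k : L) := by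
    intro k
    have h1 : ∀ y ∈ Algebra.adjoin (IntermediateField.adjoin ℂ (Set.range ξ)) ({t} : Set L),
        ∃ q : Polynomial (IntermediateField.adjoin ℂ (Set.range ξ)),
          Polynomial.aeval t q = y := by
      intro y hy
      rw [Algebra.adjoin_singleton_eq_range_aeval] at hy
      exact (AlgHom.mem_range _).1 hy
    exact h1 _ (P.coeff k).2
  choose q hq using hq
  obtain ⟨c, a, hc, ha⟩ := denom_polys ξ t q P.natDegree
  refine ⟨P.natDegree, c, a, ?_, ?_⟩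
  · rintro rfl
    exact hc (by simp)
  · have h2 : f ^ P.natDegree + ∑ k ∈ Finset.range P.natDegree, (P.coeff k : L) * f ^ k = 0 := by
      rw [← hPf, Polynomial.eval₂_eq_sum_range, Finset.sum_range_succ, hP.coeff_natDegree, map_one,
        one_mul, add_comm]
      rfl
    rw [← mul_zero (aeval ξ c), ← h2, mul_add, Finset.mul_sum]
    congr 1
    refine Finset.sum_congr rfl fun k hk => ?_
    rw [ha k (Finset.mem_range.1 hk), hq k, mul_assoc]

theorem exists_clear {σ L : Type} [Finite σ] [Field L] [Algebra ℂ L] (ξ : σ → L)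
    (t : L) (e : Polynomial (IntermediateField.adjoin ℂ (Set.range ξ))) (he : e.coeff 0 ≠ 0) :
    ∃ (c : MvPolynomial σ ℂ) (e' : Polynomial (MvPolynomial σ ℂ)), aeval ξ c ≠ 0 ∧
      e'.coeff 0 ≠ 0 ∧ evT ξ t e' = aeval ξ c * Polynomial.aeval t e := by
  obtain ⟨c, e', hc, h1, h2⟩ := denom_poly ξ t e
  refine ⟨c, e', hc, ?_, h2⟩
  intro h0
  have h3 := h1 0
  rw [h0, map_zero] at h3
  rcases mul_eq_zero.1 h3.symm with h4 | h4
  · exact hc h4
  · exact he (by exact_mod_cast h4)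

end Pool.Agent.Lib.MP_209724_lc.MV
end

section

/-!
Integral elements are polynomially bounded.
-/

namespace Pool.Agent.Lib.MP_209724_lc.MV

open MvPolynomial Filter Topology Metric

theorem IntRel.exists_bound {σ L : Type} [Fintype σ] [Field L] [Algebra ℂ L] {ξ : σ → L}
    {t f : L} (h : IntRel ξ t f) (A : Subalgebra ℂ L) (hξ : ∀ j, ξ j ∈ A) (ht : t ∈ A)
    (hf : f ∈ A) :
    ∃ c : MvPolynomial σ ℂ, c ≠ 0 ∧ ∀ D : Set (σ → ℂ), IsCompact D →
      (∀ w ∈ D, eval w c ≠ 0) → ∃ C : ℕ, ∀ᶠ N : ℕ in atTop, ∀ v ∈ D,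
        ∀ ψ : A →ₐ[ℂ] ℂ, (∀ j, ψ ⟨ξ j, hξ j⟩ = N * v j) → ‖ψ ⟨t, ht⟩‖ ≤ 1 →
          ‖ψ ⟨f, hf⟩‖ ≤ (N : ℝ) ^ C := by
  obtain ⟨m, c, a, hc, hrel⟩ := h
  -- the relation in `A`
  have hA : aeval (fun j => (⟨ξ j, hξ j⟩ : A)) c * (⟨f, hf⟩ : A) ^ m +
      ∑ k ∈ Finset.range m, evT (fun j => (⟨ξ j, hξ j⟩ : A)) ⟨t, ht⟩ (a k) *
        (⟨f, hf⟩ : A) ^ k = 0 := by
    have hinj : Function.Injective A.val := Subtype.val_injective
    apply hinj
    rw [map_zero, map_add, map_mul, map_pow, map_sum]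
    have h1 : A.val (aeval (fun j => (⟨ξ j, hξ j⟩ : A)) c) = aeval ξ c := by
      rw [MvPolynomial.comp_aeval_apply]
      rfl
    rw [h1]
    have h2 : ∀ k, A.val (evT (fun j => (⟨ξ j, hξ j⟩ : A)) ⟨t, ht⟩ (a k) *
        (⟨f, hf⟩ : A) ^ k) = evT ξ t (a k) * f ^ k := by
      intro k
      rw [map_mul, map_pow, map_evT]
      rfl
    simp only [h2]
    exact hrel
  refine ⟨lead c, lead_ne_zero hc, fun D hD hcD => ?_⟩
  obtain ⟨δ, hδ, hlow⟩ := exists_lower_bound c hD hcD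
  obtain ⟨R, hR⟩ := hD.isBounded.exists_norm_le
  choose Cf hCf using fun k => exists_upper_bound (a k) R
  set C₀ := (Finset.range m).sup Cf with hC₀
  have hall : ∀ᶠ N : ℕ in atTop, ∀ k ∈ Finset.range m, ∀ x : σ → ℂ, ‖x‖ ≤ R * N →
      ∀ t : ℂ, ‖t‖ ≤ 1 → ‖evT x t (a k)‖ ≤ (N : ℝ) ^ Cf k := by
    rw [Filter.eventually_all_finset]
    exact fun k _ => hCf k
  obtain ⟨N₀, hN₀⟩ := exists_nat_ge ((m : ℝ) / δ)
  refine ⟨C₀ + 1, ?_⟩
  filter_upwards [hlow, hall, eventually_ge_atTop (max 1 N₀)] with N hN1 hN2 hN3 v hv ψ hψξ hψt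
  have hNpos : (1 : ℝ) ≤ N := by exact_mod_cast (le_max_left _ _).trans hN3
  have hNm : (m : ℝ) / δ ≤ N := hN₀.trans (by exact_mod_cast (le_max_right _ _).trans hN3)
  set z := ψ ⟨f, hf⟩ with hz
  set τ := ψ ⟨t, ht⟩ with hτ
  have hrelψ : eval (fun j => (N : ℂ) * v j) c * z ^ m +
      ∑ k ∈ Finset.range m, evT (fun j => (N : ℂ) * v j) τ (a k) * z ^ k = 0 := by
    have h1 := congrArg ψ hA
    rw [map_zero, map_add, map_mul, map_pow, map_sum] at h1
    have h2 : ψ (aeval (fun j => (⟨ξ j, hξ j⟩ : A)) c) = eval (fun j => (N : ℂ) * v j) c := by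
      rw [MvPolynomial.comp_aeval_apply]
      simp only [hψξ]
      rw [MvPolynomial.aeval_eq_eval]
    have h3 : ∀ k, ψ (evT (fun j => (⟨ξ j, hξ j⟩ : A)) ⟨t, ht⟩ (a k) * (⟨f, hf⟩ : A) ^ k) =
        evT (fun j => (N : ℂ) * v j) τ (a k) * z ^ k := by
      intro k
      rw [map_mul, map_pow, map_evT]
      simp only [hψξ]
      rfl
    simp only [h3] at h1
    rw [h2] at h1
    exact h1
  have hx : ‖fun j => (N : ℂ) * v j‖ ≤ R * N := by
    have h1 : (fun j => (N : ℂ) * v j) = (N : ℂ) • v := rfl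
    rw [h1, norm_smul, Complex.norm_natCast, mul_comm]
    exact mul_le_mul_of_nonneg_right (hR v hv) (by positivity)
  rcases le_or_gt ‖z‖ 1 with hz1 | hz1
  · exact hz1.trans (one_le_pow₀ hNpos)
  · have hlow' := hN1 v hv
    rcases Nat.eq_zero_or_pos m with hm | hm
    · subst hm
      simp only [pow_zero, mul_one, Finset.range_zero, Finset.sum_empty, add_zero] at hrelψ
      rw [hrelψ, norm_zero] at hlow'
      exact absurd hlow' (not_le.mpr hδ)
    · have h1 : ‖eval (fun j => (N : ℂ) * v j) c * z ^ m‖ ≤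
          ∑ k ∈ Finset.range m, (N : ℝ) ^ C₀ * ‖z‖ ^ (m - 1) := by
        have h2 : eval (fun j => (N : ℂ) * v j) c * z ^ m =
            -∑ k ∈ Finset.range m, evT (fun j => (N : ℂ) * v j) τ (a k) * z ^ k :=
          eq_neg_of_add_eq_zero_left hrelψ
        rw [h2, norm_neg]
        refine (norm_sum_le _ _).trans (Finset.sum_le_sum fun k hk => ?_)
        rw [norm_mul, norm_pow]
        have h3 := hN2 k hk _ hx τ hψt
        have h4 : (N : ℝ) ^ Cf k ≤ (N : ℝ) ^ C₀ :=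
          pow_le_pow_right₀ hNpos (Finset.le_sup (f := Cf) hk)
        have h5 : ‖z‖ ^ k ≤ ‖z‖ ^ (m - 1) :=
          pow_le_pow_right₀ hz1.le (by have := Finset.mem_range.mp hk; omega)
        exact mul_le_mul (h3.trans h4) h5 (by positivity) (by positivity)
      rw [Finset.sum_const, Finset.card_range, nsmul_eq_mul, norm_mul, norm_pow] at h1
      have h6 : δ * ‖z‖ ^ m ≤ (m : ℝ) * ((N : ℝ) ^ C₀ * ‖z‖ ^ (m - 1)) :=
        (mul_le_mul_of_nonneg_right hlow' (by positivity)).trans h1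
      have h7 : ‖z‖ ^ m = ‖z‖ * ‖z‖ ^ (m - 1) := by
        rw [← pow_succ']
        congr 1
        omega
      rw [h7] at h6
      have h8 : 0 < ‖z‖ ^ (m - 1) := by positivity
      have h9 : δ * ‖z‖ ≤ (m : ℝ) * (N : ℝ) ^ C₀ := by
        have h10 : (δ * ‖z‖) * ‖z‖ ^ (m - 1) ≤ ((m : ℝ) * (N : ℝ) ^ C₀) * ‖z‖ ^ (m - 1) := by
          calc (δ * ‖z‖) * ‖z‖ ^ (m - 1) = δ * (‖z‖ * ‖z‖ ^ (m - 1)) := by ring
            _ ≤ _ := h6
            _ = _ := by ring
        exact le_of_mul_le_mul_right h10 h8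
      have h11 : (m : ℝ) ≤ N * δ := by
        rwa [div_le_iff₀ hδ] at hNm
      have h12 : δ * ‖z‖ ≤ δ * (N : ℝ) ^ (C₀ + 1) := by
        calc δ * ‖z‖ ≤ (m : ℝ) * (N : ℝ) ^ C₀ := h9
          _ ≤ (N * δ) * (N : ℝ) ^ C₀ := mul_le_mul_of_nonneg_right h11 (by positivity)
          _ = _ := by ring
      exact le_of_mul_le_mul_left h12 hδ

end Pool.Agent.Lib.MP_209724_lc.MV
end

section

/-!
Good starting points (MV-11).
-/

namespace Pool.Agent.Lib.MP_209724_lc.MV

open MvPolynomial Filter Topology Metric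

/-- A root close to `1`. -/
private theorem good_root {p : Polynomial ℂ} {m : ℕ} (hm : p.natDegree = m) (hp : p ≠ 0) {δ : ℝ}
    (h1 : δ ≤ ‖p.leadingCoeff‖) (h2 : ‖p.eval 1‖ < δ * (1 / 2) ^ m) :
    ∃ r : ℂ, p.eval r = 0 ∧ ‖r - 1‖ ≤ 1 / 2 := by
  by_contra hcon
  push Not at hcon
  have hs : p.Splits := IsAlgClosed.splits p
  have hcard : p.roots.card = m := by rw [← hm]; exact hs.natDegree_eq_card_roots.symm
  have h3 : ∀ s : Multiset ℂ, (∀ r ∈ s, (1 / 2 : ℝ) ≤ ‖1 - r‖) →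
      (1 / 2 : ℝ) ^ s.card ≤ ‖(s.map fun r => 1 - r).prod‖ := by
    intro s
    induction s using Multiset.induction with
    | empty => intro _; simp
    | cons a s ih =>
      intro h
      rw [Multiset.card_cons, Multiset.map_cons, Multiset.prod_cons, norm_mul, pow_succ, mul_comm]
      have := ih fun r hr => h r (Multiset.mem_cons_of_mem hr)
      have h' := h a (Multiset.mem_cons_self a s)
      gcongr
  have h4 := h3 p.roots (fun r hr => by
    have := hcon r ((Polynomial.mem_roots hp).1 hr)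
    rw [norm_sub_rev]
    exact this.le)
  rw [hcard] at h4
  have h5 : p.eval 1 = p.leadingCoeff * (p.roots.map fun r => 1 - r).prod :=
    hs.eval_eq_prod_roots 1
  rw [h5, norm_mul] at h2
  have h6 : δ * (1 / 2) ^ m ≤ ‖p.leadingCoeff‖ * ‖(p.roots.map fun r => 1 - r).prod‖ := by
    by_cases hδ : 0 ≤ δ
    · gcongr
    · push Not at hδ
      exact le_trans (mul_nonpos_of_nonpos_of_nonneg hδ.le (by positivity)) (by positivity)
  linarith

/-- The evaluation as a homomorphism of algebras. -/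
private noncomputable def evTA {σ S : Type*} [CommRing S] [Algebra ℂ S] (x : σ → S) (t : S) :
    Polynomial (MvPolynomial σ ℂ) →ₐ[ℂ] S :=
  { evT x t with
    commutes' := fun r => by
      have h : algebraMap ℂ (Polynomial (MvPolynomial σ ℂ)) r = Polynomial.C (C r) := rfl
      rw [h]
      change evT x t (Polynomial.C (C r)) = _
      rw [evT_C, ← algebraMap_eq, AlgHom.commutes] }

private theorem evTA_apply {σ S : Type*} [CommRing S] [Algebra ℂ S] (x : σ → S) (t : S)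
    (f : Polynomial (MvPolynomial σ ℂ)) : evTA x t f = evT x t f := rfl

private theorem good_coeff {σ L : Type*} [Field L] [Algebra ℂ L] (ξ : σ → L) (t : L)
    (ht : Transcendental (IntermediateField.adjoin ℂ (Set.range ξ)) t)
    (q : Polynomial (MvPolynomial σ ℂ)) (hq : evT ξ t q = 0) (k : ℕ) : aeval ξ (q.coeff k) = 0 := by
  set K := IntermediateField.adjoin ℂ (Set.range ξ)
  let ρ : MvPolynomial σ ℂ →ₐ[ℂ] K :=
    aeval fun i => ⟨ξ i, IntermediateField.subset_adjoin _ _ ⟨i, rfl⟩⟩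
  have hρ : ∀ c, algebraMap K L (ρ c) = aeval ξ c := by
    intro c
    have : (IsScalarTower.toAlgHom ℂ K L).comp ρ = aeval ξ := by
      ext i
      simp [ρ]
    exact congrArg (fun f => f c) this
  have h1 : Polynomial.aeval t (q.map (ρ : MvPolynomial σ ℂ →+* K)) = evT ξ t q := by
    rw [Polynomial.aeval_def, Polynomial.eval₂_map]
    unfold evT
    simp only [Polynomial.coe_eval₂RingHom]
    congr 1
    ext c
    · simp
    · simp [hρ]
  rw [hq] at h1
  have h2 := (transcendental_iff.1 ht) _ h1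
  have h3 := congrArg (fun p => algebraMap K L (Polynomial.coeff p k)) h2
  simp only [Polynomial.coeff_map, Polynomial.coeff_zero, map_zero] at h3
  rw [← hρ]
  exact h3

private theorem good_hom {n : ℕ} {L : Type} [Field L] [Algebra ℂ L] (ξ : Fin n → L)
    (P : MvPolynomial (Fin n) ℂ) (hP : ∀ c, aeval ξ c = 0 ↔ P ∣ c)
    (t : L) (ht : Transcendental (IntermediateField.adjoin ℂ (Set.range ξ)) t)
    (B : Subalgebra ℂ L) (hB : B = Algebra.adjoin ℂ (Set.range ξ ∪ {t})) (hξB : ∀ i, ξ i ∈ B)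
    (htB : t ∈ B) (x : Fin n → ℂ) (hx : eval x P = 0) (t₀ : ℂ) :
    ∃ φ : B →ₐ[ℂ] ℂ, (∀ i, φ ⟨ξ i, hξB i⟩ = x i) ∧ φ ⟨t, htB⟩ = t₀ := by
  let f : Polynomial (MvPolynomial (Fin n) ℂ) →ₐ[ℂ] B := evTA (fun i => ⟨ξ i, hξB i⟩) ⟨t, htB⟩
  let f₀ : Polynomial (MvPolynomial (Fin n) ℂ) →ₐ[ℂ] ℂ := evTA x t₀
  have hval : ∀ q, B.val (f q) = evT ξ t q := by
    intro q
    exact map_evT B.val _ _ q
  have hf : Function.Surjective f := by
    intro y
    have h1 : B ≤ (evTA ξ t).range := by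
      rw [hB]
      apply Algebra.adjoin_le
      rintro _ (⟨i, rfl⟩ | rfl)
      · exact ⟨Polynomial.C (X i), by
          change evT ξ t (Polynomial.C (X i)) = ξ i
          rw [evT_C, aeval_X]⟩
      · exact ⟨Polynomial.X, by
          change evT ξ _ Polynomial.X = _
          rw [evT_X]⟩
    obtain ⟨q, hq⟩ := h1 y.2
    refine ⟨q, Subtype.ext ?_⟩
    rw [← hq]
    exact hval q
  have hker : RingHom.ker f.toRingHom ≤ RingHom.ker f₀.toRingHom := by
    intro q hq
    rw [RingHom.mem_ker] at hq ⊢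
    have h1 : evT ξ t q = 0 := by
      rw [← hval q]
      have : f q = 0 := hq
      rw [this, map_zero]
    have h2 : ∀ k, eval x (q.coeff k) = 0 := by
      intro k
      obtain ⟨r, hr⟩ := (hP _).1 (good_coeff ξ t ht q h1 k)
      rw [hr, map_mul, hx, zero_mul]
    change evT x t₀ q = 0
    unfold evT
    simp only [Polynomial.coe_eval₂RingHom]
    rw [Polynomial.eval₂_eq_sum_range]
    apply Finset.sum_eq_zero
    intro k _
    have h3 : (aeval x : MvPolynomial (Fin n) ℂ →ₐ[ℂ] ℂ).toRingHom (q.coeff k) = 0 := by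
      have := h2 k
      rw [← this]
      change aeval x (q.coeff k) = _
      rw [aeval_eq_eval]
    rw [h3, zero_mul]
  refine ⟨AlgHom.liftOfSurjective f hf f₀ hker, fun i => ?_, ?_⟩
  · have h1 : f (Polynomial.C (X i)) = ⟨ξ i, hξB i⟩ := by
      change evT _ _ (Polynomial.C (X i)) = _
      rw [evT_C, aeval_X]
    rw [← h1, AlgHom.liftOfSurjective_apply]
    change evT _ _ (Polynomial.C (X i)) = _
    rw [evT_C, aeval_X]
  · have h1 : f Polynomial.X = ⟨t, htB⟩ := by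
      change evT _ _ Polynomial.X = _
      rw [evT_X]
    rw [← h1, AlgHom.liftOfSurjective_apply]
    change evT _ _ Polynomial.X = _
    rw [evT_X]

open IntermediateField.algebraAdjoinAdjoin in
private theorem good_beta {n : ℕ} {L : Type} [Field L] [Algebra ℂ L] (ξ : Fin n → L) (l : Fin n)
    (hξ : AlgebraicIndependent ℂ fun j : {j // j ≠ l} => ξ j)
    (hl : IsAlgebraic (IntermediateField.adjoin ℂ (Set.range fun j : {j // j ≠ l} => ξ j)) (ξ l))
    (t : L) (ht : Transcendental (IntermediateField.adjoin ℂ (Set.range ξ)) t)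
    (B : Subalgebra ℂ L) (hB : B = Algebra.adjoin ℂ (Set.range ξ ∪ {t})) (hξB : ∀ i, ξ i ∈ B)
    (htB : t ∈ B) (b : B) (hb : b ≠ 0) :
    ∃ β : Polynomial (MvPolynomial {j : Fin n // j ≠ l} ℂ), β ≠ 0 ∧
      b ∣ evT (fun j : {j : Fin n // j ≠ l} => (⟨ξ j, hξB j⟩ : B)) ⟨t, htB⟩ β := by
  set R := Polynomial (MvPolynomial {j : Fin n // j ≠ l} ℂ) with hR
  set ξ' : {j : Fin n // j ≠ l} → L := fun j => ξ j with hξ'
  -- the algebra structures
  let algL : Algebra R L := (evT ξ' t).toAlgebra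
  let algB : Algebra R B := (evT (fun j : {j : Fin n // j ≠ l} => (⟨ξ j, hξB j⟩ : B))
    ⟨t, htB⟩).toAlgebra
  have hmapL : ∀ r : R, algebraMap R L r = evT ξ' t r := fun r => rfl
  have hmapB : ∀ r : R, algebraMap R B r =
    evT (fun j : {j : Fin n // j ≠ l} => (⟨ξ j, hξB j⟩ : B)) ⟨t, htB⟩ r := fun r => rfl
  have hval : ∀ r : R, B.val (algebraMap R B r) = algebraMap R L r := by
    intro r
    exact map_evT B.val _ _ r
  -- injectivity
  have ht' : Transcendental (IntermediateField.adjoin ℂ (Set.range ξ')) t := by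
    intro halg
    apply ht
    have hle : IntermediateField.adjoin ℂ (Set.range ξ') ≤
        IntermediateField.adjoin ℂ (Set.range ξ) :=
      IntermediateField.adjoin.mono _ _ _ (by rintro _ ⟨j, rfl⟩; exact ⟨j, rfl⟩)
    exact halg.ringHom_of_comp_eq (IntermediateField.inclusion hle) (RingHom.id L)
      (IntermediateField.inclusion hle).injective (by ext; rfl)
  have hinj : Function.Injective (algebraMap R L) := by
    rw [injective_iff_map_eq_zero]
    intro r hr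
    rw [hmapL] at hr
    ext1 k
    have := good_coeff ξ' t ht' r hr k
    rw [Polynomial.coeff_zero]
    exact hξ (this.trans (map_zero _).symm)
  -- `ξ l` is algebraic
  have hlalg : IsAlgebraic R (ξ l) := by
    have h1 : IsAlgebraic (Algebra.adjoin ℂ (Set.range ξ')) (ξ l) :=
      (IsFractionRing.isAlgebraic_iff (Algebra.adjoin ℂ (Set.range ξ'))
        (IntermediateField.adjoin ℂ (Set.range ξ')) L).2 hl
    let e : Algebra.adjoin ℂ (Set.range ξ') →+* R :=
      (Polynomial.C : _ →+* Polynomial (MvPolynomial {j : Fin n // j ≠ l} ℂ)).comp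
        (hξ.aevalEquiv.symm : _ →+* MvPolynomial {j : Fin n // j ≠ l} ℂ)
    refine h1.ringHom_of_comp_eq e (RingHom.id L) ?_ ?_
    · exact Polynomial.C_injective.comp hξ.aevalEquiv.symm.injective
    · ext y
      change evT ξ' t (Polynomial.C (hξ.aevalEquiv.symm y)) = (y : L)
      rw [evT_C]
      have := hξ.algebraMap_aevalEquiv (hξ.aevalEquiv.symm y)
      rw [AlgEquiv.apply_symm_apply] at this
      exact this.symm
  have halgL : ∀ y ∈ B, IsAlgebraic R y := by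
    intro y hy
    rw [hB] at hy
    induction hy using Algebra.adjoin_induction with
    | mem y hy =>
      rcases hy with ⟨i, rfl⟩ | hy
      · by_cases hi : i = l
        · rw [hi]; exact hlalg
        · have : algebraMap R L (Polynomial.C (X ⟨i, hi⟩)) = ξ i := by
            rw [hmapL, evT_C, aeval_X]
          rw [← this]
          exact isAlgebraic_algebraMap _
      · rw [Set.mem_singleton_iff] at hy
        have : algebraMap R L Polynomial.X = y := by
          rw [hmapL, evT_X, hy]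
        rw [← this]
        exact isAlgebraic_algebraMap _
    | algebraMap z =>
      have : algebraMap R L (Polynomial.C (C z)) = algebraMap ℂ L z := by
        rw [hmapL, evT_C, ← algebraMap_eq, AlgHom.commutes]
      rw [← this]
      exact isAlgebraic_algebraMap _
    | add y z _ _ hy hz => exact hy.add hz
    | mul y z _ _ hy hz => exact hy.mul hz
  have hbalg : IsAlgebraic R b := by
    refine (halgL b b.2).of_ringHom_of_comp_eq (RingHom.id R) (B.val : B →+* L)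
      Function.surjective_id Subtype.val_injective ?_
    ext r
    · exact (hval _).symm
    · exact (hval _).symm
    · exact (hval _).symm
  obtain ⟨β, hβ, hdvd⟩ := hbalg.exists_nonzero_dvd (mem_nonZeroDivisors_of_ne_zero hb)
  exact ⟨β, hβ, hdvd⟩

theorem exists_good {n : ℕ} {L : Type} [Field L] [Algebra ℂ L] (ξ : Fin n → L) (l : Fin n)
    (hξ : AlgebraicIndependent ℂ fun j : {j // j ≠ l} => ξ j)
    (hl : IsAlgebraic (IntermediateField.adjoin ℂ (Set.range fun j : {j // j ≠ l} => ξ j)) (ξ l))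
    (P : MvPolynomial (Fin n) ℂ) (hP : ∀ c, aeval ξ c = 0 ↔ P ∣ c)
    (t g : L) (ht : Transcendental (IntermediateField.adjoin ℂ (Set.range ξ)) t)
    (𝒪 : ValuationSubring L)
    (hK : ∀ c ∈ IntermediateField.adjoin ℂ (Set.range ξ), c ∈ 𝒪) (ht1 : 𝒪.valuation t < 1)
    (hg : IsIntegral (Algebra.adjoin
      (IntermediateField.adjoin ℂ (Set.range fun j : {j // j ≠ l} => ξ j)) ({t} : Set L)) g)
    (hg1 : 𝒪.valuation (g - 1) < 1)
    (A : Subalgebra ℂ L) (hA : A.FG) (hξA : ∀ i, ξ i ∈ A) (htA : t ∈ A) (hgA : g ∈ A)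
    (halg : ∀ x ∈ A, IsAlgebraic (Algebra.adjoin ℂ (Set.range ξ ∪ {t})) x) :
    ∃ c : MvPolynomial {j : Fin n // j ≠ l} ℂ, c ≠ 0 ∧
      ∀ D : Set ({j : Fin n // j ≠ l} → ℂ), IsCompact D → (∀ w ∈ D, eval w c ≠ 0) →
        ∀ δ : ℝ, 0 < δ → ∀ R : ℝ, ∀ᶠ N : ℕ in atTop, ∀ x : Fin n → ℂ, ‖x‖ ≤ R * N →
          eval x P = 0 → ∀ v ∈ D, (∀ j : {j : Fin n // j ≠ l}, x j = N * v j) →
          ∀ t₀ : ℂ, t₀ ≠ 0 → ‖t₀‖ ≤ Real.exp (-(δ * N)) →
          ∃ ψ : A →ₐ[ℂ] ℂ, (∀ i, ψ ⟨ξ i, hξA i⟩ = x i) ∧ ψ ⟨t, htA⟩ = t₀ ∧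
            ‖ψ ⟨g, hgA⟩ - 1‖ ≤ 1 / 2 := by
  have ht0 : t ≠ 0 := by
    rintro rfl
    exact ht isAlgebraic_zero
  set B : Subalgebra ℂ L := Algebra.adjoin ℂ (Set.range ξ ∪ {t}) with hB
  have hξB : ∀ i, ξ i ∈ B := fun i => Algebra.subset_adjoin (Or.inl ⟨i, rfl⟩)
  have htB : t ∈ B := Algebra.subset_adjoin (Or.inr rfl)
  have hBA : B ≤ A := by
    apply Algebra.adjoin_le
    rintro _ (⟨i, rfl⟩ | rfl)
    · exact hξA i
    · exact htA
  obtain ⟨b, hb, hext⟩ := exists_ext B A hBA hA halg g hgA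
  obtain ⟨β, hβ, hdvd⟩ := good_beta ξ l hξ hl t ht B hB hξB htB b hb
  obtain ⟨m, c1, a, e, hm, hc1, hrel, hcompat⟩ :=
    exists_minpoly ξ l hl t g ht0 𝒪 hK ht1 hg hg1 B hB hξB htB
  have htc : β.trailingCoeff ≠ 0 := by
    rwa [Ne, Polynomial.trailingCoeff_eq_zero]
  refine ⟨lead c1 * lead β.trailingCoeff, mul_ne_zero (lead_ne_zero hc1) (lead_ne_zero htc), ?_⟩
  intro D hD hcD δ hδ R
  have hcD1 : ∀ w ∈ D, eval w (lead c1) ≠ 0 := fun w hw h => hcD w hw (by
    rw [map_mul, h, zero_mul])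
  have hcD2 : ∀ w ∈ D, eval w (lead β.trailingCoeff) ≠ 0 := fun w hw h => hcD w hw (by
    rw [map_mul, h, mul_zero])
  obtain ⟨δ', hδ', hlow⟩ := exists_lower_bound c1 hD hcD1
  obtain ⟨C, hup⟩ := exists_upper_bound e R
  have hne := eventually_ne_zero_T β hD hcD2 hδ
  have hlim : ∀ᶠ N : ℕ in atTop, Real.exp (-(δ * N)) * (N : ℝ) ^ C < δ' * (1 / 2) ^ m := by
    have h1 : Tendsto (fun x : ℝ => x ^ C * Real.exp (-(δ * x))) atTop (𝓝 0) := by
      have := Real.tendsto_pow_mul_exp_neg_atTop_nhds_zero C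
      have h2 : Tendsto (fun x : ℝ => δ * x) atTop atTop := tendsto_id.const_mul_atTop hδ
      have h3 := (this.comp h2).const_mul ((δ ^ C)⁻¹)
      rw [mul_zero] at h3
      refine h3.congr fun x => ?_
      simp only [Function.comp]
      rw [mul_pow]
      have : δ ^ C ≠ 0 := by positivity
      field_simp
    have h2 := (h1.comp tendsto_natCast_atTop_atTop).eventually_lt_const
      (show (0 : ℝ) < δ' * (1 / 2) ^ m by positivity)
    filter_upwards [h2] with N hN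
    simp only [Function.comp] at hN
    rw [mul_comm]
    exact hN
  filter_upwards [hlow, hup, hne, hlim] with N h1 h2 h3 h4
  intro x hxR hxP v hv hxv t₀ ht₀ ht₀'
  obtain ⟨φ, hφξ, hφt⟩ := good_hom ξ P hP t ht B hB hξB htB x hxP t₀
  -- `φ b ≠ 0`
  have hφb : φ b ≠ 0 := by
    intro h0
    obtain ⟨y, hy⟩ := hdvd
    have h5 := congrArg φ hy
    rw [map_mul, h0, zero_mul, map_evT, hφt] at h5
    refine h3 v hv t₀ ht₀ ht₀' ?_
    rw [← h5]
    congr 2
    funext j
    rw [hφξ, hxv j]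
  have hev : eval (fun j : {j : Fin n // j ≠ l} => φ ⟨ξ j, hξB j⟩) c1 =
      eval (fun j => (N : ℂ) * v j) c1 := by
    congr 2
    funext j
    rw [hφξ, hxv j]
  set c₀ : ℂ := eval (fun j => (N : ℂ) * v j) c1 with hc₀
  have hc₀n : δ' ≤ ‖c₀‖ := h1 v hv
  have hc₀0 : c₀ ≠ 0 := by
    intro h0
    rw [h0, norm_zero] at hc₀n
    linarith
  -- the polynomial
  set p : Polynomial ℂ := Polynomial.C c₀ * Polynomial.X ^ m +
    ∑ k ∈ Finset.range m, Polynomial.C (evT x t₀ (a k)) * Polynomial.X ^ k with hp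
  have hlow' : (∑ k ∈ Finset.range m, Polynomial.C (evT x t₀ (a k)) * Polynomial.X ^ k).degree <
      (Polynomial.C c₀ * Polynomial.X ^ m).degree := by
    rw [Polynomial.degree_C_mul_X_pow m hc₀0]
    refine Polynomial.mem_degreeLT.1 (Submodule.sum_mem _ fun k hk => Polynomial.mem_degreeLT.2 ?_)
    refine lt_of_le_of_lt (Polynomial.degree_C_mul_X_pow_le k _) ?_
    exact_mod_cast Finset.mem_range.1 hk
  have hpdeg : p.degree = m := by
    rw [hp, Polynomial.degree_add_eq_left_of_degree_lt hlow', Polynomial.degree_C_mul_X_pow m hc₀0]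
  have hpnat : p.natDegree = m := Polynomial.natDegree_eq_of_degree_eq_some hpdeg
  have hplead : p.leadingCoeff = c₀ := by
    rw [hp, Polynomial.leadingCoeff_add_of_degree_lt' hlow', Polynomial.leadingCoeff_C_mul_X_pow]
  have hp0 : p ≠ 0 := by
    intro h0
    rw [h0, Polynomial.degree_zero] at hpdeg
    exact absurd hpdeg.symm (WithBot.coe_ne_bot)
  have heval : ∀ r : ℂ, p.eval r = c₀ * r ^ m +
      ∑ k ∈ Finset.range m, evT x t₀ (a k) * r ^ k := by
    intro r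
    rw [hp, Polynomial.eval_add, Polynomial.eval_finsetSum]
    simp
  have hφx : (fun i => φ ⟨ξ i, hξB i⟩) = x := funext hφξ
  -- the value at `1`
  have hrelB : aeval (fun j : {j // j ≠ l} => (⟨ξ j, hξB j⟩ : B)) c1 +
      ∑ k ∈ Finset.range m, evT (fun i => (⟨ξ i, hξB i⟩ : B)) ⟨t, htB⟩ (a k) =
        ⟨t, htB⟩ * evT (fun i => (⟨ξ i, hξB i⟩ : B)) ⟨t, htB⟩ e := by
    apply Subtype.val_injective
    have e1 : B.val (aeval (fun j : {j // j ≠ l} => (⟨ξ j, hξB j⟩ : B)) c1) =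
        aeval (fun j : {j // j ≠ l} => ξ j) c1 := by
      rw [MvPolynomial.comp_aeval_apply]
      rfl
    have e2 : ∀ q, B.val (evT (fun i => (⟨ξ i, hξB i⟩ : B)) ⟨t, htB⟩ q) = evT ξ t q :=
      fun q => map_evT B.val _ _ q
    have e3 : B.val (aeval (fun j : {j // j ≠ l} => (⟨ξ j, hξB j⟩ : B)) c1 +
        ∑ k ∈ Finset.range m, evT (fun i => (⟨ξ i, hξB i⟩ : B)) ⟨t, htB⟩ (a k)) =
        B.val (⟨t, htB⟩ * evT (fun i => (⟨ξ i, hξB i⟩ : B)) ⟨t, htB⟩ e) := by
      rw [map_add, map_sum, map_mul, e1, e2]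
      simp only [e2]
      exact hrel
    exact e3
  have hval1 : p.eval 1 = t₀ * evT x t₀ e := by
    have h5 := congrArg φ hrelB
    rw [map_add, map_sum, map_mul, map_evT, hφt, hφx] at h5
    simp only [map_evT, hφt, hφx] at h5
    rw [heval 1, ← h5]
    congr 1
    · rw [one_pow, mul_one, ← hev]
      rw [MvPolynomial.comp_aeval_apply, aeval_eq_eval]
    · apply Finset.sum_congr rfl
      intro k _
      rw [one_pow, mul_one]
  have ht₀1 : ‖t₀‖ ≤ 1 := ht₀'.trans (by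
    rw [Real.exp_le_one_iff]
    have : 0 ≤ δ * N := by positivity
    linarith)
  have hsmall : ‖p.eval 1‖ < δ' * (1 / 2) ^ m := by
    rw [hval1, norm_mul]
    refine lt_of_le_of_lt ?_ h4
    exact mul_le_mul ht₀' (h2 x hxR t₀ ht₀1) (norm_nonneg _) (Real.exp_pos _).le
  obtain ⟨r, hr, hr1⟩ := good_root hpnat hp0 (by rw [hplead]; exact hc₀n) hsmall
  obtain ⟨ψ, hψ, hψg⟩ := hext φ hφb r (hcompat φ (by rw [hev]; exact hc₀0) r (by
    rw [hev, hφt, hφx, ← hr, heval r]))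
  refine ⟨ψ, fun i => ?_, ?_, ?_⟩
  · rw [← hφξ i]
    exact hψ ⟨ξ i, hξB i⟩
  · rw [← hφt]
    exact hψ ⟨t, htB⟩
  · rw [hψg]
    exact hr1

end Pool.Agent.Lib.MP_209724_lc.MV
end

section

/-!
The main theorem in terms of a place of the function field.
-/

namespace Pool.Agent.Lib.MP_209724_lc.MV

open MvPolynomial Filter Topology Metric

theorem evT_option {σ S : Type*} [CommRing S] [Algebra ℂ S] (x : σ → S) (t : S)
    (b : MvPolynomial (Option σ) ℂ) :
    evT x t (optionEquivLeft ℂ σ b) = aeval (fun o : Option σ => o.elim t x) b := by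
  have h : (evT x t).comp (optionEquivLeft ℂ σ : MvPolynomial (Option σ) ℂ →+* _) =
      ((aeval (fun o : Option σ => o.elim t x) : MvPolynomial (Option σ) ℂ →ₐ[ℂ] S) :
        MvPolynomial (Option σ) ℂ →+* S) := by
    apply MvPolynomial.ringHom_ext
    · intro c
      simp [evT, optionEquivLeft_C]
    · intro o
      rcases o with _ | j
      · simp [evT, optionEquivLeft_X_none]
      · simp [evT, optionEquivLeft_X_some]
  exact congrArg (fun g => g b) h

theorem core {n : ℕ} {L : Type} [Field L] [Algebra ℂ L] (ξ η : Fin n → L) (hη : ∀ i, η i ≠ 0)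
    (hgen : IntermediateField.adjoin ℂ (Set.range ξ ∪ Set.range η) = ⊤)
    (htr : Algebra.trdeg ℂ L = n) (P : MvPolynomial (Fin n) ℂ) (hP : ∀ c, aeval ξ c = 0 ↔ P ∣ c)
    (a : Fin n → ℤ) (ha : a ≠ 0) (𝒪 : ValuationSubring L)
    (hK : ∀ c ∈ IntermediateField.adjoin ℂ (Set.range ξ), c ∈ 𝒪)
    (h𝒪 : ∀ m : Fin n → ℤ, 𝒪.valuation (∏ i, η i ^ m i) < 1 ↔ 0 < ∑ i, a i * m i)
    (hNH : NonHyperbolic (lead P) a) (A : Subalgebra ℂ L) (hA : A.FG) (hξA : ∀ i, ξ i ∈ A)
    (hηA : ∀ i, η i ∈ A) (M : ℝ) :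
    ∃ ψ : A →ₐ[ℂ] ℂ, M < ‖fun i => ψ ⟨ξ i, hξA i⟩‖ ∧
      ∀ i, ψ ⟨η i, hηA i⟩ = Complex.exp (ψ ⟨ξ i, hξA i⟩) := by
  classical
  obtain ⟨i₀, t, E, ht, hE, ht1, hu𝒪, hu'𝒪⟩ := exists_unif η hη a ha 𝒪 h𝒪
  have ht0 : t ≠ 0 := by
    rcases ht with h | h
    · rw [h]; exact hη i₀
    · rw [h]; exact inv_ne_zero (hη i₀)
  obtain ⟨l, q, r, e₁, he₁, hfac, hdiv, hgenpt⟩ := exists_generic P a hNH
  have hP0 : P ≠ 0 := by
    rintro rfl
    obtain ⟨κ, _, s₀, hs₀⟩ := hNH
    apply hs₀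
    simp [lead]
  have hPξ : aeval ξ P = 0 := (hP P).mpr dvd_rfl
  have hξ' := algebraicIndependent_xi ξ P hP l hdiv
  have hl := isAlgebraic_xi ξ P hP0 hPξ l hξ'
  have htK : Transcendental (IntermediateField.adjoin ℂ (Set.range ξ)) t :=
    transcendental_of_valuation _ 𝒪 hK ht0 ht1
  obtain ⟨hz, hzalg⟩ := z_facts ξ htr l hξ' t htK
  have hfd := finiteDimensional_L ξ η hgen l t hzalg
  set ξ' : {j : Fin n // j ≠ l} → L := fun j => ξ j with hξ'def
  set K' := IntermediateField.adjoin ℂ (Set.range ξ') with hK'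
  have hK'K : K' ≤ IntermediateField.adjoin ℂ (Set.range ξ) := by
    rw [hK', IntermediateField.adjoin_le_iff]
    rintro _ ⟨j, rfl⟩
    exact IntermediateField.subset_adjoin _ _ ⟨j, rfl⟩
  have htK' : Transcendental K' t :=
    transcendental_of_valuation _ 𝒪 (fun c hc => hK c (hK'K hc)) ht0 ht1
  set u : Fin n → L := fun i => η i ^ E * t ^ (-a i) with hu
  have hune : ∀ i, u i ≠ 0 := fun i => mul_ne_zero (pow_ne_zero _ (hη i)) (zpow_ne_zero _ ht0)
  obtain ⟨g, f, k, M₀, e, he0, hM₀, hgint, hg1, hfint, hgf, hUint⟩ :=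
    exists_idem (K := K') t htK' hfd 𝒪 (fun c => hK c (hK'K c.2)) ht1
      (Finset.univ.image u ∪ Finset.univ.image fun i => (u i)⁻¹) (by
        intro x hx
        rw [Finset.mem_union, Finset.mem_image, Finset.mem_image] at hx
        rcases hx with ⟨i, _, rfl⟩ | ⟨i, _, rfl⟩
        · exact hu𝒪 i
        · exact hu'𝒪 i)
  obtain ⟨c₂, e', hc₂, he'0, he'⟩ := exists_clear ξ' t e he0
  -- integrality relations
  have hIf : IntRel ξ' t f := intRel_of_isIntegral ξ' t f hfint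
  have hIU : ∀ x ∈ (Finset.univ.image u ∪ Finset.univ.image fun i => (u i)⁻¹),
      IntRel ξ' t (evT ξ' t e' * g ^ k * x) := by
    intro x hx
    apply intRel_of_isIntegral
    have h1 := hUint x hx
    have h2 : evT ξ' t e' * g ^ k * x = aeval ξ' c₂ * (Polynomial.aeval t e * g ^ k * x) := by
      rw [he']; ring
    rw [h2]
    have h3 : aeval ξ' c₂ ∈ K' := by
      have : aeval ξ' c₂ ∈ Algebra.adjoin ℂ (Set.range ξ') := by
        rw [Algebra.adjoin_range_eq_range_aeval]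
        exact ⟨c₂, rfl⟩
      exact IntermediateField.algebra_adjoin_le_adjoin _ _ this
    have h4 : IsIntegral (Algebra.adjoin K' ({t} : Set L)) (aeval ξ' c₂) := by
      have h5 : aeval ξ' c₂ = algebraMap (Algebra.adjoin K' ({t} : Set L)) L
          (algebraMap K' _ ⟨aeval ξ' c₂, h3⟩) := rfl
      rw [h5]
      exact isIntegral_algebraMap
    exact h4.mul h1
  -- the bigger algebra
  set W : Finset L := {t, g, f} ∪ (Finset.univ.image u ∪ Finset.univ.image fun i => (u i)⁻¹)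
    with hW
  set A' : Subalgebra ℂ L := A ⊔ Algebra.adjoin ℂ (W : Set L) with hA'
  have hAA' : A ≤ A' := le_sup_left
  have hWA' : ∀ x ∈ W, x ∈ A' := fun x hx =>
    (le_sup_right : Algebra.adjoin ℂ (W : Set L) ≤ A') (Algebra.subset_adjoin hx)
  have hA'fg : A'.FG := hA.sup (Subalgebra.fg_adjoin_finset W)
  have htA' : t ∈ A' := hWA' t (by simp [hW])
  have hgA' : g ∈ A' := hWA' g (by simp [hW])
  have hfA' : f ∈ A' := hWA' f (by simp [hW])
  have huA' : ∀ i, u i ∈ A' := fun i => hWA' _ (by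
    rw [hW]
    exact Finset.mem_union_right _ (Finset.mem_union_left _
      (Finset.mem_image_of_mem u (Finset.mem_univ i))))
  have hu'A' : ∀ i, (u i)⁻¹ ∈ A' := fun i => hWA' _ (by
    rw [hW]
    exact Finset.mem_union_right _ (Finset.mem_union_right _
      (Finset.mem_image_of_mem (fun i => (u i)⁻¹) (Finset.mem_univ i))))
  have hξA' : ∀ i, ξ i ∈ A' := fun i => hAA' (hξA i)
  have hηA' : ∀ i, η i ∈ A' := fun i => hAA' (hηA i)
  -- sheets
  have hzA' : ∀ o : Option {j : Fin n // j ≠ l}, o.elim t ξ' ∈ A' := by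
    rintro (_ | j)
    · exact htA'
    · exact hξA' j
  obtain ⟨b₀, hb₀, hsheets⟩ := exists_sheets (fun o : Option {j : Fin n // j ≠ l} => o.elim t ξ')
    hz A' hA'fg hzA' (fun x _ => hzalg.isAlgebraic x)
  set b := optionEquivLeft ℂ _ b₀ with hb
  have hbne : b ≠ 0 := by
    rw [hb, Ne, EmbeddingLike.map_eq_zero_iff]
    exact hb₀
  -- good points
  have halgA' : ∀ x ∈ A', IsAlgebraic (Algebra.adjoin ℂ (Set.range ξ ∪ {t})) x := by
    intro x _
    have hsub : Algebra.adjoin ℂ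
        (Set.range fun o : Option {j : Fin n // j ≠ l} => o.elim t ξ') ≤
        Algebra.adjoin ℂ (Set.range ξ ∪ {t}) := by
      apply Algebra.adjoin_mono
      rintro _ ⟨_ | j, rfl⟩
      · right; rfl
      · left; exact ⟨j, rfl⟩
    exact isAlgebraic_of_map (Subalgebra.inclusion hsub).toRingHom (fun r => rfl)
      (Subalgebra.inclusion_injective hsub) (hzalg.isAlgebraic x)
  obtain ⟨cg, hcg, hgood⟩ := exists_good ξ l hξ' hl P hP t g htK 𝒪 hK ht1 hgint hg1 A' hA'fg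
    hξA' htA' hgA' halgA'
  -- bounds
  have hξ'A' : ∀ j, ξ' j ∈ A' := fun j => hξA' j
  have heA' : evT ξ' t e' ∈ A' := by
    have h1 : evT ξ' t e' = A'.val (evT (fun j => ⟨ξ' j, hξ'A' j⟩) ⟨t, htA'⟩ e') := by
      rw [map_evT]; rfl
    rw [h1]
    exact Subtype.coe_prop _
  have hGA' : ∀ i, evT ξ' t e' * g ^ k * u i ∈ A' := fun i =>
    mul_mem (mul_mem heA' (pow_mem hgA' k)) (huA' i)
  have hG'A' : ∀ i, evT ξ' t e' * g ^ k * (u i)⁻¹ ∈ A' := fun i =>
    mul_mem (mul_mem heA' (pow_mem hgA' k)) (hu'A' i)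
  obtain ⟨cf, hcf, hbdf⟩ := hIf.exists_bound A' hξ'A' htA' hfA'
  have hbu : ∀ i, ∃ c : MvPolynomial {j : Fin n // j ≠ l} ℂ, c ≠ 0 ∧
      ∀ D : Set ({j : Fin n // j ≠ l} → ℂ), IsCompact D →
      (∀ w ∈ D, eval w c ≠ 0) → ∃ C : ℕ, ∀ᶠ N : ℕ in atTop, ∀ v ∈ D,
        ∀ ψ : A' →ₐ[ℂ] ℂ, (∀ j, ψ ⟨ξ' j, hξ'A' j⟩ = N * v j) → ‖ψ ⟨t, htA'⟩‖ ≤ 1 →
          ‖ψ ⟨evT ξ' t e' * g ^ k * u i, hGA' i⟩‖ ≤ (N : ℝ) ^ C := fun i =>
    (hIU (u i) (Finset.mem_union_left _
      (Finset.mem_image_of_mem u (Finset.mem_univ i)))).exists_bound A' hξ'A' htA' (hGA' i)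
  have hbu' : ∀ i, ∃ c : MvPolynomial {j : Fin n // j ≠ l} ℂ, c ≠ 0 ∧
      ∀ D : Set ({j : Fin n // j ≠ l} → ℂ), IsCompact D →
      (∀ w ∈ D, eval w c ≠ 0) → ∃ C : ℕ, ∀ᶠ N : ℕ in atTop, ∀ v ∈ D,
        ∀ ψ : A' →ₐ[ℂ] ℂ, (∀ j, ψ ⟨ξ' j, hξ'A' j⟩ = N * v j) → ‖ψ ⟨t, htA'⟩‖ ≤ 1 →
          ‖ψ ⟨evT ξ' t e' * g ^ k * (u i)⁻¹, hG'A' i⟩‖ ≤ (N : ℝ) ^ C := fun i =>
    (hIU (u i)⁻¹ (Finset.mem_union_right _
      (Finset.mem_image_of_mem (fun i => (u i)⁻¹)
        (Finset.mem_univ i)))).exists_bound A' hξ'A' htA' (hG'A' i)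
  choose cu hcu hbdu using hbu
  choose cu' hcu' hbdu' using hbu'
  -- the generic point
  set c : MvPolynomial {j : Fin n // j ≠ l} ℂ :=
    cf * cg * (∏ i, cu i) * (∏ i, cu' i) * lead (e'.coeff 0) * lead b.trailingCoeff with hc
  have hc0 : c ≠ 0 := by
    refine mul_ne_zero (mul_ne_zero (mul_ne_zero (mul_ne_zero (mul_ne_zero hcf hcg) ?_) ?_) ?_) ?_
    · exact Finset.prod_ne_zero_iff.mpr fun i _ => hcu i
    · exact Finset.prod_ne_zero_iff.mpr fun i _ => hcu' i
    · exact lead_ne_zero he'0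
    · exact lead_ne_zero (by rwa [Ne, Polynomial.trailingCoeff_eq_zero])
  obtain ⟨κ, s, w, hs, hw, hq, hql, hqa, hr, hcw⟩ := hgenpt c hc0
  have hopen : {v : {j : Fin n // j ≠ l} → ℂ | eval v c ≠ 0} ∈
      𝓝 (fun j => w j : {j : Fin n // j ≠ l} → ℂ) :=
    (MvPolynomial.continuous_eval c).continuousAt.eventually_ne hcw
  obtain ⟨ρ, hρ, hρc⟩ := Metric.nhds_basis_closedBall.mem_iff.mp hopen
  set D : Set ({j : Fin n // j ≠ l} → ℂ) := closedBall (fun j => w j) ρ with hD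
  have hDc : IsCompact D := isCompact_closedBall _ _
  have hDw : D ∈ 𝓝 (fun j => w j : {j : Fin n // j ≠ l} → ℂ) := closedBall_mem_nhds _ hρ
  have hDne : ∀ v ∈ D, eval v cf ≠ 0 ∧ eval v cg ≠ 0 ∧ (∀ i, eval v (cu i) ≠ 0) ∧
      (∀ i, eval v (cu' i) ≠ 0) ∧ eval v (lead (e'.coeff 0)) ≠ 0 ∧
      eval v (lead b.trailingCoeff) ≠ 0 := by
    intro v hv
    have h1 : eval v c ≠ 0 := hρc hv
    rw [hc] at h1
    simp only [map_mul, map_prod, mul_ne_zero_iff, Finset.prod_ne_zero_iff, Finset.mem_univ,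
      true_imp_iff] at h1
    tauto
  have hEq : ∀ (x : L) (hx : x ∈ A') (hG : evT ξ' t e' * g ^ k * x ∈ A'),
      (evT (fun j : {j : Fin n // j ≠ l} => (⟨ξ j, hξA' j⟩ : A')) ⟨t, htA'⟩ e' *
        (⟨g, hgA'⟩ : A') ^ k * ⟨x, hx⟩ : A') = ⟨evT ξ' t e' * g ^ k * x, hG⟩ := by
    intro x hx hG
    apply Subtype.ext
    have h1 : A'.val (evT (fun j : {j : Fin n // j ≠ l} => (⟨ξ j, hξA' j⟩ : A')) ⟨t, htA'⟩ e' *
        (⟨g, hgA'⟩ : A') ^ k * ⟨x, hx⟩ : A') = evT ξ' t e' * g ^ k * x := by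
      rw [map_mul, map_mul, map_pow, map_evT]
      rfl
    exact h1
  obtain ⟨δ, hδ, hfinal⟩ := core_analysis (S := A') l (fun i => ⟨ξ i, hξA' i⟩)
    (fun i => ⟨η i, hηA' i⟩) (fun i => ⟨u i, huA' i⟩) (fun i => ⟨(u i)⁻¹, hu'A' i⟩)
    ⟨t, htA'⟩ ⟨g, hgA'⟩ ⟨f, hfA'⟩ P q r he₁ hfac
    (by
      apply Subtype.ext
      have h1 : ((aeval (fun i => (⟨ξ i, hξA' i⟩ : A')) P : A') : L) = aeval ξ P := by
        have := MvPolynomial.comp_aeval_apply (B := L) (fun i => (⟨ξ i, hξA' i⟩ : A')) A'.val P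
        rw [← Subalgebra.val_apply, this]
        rfl
      rw [h1, hPξ]
      rfl)
    a κ s w hs hw hq hql hqa hr (E := E) (M := M₀) k hE hM₀ e' b D hDc hDw
    (fun v hv => (hDne v hv).2.2.2.2.1) (fun v hv => (hDne v hv).2.2.2.2.2)
    (Subtype.ext hgf) (hbdf D hDc fun v hv => (hDne v hv).1)
    (fun i => by
      have h1 := hbdu i D hDc fun v hv => (hDne v hv).2.2.1 i
      rw [hEq (u i) (huA' i) (hGA' i)]
      exact h1)
    (fun i => by
      have h1 := hbdu' i D hDc fun v hv => (hDne v hv).2.2.2.1 i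
      rw [hEq (u i)⁻¹ (hu'A' i) (hG'A' i)]
      exact h1)
    (fun i => Subtype.ext (mul_inv_cancel₀ (hune i)))
    (by
      intro i ψ τ hψ
      rcases le_or_gt 0 (a i) with ha0 | ha0
      · obtain ⟨m, hm⟩ := Int.eq_ofNat_of_zero_le ha0
        have h1 : (⟨u i, huA' i⟩ : A') * (⟨t, htA'⟩ : A') ^ m = (⟨η i, hηA' i⟩ : A') ^ E := by
          apply Subtype.ext
          change u i * t ^ m = η i ^ E
          rw [hu]
          simp only
          rw [hm, mul_assoc, zpow_neg, zpow_natCast, inv_mul_cancel₀ (pow_ne_zero _ ht0), mul_one]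
        have h2 := congrArg ψ h1
        rw [map_mul, map_pow, map_pow, hψ, ← Complex.exp_nat_mul] at h2
        rw [← h2, mul_assoc, ← Complex.exp_add, hm]
        have h3 : (m : ℂ) * τ + -(((m : ℤ) : ℂ) * τ) = 0 := by push_cast; ring
        rw [h3, Complex.exp_zero, mul_one]
      · obtain ⟨m, hm⟩ := Int.eq_ofNat_of_zero_le (show 0 ≤ -a i by omega)
        have h1 : (⟨u i, huA' i⟩ : A') = (⟨η i, hηA' i⟩ : A') ^ E * (⟨t, htA'⟩ : A') ^ m := by
          apply Subtype.ext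
          change u i = η i ^ E * t ^ m
          rw [hu]
          simp only
          rw [hm, zpow_natCast]
        have h2 := congrArg ψ h1
        rw [map_mul, map_pow, map_pow, hψ, ← Complex.exp_nat_mul] at h2
        rw [h2]
        congr 2
        have h3 : a i = -(m : ℤ) := by omega
        rw [h3]
        push_cast
        ring)
    (by
      intro N U hUo hUc hUb p₀ hp₀ φ₀ hφξ hφt
      obtain ⟨Φ, hΦ0, hΦ, hΦd⟩ := hsheets (({j : Fin n // j ≠ l} → ℂ) × ℂ) U hUo hUc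
        (fun p o => o.elim (Complex.exp (N * p.2)) fun j => N * p.1 j)
        (by
          rintro (_ | j)
          · intro p _
            have h1 : AnalyticAt ℂ (fun p : ({j : Fin n // j ≠ l} → ℂ) × ℂ => N * p.2) p :=
              analyticAt_const.mul analyticAt_snd
            exact h1.cexp
          · intro p _
            have h1 : AnalyticAt ℂ (fun p : ({j : Fin n // j ≠ l} → ℂ) × ℂ => p.1 j) p := by
              have h2 : AnalyticAt ℂ (fun v : {j : Fin n // j ≠ l} → ℂ => v j) p.1 :=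
                (ContinuousLinearMap.proj (R := ℂ) (φ := fun _ : {j : Fin n // j ≠ l} => ℂ)
                  j).analyticAt _
              exact h2.comp analyticAt_fst
            exact analyticAt_const.mul h1)
        (by
          intro p hp
          have h1 := hUb p hp
          rw [hb, evT_option, MvPolynomial.aeval_eq_eval] at h1
          exact h1) p₀ hp₀ φ₀ (by
          rintro (_ | j)
          · exact hφt
          · exact hφξ j)
      refine ⟨Φ, hΦ0, fun p hp => ⟨fun j => hΦ p hp (some j), hΦ p hp none⟩, hΦd⟩)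
    (fun δ hδ R => hgood D hDc (fun v hv => (hDne v hv).2.1) δ hδ R)
  have hlarge : ∀ᶠ N : ℕ in atTop, M < δ * N := by
    have h1 : Tendsto (fun N : ℕ => δ * (N : ℝ)) atTop atTop :=
      tendsto_natCast_atTop_atTop.const_mul_atTop hδ
    exact h1.eventually_gt_atTop M
  obtain ⟨N, ⟨ψ, ς, hς, hψt, hψη⟩, hN⟩ := (hfinal.and hlarge).exists
  refine ⟨ψ.comp (Subalgebra.inclusion hAA'), ?_, fun i => hψη i⟩
  have hre : |(ψ ⟨ξ i₀, hξA' i₀⟩).re| = N * (-ς.re) := by
    have hN0 : (0 : ℝ) ≤ N := Nat.cast_nonneg N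
    have h0 := hψη i₀
    rcases ht with h | h
    · have h1 : (⟨t, htA'⟩ : A') = ⟨η i₀, hηA' i₀⟩ := Subtype.ext h
      have h2 : Complex.exp (N * ς) = Complex.exp (ψ ⟨ξ i₀, hξA' i₀⟩) := by
        rw [← hψt, h1, h0]
      have h3 := congrArg norm h2
      rw [Complex.norm_exp, Complex.norm_exp, Real.exp_eq_exp] at h3
      rw [← h3]
      have h4 : ((N : ℂ) * ς).re = N * ς.re := by simp
      rw [h4, abs_of_nonpos (by nlinarith)]
      ring
    · have h1 : (⟨t, htA'⟩ : A') * ⟨η i₀, hηA' i₀⟩ = 1 := by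
        apply Subtype.ext
        change t * η i₀ = 1
        rw [h, inv_mul_cancel₀ (hη i₀)]
      have h2 : Complex.exp (N * ς) * Complex.exp (ψ ⟨ξ i₀, hξA' i₀⟩) = 1 := by
        rw [← hψt, ← h0, ← map_mul, h1, map_one]
      have h3 := congrArg norm h2
      rw [norm_mul, Complex.norm_exp, Complex.norm_exp, norm_one, ← Real.exp_add,
        Real.exp_eq_one_iff] at h3
      have h4 : ((N : ℂ) * ς).re = N * ς.re := by simp
      rw [h4] at h3
      have h5 : (ψ ⟨ξ i₀, hξA' i₀⟩).re = N * (-ς.re) := by linarith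
      rw [h5, abs_of_nonneg (by nlinarith)]
  calc M < δ * N := hN
    _ ≤ N * (-ς.re) := by
      have hN0 : (0 : ℝ) ≤ N := Nat.cast_nonneg N
      nlinarith
    _ = |(ψ ⟨ξ i₀, hξA' i₀⟩).re| := hre.symm
    _ ≤ ‖ψ ⟨ξ i₀, hξA' i₀⟩‖ := Complex.abs_re_le_norm _
    _ ≤ _ := norm_le_pi_norm (fun i => (ψ.comp (Subalgebra.inclusion hAA')) ⟨ξ i, hξA i⟩) i₀

end Pool.Agent.Lib.MP_209724_lc.MV
end
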