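import Mathlib
import Pool.Agent.Lib.MP_209724_lc.MV.Defs
import Pool.Agent.Lib.MP_209724_lc.MV.CoreB
import Pool.Agent.Lib.MP_209724_lc.MV.Branch

section

/-!
The place of a field given by a tropical direction.
-/

namespace Pool.Agent.Lib.MP_209724_lc.MV

open MvPolynomial
open scoped Pointwise

private theorem pa_prod_add {n : ℕ} {L : Type} [Field L] (η : Fin n → L) (hη : ∀ i, η i ≠ 0)
    (m m' : Fin n → ℤ) : ∏ i, η i ^ (m + m') i = (∏ i, η i ^ m i) * ∏ i, η i ^ m' i := by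
  rw [← Finset.prod_mul_distrib]
  exact Finset.prod_congr rfl fun i _ => by rw [Pi.add_apply, zpow_add₀ (hη i)]

private theorem pa_sum_add {n : ℕ} (a m m' : Fin n → ℤ) :
    ∑ i, a i * (m + m') i = (∑ i, a i * m i) + ∑ i, a i * m' i := by
  rw [← Finset.sum_add_distrib]
  exact Finset.sum_congr rfl fun i _ => by rw [Pi.add_apply, mul_add]

/-- the monomials of nonnegative weight -/
private def paMon {n : ℕ} {L : Type} [Field L] (η : Fin n → L) (hη : ∀ i, η i ≠ 0)
    (a : Fin n → ℤ) : Submonoid L where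
  carrier := {x | ∃ m : Fin n → ℤ, 0 ≤ ∑ i, a i * m i ∧ ∏ i, η i ^ m i = x}
  one_mem' := ⟨0, by simp, by simp⟩
  mul_mem' := by
    rintro x y ⟨m, hm, rfl⟩ ⟨m', hm', rfl⟩
    exact ⟨m + m', by rw [pa_sum_add]; exact add_nonneg hm hm', pa_prod_add η hη m m'⟩

/-- `1` is not a combination of monomials of positive weight -/
private theorem pa_one_notMem {n : ℕ} {K L : Type} [Field K] [Field L] [Algebra K L]
    (η : Fin n → L) (hη : ∀ i, η i ≠ 0) (a : Fin n → ℤ)
    (hT : ∀ f : MvPolynomial (Fin n) K, aeval η f = 0 → ∀ m, f.coeff m ≠ 0 →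
      ∃ m', m' ≠ m ∧ f.coeff m' ≠ 0 ∧ ∑ i, a i * (m' i : ℤ) ≤ ∑ i, a i * (m i : ℤ)) :
    (1 : L) ∉ Submodule.span K
      ((fun m : Fin n → ℤ => ∏ i, η i ^ m i) '' {m | 0 < ∑ i, a i * m i}) := by
  classical
  intro h1
  rw [Finsupp.mem_span_image_iff_linearCombination] at h1
  obtain ⟨l, hl, hl1⟩ := h1
  rw [Finsupp.mem_supported] at hl
  rw [Finsupp.linearCombination_apply, Finsupp.sum] at hl1
  set M : Fin n →₀ ℕ := Finsupp.equivFunOnFinite.symm fun i => ∑ m ∈ l.support, (m i).natAbs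
    with hM
  have hMi : ∀ i, M i = ∑ m ∈ l.support, (m i).natAbs := fun i => rfl
  set sh : (Fin n → ℤ) → (Fin n →₀ ℕ) := fun m =>
    Finsupp.equivFunOnFinite.symm fun i => ((M i : ℤ) + m i).toNat with hsh
  have hshi : ∀ m ∈ l.support, ∀ i, ((sh m i : ℕ) : ℤ) = (M i : ℤ) + m i := by
    intro m hm i
    have h2 : (m i).natAbs ≤ M i := by
      rw [hMi]
      exact Finset.single_le_sum (f := fun m : Fin n → ℤ => (m i).natAbs)
        (fun _ _ => Nat.zero_le _) hm
    have h3 : sh m i = ((M i : ℤ) + m i).toNat := rfl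
    rw [h3, Int.toNat_of_nonneg]
    omega
  have hwt : ∀ m ∈ l.support, ∑ i, a i * ((sh m i : ℕ) : ℤ) =
      (∑ i, a i * (M i : ℤ)) + ∑ i, a i * m i := by
    intro m hm
    rw [← Finset.sum_add_distrib]
    exact Finset.sum_congr rfl fun i _ => by rw [hshi m hm i, mul_add]
  set f : MvPolynomial (Fin n) K :=
    monomial M 1 - ∑ m ∈ l.support, monomial (sh m) (l m) with hf
  have hf0 : aeval η f = 0 := by
    rw [hf, map_sub, map_sum]
    have h4 : aeval η (monomial M (1 : K)) = ∏ i, η i ^ (M i : ℤ) := by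
      rw [aeval_monomial, map_one, one_mul, Finsupp.prod_fintype _ _ (fun i => pow_zero _)]
      exact Finset.prod_congr rfl fun i _ => (zpow_natCast _ _).symm
    have h5 : ∀ m ∈ l.support, aeval η (monomial (sh m) (l m)) =
        (∏ i, η i ^ (M i : ℤ)) * (l m • ∏ i, η i ^ m i) := by
      intro m hm
      rw [aeval_monomial, Finsupp.prod_fintype _ _ (fun i => pow_zero _), Algebra.smul_def,
        mul_left_comm, ← Finset.prod_mul_distrib]
      congr 1
      refine Finset.prod_congr rfl fun i _ => ?_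
      rw [← zpow_natCast, hshi m hm i, zpow_add₀ (hη i)]
    rw [h4, Finset.sum_congr rfl h5, ← Finset.mul_sum, hl1, mul_one, sub_self]
  have hpos : ∀ m ∈ l.support, 0 < ∑ i, a i * m i := fun m hm => hl hm
  have hcM : f.coeff M ≠ 0 := by
    rw [hf, coeff_sub, coeff_monomial, if_pos rfl, coeff_sum]
    rw [Finset.sum_eq_zero, sub_zero]
    · exact one_ne_zero
    · intro m hm
      rw [coeff_monomial, if_neg]
      intro h6
      have h7 := hwt m hm
      rw [h6] at h7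
      have h8 := hpos m hm
      linarith
  obtain ⟨m', hne, hc, hle⟩ := hT f hf0 M hcM
  rw [hf, coeff_sub, coeff_monomial, if_neg (Ne.symm hne), zero_sub, coeff_sum, neg_ne_zero] at hc
  obtain ⟨m, hm, hmc⟩ := Finset.exists_ne_zero_of_sum_ne_zero hc
  rw [coeff_monomial] at hmc
  have h9 : sh m = m' := by
    by_contra h10
    rw [if_neg h10] at hmc
    exact hmc rfl
  have h11 := hwt m hm
  have h12 := hpos m hm
  rw [h9] at h11
  linarith

theorem exists_place_of_trop {n : ℕ} {K L : Type} [Field K] [Field L] [Algebra K L]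
    (η : Fin n → L) (hη : ∀ i, η i ≠ 0) (a : Fin n → ℤ)
    (hT : ∀ f : MvPolynomial (Fin n) K, aeval η f = 0 → ∀ m, f.coeff m ≠ 0 →
      ∃ m', m' ≠ m ∧ f.coeff m' ≠ 0 ∧ ∑ i, a i * (m' i : ℤ) ≤ ∑ i, a i * (m i : ℤ)) :
    ∃ 𝒪 : ValuationSubring L, (∀ c : K, algebraMap K L c ∈ 𝒪) ∧
      ∀ m : Fin n → ℤ, 𝒪.valuation (∏ i, η i ^ m i) < 1 ↔ 0 < ∑ i, a i * m i := by
  classical
  set A : Subalgebra K L := Algebra.adjoin K (paMon η hη a : Set L) with hA
  set PS : Set L := (fun m : Fin n → ℤ => ∏ i, η i ^ m i) '' {m | 0 < ∑ i, a i * m i} with hPS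
  have hAspan : ∀ x ∈ A, x ∈ Submodule.span K (paMon η hη a : Set L) := by
    intro x hx
    have h1 : x ∈ Subalgebra.toSubmodule A := hx
    rw [hA, Algebra.adjoin_eq_span, Submonoid.closure_eq] at h1
    exact h1
  have hmulP : ∀ x ∈ A, ∀ y ∈ Submodule.span K PS, x * y ∈ Submodule.span K PS := by
    intro x hx y hy
    have h2 := Submodule.mul_mem_mul (hAspan x hx) hy
    rw [Submodule.span_mul_span] at h2
    refine Submodule.span_mono ?_ h2
    rintro _ ⟨_, ⟨m, hm, rfl⟩, _, ⟨m', hm', rfl⟩, rfl⟩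
    refine ⟨m + m', ?_, pa_prod_add η hη m m'⟩
    change 0 < ∑ i, a i * (m + m') i
    rw [pa_sum_add]
    exact add_pos_of_nonneg_of_pos hm hm'
  set I : Ideal A.toSubring := Ideal.span {x | (x : L) ∈ PS} with hI
  have hIP : ∀ x ∈ I, (x : L) ∈ Submodule.span K PS := by
    intro x hx
    refine Submodule.span_induction (p := fun (x : A.toSubring) _ => (x : L) ∈ Submodule.span K PS)
      ?_ ?_ ?_ ?_ hx
    · intro x hx
      exact Submodule.subset_span hx
    · exact Submodule.zero_mem _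
    · intro x y _ _ h3 h4
      exact Submodule.add_mem _ h3 h4
    · intro s x _ h3
      exact hmulP _ s.2 _ h3
  have hItop : I ≠ ⊤ := by
    intro h5
    have h6 : (1 : A.toSubring) ∈ I := by rw [h5]; trivial
    exact pa_one_notMem η hη a hT (hIP _ h6)
  obtain ⟨𝒪, h𝒪1, h𝒪2⟩ := Ideal.image_subset_nonunits_valuationSubring I hItop
  have hmem : ∀ m : Fin n → ℤ, 0 ≤ ∑ i, a i * m i → ∏ i, η i ^ m i ∈ A := fun m hm =>
    Algebra.subset_adjoin ⟨m, hm, rfl⟩
  refine ⟨𝒪, fun c => h𝒪1 (A.algebraMap_mem c), fun m => ⟨?_, ?_⟩⟩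
  · intro hlt
    by_contra hle
    have h7 : 0 ≤ ∑ i, a i * (-m) i := by
      have : ∑ i, a i * (-m) i = - ∑ i, a i * m i := by
        rw [← Finset.sum_neg_distrib]
        exact Finset.sum_congr rfl fun i _ => by rw [Pi.neg_apply, mul_neg]
      rw [this]
      linarith
    have h8 : ∏ i, η i ^ (-m) i ∈ 𝒪 := h𝒪1 (hmem _ h7)
    have h9 : ∏ i, η i ^ (-m) i = (∏ i, η i ^ m i)⁻¹ := by
      rw [← Finset.prod_inv_distrib]
      exact Finset.prod_congr rfl fun i _ => by rw [Pi.neg_apply, zpow_neg]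
    rw [h9, ← 𝒪.valuation_le_one_iff, map_inv₀] at h8
    have h10 : 𝒪.valuation (∏ i, η i ^ m i) ≠ 0 := by
      rw [Valuation.ne_zero_iff]
      exact Finset.prod_ne_zero_iff.2 fun i _ => zpow_ne_zero _ (hη i)
    have h11 := (inv_le_one₀ (zero_lt_iff.2 h10)).1 h8
    exact absurd hlt (not_lt.2 h11)
  · intro hm
    rw [← ValuationSubring.mem_nonunits_iff]
    apply h𝒪2
    refine ⟨⟨_, hmem m hm.le⟩, Ideal.subset_span ?_, rfl⟩
    exact ⟨m, hm, rfl⟩

theorem trop_of_place {n : ℕ} {K L : Type} [Field K] [Field L] [Algebra K L]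
    (η : Fin n → L) (hη : ∀ i, η i ≠ 0) (a : Fin n → ℤ) (𝒪 : ValuationSubring L)
    (hK : ∀ c : K, algebraMap K L c ∈ 𝒪)
    (h𝒪 : ∀ m : Fin n → ℤ, 𝒪.valuation (∏ i, η i ^ m i) < 1 ↔ 0 < ∑ i, a i * m i)
    (f : MvPolynomial (Fin n) K) (hf : aeval η f = 0) (m : Fin n →₀ ℕ) (hm : f.coeff m ≠ 0) :
    ∃ m', m' ≠ m ∧ f.coeff m' ≠ 0 ∧ ∑ i, a i * (m' i : ℤ) ≤ ∑ i, a i * (m i : ℤ) := by
  classical
  by_contra hcon
  push Not at hcon
  have hv1 : ∀ c : K, c ≠ 0 → 𝒪.valuation (algebraMap K L c) = 1 := by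
    intro c hc
    have hc' : algebraMap K L c ≠ 0 := by
      rwa [Ne, map_eq_zero]
    have h10 : 𝒪.valuation (algebraMap K L c) ≠ 0 := by rwa [Valuation.ne_zero_iff]
    refine le_antisymm ((𝒪.valuation_le_one_iff _).2 (hK c)) ?_
    have h2 := (𝒪.valuation_le_one_iff _).2 (hK c⁻¹)
    rw [map_inv₀, map_inv₀] at h2
    exact (inv_le_one₀ (zero_lt_iff.2 h10)).1 h2
  have hsum : ∑ d ∈ f.support, algebraMap K L (f.coeff d) * ∏ i, η i ^ d i = 0 := by
    rw [← hf, aeval_def, eval₂_eq']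
  have hms : m ∈ f.support := MvPolynomial.mem_support_iff.2 hm
  have hprod : ∀ d : Fin n →₀ ℕ, ∏ i, η i ^ d i ≠ 0 := fun d =>
    Finset.prod_ne_zero_iff.2 fun i _ => pow_ne_zero _ (hη i)
  rw [← Finset.add_sum_erase _ _ hms] at hsum
  have hg : 𝒪.valuation (algebraMap K L (f.coeff m) * ∏ i, η i ^ m i) ≠ 0 := by
    rw [Valuation.ne_zero_iff]
    exact mul_ne_zero (by rwa [Ne, map_eq_zero]) (hprod m)
  have hlt : 𝒪.valuation (∑ d ∈ f.support.erase m, algebraMap K L (f.coeff d) * ∏ i, η i ^ d i) <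
      𝒪.valuation (algebraMap K L (f.coeff m) * ∏ i, η i ^ m i) := by
    apply Valuation.map_sum_lt _ hg
    intro d hd
    rw [Finset.mem_erase, MvPolynomial.mem_support_iff] at hd
    have h3 := hcon d hd.1 hd.2
    have h4 : ∏ i, η i ^ d i = (∏ i, η i ^ m i) * ∏ i, η i ^ ((d i : ℤ) - m i) := by
      rw [← Finset.prod_mul_distrib]
      refine Finset.prod_congr rfl fun i _ => ?_
      rw [← zpow_natCast, ← zpow_natCast, ← zpow_add₀ (hη i)]
      congr 1
      ring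
    have h5 : 𝒪.valuation (∏ i, η i ^ ((d i : ℤ) - m i)) < 1 := by
      rw [h𝒪 fun i => (d i : ℤ) - m i]
      have : ∑ i, a i * ((d i : ℤ) - m i) =
          (∑ i, a i * (d i : ℤ)) - ∑ i, a i * (m i : ℤ) := by
        rw [← Finset.sum_sub_distrib]
        exact Finset.sum_congr rfl fun i _ => by rw [mul_sub]
      rw [this]
      linarith
    rw [map_mul, map_mul, hv1 _ hd.2, hv1 _ hm, one_mul, one_mul, h4, map_mul]
    have h6 : 0 < 𝒪.valuation (∏ i, η i ^ m i) :=
      zero_lt_iff.2 ((Valuation.ne_zero_iff _).2 (hprod m))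
    calc _ < 𝒪.valuation (∏ i, η i ^ m i) * 1 := (mul_lt_mul_iff_right₀ h6).2 h5
      _ = _ := mul_one _
  have h7 : algebraMap K L (f.coeff m) * ∏ i, η i ^ m i =
      -∑ d ∈ f.support.erase m, algebraMap K L (f.coeff d) * ∏ i, η i ^ d i :=
    eq_neg_of_add_eq_zero_left hsum
  rw [h7, Valuation.map_neg] at hlt
  exact lt_irrefl _ hlt

end Pool.Agent.Lib.MP_209724_lc.MV
end

section

/-!
The main theorem for prime ideals of `ℂ[x][y]`.
-/

namespace Pool.Agent.Lib.MP_209724_lc.MV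

open MvPolynomial Filter Topology Metric

/-- common denominators -/
theorem denom_finset {σ L ι : Type} [Field L] [Algebra ℂ L] (ξ : σ → L)
    (x : ι → IntermediateField.adjoin ℂ (Set.range ξ)) (s : Finset ι) :
    ∃ (c : MvPolynomial σ ℂ) (p : ι → MvPolynomial σ ℂ), aeval ξ c ≠ 0 ∧
      ∀ k ∈ s, aeval ξ (p k) = aeval ξ c * (x k : L) := by
  classical
  induction s using Finset.induction_on with
  | empty => exact ⟨1, fun _ => 0, by simp, by simp⟩
  | insert k₀ s hk₀ ih =>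
    obtain ⟨c, p, hc, hp⟩ := ih
    obtain ⟨d, q, hd, hq⟩ : ∃ d q : MvPolynomial σ ℂ, aeval ξ d ≠ 0 ∧
        aeval ξ q = aeval ξ d * (x k₀ : L) := by
      obtain ⟨r, s, hrs⟩ := (IntermediateField.mem_adjoin_range_iff ℂ ξ (x k₀ : L)).1 (x k₀).2
      by_cases hs : aeval ξ s = 0
      · refine ⟨1, 0, by simp, ?_⟩
        rw [hrs, hs]
        simp
      · refine ⟨s, r, hs, ?_⟩
        rw [hrs]
        field_simp
    refine ⟨c * d, fun k => if k = k₀ then c * q else p k * d, ?_, ?_⟩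
    · rw [map_mul]; exact mul_ne_zero hc hd
    · intro k hk
      by_cases hkN : k = k₀
      · subst hkN
        simp only [if_true, map_mul, hq]
        ring
      · have hk' : k ∈ s := Finset.mem_of_mem_insert_of_ne hk hkN
        simp only [hkN, if_false, map_mul, hp k hk']
        ring

variable {n : ℕ}

/-- `a` is a tropical direction of the generic fibre of the projection to the `x`-space. -/
def IsTrop (Q : Ideal (MvPolynomial (Fin n) (MvPolynomial (Fin n) ℂ)))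
    (P : MvPolynomial (Fin n) ℂ) (a : Fin n → ℤ) : Prop :=
  ∀ f ∈ Q, ∀ m, ¬ P ∣ f.coeff m → ∃ m', m' ≠ m ∧ ¬ P ∣ f.coeff m' ∧
    ∑ i, a i * (m' i : ℤ) ≤ ∑ i, a i * (m i : ℤ)

section

variable {L : Type} [Field L] [Algebra ℂ L]
  (π : MvPolynomial (Fin n) (MvPolynomial (Fin n) ℂ) →ₐ[ℂ] L)

theorem pi_C (c : MvPolynomial (Fin n) ℂ) : π (C c) = aeval (fun i => π (C (X i))) c := by
  have h : π.comp ((Algebra.ofId (MvPolynomial (Fin n) ℂ)
      (MvPolynomial (Fin n) (MvPolynomial (Fin n) ℂ))).restrictScalars ℂ) =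
      aeval (fun i => π (C (X i))) := by
    apply MvPolynomial.algHom_ext
    intro i
    simp only [AlgHom.comp_apply, aeval_X]
    rfl
  exact congrArg (fun g => g c) h

theorem pi_eq (f : MvPolynomial (Fin n) (MvPolynomial (Fin n) ℂ)) :
    π f = ∑ m ∈ f.support, aeval (fun i => π (C (X i))) (f.coeff m) * ∏ i, π (X i) ^ m i := by
  conv_lhs => rw [f.as_sum]
  rw [map_sum]
  refine Finset.sum_congr rfl fun m _ => ?_
  rw [monomial_eq, map_mul, pi_C, Finsupp.prod_fintype _ _ (by simp), map_prod]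
  simp only [map_pow]

end

theorem rho_eq (ρ : MvPolynomial (Fin n) (MvPolynomial (Fin n) ℂ) →ₐ[ℂ] ℂ)
    (f : MvPolynomial (Fin n) (MvPolynomial (Fin n) ℂ)) :
    ρ f = eval (fun i => ρ (X i)) (map (eval fun i => ρ (C (X i))) f) := by
  have h : (ρ : MvPolynomial (Fin n) (MvPolynomial (Fin n) ℂ) →+* ℂ) =
      (eval (fun i => ρ (X i))).comp (map (eval fun i => ρ (C (X i)))) := by
    apply MvPolynomial.ringHom_ext
    · intro c
      rw [RingHom.comp_apply, map_C, eval_C, RingHom.coe_coe, pi_C, aeval_eq_eval]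
    · intro i
      rw [RingHom.comp_apply, map_X, eval_X, RingHom.coe_coe]
  exact congrArg (fun g => g f) h

theorem pi_eq_aeval {L : Type} [Field L] [Algebra ℂ L]
    (π : MvPolynomial (Fin n) (MvPolynomial (Fin n) ℂ) →ₐ[ℂ] L)
    (K : IntermediateField ℂ L) (f : MvPolynomial (Fin n) K)
    (c : MvPolynomial (Fin n) ℂ) (F : MvPolynomial (Fin n) (MvPolynomial (Fin n) ℂ))
    (hF : ∀ m, aeval (fun i => π (C (X i))) (F.coeff m) =
      aeval (fun i => π (C (X i))) c * ((f.coeff m : K) : L))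
    (hsupp : F.support ⊆ f.support) :
    π F = aeval (fun i => π (C (X i))) c * aeval (fun i => π (X i)) f := by
  have h1 : aeval (fun i => π (X i)) f = ∑ m ∈ f.support,
      algebraMap K L (f.coeff m) * ∏ i, π (X i) ^ m i := by
    rw [aeval_def, eval₂_eq']
  rw [pi_eq, h1, Finset.mul_sum]
  rw [Finset.sum_subset hsupp]
  · refine Finset.sum_congr rfl fun m _ => ?_
    rw [hF, mul_assoc]
    rfl
  · intro m _ hm
    rw [notMem_support_iff] at hm
    rw [hm, map_zero, zero_mul]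

theorem trop_field {L : Type} [Field L] [Algebra ℂ L]
    (π : MvPolynomial (Fin n) (MvPolynomial (Fin n) ℂ) →ₐ[ℂ] L)
    (Q : Ideal (MvPolynomial (Fin n) (MvPolynomial (Fin n) ℂ)))
    (hπ0 : ∀ f, π f = 0 ↔ f ∈ Q) (P : MvPolynomial (Fin n) ℂ)
    (hP : ∀ c, aeval (fun i => π (C (X i))) c = 0 ↔ P ∣ c) (a : Fin n → ℤ)
    (hT : IsTrop Q P a)
    (f : MvPolynomial (Fin n) (IntermediateField.adjoin ℂ (Set.range fun i => π (C (X i)))))
    (hf : aeval (fun i => π (X i)) f = 0) (m : Fin n →₀ ℕ) (hm : f.coeff m ≠ 0) :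
    ∃ m', m' ≠ m ∧ f.coeff m' ≠ 0 ∧ ∑ i, a i * (m' i : ℤ) ≤ ∑ i, a i * (m i : ℤ) := by
  classical
  obtain ⟨c, p, hc, hp⟩ := denom_finset (fun i => π (C (X i))) (fun m => f.coeff m) f.support
  set F : MvPolynomial (Fin n) (MvPolynomial (Fin n) ℂ) :=
    ∑ m ∈ f.support, monomial m (p m) with hF
  have hFc : ∀ m, F.coeff m = if m ∈ f.support then p m else 0 := by
    intro m
    rw [hF, coeff_sum]
    simp only [coeff_monomial]
    rw [Finset.sum_ite_eq']
  have hFm : ∀ m, aeval (fun i => π (C (X i))) (F.coeff m) =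
      aeval (fun i => π (C (X i))) c *
        ((f.coeff m : IntermediateField.adjoin ℂ (Set.range fun i => π (C (X i)))) : L) := by
    intro m
    rw [hFc]
    by_cases h : m ∈ f.support
    · rw [if_pos h]
      exact hp m h
    · rw [if_neg h]
      rw [notMem_support_iff] at h
      rw [h]
      simp
  have hsupp : F.support ⊆ f.support := by
    intro m hm
    rw [mem_support_iff, hFc] at hm
    by_contra h
    rw [if_neg h] at hm
    exact hm rfl
  have hFQ : F ∈ Q := by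
    rw [← hπ0, pi_eq_aeval π _ f c F hFm hsupp, hf, mul_zero]
  have hne : ∀ m, ¬ P ∣ F.coeff m ↔ f.coeff m ≠ 0 := by
    intro m
    rw [← hP, hFm, mul_eq_zero, not_or]
    constructor
    · rintro ⟨_, h⟩ h0
      apply h
      rw [h0]; rfl
    · intro h
      refine ⟨hc, fun h0 => h ?_⟩
      exact Subtype.ext h0
  obtain ⟨m', h1, h2, h3⟩ := hT F hFQ m ((hne m).mpr hm)
  exact ⟨m', h1, (hne m').mp h2, h3⟩

theorem adjoin_eq_top_of {L : Type} [Field L] [Algebra ℂ L] (K : IntermediateField ℂ L)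
    (S T : Set L) (hS : ∀ x ∈ S, x ∈ K) (h : IntermediateField.adjoin ℂ (S ∪ T) = ⊤) :
    IntermediateField.adjoin K T = ⊤ := by
  rw [eq_top_iff]
  intro x _
  have h3 : x ∈ IntermediateField.adjoin ℂ (S ∪ T) := by
    rw [h]; trivial
  have h4 : IntermediateField.adjoin ℂ (S ∪ T) ≤
      (IntermediateField.adjoin K T).restrictScalars ℂ := by
    rw [IntermediateField.adjoin_le_iff]
    rintro y (hy | hy)
    · have h5 : algebraMap K L ⟨y, hS y hy⟩ ∈ IntermediateField.adjoin K T :=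
        IntermediateField.algebraMap_mem _ _
      have h6 : algebraMap K L ⟨y, hS y hy⟩ = y := rfl
      rw [h6] at h5
      exact h5
    · exact IntermediateField.subset_adjoin K T hy
  exact h4 h3

theorem isAlgebraic_of_adjoin {L : Type} [Field L] [Algebra ℂ L] (K : IntermediateField ℂ L)
    (T : Set L) (h : IntermediateField.adjoin K T = ⊤) (hT : ∀ x ∈ T, IsAlgebraic K x) :
    Algebra.IsAlgebraic K L := by
  have h3 : Algebra.IsAlgebraic K (IntermediateField.adjoin K T) := by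
    apply IntermediateField.isAlgebraic_adjoin
    intro x hx
    exact (hT x hx).isIntegral
  constructor
  intro x
  have h5 : x ∈ IntermediateField.adjoin K T := by rw [h]; trivial
  exact (h3.isAlgebraic ⟨x, h5⟩).algHom (IntermediateField.val _)

theorem isAlgebraic_simple_of {L : Type} [Field L] [Algebra ℂ L] (K : IntermediateField ℂ L)
    (y : L) (S : Set L) (hS : ∀ x ∈ S, x = y ∨ x ∈ K)
    (h : Algebra.IsAlgebraic (Algebra.adjoin ℂ S) L) :
    Algebra.IsAlgebraic (IntermediateField.adjoin K {y}) L := by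
  constructor
  intro x
  have hsub : Algebra.adjoin ℂ S ≤
      ((IntermediateField.adjoin K {y}).restrictScalars ℂ).toSubalgebra := by
    apply Algebra.adjoin_le
    intro z hz
    rcases hS z hz with rfl | hz
    · exact IntermediateField.subset_adjoin K _ (Set.mem_singleton _)
    · exact (IntermediateField.adjoin K {y}).algebraMap_mem ⟨z, hz⟩
  exact isAlgebraic_of_map (Subalgebra.inclusion hsub).toRingHom (fun r => rfl)
    (Subalgebra.inclusion_injective hsub) (h.isAlgebraic x)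

theorem exists_place' {L : Type} [Field L] [Algebra ℂ L] (ξ η : Fin n → L) (hη0 : ∀ i, η i ≠ 0)
    (hgen : IntermediateField.adjoin ℂ (Set.range ξ ∪ Set.range η) = ⊤)
    (htr : Algebra.trdeg ℂ L = n) (P : MvPolynomial (Fin n) ℂ) (hP0 : P ≠ 0)
    (hPξ : ∀ c, aeval ξ c = 0 ↔ P ∣ c) (l : Fin n)
    (hdiv : ∀ c : MvPolynomial {j : Fin n // j ≠ l} ℂ, c ≠ 0 → ¬ P ∣ rename Subtype.val c) :
    ∃ a : Fin n → ℤ, a ≠ 0 ∧
      ∃ 𝒪 : ValuationSubring L, (∀ c ∈ IntermediateField.adjoin ℂ (Set.range ξ), c ∈ 𝒪) ∧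
        ∀ m : Fin n → ℤ, 𝒪.valuation (∏ i, η i ^ m i) < 1 ↔ 0 < ∑ i, a i * m i := by
  -- some `η i` is transcendental over `ℂ(ξ)`
  have htrans : ∃ i₀, Transcendental (IntermediateField.adjoin ℂ (Set.range ξ)) (η i₀) := by
    by_contra hcon
    have h1 : ∀ i, IsAlgebraic (IntermediateField.adjoin ℂ (Set.range ξ)) (η i) := by
      intro i
      by_contra h2
      exact hcon ⟨i, h2⟩
    have h2 := adjoin_eq_top_of (IntermediateField.adjoin ℂ (Set.range ξ)) (Set.range ξ)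
      (Set.range η) (fun x hx => IntermediateField.subset_adjoin _ _ hx) hgen
    have h4 := isAlgebraic_of_adjoin _ _ h2 (by rintro _ ⟨i, rfl⟩; exact h1 i)
    rw [IntermediateField.isAlgebraic_adjoin_iff_top] at h4
    have h5 : IsTranscendenceBasis ℂ ξ := by
      apply Algebra.IsAlgebraic.isTranscendenceBasis_of_le_trdeg_of_finite
      rw [htr]
      simp
    exact hP0 ((algebraicIndependent_iff.mp h5.1) P ((hPξ P).mpr dvd_rfl))
  obtain ⟨i₀, hi₀⟩ := htrans
  have hξ' := algebraicIndependent_xi ξ P hPξ l hdiv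
  obtain ⟨hz, hzalg⟩ := z_facts ξ htr l hξ' (η i₀) hi₀
  have halg := isAlgebraic_simple_of (IntermediateField.adjoin ℂ (Set.range ξ)) (η i₀) _ (by
    rintro _ ⟨_ | j, rfl⟩
    · left; rfl
    · right; exact IntermediateField.subset_adjoin _ _ ⟨j, rfl⟩) hzalg
  obtain ⟨a, ha, 𝒪, hK, h𝒪⟩ := exists_place
    (K := IntermediateField.adjoin ℂ (Set.range ξ)) η hη0 i₀ hi₀ halg
  exact ⟨a, ha, 𝒪, fun c hc => hK ⟨c, hc⟩, h𝒪⟩

theorem final (Q : Ideal (MvPolynomial (Fin n) (MvPolynomial (Fin n) ℂ))) [hQ : Q.IsPrime]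
    (hy : ∀ i, (X i : MvPolynomial (Fin n) (MvPolynomial (Fin n) ℂ)) ∉ Q)
    (hdim : Algebra.trdeg ℂ (MvPolynomial (Fin n) (MvPolynomial (Fin n) ℂ) ⧸ Q) = n)
    (P : MvPolynomial (Fin n) ℂ) (hP0 : P ≠ 0)
    (hP : ∀ c : MvPolynomial (Fin n) ℂ, C c ∈ Q ↔ P ∣ c)
    (h : (∃ a : Fin n → ℤ, a ≠ 0 ∧ IsTrop Q P a ∧ NonHyperbolic (lead P) a) ∨
      ∀ a : Fin n → ℤ, a ≠ 0 → NonHyperbolic (lead P) a)
    (D : MvPolynomial (Fin n) (MvPolynomial (Fin n) ℂ)) (hD : D ∉ Q) (M : ℝ) :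
    ∃ x : Fin n → ℂ, M < ‖x‖ ∧
      (∀ f ∈ Q, eval (fun i => Complex.exp (x i)) (map (eval x) f) = 0) ∧
      eval (fun i => Complex.exp (x i)) (map (eval x) D) ≠ 0 := by
  classical
  set L := FractionRing (MvPolynomial (Fin n) (MvPolynomial (Fin n) ℂ) ⧸ Q) with hL
  set π : MvPolynomial (Fin n) (MvPolynomial (Fin n) ℂ) →ₐ[ℂ] L :=
    (IsScalarTower.toAlgHom ℂ (MvPolynomial (Fin n) (MvPolynomial (Fin n) ℂ) ⧸ Q) L).comp
      (Ideal.Quotient.mkₐ ℂ Q) with hπ
  have hπ0 : ∀ f, π f = 0 ↔ f ∈ Q := by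
    intro f
    have hinj : Function.Injective
        (algebraMap (MvPolynomial (Fin n) (MvPolynomial (Fin n) ℂ) ⧸ Q) L) :=
      IsFractionRing.injective _ _
    rw [hπ, AlgHom.comp_apply, IsScalarTower.coe_toAlgHom', map_eq_zero_iff _ hinj,
      Ideal.Quotient.mkₐ_eq_mk, Ideal.Quotient.eq_zero_iff_mem]
  set ξ : Fin n → L := fun i => π (C (X i)) with hξ
  set η : Fin n → L := fun i => π (X i) with hη
  have hη0 : ∀ i, η i ≠ 0 := fun i => by
    rw [hη]; simp only; rw [Ne, hπ0]; exact hy i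
  have hmem : ∀ (A : Subalgebra ℂ L), (∀ i, ξ i ∈ A) → (∀ i, η i ∈ A) → ∀ f, π f ∈ A := by
    intro A h1 h2 f
    rw [pi_eq]
    refine sum_mem fun m _ => mul_mem ?_ (prod_mem fun i _ => pow_mem (h2 i) _)
    have h3 : aeval (fun i => π (C (X i))) (f.coeff m) ∈ Algebra.adjoin ℂ (Set.range ξ) := by
      rw [Algebra.adjoin_range_eq_range_aeval]
      exact ⟨f.coeff m, rfl⟩
    have h4 : Algebra.adjoin ℂ (Set.range ξ) ≤ A := by
      apply Algebra.adjoin_le
      rintro _ ⟨i, rfl⟩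
      exact h1 i
    exact h4 h3
  have hgen : IntermediateField.adjoin ℂ (Set.range ξ ∪ Set.range η) = ⊤ := by
    rw [eq_top_iff]
    intro x _
    obtain ⟨r, s, hs, rfl⟩ := IsFractionRing.div_surjective
      (A := MvPolynomial (Fin n) (MvPolynomial (Fin n) ℂ) ⧸ Q) x
    obtain ⟨r, rfl⟩ := Ideal.Quotient.mk_surjective r
    obtain ⟨s, rfl⟩ := Ideal.Quotient.mk_surjective s
    have h1 : ∀ f, π f ∈ (IntermediateField.adjoin ℂ (Set.range ξ ∪ Set.range η)).toSubalgebra :=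
      hmem _ (fun i => IntermediateField.subset_adjoin _ _ (Or.inl ⟨i, rfl⟩))
        (fun i => IntermediateField.subset_adjoin _ _ (Or.inr ⟨i, rfl⟩))
    exact div_mem (h1 r) (h1 s)
  have htr : Algebra.trdeg ℂ L = n := by
    rw [← hdim]
    exact Elim.trdeg_fractionRing
  have hPξ : ∀ c, aeval ξ c = 0 ↔ P ∣ c := by
    intro c
    rw [← hP, ← hπ0, pi_C]
  -- the algebra
  set W : Finset L := Finset.univ.image ξ ∪ Finset.univ.image η ∪ {(π D)⁻¹} with hW
  set A : Subalgebra ℂ L := Algebra.adjoin ℂ (W : Set L) with hA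
  have hAfg : A.FG := Subalgebra.fg_adjoin_finset W
  have hWA : ∀ x ∈ W, x ∈ A := fun x hx => Algebra.subset_adjoin hx
  have hξA : ∀ i, ξ i ∈ A := fun i => hWA _ (by
    rw [hW]
    exact Finset.mem_union_left _ (Finset.mem_union_left _
      (Finset.mem_image_of_mem ξ (Finset.mem_univ i))))
  have hηA : ∀ i, η i ∈ A := fun i => hWA _ (by
    rw [hW]
    exact Finset.mem_union_left _ (Finset.mem_union_right _
      (Finset.mem_image_of_mem η (Finset.mem_univ i))))
  have hDA : (π D)⁻¹ ∈ A := hWA _ (by rw [hW]; simp)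
  have hπA := hmem A hξA hηA
  have hplace : ∃ (a : Fin n → ℤ), a ≠ 0 ∧ NonHyperbolic (lead P) a ∧
      ∃ 𝒪 : ValuationSubring L, (∀ c ∈ IntermediateField.adjoin ℂ (Set.range ξ), c ∈ 𝒪) ∧
        ∀ m : Fin n → ℤ, 𝒪.valuation (∏ i, η i ^ m i) < 1 ↔ 0 < ∑ i, a i * m i := by
    rcases h with ⟨a, ha, hT, hNH⟩ | hall
    · obtain ⟨𝒪, hK, h𝒪⟩ := exists_place_of_trop
        (K := IntermediateField.adjoin ℂ (Set.range ξ)) η hη0 a
        (trop_field π Q hπ0 P hPξ a hT)
      exact ⟨a, ha, hNH, 𝒪, fun c hc => hK ⟨c, hc⟩, h𝒪⟩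
    · rcases isEmpty_or_nonempty (Fin n) with hn | ⟨⟨i₀⟩⟩
      · exfalso
        apply hP0
        have h1 : C P ∈ Q := (hP P).mpr dvd_rfl
        have h2 : P = C (coeff 0 P) := by
          ext m
          rw [Subsingleton.elim m 0]
          simp
        by_contra hP1
        have h3 : coeff 0 P ≠ 0 := by
          intro h4
          rw [h4, C_0] at h2
          exact hP1 h2
        apply hQ.ne_top
        rw [Ideal.eq_top_iff_one]
        have h4 : (1 : MvPolynomial (Fin n) (MvPolynomial (Fin n) ℂ)) =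
            C (C (coeff 0 P)⁻¹) * C P := by
          rw [← C_mul]
          conv_rhs => rw [h2]
          rw [coeff_C, if_pos rfl, ← C_mul, inv_mul_cancel₀ h3, C_1, C_1]
        rw [h4]
        exact Q.mul_mem_left _ h1
      · obtain ⟨l, q, r, e₁, he₁, hfac, hdiv, hgenpt⟩ :=
          exists_generic P (Pi.single i₀ 1) (hall _ (by
            intro h0
            have := congrFun h0 i₀
            simp at this))
        obtain ⟨a, ha, 𝒪, hK, h𝒪⟩ := exists_place' ξ η hη0 hgen htr P hP0 hPξ l hdiv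
        exact ⟨a, ha, hall a ha, 𝒪, hK, h𝒪⟩
  obtain ⟨a, ha, hNH, 𝒪, hK, h𝒪⟩ := hplace
  obtain ⟨ψ, hψM, hψ⟩ := core ξ η hη0 hgen htr P hPξ a ha 𝒪 hK h𝒪 hNH A hAfg hξA hηA M
  set ρ : MvPolynomial (Fin n) (MvPolynomial (Fin n) ℂ) →ₐ[ℂ] ℂ :=
    ψ.comp (π.codRestrict A hπA) with hρ
  have hρ1 : ∀ f, eval (fun i => Complex.exp (ψ ⟨ξ i, hξA i⟩))
      (map (eval fun i => ψ ⟨ξ i, hξA i⟩) f) = ρ f := by
    intro f
    rw [rho_eq ρ f]
    have h1 : (fun i => Complex.exp (ψ ⟨ξ i, hξA i⟩)) = fun i => ρ (X i) := by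
      funext i
      rw [← hψ i]
      rfl
    rw [h1]
    rfl
  refine ⟨fun i => ψ ⟨ξ i, hξA i⟩, hψM, ?_, ?_⟩
  · intro f hf
    rw [hρ1]
    have h1 : π.codRestrict A hπA f = 0 := by
      apply Subtype.ext
      exact (hπ0 f).mpr hf
    rw [hρ, AlgHom.comp_apply, h1, map_zero]
  · rw [hρ1]
    intro hcon
    have h1 : (π.codRestrict A hπA D) * ⟨(π D)⁻¹, hDA⟩ = 1 := by
      apply Subtype.ext
      have h2 : π D ≠ 0 := fun h0 => hD ((hπ0 D).mp h0)
      exact mul_inv_cancel₀ h2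
    have h2 := congrArg ψ h1
    rw [map_mul, map_one] at h2
    rw [hρ, AlgHom.comp_apply] at hcon
    rw [hcon, zero_mul] at h2
    exact zero_ne_one h2

end Pool.Agent.Lib.MP_209724_lc.MV
end
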