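import Mathlib
import Pool.Agent.Lib.MP_209724_lc.MV.Final

/-!
# Exponential points on varieties over a hypersurface

Let `V ⊆ ℂⁿ × (ℂ*)ⁿ` be an irreducible variety of dimension `n` whose projection to `ℂⁿ` is Zariski
dense in a hypersurface `P = 0`; the fibres of the projection are curves in `(ℂ*)ⁿ` which may move
with `x`. If the leading form of `P` is not hyperbolic in some tropical direction of the generic
fibre (for instance if the leading form of `P` has no nonzero real zero), then the points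
`(x, exp x)` of `V` are Zariski dense in `V`.
-/

namespace Pool.Agent.Lib.MP_209724_lc.MV.MovingCurvesHypersurface

open MvPolynomial

variable {n : ℕ}

/-- The leading form of `P` is not hyperbolic in the direction `a`: for some real vector `κ` the
polynomial `s ↦ p(κ + s a)`, `p` the leading form of `P`, is not identically zero and has a
nonreal zero. -/
def NonHyperbolicAlong (P : MvPolynomial (Fin n) ℂ) (a : Fin n → ℤ) : Prop :=
  ∃ κ : Fin n → ℝ,
    (∃ s : ℂ, s.im ≠ 0 ∧
      eval (fun i => κ i + s * a i) (homogeneousComponent P.totalDegree P) = 0) ∧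
    ∃ s : ℂ, eval (fun i => κ i + s * a i) (homogeneousComponent P.totalDegree P) ≠ 0

/-- `a` is a tropical direction of the generic fibre of `V → {P = 0}`: for no `f ∈ Q` is there a
unique exponent `m` minimizing `∑ a i * m i` among the exponents `m` of `y` in `f` whose
coefficient, a polynomial in `x`, does not vanish on `{P = 0}`. -/
def TropicalDirection (Q : Ideal (MvPolynomial (Fin n) (MvPolynomial (Fin n) ℂ)))
    (P : MvPolynomial (Fin n) ℂ) (a : Fin n → ℤ) : Prop :=
  ∀ f ∈ Q, ∀ m, ¬ P ∣ f.coeff m → ∃ m', m' ≠ m ∧ ¬ P ∣ f.coeff m' ∧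
    ∑ i, a i * (m' i : ℤ) ≤ ∑ i, a i * (m i : ℤ)

/-- Let `Q` be a prime ideal of `ℂ[x][y]`, `x = (x₁, …, xₙ)`, `y = (y₁, …, yₙ)`, which contains no
`y i`, such that `ℂ[x][y] ⧸ Q` has transcendence degree `n` and `Q ∩ ℂ[x] = (P)` with `P ≠ 0`.
Suppose that the leading form of `P` is not hyperbolic in some tropical direction `a ≠ 0` of the
generic fibre, or in all directions `a ≠ 0`. Then for every `D ∉ Q` there are `x ∈ ℂⁿ` of
arbitrarily large norm such that `(x, exp x)` is a zero of `Q` and not a zero of `D`. -/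
theorem result (Q : Ideal (MvPolynomial (Fin n) (MvPolynomial (Fin n) ℂ))) (hQ : Q.IsPrime)
    (hy : ∀ i, (X i : MvPolynomial (Fin n) (MvPolynomial (Fin n) ℂ)) ∉ Q)
    (hdim : Algebra.trdeg ℂ (MvPolynomial (Fin n) (MvPolynomial (Fin n) ℂ) ⧸ Q) = n)
    (P : MvPolynomial (Fin n) ℂ) (hP0 : P ≠ 0)
    (hP : ∀ c : MvPolynomial (Fin n) ℂ, C c ∈ Q ↔ P ∣ c)
    (h : (∃ a : Fin n → ℤ, a ≠ 0 ∧ TropicalDirection Q P a ∧ NonHyperbolicAlong P a) ∨
      ∀ a : Fin n → ℤ, a ≠ 0 → NonHyperbolicAlong P a)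
    (D : MvPolynomial (Fin n) (MvPolynomial (Fin n) ℂ)) (hD : D ∉ Q) (M : ℝ) :
    ∃ x : Fin n → ℂ, M < ‖x‖ ∧
      (∀ f ∈ Q, eval (fun i => Complex.exp (x i)) (map (eval x) f) = 0) ∧
      eval (fun i => Complex.exp (x i)) (map (eval x) D) ≠ 0 :=
  have := hQ
  Pool.Agent.Lib.MP_209724_lc.MV.final Q hy hdim P hP0 hP h D hD M

end Pool.Agent.Lib.MP_209724_lc.MV.MovingCurvesHypersurface
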